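import Mathlib
import Pool.Agent.Helper59.BZ.Defs

/-! Project BZ (MP_717513_nt, Buzzard's question), part B: 2-adic analysis of the matrix `U n`.

Definitions. Throughout the project `n`, `q`, `i`, `j`, `m`, `a`, `b`, `k` are natural numbers; the tower is
`Ms 0 = 0, Ms 1 = 1, Ms 2 = 5, Ms 3 = 1029, Ms (s+1) = Ms s + 4 ^ Ms s`; for a level `I` we put
`qq I = Ms I + 1`, `nn I = 2 * qq I + Ms (I+1)` (so `nn I - 2 * qq I = Ms (I+1)`), `hh I = 6 * qq I - 3`.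
`Ae n i j` is the entry of `U n` after conjugation with `diag (64 ^ i)`. -/

set_option autoImplicit false

namespace Pool.Agent.Helper44.BZ

open Finset

/-- binary digit sum -/
def s2 (n : ℕ) : ℕ := (Nat.digits 2 n).sum

/-- the tower 0, 1, 5, 1029, ... -/
def Ms : ℕ → ℕ
  | 0 => 0
  | (s + 1) => Ms s + 4 ^ Ms s

/-- size of the first block -/
def qq (I : ℕ) : ℕ := Ms I + 1

/-- the weight is 4 * nn I -/
def nn (I : ℕ) : ℕ := 2 * qq I + Ms (I + 1)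

/-- the slope -/
def hh (I : ℕ) : ℕ := 6 * qq I - 3

/-- `x` has 2-adic valuation at least `c` (zero is allowed) -/
def VG (c : ℤ) (x : ℚ) : Prop := x = 0 ∨ c ≤ padicValRat 2 x

/-- entry of the matrix of U_2 after scaling with 64 -/
noncomputable def Ae (n i j : ℕ) : ℚ := (64 : ℚ) ^ ((j : ℤ) - (i : ℤ)) * Pool.Agent.Helper59.BZ.Uent n i j

/-- auxiliary factor of R -/
noncomputable def RY (n m j : ℕ) : ℚ :=
  if j ≤ m then 1 else
    (∏ t ∈ range (j - m - 1), (2 * (n : ℚ) - 3 * m - 1 - t)) * (2 * (n : ℚ) - 3 * j)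

/-- lower unitriangular factor -/
noncomputable def Lq (n i m : ℕ) : ℚ :=
  if i < m then 0 else
    2 ^ (i - m) * (∏ t ∈ range (2 * (i - m)), ((n : ℚ) + i - 2 * m - 1 - t)) *
      (∏ t ∈ range (i - m), ((n : ℚ) - 3 * m - t)) /
      ((Nat.factorial (i - m) : ℚ) * (∏ t ∈ range (i - m), (2 * (m : ℚ) + 1 + 2 * t)) *
        (∏ t ∈ range (i - m), ((n : ℚ) - 2 * m - 1 - t)))

/-- upper unitriangular factor -/
noncomputable def Rq (n m j : ℕ) : ℚ :=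
  if j < m then 0 else
    (-2) ^ (j - m) * (∏ t ∈ range (2 * (j - m)), ((j : ℚ) - t)) * RY n m j /
      ((Nat.factorial (j - m) : ℚ) * (∏ t ∈ range (j - m), (2 * (n : ℚ) - 2 * m - 1 - 2 * t)) *
        (∏ t ∈ range (j - m), ((n : ℚ) - 2 * m - 1 - t)))

/-- diagonal factor -/
noncomputable def Dq (n m : ℕ) : ℚ :=
  ∏ t ∈ range m, (-4 * (2 * (n : ℚ) - 3 * t - 1) * (2 * n - 3 * t - 2) * (2 * n - 3 * t - 3) *
    (n - 3 * t) * (n - 3 * t - 1) * (n - 3 * t - 2) /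
    ((2 * t + 1) * (2 * n - 2 * t - 1) * (n - 2 * t) * (n - 2 * t - 1) ^ 2 * (n - 2 * t - 2)))

/-- inverse of L -/
noncomputable def Li (n i m : ℕ) : ℚ :=
  if i < m then 0 else if i = m then 1 else
    (-2) ^ (i - m) * (∏ t ∈ range (2 * (i - m)), ((n : ℚ) - m - t)) * ((n : ℚ) - 3 * m) *
      (∏ t ∈ range (i - m - 1), ((n : ℚ) - m - 2 * i - 1 - t)) /
      ((Nat.factorial (i - m) : ℚ) * (∏ t ∈ range (i - m), (2 * (m : ℚ) + 1 + 2 * t)) *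
        (∏ t ∈ range (i - m), ((n : ℚ) - m - i - t)))

/-- inverse of R -/
noncomputable def Ri (n m j : ℕ) : ℚ :=
  if j < m then 0 else if j = m then 1 else
    2 ^ (j - m) * (∏ t ∈ range (2 * (j - m)), (2 * (j : ℚ) - m - 1 - t)) *
      (∏ t ∈ range (j - m), (2 * (n : ℚ) - m - 2 * j - 1 - t)) /
      ((Nat.factorial (j - m) : ℚ) * (∏ t ∈ range (j - m), (2 * (n : ℚ) - 2 * m - 1 - 2 * t)) *
        (∏ t ∈ range (j - m), ((n : ℚ) - m - j - t)))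

/-- common factor of the terms `Ee`, `Eo` -/
noncomputable def KK (n q a b : ℕ) : ℚ :=
  2 ^ a * (-2) ^ b * (∏ t ∈ range a, ((n : ℚ) - 3 * q - t)) * RY n q (q + b) /
    ((Nat.factorial a : ℚ) * (Nat.factorial b : ℚ) * (∏ t ∈ range a, (2 * (q : ℚ) + 1 + 2 * t)) *
      (∏ t ∈ range b, (2 * (n : ℚ) - 2 * q - 1 - 2 * t)) *
      (∏ t ∈ range a, ((n : ℚ) - 2 * q - 1 - t)) * (∏ t ∈ range b, ((n : ℚ) - 2 * q - 1 - t)))

/-- terms of the transformed sum, version for `q + b` even -/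
noncomputable def Ee (n q a b k : ℕ) : ℚ :=
  KK n q a b * ((n : ℚ) - 2 * q - a) * ((n : ℚ) - 2 * q - b) / (((n : ℚ) - 2 * q) * ((n : ℚ) - 2 * q - a - b)) *
    ((q : ℚ) + b + 2 * a - 1 - 4 * k) *
    (∏ t ∈ range (2 * (a - k)), ((n : ℚ) - q + a - 1 - 2 * k - t)) *
    (∏ t ∈ range (b - k), ((q : ℚ) + b - 1 - 2 * (k + 1 + t))) *
    (∏ t ∈ range (b - k), ((q : ℚ) + b - 2 * t)) * (-2) ^ k *
    (∏ s ∈ range k, ((2 * ((q : ℚ) + a) - 1 - 2 * s) * ((b : ℚ) - 2 * n + 3 * q + 1 + 2 * s))) *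
    (∏ s ∈ range k, (((a : ℚ) - s) * ((b : ℚ) - s))) *
    (∏ s ∈ range k, ((n : ℚ) - 2 * q - a - b + 2 * k - s)) /
    (∏ t ∈ range (k + 1), (2 * ((q : ℚ) + a) - (q + b) - 1 - 2 * t))

/-- terms of the transformed sum, version for `q + b` odd -/
noncomputable def Eo (n q a b k : ℕ) : ℚ :=
  KK n q a b * ((n : ℚ) - 2 * q - a) * ((n : ℚ) - 2 * q - b) / ((n : ℚ) - 2 * q) *
    ((q : ℚ) + b + 2 * a - 4 * k) *
    (∏ t ∈ range (2 * (a - k)), ((n : ℚ) - q + a - 1 - 2 * k - t)) *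
    (∏ t ∈ range (b - k), ((q : ℚ) + b - 2 * (k + 1 + t))) *
    (∏ t ∈ range (b - k), ((q : ℚ) + b - 1 - 2 * t)) * 2 ^ k *
    (∏ s ∈ range k, ((1 - 2 * ((q : ℚ) + a) + 2 * s) * ((b : ℚ) - 2 * n + 3 * q + 2 * s))) *
    (∏ s ∈ range k, (((a : ℚ) - s) * ((b : ℚ) - s))) *
    (if k = 0 then ((n : ℚ) - 2 * q - a - b)⁻¹ else
      ∏ s ∈ range (k - 1), ((n : ℚ) - 2 * q - a - b + 2 * k - 1 - s)) /
    (∏ t ∈ range (k + 1), (2 * ((q : ℚ) + a) - (q + b) - 2 * t))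

/-- the product L_21 L_11^(-1) -/
noncomputable def lam (n q i m : ℕ) : ℚ := ∑ t ∈ Ico m q, Lq n i t * Li n t m

/-- the product R_11^(-1) R_12 -/
noncomputable def rho (n q m j : ℕ) : ℚ := ∑ t ∈ Ico m q, Ri n m t * Rq n t j

/-- Schur complement of the leading q x q block -/
noncomputable def Sc (n q a b : ℕ) : ℚ :=
  ∑ m ∈ range (min a b + 1), Lq n (q + a) (q + m) * Dq n (q + m) * Rq n (q + m) (q + b)

/-- the pattern {Ms 0, ..., Ms I} -/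
def pat (I : ℕ) : Finset ℕ := (range (I + 1)).image Ms

/-- the Hankel matrix mod 2 -/
def Hm (I W : ℕ) : Matrix (Fin W) (Fin W) (ZMod 2) :=
  Matrix.of fun a b => if (a : ℕ) + (b : ℕ) ∈ pat I then 1 else 0

/-- basic expression in digit sums -/
def F0 (I a b : ℕ) : ℤ :=
  2 * ((a : ℤ) + b) + 1 + 2 * I - s2 a - s2 (Ms (I + 1) - a) - s2 (b - 1) - s2 (Ms (I + 1) - b)

/-- lower bound for the valuation of `Ee` -/
def evE (I a b k : ℕ) : ℤ :=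
  F0 I a b + 1 - padicValNat 2 (Ms (I + 1) - a - b) +
    ((s2 (a - k) : ℤ) + s2 (Ms (I + 1) + Ms I - a) - s2 (Ms (I + 1) + Ms I + a - 2 * k)) +
    ((s2 (b - k) : ℤ) + s2 (qq I + 2 * k - b) - s2 (qq I + b)) +
    s2 (Ms (I + 1) - a - b + k) - s2 (Ms (I + 1) - a - b + 2 * k)

/-- lower bound for the valuation of `Eo`, k = 0 -/
def evO0 (I a b : ℕ) : ℤ := F0 I a b - padicValNat 2 (Ms (I + 1) - a - b)

/-- lower bound for the valuation of `Eo`, k > 0 -/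
def evO1 (I a b k : ℕ) : ℤ :=
  F0 I a b - 1 +
    ((s2 (a - k) : ℤ) + s2 (Ms (I + 1) + Ms I - a) - s2 (Ms (I + 1) + Ms I + a - 2 * k)) +
    ((s2 (b - k) : ℤ) + s2 (qq I + 2 * k - 1 - b) - s2 (qq I + b - 1)) +
    s2 (Ms (I + 1) - a - b + k) - s2 (Ms (I + 1) - a - b + 2 * k - 1)

end Pool.Agent.Helper44.BZ
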