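import Mathlib
import Pool.Agent.Helper44.BZ.Defs

/-! Block BZB-VGA. Elementary rules for `VG c x` (x = 0 or padicValRat 2 x >= c).
All are one to five lines from `padicValRat.mul`, `padicValRat.min_le_padicValRat_add`, `padicValRat.of_int`, ... -/

set_option autoImplicit false

namespace Pool.Agent.Helper44.BZ

open Finset

theorem VG_zero (c : ℤ) : VG c 0 := by
  exact Or.inl rfl

theorem VG_mono {c d : ℤ} {x : ℚ} (h : VG c x) (hd : d ≤ c) : VG d x := by
  rcases h with h | h
  · exact Or.inl h
  · exact Or.inr (le_trans hd h)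

theorem VG_add {c : ℤ} {x y : ℚ} (hx : VG c x) (hy : VG c y) : VG c (x + y) := by
  by_cases hxy : x + y = 0
  · exact Or.inl hxy
  · right
    rcases hx with hx | hx
    · subst hx
      rcases hy with hy | hy
      · subst hy
        simp at hxy
      · simpa using hy
    · rcases hy with hy | hy
      · subst hy
        simpa using hx
      · exact le_trans (le_min hx hy) (padicValRat.min_le_padicValRat_add hxy)

theorem VG_neg {c : ℤ} {x : ℚ} (hx : VG c x) : VG c (-x) := by
  rcases hx with hx | hx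
  · exact Or.inl (by simp [hx])
  · exact Or.inr (by rwa [padicValRat.neg])

theorem VG_sub {c : ℤ} {x y : ℚ} (hx : VG c x) (hy : VG c y) : VG c (x - y) := by
  rw [sub_eq_add_neg]
  exact VG_add hx (VG_neg hy)

theorem VG_sum {ι : Type*} {s : Finset ι} {c : ℤ} {f : ι → ℚ} (h : ∀ i ∈ s, VG c (f i)) :
    VG c (∑ i ∈ s, f i) := by
  exact Finset.sum_induction f (VG c) (fun a b ha hb => VG_add ha hb) (VG_zero c) h

theorem VG_mul {c d : ℤ} {x y : ℚ} (hx : VG c x) (hy : VG d y) : VG (c + d) (x * y) := by
  by_cases h1 : x = 0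
  · exact Or.inl (by simp [h1])
  by_cases h2 : y = 0
  · exact Or.inl (by simp [h2])
  rcases hx with hx | hx
  · exact absurd hx h1
  rcases hy with hy | hy
  · exact absurd hy h2
  right
  rw [padicValRat.mul h1 h2]
  linarith

/-- integers have valuation at least 0 -/
theorem VG_int (z : ℤ) : VG 0 (z : ℚ) := by
  right
  rw [padicValRat.of_int]
  exact Int.natCast_nonneg _

theorem VG_nat (z : ℕ) : VG 0 (z : ℚ) := by
  right
  rw [padicValRat.of_nat]
  exact Int.natCast_nonneg _

theorem VG_two_pow (k : ℕ) : VG k ((2 : ℚ) ^ k) := by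
  right
  rw [padicValRat.pow, show ((2 : ℚ)) = ((2 : ℕ) : ℚ) from by norm_num, padicValRat.self (by norm_num)]
  simp

theorem VG_two_zpow (k : ℤ) : VG k ((2 : ℚ) ^ k) := by
  right
  rw [padicValRat.zpow, show ((2 : ℚ)) = ((2 : ℕ) : ℚ) from by norm_num, padicValRat.self (by norm_num)]
  simp

/-- division by a nonzero number of known valuation -/
theorem VG_div {c : ℤ} {x y : ℚ} (hx : VG c x) (hy : y ≠ 0) : VG (c - padicValRat 2 y) (x / y) := by
  by_cases h1 : x = 0
  · exact Or.inl (by simp [h1])
  rcases hx with hx | hx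
  · exact absurd hx h1
  right
  rw [padicValRat.div h1 hy]
  linarith

theorem VG_of_val {c : ℤ} {x : ℚ} (h : c ≤ padicValRat 2 x) : VG c x := by
  exact Or.inr h

/-- natural number in terms of padicValNat -/
theorem VG_nat_val {c : ℕ} {z : ℕ} (h : c ≤ padicValNat 2 z) : VG c (z : ℚ) := by
  right
  rw [padicValRat.of_nat]
  exact_mod_cast h

/-- a nonzero rational of valuation 0 is congruent to 1 mod 2 -/
theorem VG_sub_one {x : ℚ} (hx : x ≠ 0) (h : padicValRat 2 x = 0) : VG 1 (x - 1) := by
  have hd0 : (x.den : ℚ) ≠ 0 := by exact_mod_cast x.den_nz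
  have hn0 : x.num ≠ 0 := Rat.num_ne_zero.mpr hx
  have hv : (padicValInt 2 x.num : ℤ) = (padicValNat 2 x.den : ℤ) := by
    have := h
    unfold padicValRat at this
    omega
  have hcop := x.reduced
  have hden : ¬ 2 ∣ x.den := by
    intro h2
    have h3 : 1 ≤ padicValNat 2 x.den := one_le_padicValNat_of_dvd x.den_nz h2
    have h4 : 1 ≤ padicValInt 2 x.num := by omega
    have h5 : 2 ∣ x.num.natAbs := by
      unfold padicValInt at h4
      exact dvd_of_one_le_padicValNat h4
    have := Nat.dvd_gcd h5 h2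
    rw [hcop] at this
    omega
  have hvd : padicValNat 2 x.den = 0 := padicValNat.eq_zero_of_not_dvd hden
  have hnum : ¬ (2 : ℤ) ∣ x.num := by
    intro h2
    have h5 : 2 ∣ x.num.natAbs := by
      have := Int.natAbs_dvd_natAbs.mpr h2
      simpa using this
    have h6 : 1 ≤ padicValInt 2 x.num := by
      unfold padicValInt
      exact one_le_padicValNat_of_dvd (Int.natAbs_ne_zero.mpr hn0) h5
    omega
  have heq : x - 1 = ((x.num - (x.den : ℤ) : ℤ) : ℚ) / (x.den : ℚ) := by
    push_cast
    rw [sub_div, div_self hd0, Rat.num_div_den]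
  have he : (2 : ℤ) ∣ x.num - (x.den : ℤ) := by omega
  obtain ⟨w, hw⟩ := he
  have hVG : VG 1 ((x.num - (x.den : ℤ) : ℤ) : ℚ) := by
    rw [hw]
    push_cast
    have := VG_mul (VG_two_pow 1) (VG_int w)
    simpa using this
  rw [heq]
  have h7 := VG_div hVG hd0
  have h8 : padicValRat 2 (x.den : ℚ) = 0 := by
    rw [padicValRat.of_nat, hvd]
    rfl
  rw [h8] at h7
  simpa using h7

/-- product of odd integers: nonzero and valuation 0 -/
theorem val_prod_odd {k : ℕ} {f : ℕ → ℤ} (h : ∀ t, t < k → Odd (f t)) :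
    (∏ t ∈ range k, (f t : ℚ)) ≠ 0 ∧ padicValRat 2 (∏ t ∈ range k, (f t : ℚ)) = 0 := by
  induction k with
  | zero => simp
  | succ k ih =>
    obtain ⟨h1, h2⟩ := ih (fun t ht => h t (by omega))
    have ho := h k (by omega)
    have hne : f k ≠ 0 := by
      intro h0
      rw [h0] at ho
      simp at ho
    have hneq : (f k : ℚ) ≠ 0 := by exact_mod_cast hne
    rw [Finset.prod_range_succ]
    refine ⟨mul_ne_zero h1 hneq, ?_⟩
    rw [padicValRat.mul h1 hneq, h2, padicValRat.of_int, padicValInt.eq_zero_of_not_dvd]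
    · simp
    · intro h3
      have h4 : Even (f k) := (even_iff_two_dvd).mpr (by simpa using h3)
      exact (Int.not_even_iff_odd.mpr ho) h4

/-- valuation of a product of natural numbers that are positive -/
theorem val_desc (N k : ℕ) (h : k ≤ N) :
    (∏ t ∈ range k, ((N : ℚ) - t)) = (N.descFactorial k : ℚ) ∧
      (∏ t ∈ range k, ((N : ℚ) - t)) ≠ 0 ∧
      padicValRat 2 (∏ t ∈ range k, ((N : ℚ) - t)) = (k : ℤ) - s2 N + s2 (N - k) := by
  have h1 : ∀ k : ℕ, k ≤ N → (∏ t ∈ range k, ((N : ℚ) - t)) = (N.descFactorial k : ℚ) := by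
    intro k
    induction k with
    | zero => simp
    | succ k ih =>
      intro hk
      rw [Finset.prod_range_succ, ih (by omega), Nat.descFactorial_succ, Nat.cast_mul,
        Nat.cast_sub (by omega : k ≤ N)]
      ring
  have h2 := h1 k h
  have h3 : N.descFactorial k ≠ 0 := by
    intro h0
    rw [Nat.descFactorial_eq_zero_iff_lt] at h0
    omega
  refine ⟨h2, ?_, ?_⟩
  · rw [h2]
    exact_mod_cast h3
  · rw [h2, padicValRat.of_nat]
    have h4 := Nat.factorial_mul_descFactorial h
    have h5 := padicValNat.mul (p := 2) (Nat.factorial_ne_zero (N - k)) h3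
    rw [h4] at h5
    have h6 := sub_one_mul_padicValNat_factorial (p := 2) N
    have h7 := sub_one_mul_padicValNat_factorial (p := 2) (N - k)
    have h8 := Nat.digit_sum_le 2 N
    have h9 := Nat.digit_sum_le 2 (N - k)
    unfold s2
    simp only [Nat.add_one_sub_one, one_mul] at h6 h7
    omega

end Pool.Agent.Helper44.BZ
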