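import Mathlib
import Pool.Agent.Helper44.BZ.Defs
import Pool.Agent.Helper44.BZ.VGA

/-! Block BZB-AEV. Every entry Ae n i j has valuation at least 2i+2j-1.
2i < j: zero. j = 2i: Ae = 64^i, 6i >= 6i-1. Otherwise K = 2i-j >= 1, N = n+i-2j (an integer, possibly negative), the power of 2 is
64^(j-i) 2^(8i-4j-1) = 2^(2i+2j-1), and the rest (2n-3j) * prod_{t<K-1} (N-1-t) / K! is an integer: 2n-3j = N + (N-K), so it is
N(N-1)...(N-K+1)/K! + (N-1)...(N-K)/K!, and a product of K consecutive integers is divisible by K! (Mathlib: `Ring.choose` on ℤ,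
`Int.factorial_coe_dvd_prod` or similar). -/

set_option autoImplicit false

namespace Pool.Agent.Helper44.BZ

open Finset

private theorem AeV_fac (N : ℤ) (K : ℕ) :
    ∃ z : ℤ, ∏ t ∈ range K, (N - t) = (Nat.factorial K : ℤ) * z := by
  refine ⟨Ring.choose N K, ?_⟩
  have h1 := Ring.descPochhammer_eq_factorial_smul_choose N K
  rw [← Polynomial.eval_eq_smeval, descPochhammer_eval_eq_prod_range] at h1
  rw [h1, nsmul_eq_mul]

private theorem AeV_int (N : ℤ) (k : ℕ) :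
    ∃ z : ℤ, (2 * N - (k + 1 : ℕ)) * ∏ t ∈ range k, (N - (t + 1)) =
      (Nat.factorial (k + 1) : ℤ) * z := by
  obtain ⟨z1, h1⟩ := AeV_fac N (k + 1)
  obtain ⟨z2, h2⟩ := AeV_fac (N - 1) (k + 1)
  refine ⟨z1 + z2, ?_⟩
  rw [mul_add, ← h1, ← h2, prod_range_succ' , prod_range_succ]
  have e1 : ∏ t ∈ range k, (N - ((t + 1 : ℕ) : ℤ)) = ∏ t ∈ range k, (N - (t + 1)) := by
    refine prod_congr rfl fun t _ => ?_
    push_cast; ring
  have e2 : ∏ t ∈ range k, (N - 1 - (t : ℤ)) = ∏ t ∈ range k, (N - (t + 1)) := by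
    refine prod_congr rfl fun t _ => ?_
    ring
  rw [e1, e2]
  push_cast
  ring

theorem Ae_VG (n i j : ℕ) : VG (2 * (i : ℤ) + 2 * j - 1) (Ae n i j) := by
  unfold Ae Pool.Agent.Helper59.BZ.Uent
  split_ifs with h1 h2
  · rw [mul_zero]; exact VG_zero _
  · subst h2
    have e : (64 : ℚ) ^ (((2 * i : ℕ) : ℤ) - (i : ℤ)) * 1 = (2 : ℚ) ^ (6 * (i : ℤ)) := by
      rw [show (64 : ℚ) = (2 : ℚ) ^ (6 : ℤ) by norm_num, ← zpow_mul, mul_one]
      congr 1
      push_cast; ring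
    rw [e]
    refine VG_mono (VG_two_zpow _) ?_
    push_cast; omega
  · obtain ⟨k, hk⟩ : ∃ k : ℕ, 2 * i = j + (k + 1) := ⟨2 * i - j - 1, by omega⟩
    have hK : 2 * i - j = k + 1 := by omega
    have hK1 : 2 * i - j - 1 = k := by omega
    have hp : 8 * i - 4 * j - 1 = 4 * k + 3 := by omega
    rw [hp, hK1, hK]
    obtain ⟨z, hz⟩ := AeV_int ((n : ℤ) + i - 2 * j) k
    have hz' : (2 * (n : ℚ) - 3 * (j : ℚ)) *
        (∏ t ∈ Finset.range k, ((n : ℚ) + i - 2 * j - (t + 1))) =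
        (Nat.factorial (k + 1) : ℚ) * z := by
      have h3 := congrArg (fun x : ℤ => (x : ℚ)) hz
      push_cast at h3
      have h4 : (2 * (i : ℚ)) = j + (k + 1) := by exact_mod_cast hk
      have h5 : (2 * (n : ℚ) - 3 * (j : ℚ)) = 2 * ((n : ℚ) + i - 2 * j) - (k + 1) := by
        linear_combination (-1 : ℚ) * h4
      rw [h5, h3]
    have hf : (Nat.factorial (k + 1) : ℚ) ≠ 0 := by
      exact_mod_cast Nat.factorial_ne_zero _
    have e : (64 : ℚ) ^ ((j : ℤ) - (i : ℤ)) * ((-1) ^ j * 2 ^ (4 * k + 3) * (2 * (n : ℚ) - 3 * (j : ℚ)) *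
        (∏ t ∈ Finset.range k, ((n : ℚ) + i - 2 * j - (t + 1))) / (Nat.factorial (k + 1) : ℚ)) =
        (2 : ℚ) ^ (2 * (i : ℤ) + 2 * j - 1) * (((-1) ^ j * z : ℤ) : ℚ) := by
      have e1 : (-1 : ℚ) ^ j * 2 ^ (4 * k + 3) * (2 * (n : ℚ) - 3 * (j : ℚ)) *
          (∏ t ∈ Finset.range k, ((n : ℚ) + i - 2 * j - (t + 1))) / (Nat.factorial (k + 1) : ℚ) =
          (-1) ^ j * 2 ^ (4 * k + 3) * z := by
        rw [mul_assoc, hz']
        field_simp
      have e2 : (64 : ℚ) ^ ((j : ℤ) - (i : ℤ)) * 2 ^ (4 * k + 3) =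
          (2 : ℚ) ^ (2 * (i : ℤ) + 2 * j - 1) := by
        rw [show (64 : ℚ) = (2 : ℚ) ^ (6 : ℤ) by norm_num, ← zpow_mul, ← zpow_natCast,
          ← zpow_add₀ (by norm_num)]
        congr 1
        push_cast
        omega
      rw [e1, ← e2]
      push_cast
      ring
    rw [e]
    have := VG_mul (VG_two_zpow (2 * (i : ℤ) + 2 * j - 1)) (VG_int ((-1) ^ j * z))
    rwa [add_zero] at this

end Pool.Agent.Helper44.BZ
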