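import Mathlib
import Pool.Agent.Helper44.BZ.Defs

/-! Block BZB-BAIE (WZ proof of a Bailey transformation, even version). Notation: i = q+a, j = q+b, d = n-2q, Y = d-a-b.
Put
 Ge(q,a,b,k) = - KK n q a b * (d-k)(Y+k)/(d Y) * prod_{t<2(a-k)} (n-q+a-1-2k-t) * prod_{t<b-k} (j-1-2(k+t)) * prod_{t<b-k} (j-2t)
   * (-2)^k * prod_{s<k} ((2i-1-2s)(b-2n+3q+1+2s)) * prod_{s<k} ((a-s)(b-s)) * prod_{s<k} (Y+2k-s) / prod_{t<k} (2i-j-1-2t).
Step 1. For a, b >= 1 and k <= min a b: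
   Ee n q a b k - (Dq n (q+1)/Dq n q) * Ee n (q+1) (a-1) (b-1) k = Ge(q,a,b,k+1) - Ge(q,a,b,k).   (*)
 Note that d, i, j for (q+1, a-1, b-1) are d-2, i, j, and Y is unchanged.
 Proof of (*): all four terms are multiples of a common product. Useful quotients:
 * D quotient: Dq n (q+1) = Dq n q * (factor t = q).
 * KK n (q+1) (a-1) (b-1) / KK n q a b: powers of two 1/2 * (-1/2); prod (n-3q-t), t<a, against prod (n-3q-3-t), t<a-1:
   (n-2q-i)(n-2q-i-1)/((n-3q)(n-3q-1)(n-3q-2)); RY n (q+1) j / RY n q j = (2n-2q-j)(2n-2q-j-1)/((2n-3q-1)(2n-3q-2)(2n-3q-3)) (also for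
   b = 1); a! / (a-1)! = a, b; (2q+1); (2n-2q-1); prod (d-1-t), t<a against prod (d-3-t), t<a-1: (d-1)(d-2)/(d-a-1), same for b.
   Together with D: (D KK)(q+1,a-1,b-1) / (D KK)(q,a,b) = a b (n-2q-i)(n-2q-i-1)(2n-2q-j)(2n-2q-j-1)(d-2)/(d (d-a-1)(d-b-1)).
 * for the other products write them for (q+1,a-1,b-1,k), (q,a,b,k), (q,a,b,k+1) with the common parts
   prod_{t<2(a-1-k)} (n-q+a-3-2k-t), prod_{t<b-1-k} (j-1-2(k+1+t)), prod_{t<b-1-k} (j-2t), prod_{s<k}(2i-1-2s), prod_{s<k} (Y+2k-s), ...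
   (cases k = min a b separately: then the (q+1)-term and Ge(k+1) vanish, since the product of (a-s)(b-s) contains 0, and (*) reads
   Ee n q a b k = -Ge(q,a,b,k) for k = min a b, immediate).
   After division by the common factor (*) is a polynomial identity in n, q, a, b, k.
Step 2. Sum of (*) over k in range (min a b + 1), multiplied with Dq n q:
   Dq n q * sum_k Ee n q a b k = Dq n (q+1) * sum_k Ee n (q+1) (a-1) (b-1) k - Dq n q * Ge(q,a,b,0), Ge(.., min a b + 1) = 0, and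
   -Ge(q,a,b,0) = Lq n (q+a) q * Rq n q (q+b) (because prod_{t<b}(j-1-2t) * prod_{t<b}(j-2t) = prod_{t<2b} (j-t)).
Step 3. Induction on min a b; if a = 0 or b = 0 only k = 0: Ee n q a b 0 = Lq n (q+a) q * Rq n q (q+b) by the definitions.
The hypothesis `hne` makes the denominators nonzero. Everything was checked by computer (exact rational arithmetic). -/

set_option autoImplicit false

namespace Pool.Agent.Helper44.BZ

open Finset

/-- the certificate -/
private noncomputable def Ge88 (n q a b k : ℕ) : ℚ :=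
  -(KK n q a b * ((n : ℚ) - 2 * q - k) * ((n : ℚ) - 2 * q - a - b + k) /
      (((n : ℚ) - 2 * q) * ((n : ℚ) - 2 * q - a - b)) *
    (∏ t ∈ range (2 * (a - k)), ((n : ℚ) - q + a - 1 - 2 * k - t)) *
    (∏ t ∈ range (b - k), ((q : ℚ) + b - 1 - 2 * (k + t))) *
    (∏ t ∈ range (b - k), ((q : ℚ) + b - 2 * t)) * (-2) ^ k *
    (∏ s ∈ range k, ((2 * ((q : ℚ) + a) - 1 - 2 * s) * ((b : ℚ) - 2 * n + 3 * q + 1 + 2 * s))) *
    (∏ s ∈ range k, (((a : ℚ) - s) * ((b : ℚ) - s))) *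
    (∏ s ∈ range k, ((n : ℚ) - 2 * q - a - b + 2 * k - s)) /
    (∏ t ∈ range k, (2 * ((q : ℚ) + a) - (q + b) - 1 - 2 * t)))

private theorem prod_head88 (f : ℕ → ℚ) (m : ℕ) :
    ∏ t ∈ range (m + 1), f t = f 0 * ∏ t ∈ range m, f (t + 1) := by
  rw [Finset.prod_range_succ', mul_comm]

/-- shift by one of a falling product -/
private theorem fall_one88 (x : ℚ) (m : ℕ) :
    (∏ t ∈ range (m + 1), (x - t)) = x * ∏ t ∈ range m, (x - 1 - t) := by
  rw [prod_head88]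
  simp only [Nat.cast_zero, sub_zero]
  congr 1
  apply Finset.prod_congr rfl
  intro t _
  push_cast
  ring

private theorem fall_last88 (x : ℚ) (m : ℕ) :
    (∏ t ∈ range (m + 1), (x - t)) = (∏ t ∈ range m, (x - t)) * (x - m) := by
  rw [Finset.prod_range_succ]

private theorem fall_two88 (x : ℚ) (m : ℕ) :
    (∏ t ∈ range (m + 2), (x - t)) = x * (x - 1) * ∏ t ∈ range m, (x - 2 - t) := by
  rw [fall_one88, fall_one88, mul_assoc]
  congr 2
  apply Finset.prod_congr rfl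
  intro t _
  ring

/-- step two up: product of length m at x - 2 against length m + 2 -/
private theorem fall_shift2_88 (x : ℚ) (m : ℕ) :
    (∏ t ∈ range m, (x - t)) * ((x - m) * (x - m - 1)) = x * (x - 1) * ∏ t ∈ range m, (x - 2 - t) := by
  rw [← fall_two88, fall_last88, fall_last88]
  push_cast
  ring

/-- cumulative: x(x-1)(x-2) -/
private theorem fall_shift3_88 (x : ℚ) (m : ℕ) :
    (∏ t ∈ range (m + 1), (x - t)) * ((x - m - 1) * (x - m - 2)) =
      x * (x - 1) * (x - 2) * ∏ t ∈ range m, (x - 3 - t) := by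
  rw [fall_one88]
  have h := fall_shift2_88 (x - 1) m
  have e : (∏ t ∈ range m, (x - 1 - 2 - t)) = ∏ t ∈ range m, (x - 3 - t) := by
    apply Finset.prod_congr rfl
    intro t _
    ring
  rw [e] at h
  linear_combination x * h

private theorem RY88 (n q B : ℕ) :
    RY n (q + 1) (q + 1 + B) * ((2 * (n : ℚ) - 3 * q - 1) * (2 * n - 3 * q - 2) * (2 * n - 3 * q - 3)) =
      RY n q (q + (B + 1)) * ((2 * (n : ℚ) - 2 * q - (q + (B + 1))) * (2 * n - 2 * q - (q + (B + 1)) - 1)) := by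
  have h1 : RY n q (q + (B + 1)) =
      (∏ t ∈ range B, (2 * (n : ℚ) - 3 * q - 1 - t)) * (2 * (n : ℚ) - 3 * ((q + (B + 1) : ℕ) : ℚ)) := by
    unfold RY
    rw [if_neg (by omega), show q + (B + 1) - q - 1 = B by omega]
  rw [h1]
  rcases B with _ | C
  · unfold RY
    simp
    ring
  · have h2 : RY n (q + 1) (q + 1 + (C + 1)) =
        (∏ t ∈ range C, (2 * (n : ℚ) - 3 * ((q + 1 : ℕ) : ℚ) - 1 - t)) *
          (2 * (n : ℚ) - 3 * ((q + 1 + (C + 1) : ℕ) : ℚ)) := by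
      unfold RY
      rw [if_neg (by omega), show q + 1 + (C + 1) - (q + 1) - 1 = C by omega]
    rw [h2]
    have h3 := fall_shift3_88 (2 * (n : ℚ) - 3 * q - 1) C
    have e : (∏ t ∈ range C, (2 * (n : ℚ) - 3 * ((q + 1 : ℕ) : ℚ) - 1 - t)) =
        ∏ t ∈ range C, (2 * (n : ℚ) - 3 * q - 1 - 3 - t) := by
      apply Finset.prod_congr rfl
      intro t _
      push_cast
      ring
    rw [e]
    push_cast
    linear_combination (-(2 * (n : ℚ) - 3 * (q + (C + 1 + 1)))) * h3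

private theorem fact88 (m : ℕ) : ((Nat.factorial (m + 1) : ℕ) : ℚ) = ((m : ℚ) + 1) * ((Nat.factorial m : ℕ) : ℚ) := by
  rw [Nat.factorial_succ]
  push_cast
  ring

private theorem KKalg88 (D u v R p1 p2 p3 p4 p5 fA fB a b x x1 y y1 d d1 d2 da db r1 r2 r3 s0 s1 s2 q1 w : ℚ)
    (ha : a ≠ 0) (hb : b ≠ 0) (hx : x ≠ 0) (hx1 : x1 ≠ 0) (hd2 : d2 ≠ 0)
    (hda : da ≠ 0) (hdb : db ≠ 0) (hr1 : r1 ≠ 0) (hr2 : r2 ≠ 0) (hr3 : r3 ≠ 0) :
    (D * (-4 * r1 * r2 * r3 * s0 * s1 * s2 / (q1 * w * d * d1 ^ 2 * d2))) *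
        (u * v * p1 * (R * (y * y1) / (r1 * r2 * r3)) / (fA * fB * p2 * p3 * p4 * p5)) =
      D * (u * 2 * (v * (-2)) * (s0 * s1 * s2 * p1 / (x * x1)) * R /
        ((a * fA) * (b * fB) * (q1 * p2) * (w * p3) * (d1 * d2 * p4 / da) * (d1 * d2 * p5 / db))) *
        (a * b * x * x1 * y * y1 * d2 / (d * da * db)) := by
  have k1 : a * a⁻¹ = 1 := mul_inv_cancel₀ ha
  have k2 : b * b⁻¹ = 1 := mul_inv_cancel₀ hb
  have k3 : x * x⁻¹ = 1 := mul_inv_cancel₀ hx
  have k4 : x1 * x1⁻¹ = 1 := mul_inv_cancel₀ hx1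
  have k5 : d2 * d2⁻¹ = 1 := mul_inv_cancel₀ hd2
  have k6 : da * da⁻¹ = 1 := mul_inv_cancel₀ hda
  have k7 : db * db⁻¹ = 1 := mul_inv_cancel₀ hdb
  have k8 : r1 * r1⁻¹ = 1 := mul_inv_cancel₀ hr1
  have k9 : r2 * r2⁻¹ = 1 := mul_inv_cancel₀ hr2
  have k10 : r3 * r3⁻¹ = 1 := mul_inv_cancel₀ hr3
  simp only [div_eq_mul_inv, mul_inv, inv_inv]
  generalize a⁻¹ = a' at *
  generalize b⁻¹ = b' at *
  generalize x⁻¹ = x' at *
  generalize x1⁻¹ = x1' at *
  generalize d2⁻¹ = d2' at *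
  generalize da⁻¹ = da' at *
  generalize db⁻¹ = db' at *
  generalize r1⁻¹ = r1' at *
  generalize r2⁻¹ = r2' at *
  generalize r3⁻¹ = r3' at *
  generalize fA⁻¹ = fA' at *
  generalize fB⁻¹ = fB' at *
  generalize p2⁻¹ = p2' at *
  generalize p3⁻¹ = p3' at *
  generalize p4⁻¹ = p4' at *
  generalize p5⁻¹ = p5' at *
  generalize q1⁻¹ = q1' at *
  generalize w⁻¹ = w' at *
  generalize d⁻¹ = d' at *
  rw [← inv_pow]
  generalize d1⁻¹ = d1' at *
  have L : (D * (-4 * r1 * r2 * r3 * s0 * s1 * s2 * (q1' * w' * d' * d1' ^ 2 * d2'))) *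
      (u * v * p1 * (R * (y * y1) * (r1' * r2' * r3')) * (fA' * fB' * p2' * p3' * p4' * p5')) =
      (r1 * r1') * (r2 * r2') * (r3 * r3') * (-4 * D * u * v * p1 * R * s0 * s1 * s2 * y * y1 * q1' * w' * d' *
        d1' ^ 2 * d2' * (fA' * fB' * p2' * p3' * p4' * p5')) := by
    ring
  have R' : D * (u * 2 * (v * (-2)) * (s0 * s1 * s2 * p1 * (x' * x1')) * R *
      ((a' * fA') * (b' * fB') * (q1' * p2') * (w' * p3') * (d1' * d2' * p4' * da) * (d1' * d2' * p5' * db))) *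
      (a * b * x * x1 * y * y1 * d2 * (d' * da' * db')) =
      (a * a') * (b * b') * (x * x') * (x1 * x1') * (da * da') * (db * db') * (d2 * d2') *
       (-4 * D * u * v * p1 * R * s0 * s1 * s2 * y * y1 * q1' * w' * d' *
        d1' ^ 2 * d2' * (fA' * fB' * p2' * p3' * p4' * p5')) := by
    ring
  rw [L, R', k1, k2, k3, k4, k5, k6, k7, k8, k9, k10]
  ring

/-- quotient of the common factors -/
private theorem KKq88 (n q A B : ℕ) (hn : 16 * (q + (A + 1) + (B + 1)) + 40 ≤ n) :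
    Dq n (q + 1) * KK n (q + 1) A B =
      Dq n q * KK n q (A + 1) (B + 1) *
        (((A : ℚ) + 1) * (B + 1) * ((n : ℚ) - 3 * q - (A + 1)) * (n - 3 * q - (A + 1) - 1) *
          (2 * n - 3 * q - (B + 1)) * (2 * n - 3 * q - (B + 1) - 1) * (n - 2 * q - 2) /
          ((n - 2 * q) * (n - 2 * q - (A + 1) - 1) * (n - 2 * q - (B + 1) - 1))) := by
  have hN : (16 * ((q : ℚ) + (A + 1) + (B + 1)) + 40) ≤ (n : ℚ) := by exact_mod_cast hn
  have hq0 : (0 : ℚ) ≤ q := Nat.cast_nonneg _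
  have hA0 : (0 : ℚ) ≤ A := Nat.cast_nonneg _
  have hB0 : (0 : ℚ) ≤ B := Nat.cast_nonneg _
  have hD : Dq n (q + 1) = Dq n q * (-4 * (2 * (n : ℚ) - 3 * q - 1) * (2 * n - 3 * q - 2) * (2 * n - 3 * q - 3) *
      (n - 3 * q) * (n - 3 * q - 1) * (n - 3 * q - 2) /
      ((2 * q + 1) * (2 * n - 2 * q - 1) * (n - 2 * q) * (n - 2 * q - 1) ^ 2 * (n - 2 * q - 2))) := by
    unfold Dq
    rw [Finset.prod_range_succ]
  rw [hD]
  -- the products
  set fA : ℚ := ((Nat.factorial A : ℕ) : ℚ) with hfA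
  set fB : ℚ := ((Nat.factorial B : ℕ) : ℚ) with hfB
  have hfA0 : fA ≠ 0 := by
    rw [hfA]; exact_mod_cast Nat.factorial_ne_zero A
  have hfB0 : fB ≠ 0 := by
    rw [hfB]; exact_mod_cast Nat.factorial_ne_zero B
  set p1 : ℚ := ∏ t ∈ range A, ((n : ℚ) - 3 * ((q + 1 : ℕ) : ℚ) - t) with hp1
  set p2 : ℚ := ∏ t ∈ range A, (2 * ((q + 1 : ℕ) : ℚ) + 1 + 2 * t) with hp2
  set p3 : ℚ := ∏ t ∈ range B, (2 * (n : ℚ) - 2 * ((q + 1 : ℕ) : ℚ) - 1 - 2 * t) with hp3
  set p4 : ℚ := ∏ t ∈ range A, ((n : ℚ) - 2 * ((q + 1 : ℕ) : ℚ) - 1 - t) with hp4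
  set p5 : ℚ := ∏ t ∈ range B, ((n : ℚ) - 2 * ((q + 1 : ℕ) : ℚ) - 1 - t) with hp5
  have tA : ∀ t ∈ range A, (t : ℚ) + 1 ≤ A := by
    intro t ht
    have := Finset.mem_range.1 ht
    exact_mod_cast this
  have tB : ∀ t ∈ range B, (t : ℚ) + 1 ≤ B := by
    intro t ht
    have := Finset.mem_range.1 ht
    exact_mod_cast this
  have hp2' : p2 ≠ 0 := by
    rw [hp2]
    apply Finset.prod_ne_zero_iff.2
    intro t ht
    have : (0 : ℚ) ≤ t := Nat.cast_nonneg _
    push_cast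
    apply ne_of_gt
    linarith
  have hp3' : p3 ≠ 0 := by
    rw [hp3]
    apply Finset.prod_ne_zero_iff.2
    intro t ht
    have := tB t ht
    push_cast
    apply ne_of_gt
    linarith
  have hp4' : p4 ≠ 0 := by
    rw [hp4]
    apply Finset.prod_ne_zero_iff.2
    intro t ht
    have := tA t ht
    push_cast
    apply ne_of_gt
    linarith
  have hp5' : p5 ≠ 0 := by
    rw [hp5]
    apply Finset.prod_ne_zero_iff.2
    intro t ht
    have := tB t ht
    push_cast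
    apply ne_of_gt
    linarith
  have c1 : (n : ℚ) - 2 * q ≠ 0 := by apply ne_of_gt; linarith
  have c2 : (n : ℚ) - 2 * q - 1 ≠ 0 := by apply ne_of_gt; linarith
  have c3 : (n : ℚ) - 2 * q - 2 ≠ 0 := by apply ne_of_gt; linarith
  have c4 : 2 * (q : ℚ) + 1 ≠ 0 := by apply ne_of_gt; linarith
  have c5 : 2 * (n : ℚ) - 2 * q - 1 ≠ 0 := by apply ne_of_gt; linarith
  have c6 : (n : ℚ) - 2 * q - (A + 1) - 1 ≠ 0 := by apply ne_of_gt; linarith
  have c7 : (n : ℚ) - 2 * q - (B + 1) - 1 ≠ 0 := by apply ne_of_gt; linarith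
  have c8 : (n : ℚ) - 3 * q - (A + 1) ≠ 0 := by apply ne_of_gt; linarith
  have c9 : (n : ℚ) - 3 * q - (A + 1) - 1 ≠ 0 := by apply ne_of_gt; linarith
  have c10 : 2 * (n : ℚ) - 3 * q - 1 ≠ 0 := by apply ne_of_gt; linarith
  have c11 : 2 * (n : ℚ) - 3 * q - 2 ≠ 0 := by apply ne_of_gt; linarith
  have c12 : 2 * (n : ℚ) - 3 * q - 3 ≠ 0 := by apply ne_of_gt; linarith
  have c13 : (A : ℚ) + 1 ≠ 0 := by apply ne_of_gt; linarith
  have c14 : (B : ℚ) + 1 ≠ 0 := by apply ne_of_gt; linarith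
  -- relations
  have e1 : (∏ t ∈ range (A + 1), ((n : ℚ) - 3 * q - t)) =
      (n - 3 * q) * (n - 3 * q - 1) * (n - 3 * q - 2) * p1 / ((n - 3 * q - (A + 1)) * (n - 3 * q - (A + 1) - 1)) := by
    rw [eq_div_iff (mul_ne_zero c8 c9)]
    have h := fall_shift3_88 ((n : ℚ) - 3 * q) A
    have e : (∏ t ∈ range A, ((n : ℚ) - 3 * q - 3 - t)) = p1 := by
      rw [hp1]
      apply Finset.prod_congr rfl
      intro t _
      push_cast
      ring
    rw [e] at h
    linear_combination h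
  have e2 : (∏ t ∈ range (A + 1), (2 * (q : ℚ) + 1 + 2 * t)) = (2 * q + 1) * p2 := by
    rw [prod_head88, hp2]
    congr 1
    · push_cast; ring
    · apply Finset.prod_congr rfl
      intro t _
      push_cast
      ring
  have e3 : (∏ t ∈ range (B + 1), (2 * (n : ℚ) - 2 * q - 1 - 2 * t)) = (2 * n - 2 * q - 1) * p3 := by
    rw [prod_head88, hp3]
    congr 1
    · push_cast; ring
    · apply Finset.prod_congr rfl
      intro t _
      push_cast
      ring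
  have e4 : (∏ t ∈ range (A + 1), ((n : ℚ) - 2 * q - 1 - t)) =
      (n - 2 * q - 1) * (n - 2 * q - 2) * p4 / (n - 2 * q - (A + 1) - 1) := by
    rw [eq_div_iff c6]
    have h := fall_two88 ((n : ℚ) - 2 * q - 1) A
    rw [fall_last88] at h
    have e : (∏ t ∈ range A, ((n : ℚ) - 2 * q - 1 - 2 - t)) = p4 := by
      rw [hp4]
      apply Finset.prod_congr rfl
      intro t _
      push_cast
      ring
    rw [e] at h
    push_cast at h
    linear_combination h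
  have e5 : (∏ t ∈ range (B + 1), ((n : ℚ) - 2 * q - 1 - t)) =
      (n - 2 * q - 1) * (n - 2 * q - 2) * p5 / (n - 2 * q - (B + 1) - 1) := by
    rw [eq_div_iff c7]
    have h := fall_two88 ((n : ℚ) - 2 * q - 1) B
    rw [fall_last88] at h
    have e : (∏ t ∈ range B, ((n : ℚ) - 2 * q - 1 - 2 - t)) = p5 := by
      rw [hp5]
      apply Finset.prod_congr rfl
      intro t _
      push_cast
      ring
    rw [e] at h
    push_cast at h
    linear_combination h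
  have e6 : RY n (q + 1) (q + 1 + B) =
      RY n q (q + (B + 1)) * ((2 * (n : ℚ) - 2 * q - (q + (B + 1))) * (2 * n - 2 * q - (q + (B + 1)) - 1)) /
        ((2 * (n : ℚ) - 3 * q - 1) * (2 * n - 3 * q - 2) * (2 * n - 3 * q - 3)) := by
    rw [eq_div_iff (mul_ne_zero (mul_ne_zero c10 c11) c12)]
    exact RY88 n q B
  have k1 : KK n q (A + 1) (B + 1) = 2 ^ (A + 1) * (-2) ^ (B + 1) *
      ((n - 3 * q) * (n - 3 * q - 1) * (n - 3 * q - 2) * p1 / ((n - 3 * q - (A + 1)) * (n - 3 * q - (A + 1) - 1))) *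
      RY n q (q + (B + 1)) /
      (((A + 1) * fA) * ((B + 1) * fB) * ((2 * q + 1) * p2) * ((2 * n - 2 * q - 1) * p3) *
        ((n - 2 * q - 1) * (n - 2 * q - 2) * p4 / (n - 2 * q - (A + 1) - 1)) *
        ((n - 2 * q - 1) * (n - 2 * q - 2) * p5 / (n - 2 * q - (B + 1) - 1))) := by
    unfold KK
    rw [e1, e2, e3, e4, e5, fact88, fact88]
  have k2 : KK n (q + 1) A B = 2 ^ A * (-2) ^ B * p1 * RY n (q + 1) (q + 1 + B) /
      (fA * fB * p2 * p3 * p4 * p5) := by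
    unfold KK
    rfl
  rw [k1, k2, e6]
  clear_value p1 p2 p3 p4 p5 fA fB
  generalize RY n q (q + (B + 1)) = R
  generalize Dq n q = D
  rw [pow_succ (2 : ℚ) A, pow_succ (-2 : ℚ) B]
  generalize (2 : ℚ) ^ A = u
  generalize (-2 : ℚ) ^ B = v
  have y0 : 2 * (n : ℚ) - 2 * q - (q + (B + 1)) = 2 * n - 3 * q - (B + 1) := by ring
  rw [y0]
  exact KKalg88 D u v R p1 p2 p3 p4 p5 fA fB (A + 1) (B + 1) _ _ _ _ _ _ _ _ _ _ _ _ _ _ _ _ _
    c13 c14 c8 c9 c3 c6 c7 c10 c11 c12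

private theorem poly88 (n q a b k : ℚ) :
    (n - 2 * q - a) * (n - 2 * q - b) * (q + b + 2 * a - 1 - 4 * k) * ((n - q + a - 1 - 2 * k) * (n - q + a - 1 - 2 * k - 1)) *
        (q + b - 1 - 2 * b) * (q + b - 2 * (b - 1 - k)) -
      (-((n - 3 * q - a) * (n - 3 * q - a - 1) * (2 * n - 3 * q - b) * (q + b + 2 * a - 3 - 4 * k) *
        (b - 2 * n + 3 * q + 1 + 2 * k) * ((a - k) * (b - k)))) =
      2 * (n - 2 * q - k - 1) * ((n - 2 * q - a - b + 2 * k + 2) * (n - 2 * q - a - b + 2 * k + 1)) *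
        (2 * (q + a) - 1 - 2 * k) * (b - 2 * n + 3 * q + 1 + 2 * k) * ((a - k) * (b - k)) -
      (-((n - 2 * q - k) * (n - 2 * q - a - b + k) * ((n - q + a - 1 - 2 * k) * (n - q + a - 1 - 2 * k - 1)) *
        (q + b - 1 - 2 * k) * (q + b - 2 * (b - 1 - k)) * (2 * (q + a) - (q + b) - 1 - 2 * k))) := by
  ring

private theorem T1alg88 (D K P p1 p2 e U M S G g d Y u1 u2 w X1 z1 z2 : ℚ) :
    D * (K * u1 * u2 / (d * Y) * w * (X1 * P) * (p1 * z1) * (p2 * z2) * e * U * M * S / (G * g)) =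
      D * K * P * p1 * p2 * e * U * M * S / (d * Y * (G * g)) * (u1 * u2 * w * X1 * z1 * z2) := by
  rw [div_mul_eq_mul_div, div_mul_eq_mul_div, div_mul_eq_mul_div, div_mul_eq_mul_div, div_mul_eq_mul_div,
    div_mul_eq_mul_div, div_mul_eq_mul_div, div_mul_eq_mul_div, div_div, mul_div_assoc', div_mul_eq_mul_div]
  congr 1
  ring

private theorem T2alg88 (D K P p1 p2 e U M S G g d Y a b x x1 y c ck ak bk da db d2 w : ℚ)
    (ha : a ≠ 0) (hb : b ≠ 0) (hc : c ≠ 0) (hda : da ≠ 0) (hdb : db ≠ 0) (hd2 : d2 ≠ 0) :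
    (D * K * (a * b * x * x1 * y * (-c) * d2 / (d * da * db))) *
        (da * db / (d2 * Y) * w * P * p1 * p2 * e * (U * ck / c) * (M * (ak * bk) / (a * b)) * S / (G * g)) =
      D * K * P * p1 * p2 * e * U * M * S / (d * Y * (G * g)) * (-(x * x1 * y * w * ck * (ak * bk))) := by
  have h1 : a * a⁻¹ = 1 := mul_inv_cancel₀ ha
  have h2 : b * b⁻¹ = 1 := mul_inv_cancel₀ hb
  have h3 : c * c⁻¹ = 1 := mul_inv_cancel₀ hc
  have h4 : da * da⁻¹ = 1 := mul_inv_cancel₀ hda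
  have h5 : db * db⁻¹ = 1 := mul_inv_cancel₀ hdb
  have h6 : d2 * d2⁻¹ = 1 := mul_inv_cancel₀ hd2
  simp only [div_eq_mul_inv, mul_inv]
  generalize a⁻¹ = a' at *
  generalize b⁻¹ = b' at *
  generalize c⁻¹ = c' at *
  generalize da⁻¹ = da' at *
  generalize db⁻¹ = db' at *
  generalize d2⁻¹ = d2' at *
  generalize d⁻¹ = d' at *
  generalize Y⁻¹ = Y' at *
  generalize G⁻¹ = G' at *
  generalize g⁻¹ = g' at *
  have key : D * K * (a * b * x * x1 * y * -c * d2 * (d' * da' * db')) *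
      (da * db * (d2' * Y') * w * P * p1 * p2 * e * (U * ck * c') * (M * (ak * bk) * (a' * b')) * S * (G' * g')) =
      (a * a') * (b * b') * (c * c') * (da * da') * (db * db') * (d2 * d2') *
        (D * K * P * p1 * p2 * e * U * M * S * (d' * Y' * (G' * g')) * -(x * x1 * y * w * ck * (ak * bk))) := by
    ring
  rw [key, h1, h2, h3, h4, h5, h6]
  ring

private theorem T3alg88 (D K P p1 p2 e U M S S1 G g d Y dk Yk y2 i2 ck ak : ℚ)
    (hS : Yk * S1 = y2 * S) :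
    D * -(K * dk * Yk / (d * Y) * P * p1 * p2 * (e * (-2)) * (U * (i2 * ck)) * (M * ak) * S1 / (G * g)) =
      D * K * P * p1 * p2 * e * U * M * S / (d * Y * (G * g)) * (2 * dk * y2 * i2 * ck * ak) := by
  have h : D * -(K * dk * Yk / (d * Y) * P * p1 * p2 * (e * (-2)) * (U * (i2 * ck)) * (M * ak) * S1 / (G * g)) =
    D * K * P * p1 * p2 * e * U * M / (d * Y * (G * g)) * (2 * dk * i2 * ck * ak) * (Yk * S1) := by
    rw [div_mul_eq_mul_div, div_mul_eq_mul_div, div_mul_eq_mul_div, div_mul_eq_mul_div, div_mul_eq_mul_div,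
      div_mul_eq_mul_div, div_mul_eq_mul_div, div_div, mul_neg, mul_div_assoc', div_mul_eq_mul_div,
      div_mul_eq_mul_div, ← neg_div]
    congr 1
    ring
  rw [h, hS]
  rw [div_mul_eq_mul_div, div_mul_eq_mul_div, div_mul_eq_mul_div]
  congr 1
  ring

private theorem T4alg88 (D K P p1 p2 e U M S G g d Y dk Yk X1 z1 z2 : ℚ) (hg : g ≠ 0) :
    D * -(K * dk * Yk / (d * Y) * (X1 * P) * (z1 * p1) * (p2 * z2) * e * U * M * S / G) =
      D * K * P * p1 * p2 * e * U * M * S / (d * Y * (G * g)) * (-(dk * Yk * X1 * z1 * z2 * g)) := by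
  have h : K * dk * Yk / (d * Y) * (X1 * P) * (z1 * p1) * (p2 * z2) * e * U * M * S / G =
    K * dk * Yk / (d * Y) * (X1 * P) * (z1 * p1) * (p2 * z2) * e * U * M * (S * g) / (G * g) := by
    rw [← mul_assoc (K * dk * Yk / (d * Y) * (X1 * P) * (z1 * p1) * (p2 * z2) * e * U * M) S g,
      mul_div_mul_right _ _ hg]
  rw [h]
  rw [div_mul_eq_mul_div, div_mul_eq_mul_div, div_mul_eq_mul_div, div_mul_eq_mul_div, div_mul_eq_mul_div,
    div_mul_eq_mul_div, div_mul_eq_mul_div, div_div, mul_neg, mul_div_assoc', div_mul_eq_mul_div,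
    ← neg_div]
  congr 1
  ring

/-- the telescoping identity -/
private theorem star88 (n q k α β : ℕ) (hn : 16 * (q + (k + α + 1) + (k + β + 1)) + 40 ≤ n)
    (hne : ∀ t : ℕ, t ≤ k → 2 * ((q : ℚ) + ((k + α + 1 : ℕ) : ℚ)) - (q + ((k + β + 1 : ℕ) : ℚ)) - 1 - 2 * t ≠ 0) :
    Dq n q * Ee n q (k + α + 1) (k + β + 1) k - Dq n (q + 1) * Ee n (q + 1) (k + α) (k + β) k =
      Dq n q * Ge88 n q (k + α + 1) (k + β + 1) (k + 1) - Dq n q * Ge88 n q (k + α + 1) (k + β + 1) k := by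
  have hN : (16 * ((q : ℚ) + (k + α + 1) + (k + β + 1)) + 40) ≤ (n : ℚ) := by exact_mod_cast hn
  have hq0 : (0 : ℚ) ≤ q := Nat.cast_nonneg _
  have hk0 : (0 : ℚ) ≤ k := Nat.cast_nonneg _
  have hα0 : (0 : ℚ) ≤ α := Nat.cast_nonneg _
  have hβ0 : (0 : ℚ) ≤ β := Nat.cast_nonneg _
  set a : ℚ := ((k + α + 1 : ℕ) : ℚ) with ha
  set b : ℚ := ((k + β + 1 : ℕ) : ℚ) with hb
  have ha' : a = k + α + 1 := by rw [ha]; push_cast; ring
  have hb' : b = k + β + 1 := by rw [hb]; push_cast; ring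
  have hA : ((k + α : ℕ) : ℚ) = a - 1 := by rw [ha']; push_cast; ring
  have hB : ((k + β : ℕ) : ℚ) = b - 1 := by rw [hb']; push_cast; ring
  -- atoms
  set P : ℚ := ∏ t ∈ range (2 * α), ((n : ℚ) - q + a - 1 - 2 * k - 2 - t) with hP
  set p1 : ℚ := ∏ t ∈ range β, ((q : ℚ) + b - 1 - 2 * (k + 1 + t)) with hp1
  set p2 : ℚ := ∏ t ∈ range β, ((q : ℚ) + b - 2 * t) with hp2
  set U : ℚ := ∏ s ∈ range k, ((2 * ((q : ℚ) + a) - 1 - 2 * s) * (b - 2 * n + 3 * q + 1 + 2 * s)) with hU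
  set M : ℚ := ∏ s ∈ range k, ((a - s) * (b - s)) with hM
  set S : ℚ := ∏ s ∈ range k, ((n : ℚ) - 2 * q - a - b + 2 * k - s) with hS
  set G : ℚ := ∏ t ∈ range k, (2 * ((q : ℚ) + a) - (q + b) - 1 - 2 * t) with hG
  have hG0 : G ≠ 0 := by
    rw [hG]
    apply Finset.prod_ne_zero_iff.2
    intro t ht
    exact hne t (le_of_lt (Finset.mem_range.1 ht))
  have hg0 := hne k le_rfl
  have hc0 : b - 2 * n + 3 * q + 1 ≠ 0 := by
    rw [hb']
    apply ne_of_lt
    linarith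
  have ha0 : a ≠ 0 := by rw [ha']; apply ne_of_gt; linarith
  have hb0 : b ≠ 0 := by rw [hb']; apply ne_of_gt; linarith
  have hda : (n : ℚ) - 2 * q - a - 1 ≠ 0 := by rw [ha']; apply ne_of_gt; linarith
  have hdb : (n : ℚ) - 2 * q - b - 1 ≠ 0 := by rw [hb']; apply ne_of_gt; linarith
  have hd2 : (n : ℚ) - 2 * q - 2 ≠ 0 := by apply ne_of_gt; linarith
  -- product rules
  have rP : (∏ t ∈ range (2 * (k + α + 1 - k)), ((n : ℚ) - q + a - 1 - 2 * k - t)) =
      ((n : ℚ) - q + a - 1 - 2 * k) * (n - q + a - 1 - 2 * k - 1) * P := by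
    rw [show 2 * (k + α + 1 - k) = 2 * α + 2 by omega, fall_two88]
  have rP' : (∏ t ∈ range (2 * (k + α - k)), ((n : ℚ) - ((q + 1 : ℕ) : ℚ) + (a - 1) - 1 - 2 * k - t)) = P := by
    rw [show 2 * (k + α - k) = 2 * α by omega, hP]
    apply Finset.prod_congr rfl
    intro t _
    push_cast
    ring
  have rP'' : (∏ t ∈ range (2 * (k + α + 1 - (k + 1))), ((n : ℚ) - q + a - 1 - 2 * ((k + 1 : ℕ) : ℚ) - t)) = P := by
    rw [show 2 * (k + α + 1 - (k + 1)) = 2 * α by omega, hP]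
    apply Finset.prod_congr rfl
    intro t _
    push_cast
    ring
  have r1 : (∏ t ∈ range (k + β + 1 - k), ((q : ℚ) + b - 1 - 2 * (k + 1 + t))) = p1 * (q + b - 1 - 2 * b) := by
    rw [show k + β + 1 - k = β + 1 by omega, Finset.prod_range_succ, hp1]
    congr 1
    rw [hb']
    ring
  have r1' : (∏ t ∈ range (k + β - k), (((q + 1 : ℕ) : ℚ) + (b - 1) - 1 - 2 * (k + 1 + t))) = p1 := by
    rw [show k + β - k = β by omega, hp1]
    apply Finset.prod_congr rfl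
    intro t _
    push_cast
    ring
  have r1'' : (∏ t ∈ range (k + β + 1 - (k + 1)), ((q : ℚ) + b - 1 - 2 * (((k + 1 : ℕ) : ℚ) + t))) = p1 := by
    rw [show k + β + 1 - (k + 1) = β by omega, hp1]
    apply Finset.prod_congr rfl
    intro t _
    push_cast
    ring
  have r1''' : (∏ t ∈ range (k + β + 1 - k), ((q : ℚ) + b - 1 - 2 * (k + t))) = (q + b - 1 - 2 * k) * p1 := by
    rw [show k + β + 1 - k = β + 1 by omega, prod_head88, hp1]
    congr 1
    · push_cast; ring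
    · apply Finset.prod_congr rfl
      intro t _
      push_cast
      ring
  have r2 : (∏ t ∈ range (k + β + 1 - k), ((q : ℚ) + b - 2 * t)) = p2 * (q + b - 2 * (b - 1 - k)) := by
    rw [show k + β + 1 - k = β + 1 by omega, Finset.prod_range_succ, hp2]
    congr 1
    rw [hb']
    ring
  have r2' : (∏ t ∈ range (k + β - k), (((q + 1 : ℕ) : ℚ) + (b - 1) - 2 * t)) = p2 := by
    rw [show k + β - k = β by omega, hp2]
    apply Finset.prod_congr rfl
    intro t _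
    push_cast
    ring
  have r2'' : (∏ t ∈ range (k + β + 1 - (k + 1)), ((q : ℚ) + b - 2 * t)) = p2 := by
    rw [show k + β + 1 - (k + 1) = β by omega, hp2]
  have rU' : (∏ s ∈ range k, ((2 * (((q + 1 : ℕ) : ℚ) + (a - 1)) - 1 - 2 * s) *
      ((b - 1) - 2 * n + 3 * ((q + 1 : ℕ) : ℚ) + 1 + 2 * s))) =
      U * (b - 2 * n + 3 * q + 1 + 2 * k) / (b - 2 * n + 3 * q + 1) := by
    rw [eq_div_iff hc0, hU, Finset.prod_mul_distrib, Finset.prod_mul_distrib]
    have h1 : (∏ s ∈ range k, (2 * (((q + 1 : ℕ) : ℚ) + (a - 1)) - 1 - 2 * (s : ℚ))) =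
        ∏ s ∈ range k, (2 * ((q : ℚ) + a) - 1 - 2 * s) := by
      apply Finset.prod_congr rfl
      intro t _
      push_cast
      ring
    have h2 : (∏ s ∈ range k, ((b - 1) - 2 * n + 3 * ((q + 1 : ℕ) : ℚ) + 1 + 2 * (s : ℚ))) * (b - 2 * n + 3 * q + 1) =
        (∏ s ∈ range k, (b - 2 * n + 3 * q + 1 + 2 * (s : ℚ))) * (b - 2 * n + 3 * q + 1 + 2 * k) := by
      rw [← Finset.prod_range_succ, prod_head88, mul_comm]
      congr 1
      · push_cast; ring
      · apply Finset.prod_congr rfl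
        intro t _
        push_cast
        ring
    rw [h1]
    linear_combination (∏ s ∈ range k, (2 * ((q : ℚ) + a) - 1 - 2 * s)) * h2
  have rU'' : (∏ s ∈ range (k + 1), ((2 * ((q : ℚ) + a) - 1 - 2 * s) * (b - 2 * n + 3 * q + 1 + 2 * s))) =
      U * ((2 * (q + a) - 1 - 2 * k) * (b - 2 * n + 3 * q + 1 + 2 * k)) := by
    rw [Finset.prod_range_succ]
  have rM' : (∏ s ∈ range k, (((a - 1) - s) * ((b - 1) - s))) = M * ((a - k) * (b - k)) / (a * b) := by
    rw [eq_div_iff (mul_ne_zero ha0 hb0), hM, Finset.prod_mul_distrib, Finset.prod_mul_distrib]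
    have h1 := fall_one88 a k
    rw [fall_last88] at h1
    have h2 := fall_one88 b k
    rw [fall_last88] at h2
    linear_combination (-((∏ t ∈ range k, (b - 1 - (t : ℚ))) * b)) * h1 -
      ((∏ t ∈ range k, (a - (t : ℚ))) * (a - k)) * h2
  have rM'' : (∏ s ∈ range (k + 1), ((a - s) * (b - s))) = M * ((a - k) * (b - k)) := by
    rw [Finset.prod_range_succ]
  have rS' : (∏ s ∈ range k, ((n : ℚ) - 2 * ((q + 1 : ℕ) : ℚ) - (a - 1) - (b - 1) + 2 * k - s)) = S := by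
    rw [hS]
    apply Finset.prod_congr rfl
    intro t _
    push_cast
    ring
  set S1 : ℚ := ∏ s ∈ range (k + 1), ((n : ℚ) - 2 * q - a - b + 2 * ((k + 1 : ℕ) : ℚ) - s) with hS1
  have rS1 : ((n : ℚ) - 2 * q - a - b + ((k + 1 : ℕ) : ℚ)) * S1 =
      ((n - 2 * q - a - b + 2 * k + 2) * (n - 2 * q - a - b + 2 * k + 1)) * S := by
    have h := fall_two88 ((n : ℚ) - 2 * q - a - b + 2 * ((k + 1 : ℕ) : ℚ)) k
    rw [fall_last88] at h
    have e : (∏ t ∈ range k, ((n : ℚ) - 2 * q - a - b + 2 * ((k + 1 : ℕ) : ℚ) - 2 - t)) = S := by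
      rw [hS]
      apply Finset.prod_congr rfl
      intro t _
      push_cast
      ring
    rw [e, ← hS1] at h
    push_cast at h ⊢
    linear_combination h
  have rG : (∏ t ∈ range (k + 1), (2 * ((q : ℚ) + a) - (q + b) - 1 - 2 * t)) =
      G * (2 * (q + a) - (q + b) - 1 - 2 * k) := by
    rw [Finset.prod_range_succ]
  have rG' : (∏ t ∈ range (k + 1), (2 * (((q + 1 : ℕ) : ℚ) + (a - 1)) - (((q + 1 : ℕ) : ℚ) + (b - 1)) - 1 - 2 * (t : ℚ))) =
      G * (2 * (q + a) - (q + b) - 1 - 2 * k) := by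
    rw [← rG]
    apply Finset.prod_congr rfl
    intro t _
    push_cast
    ring
  have hKK := KKq88 n q (k + α) (k + β) hn
  rw [hA, hB] at hKK
  -- the four terms
  have t1 : Dq n q * Ee n q (k + α + 1) (k + β + 1) k =
      Dq n q * KK n q (k + α + 1) (k + β + 1) * P * p1 * p2 * (-2) ^ k * U * M * S /
        ((n - 2 * q) * (n - 2 * q - a - b) * (G * (2 * (q + a) - (q + b) - 1 - 2 * k))) *
      ((n - 2 * q - a) * (n - 2 * q - b) * (q + b + 2 * a - 1 - 4 * k) *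
        ((n - q + a - 1 - 2 * k) * (n - q + a - 1 - 2 * k - 1)) * (q + b - 1 - 2 * b) * (q + b - 2 * (b - 1 - k))) := by
    unfold Ee
    rw [← ha, ← hb, rP, r1, r2, rG]
    exact T1alg88 _ _ _ _ _ _ _ _ _ _ _ _ _ _ _ _ _ _ _
  have t2 : Dq n (q + 1) * Ee n (q + 1) (k + α) (k + β) k =
      Dq n q * KK n q (k + α + 1) (k + β + 1) * P * p1 * p2 * (-2) ^ k * U * M * S /
        ((n - 2 * q) * (n - 2 * q - a - b) * (G * (2 * (q + a) - (q + b) - 1 - 2 * k))) *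
      (-((n - 3 * q - a) * (n - 3 * q - a - 1) * (2 * n - 3 * q - b) * (q + b + 2 * a - 3 - 4 * k) *
        (b - 2 * n + 3 * q + 1 + 2 * k) * ((a - k) * (b - k)))) := by
    have h0 := T2alg88 (Dq n q) (KK n q (k + α + 1) (k + β + 1)) P p1 p2 ((-2) ^ k) U M S G
      (2 * (q + a) - (q + b) - 1 - 2 * k) (n - 2 * q) (n - 2 * q - a - b) a b (n - 3 * q - a) (n - 3 * q - a - 1)
      (2 * n - 3 * q - b) (b - 2 * n + 3 * q + 1) (b - 2 * n + 3 * q + 1 + 2 * k) (a - k) (b - k)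
      (n - 2 * q - a - 1) (n - 2 * q - b - 1) (n - 2 * q - 2) (q + b + 2 * a - 3 - 4 * k)
      ha0 hb0 hc0 hda hdb hd2
    rw [← h0]
    have h1 : Dq n q * KK n q (k + α + 1) (k + β + 1) *
        (a * b * (n - 3 * q - a) * (n - 3 * q - a - 1) * (2 * n - 3 * q - b) * -(b - 2 * n + 3 * q + 1) * (n - 2 * q - 2) /
          ((n - 2 * q) * (n - 2 * q - a - 1) * (n - 2 * q - b - 1))) =
        Dq n (q + 1) * KK n (q + 1) (k + α) (k + β) := by
      rw [hKK]
      congr 2 <;> ring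
    rw [h1]
    unfold Ee
    rw [hA, hB, rP', r1', r2', rU', rM', rS', rG']
    have e1 : (n : ℚ) - 2 * ((q + 1 : ℕ) : ℚ) - (a - 1) = n - 2 * q - a - 1 := by push_cast; ring
    have e2 : (n : ℚ) - 2 * ((q + 1 : ℕ) : ℚ) - (b - 1) = n - 2 * q - b - 1 := by push_cast; ring
    have e3 : (n : ℚ) - 2 * ((q + 1 : ℕ) : ℚ) = n - 2 * q - 2 := by push_cast; ring
    have e4 : (n : ℚ) - 2 * ((q + 1 : ℕ) : ℚ) - (a - 1) - (b - 1) = n - 2 * q - a - b := by push_cast; ring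
    have e5 : ((q + 1 : ℕ) : ℚ) + (b - 1) + 2 * (a - 1) - 1 - 4 * k = q + b + 2 * a - 3 - 4 * k := by push_cast; ring
    rw [e4, e1, e2, e3, e5]
    ring
  have t3 : Dq n q * Ge88 n q (k + α + 1) (k + β + 1) (k + 1) =
      Dq n q * KK n q (k + α + 1) (k + β + 1) * P * p1 * p2 * (-2) ^ k * U * M * S /
        ((n - 2 * q) * (n - 2 * q - a - b) * (G * (2 * (q + a) - (q + b) - 1 - 2 * k))) *
      (2 * (n - 2 * q - k - 1) * ((n - 2 * q - a - b + 2 * k + 2) * (n - 2 * q - a - b + 2 * k + 1)) *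
        (2 * (q + a) - 1 - 2 * k) * (b - 2 * n + 3 * q + 1 + 2 * k) * ((a - k) * (b - k))) := by
    unfold Ge88
    rw [← ha, ← hb, rP'', r1'', r2'', rU'', rM'', ← hS1, rG, pow_succ]
    have e1 : (n : ℚ) - 2 * q - ((k + 1 : ℕ) : ℚ) = n - 2 * q - k - 1 := by push_cast; ring
    rw [e1]
    exact T3alg88 _ _ _ _ _ _ _ _ _ _ _ _ _ _ _ _ _ _ _ _ rS1
  have t4 : Dq n q * Ge88 n q (k + α + 1) (k + β + 1) k =
      Dq n q * KK n q (k + α + 1) (k + β + 1) * P * p1 * p2 * (-2) ^ k * U * M * S /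
        ((n - 2 * q) * (n - 2 * q - a - b) * (G * (2 * (q + a) - (q + b) - 1 - 2 * k))) *
      (-((n - 2 * q - k) * (n - 2 * q - a - b + k) * ((n - q + a - 1 - 2 * k) * (n - q + a - 1 - 2 * k - 1)) *
        (q + b - 1 - 2 * k) * (q + b - 2 * (b - 1 - k)) * (2 * (q + a) - (q + b) - 1 - 2 * k))) := by
    unfold Ge88
    rw [← ha, ← hb, rP, r1''', r2]
    exact T4alg88 _ _ _ _ _ _ _ _ _ _ _ _ _ _ _ _ _ _ hg0
  rw [t1, t2, t3, t4, ← mul_sub, ← mul_sub, poly88]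

private theorem split88 (x : ℚ) (m : ℕ) :
    (∏ t ∈ range (2 * m), (x - t)) =
      (∏ t ∈ range m, (x - 1 - 2 * t)) * (∏ t ∈ range m, (x - 2 * t)) := by
  induction m with
  | zero => simp
  | succ m ih =>
    rw [show 2 * (m + 1) = 2 * m + 1 + 1 by ring, Finset.prod_range_succ, Finset.prod_range_succ, ih,
      Finset.prod_range_succ, Finset.prod_range_succ]
    push_cast
    ring

/-- the bottom value of the certificate -/
private theorem Ge0_88 (n q a b : ℕ) (hn : 16 * (q + a + b) + 40 ≤ n) :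
    -(Ge88 n q a b 0) = Lq n (q + a) q * Rq n q (q + b) := by
  have hN : (16 * ((q : ℚ) + a + b) + 40) ≤ (n : ℚ) := by exact_mod_cast hn
  have hq0 : (0 : ℚ) ≤ q := Nat.cast_nonneg _
  have ha0 : (0 : ℚ) ≤ a := Nat.cast_nonneg _
  have hb0 : (0 : ℚ) ≤ b := Nat.cast_nonneg _
  have hd : (n : ℚ) - 2 * q ≠ 0 := by apply ne_of_gt; linarith
  have hY : (n : ℚ) - 2 * q - a - b ≠ 0 := by apply ne_of_gt; linarith
  have e1 := split88 ((q : ℚ) + b) b
  have e2 : (∏ t ∈ range (2 * a), ((n : ℚ) + ((q + a : ℕ) : ℚ) - 2 * q - 1 - t)) =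
      ∏ t ∈ range (2 * a), ((n : ℚ) - q + a - 1 - t) := by
    apply Finset.prod_congr rfl
    intro t _
    push_cast
    ring
  have e3 : (∏ t ∈ range (2 * (a - 0)), ((n : ℚ) - q + a - 1 - 2 * ((0 : ℕ) : ℚ) - t)) =
      ∏ t ∈ range (2 * a), ((n : ℚ) - q + a - 1 - t) := by
    rw [Nat.sub_zero]
    apply Finset.prod_congr rfl
    intro t _
    push_cast
    ring
  have e4 : (∏ t ∈ range (b - 0), ((q : ℚ) + b - 1 - 2 * (((0 : ℕ) : ℚ) + t))) =
      ∏ t ∈ range b, ((q : ℚ) + b - 1 - 2 * t) := by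
    rw [Nat.sub_zero]
    apply Finset.prod_congr rfl
    intro t _
    push_cast
    ring
  unfold Ge88 Lq Rq KK
  rw [if_neg (by omega), if_neg (by omega), show q + a - q = a by omega, show q + b - q = b by omega, e2, e3, e4,
    Nat.sub_zero]
  have e5 : (∏ t ∈ range (2 * b), (((q + b : ℕ) : ℚ) - t)) =
      (∏ t ∈ range b, ((q : ℚ) + b - 1 - 2 * t)) * (∏ t ∈ range b, ((q : ℚ) + b - 2 * t)) := by
    rw [← e1]
    apply Finset.prod_congr rfl
    intro t _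
    push_cast
    ring
  rw [e5]
  simp only [Finset.range_zero, Finset.prod_empty, Nat.cast_zero, pow_zero, mul_one, div_one, sub_zero, add_zero,
    neg_neg]
  have e6 : ((n : ℚ) - 2 * q) * (n - 2 * q - a - b) / ((n - 2 * q) * (n - 2 * q - a - b)) = 1 :=
    div_self (mul_ne_zero hd hY)
  generalize (∏ t ∈ range (2 * a), ((n : ℚ) - q + a - 1 - t)) = P
  generalize (∏ t ∈ range b, ((q : ℚ) + b - 1 - 2 * t)) = p1
  generalize (∏ t ∈ range b, ((q : ℚ) + b - 2 * t)) = p2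
  generalize (∏ t ∈ range a, ((n : ℚ) - 3 * q - t)) = p3
  generalize (∏ t ∈ range a, (2 * (q : ℚ) + 1 + 2 * t)) = p4
  generalize (∏ t ∈ range b, (2 * (n : ℚ) - 2 * q - 1 - 2 * t)) = p5
  generalize (∏ t ∈ range a, ((n : ℚ) - 2 * q - 1 - t)) = p6
  generalize (∏ t ∈ range b, ((n : ℚ) - 2 * q - 1 - t)) = p7
  generalize RY n q (q + b) = R
  generalize ((Nat.factorial a : ℕ) : ℚ) = fa
  generalize ((Nat.factorial b : ℕ) : ℚ) = fb
  generalize (2 : ℚ) ^ a = u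
  generalize (-2 : ℚ) ^ b = v
  have key : u * v * p3 * R / (fa * fb * p4 * p5 * p6 * p7) * (n - 2 * q) * (n - 2 * q - a - b) /
      ((n - 2 * q) * (n - 2 * q - a - b)) * P * p1 * p2 =
      u * v * p3 * R / (fa * fb * p4 * p5 * p6 * p7) *
        (((n : ℚ) - 2 * q) * (n - 2 * q - a - b) / ((n - 2 * q) * (n - 2 * q - a - b))) * P * p1 * p2 := by
    ring
  rw [key, e6]
  simp only [div_eq_mul_inv, mul_inv]
  ring

/-- the top term -/
private theorem top88 (n q a b k : ℕ) (hn : 16 * (q + a + b) + 40 ≤ n) (hk : k = min a b)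
    (hne : ∀ t : ℕ, t ≤ k → 2 * ((q : ℚ) + a) - (q + b) - 1 - 2 * t ≠ 0) :
    Ee n q a b k = -(Ge88 n q a b k) := by
  have hN : (16 * ((q : ℚ) + a + b) + 40) ≤ (n : ℚ) := by exact_mod_cast hn
  have hka : k ≤ a := by omega
  have hkb : k ≤ b := by omega
  obtain ⟨β, rfl⟩ : ∃ β, b = k + β := ⟨b - k, by omega⟩
  have hg := hne k le_rfl
  have r1 : (∏ t ∈ range β, ((q : ℚ) + ((k + β : ℕ) : ℚ) - 1 - 2 * (k + t))) * (q + ((k + β : ℕ) : ℚ) - 1 - 2 * ((k + β : ℕ) : ℚ)) =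
      (q + ((k + β : ℕ) : ℚ) - 1 - 2 * k) * ∏ t ∈ range β, ((q : ℚ) + ((k + β : ℕ) : ℚ) - 1 - 2 * (k + 1 + t)) := by
    have h1 : (∏ t ∈ range (β + 1), ((q : ℚ) + ((k + β : ℕ) : ℚ) - 1 - 2 * (k + t))) =
        (∏ t ∈ range β, ((q : ℚ) + ((k + β : ℕ) : ℚ) - 1 - 2 * (k + t))) * (q + ((k + β : ℕ) : ℚ) - 1 - 2 * ((k + β : ℕ) : ℚ)) := by
      rw [Finset.prod_range_succ]
      push_cast
      rfl
    rw [← h1, prod_head88]
    congr 1
    · push_cast; ring
    · apply Finset.prod_congr rfl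
      intro t _
      push_cast
      ring
  unfold Ee Ge88
  rw [neg_neg, Finset.prod_range_succ (fun t : ℕ => (2 * ((q : ℚ) + a) - (q + ((k + β : ℕ) : ℚ)) - 1 - 2 * t)),
    show k + β - k = β by omega]
  set b : ℚ := ((k + β : ℕ) : ℚ) with hb
  generalize (∏ t ∈ range (2 * (a - k)), ((n : ℚ) - q + a - 1 - 2 * k - t)) = P
  generalize hp1 : (∏ t ∈ range β, ((q : ℚ) + b - 1 - 2 * (k + t))) = p1 at *
  generalize hp1' : (∏ t ∈ range β, ((q : ℚ) + b - 1 - 2 * (k + 1 + t))) = p1' at *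
  generalize (∏ t ∈ range β, ((q : ℚ) + b - 2 * t)) = p2
  generalize (∏ s ∈ range k, ((2 * ((q : ℚ) + a) - 1 - 2 * s) * (b - 2 * n + 3 * q + 1 + 2 * s))) = U
  generalize (∏ s ∈ range k, (((a : ℚ) - s) * (b - s))) = M
  generalize (∏ s ∈ range k, ((n : ℚ) - 2 * q - a - b + 2 * k - s)) = S
  generalize (∏ t ∈ range k, (2 * ((q : ℚ) + a) - (q + b) - 1 - 2 * t)) = G
  generalize KK n q a (k + β) = K
  generalize (-2 : ℚ) ^ k = e
  -- the key identity
  have key : ((n : ℚ) - 2 * q - a) * (n - 2 * q - b) * (q + b + 2 * a - 1 - 4 * k) * p1' =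
      (n - 2 * q - k) * (n - 2 * q - a - b + k) * p1 * (2 * (q + a) - (q + b) - 1 - 2 * k) := by
    rcases le_total a (k + β) with h | h
    · have hak : k = a := by omega
      have hak' : (a : ℚ) = k := by rw [hak]
      rw [hak']
      have e1 : (q : ℚ) + b + 2 * k - 1 - 4 * k = q + b - 1 - 2 * k := by ring
      have e2 : 2 * ((q : ℚ) + k) - (q + b) - 1 - 2 * k = q + b - 1 - 2 * b := by ring
      rw [e1, e2]
      linear_combination (-(((n : ℚ) - 2 * q - k) * (n - 2 * q - b))) * r1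
    · have hβ : β = 0 := by omega
      have hbk : b = k := by rw [hb, hβ]; simp
      have q1 : p1 = 1 := by rw [← hp1, hβ]; simp
      have q2 : p1' = 1 := by rw [← hp1', hβ]; simp
      rw [q1, q2, hbk]
      ring
  have fin : ∀ x y : ℚ, K * (n - 2 * q - a) * (n - 2 * q - b) / ((n - 2 * q) * (n - 2 * q - a - b)) *
      (q + b + 2 * a - 1 - 4 * k) * P * p1' * p2 * e * U * M * S / (G * x) =
      (((n : ℚ) - 2 * q - a) * (n - 2 * q - b) * (q + b + 2 * a - 1 - 4 * k) * p1') *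
        (K / ((n - 2 * q) * (n - 2 * q - a - b)) * P * p2 * e * U * M * S / G) * x⁻¹ := by
    intro x y
    simp only [div_eq_mul_inv, mul_inv]
    ring
  rw [fin _ 0, key]
  have fin2 : (n - 2 * q - k) * (n - 2 * q - a - b + k) * p1 * (2 * ((q : ℚ) + a) - (q + b) - 1 - 2 * k) *
      (K / ((n - 2 * q) * (n - 2 * q - a - b)) * P * p2 * e * U * M * S / G) *
      (2 * ((q : ℚ) + a) - (q + b) - 1 - 2 * k)⁻¹ =
      ((2 * ((q : ℚ) + a) - (q + b) - 1 - 2 * k) * (2 * ((q : ℚ) + a) - (q + b) - 1 - 2 * k)⁻¹) *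
      ((n - 2 * q - k) * (n - 2 * q - a - b + k) * p1 *
      (K / ((n - 2 * q) * (n - 2 * q - a - b)) * P * p2 * e * U * M * S / G)) := by
    ring
  rw [fin2, mul_inv_cancel₀ hg, one_mul]
  simp only [div_eq_mul_inv, mul_inv]
  ring

private theorem main88 (m : ℕ) : ∀ n q a b : ℕ, min a b = m → 16 * (q + a + b) + 40 ≤ n →
    (∀ t : ℕ, t ≤ min a b → 2 * ((q : ℚ) + a) - (q + b) - 1 - 2 * t ≠ 0) →
    Sc n q a b = Dq n q * ∑ k ∈ range (min a b + 1), Ee n q a b k := by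
  induction m with
  | zero =>
    intro n q a b hm hn hne
    unfold Sc
    rw [hm, zero_add, Finset.sum_range_one, Finset.sum_range_one, add_zero,
      top88 n q a b 0 hn hm.symm (by rw [hm] at hne; exact hne), Ge0_88 n q a b hn]
    ring
  | succ m ih =>
    intro n q a b hm hn hne
    obtain ⟨A, rfl⟩ : ∃ A, a = A + 1 := ⟨a - 1, by omega⟩
    obtain ⟨B, rfl⟩ : ∃ B, b = B + 1 := ⟨b - 1, by omega⟩
    have hm' : min A B = m := by omega
    have h1 := ih n (q + 1) A B hm' (by omega) (by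
      intro t ht
      have := hne t (by omega)
      push_cast at this ⊢
      intro h
      apply this
      linear_combination h)
    have hS : Sc n q (A + 1) (B + 1) = Lq n (q + (A + 1)) q * Dq n q * Rq n q (q + (B + 1)) + Sc n (q + 1) A B := by
      unfold Sc
      rw [show min (A + 1) (B + 1) + 1 = (min A B + 1) + 1 by omega, Finset.sum_range_succ', add_comm]
      congr 1
      apply Finset.sum_congr rfl
      intro t _
      rw [show q + (A + 1) = q + 1 + A by ring, show q + (B + 1) = q + 1 + B by ring,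
        show q + (t + 1) = q + 1 + t by ring]
    have hstar : ∀ k ∈ range (m + 1), Dq n q * Ee n q (A + 1) (B + 1) k - Dq n (q + 1) * Ee n (q + 1) A B k =
        Dq n q * Ge88 n q (A + 1) (B + 1) (k + 1) - Dq n q * Ge88 n q (A + 1) (B + 1) k := by
      intro k hk
      have hk' := Finset.mem_range.1 hk
      obtain ⟨α, rfl⟩ : ∃ α, A = k + α := ⟨A - k, by omega⟩
      obtain ⟨β, rfl⟩ : ∃ β, B = k + β := ⟨B - k, by omega⟩
      exact star88 n q k α β (by omega) (by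
        intro t ht
        exact hne t (by omega))
    have hsum := Finset.sum_congr rfl hstar
    rw [Finset.sum_range_sub (fun k => Dq n q * Ge88 n q (A + 1) (B + 1) k), Finset.sum_sub_distrib,
      ← Finset.mul_sum, ← Finset.mul_sum] at hsum
    have htop := top88 n q (A + 1) (B + 1) (m + 1) hn (by omega) (by
      intro t ht
      exact hne t (by omega))
    rw [hS, h1, hm', hm, Finset.sum_range_succ (fun k => Ee n q (A + 1) (B + 1) k) (m + 1), htop]
    have h0 := Ge0_88 n q (A + 1) (B + 1) hn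
    linear_combination (-(Dq n q)) * h0 - hsum

theorem bailey_even (n q a b : ℕ) (hn : 16 * (q + a + b) + 40 ≤ n)
    (hne : ∀ t : ℕ, t ≤ min a b → 2 * ((q : ℤ) + a) - (q + b) - 1 - 2 * t ≠ 0) :
    Sc n q a b = Dq n q * ∑ k ∈ range (min a b + 1), Ee n q a b k := by
  apply main88 (min a b) n q a b rfl hn
  intro t ht
  have := hne t ht
  exact_mod_cast this

end Pool.Agent.Helper44.BZ
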