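import Mathlib
import Pool.Agent.Helper44.BZ.Defs

/-! Block BZB-BAIO (WZ proof of a Bailey transformation, odd version). Same as Block BZB-BAIE (read its header) with
 Go(q,a,b,k) = - KK n q a b * (d-k)/d * prod_{t<2(a-k)} (n-q+a-1-2k-t) * prod_{t<b-k} (j-2(k+t)) * prod_{t<b-k} (j-1-2t)
   * 2^k * prod_{s<k} ((1-2i+2s)(b-2n+3q+2s)) * prod_{s<k} ((a-s)(b-s)) * prod_{s<k} (Y+2k-1-s) / prod_{t<k} (2i-j-2t)
(i = q+a, j = q+b, d = n-2q, Y = d-a-b). For a, b >= 1 and k <= min a b: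
   Eo n q a b k - (Dq n (q+1)/Dq n q) * Eo n (q+1) (a-1) (b-1) k = Go(q,a,b,k+1) - Go(q,a,b,k),
 with the same quotient (D KK)(q+1,a-1,b-1) / (D KK)(q,a,b) = a b (n-2q-i)(n-2q-i-1)(2n-2q-j)(2n-2q-j-1)(d-2)/(d (d-a-1)(d-b-1)).
 For k = 0 the last factor of Eo is 1/Y, for k >= 1 it is prod_{s<k-1} (Y+2k-1-s) = (Y+2k-1)...(Y+k+1); in both cases
 (Y+k) * (that factor) = prod_{s<k} (Y+2k-1-s), so that Go(k) = - (d-k)(Y+k)(j-2k)(2i-j-2k)/((d-a)(d-b)(q-b)(j+2a-4k)) * Eo formally.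
 Go(k) = 0 for k > min a b, and -Go(0) = Lq n (q+a) q * Rq n q (q+b) because prod_{t<b}(j-2t) * prod_{t<b}(j-1-2t) = prod_{t<2b} (j-t).
 Sum over k, then induction on min a b. Everything was checked by computer (exact rational arithmetic). -/

set_option autoImplicit false

namespace Pool.Agent.Helper44.BZ

open Finset

private theorem shift38 (f : ℕ → ℚ) (m : ℕ) :
    f 0 * ∏ t ∈ range m, f (t + 1) = (∏ t ∈ range m, f t) * f m := by
  rw [mul_comm, ← prod_range_succ', prod_range_succ]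

/-- the certificate -/
private noncomputable def Go38 (n q a b k : ℕ) : ℚ :=
  -(KK n q a b * ((n : ℚ) - 2 * q - k) / ((n : ℚ) - 2 * q) *
    (∏ t ∈ range (2 * (a - k)), ((n : ℚ) - q + a - 1 - 2 * k - t)) *
    (∏ t ∈ range (b - k), ((q : ℚ) + b - 2 * (k + t))) *
    (∏ t ∈ range (b - k), ((q : ℚ) + b - 1 - 2 * t)) * 2 ^ k *
    (∏ s ∈ range k, ((1 - 2 * ((q : ℚ) + a) + 2 * s) * ((b : ℚ) - 2 * n + 3 * q + 2 * s))) *
    (∏ s ∈ range k, (((a : ℚ) - s) * ((b : ℚ) - s))) *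
    (∏ s ∈ range k, ((n : ℚ) - 2 * q - a - b + 2 * k - 1 - s)) /
    (∏ t ∈ range k, (2 * ((q : ℚ) + a) - (q + b) - 2 * t)))

private noncomputable def Yf38 (Y : ℚ) (k : ℕ) : ℚ :=
  if k = 0 then Y⁻¹ else ∏ s ∈ range (k - 1), (Y + 2 * k - 1 - s)

private theorem Yf38_a (Y : ℚ) (hY : Y ≠ 0) (k : ℕ) :
    ∏ s ∈ range k, (Y + 2 * k - 1 - s) = (Y + k) * Yf38 Y k := by
  unfold Yf38
  cases k with
  | zero => simp [hY]
  | succ k =>
    rw [if_neg (by omega), prod_range_succ]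
    simp only [Nat.add_sub_cancel]
    push_cast
    ring

private theorem Yf38_b (Y : ℚ) (hY : Y ≠ 0) (k : ℕ) :
    ∏ s ∈ range (k + 1), (Y + 2 * ((k : ℚ) + 1) - 1 - s) = (Y + 2 * k + 1) * (Y + 2 * k) * Yf38 Y k := by
  unfold Yf38
  cases k with
  | zero =>
    simp [hY]
    ring
  | succ k =>
    rw [if_neg (by omega), prod_range_succ', prod_range_succ']
    simp only [Nat.add_sub_cancel]
    push_cast
    have h : ∏ s ∈ range k, (Y + 2 * ((k : ℚ) + 1 + 1) - 1 - ((s : ℚ) + 1 + 1)) =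
        ∏ s ∈ range k, (Y + 2 * ((k : ℚ) + 1) - 1 - s) := by
      refine prod_congr rfl fun s _ => ?_
      ring
    rw [h]
    ring

private theorem absKK38 (D p N N' R R' fa fb X1 X2 Xa Xa' Xb Xb' a b c1 c2 x y z w v e1 e2 e3 e4 : ℚ)
    (hN : c1 * N' = N * e1) (hR : c2 * R' = R * e2) (hXa : w * v * Xa' = Xa * e3)
    (hXb : w * v * Xb' = Xb * e4) (he1 : e1 ≠ 0) (he2 : e2 ≠ 0) (he3 : e3 ≠ 0) (he4 : e4 ≠ 0)
    (ha : a ≠ 0) (hb : b ≠ 0) (hw : w ≠ 0) (hv : v ≠ 0) (hfa : fa ≠ 0)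
    (hfb : fb ≠ 0) (hX1 : X1 ≠ 0) (hX2 : X2 ≠ 0) (hXa' : Xa' ≠ 0) (hXb' : Xb' ≠ 0)
    (hx : x ≠ 0) (hy : y ≠ 0) (hz : z ≠ 0) :
    D * (-4 * c2 * c1 / (x * y * z * w ^ 2 * v)) * (p * N' * R' / (fa * fb * X1 * X2 * Xa' * Xb')) =
      D * (-4 * p * N * R / ((a * fa) * (b * fb) * (x * X1) * (y * X2) * Xa * Xb)) *
        (a * b * e1 * e2 * v / (z * e3 * e4)) := by
  have h1 : N = c1 * N' / e1 := by rw [hN]; field_simp
  have h2 : R = c2 * R' / e2 := by rw [hR]; field_simp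
  have h3 : Xa = w * v * Xa' / e3 := by rw [hXa]; field_simp
  have h4 : Xb = w * v * Xb' / e4 := by rw [hXb]; field_simp
  rw [h1, h2, h3, h4]
  field_simp

private theorem RY38 (n q b : ℕ) :
    ((2 * (n : ℚ) - 3 * q - 1) * (2 * n - 3 * q - 2) * (2 * n - 3 * q - 3)) * RY n (q + 1) (q + 1 + b) =
      RY n q (q + (b + 1)) * ((2 * (n : ℚ) - 3 * q - (b + 1)) * (2 * n - 3 * q - (b + 1) - 1)) := by
  unfold RY
  rw [if_neg (show ¬ (q + (b + 1) ≤ q) by omega), show q + (b + 1) - q - 1 = b by omega]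
  cases b with
  | zero =>
    rw [if_pos (by omega)]
    simp
    ring
  | succ b =>
    rw [if_neg (by omega), show q + 1 + (b + 1) - (q + 1) - 1 = b by omega]
    have h : ∏ t ∈ range (b + 3), (2 * (n : ℚ) - 3 * q - 1 - t) =
        (2 * (n : ℚ) - 3 * q - 1) * (2 * n - 3 * q - 2) * (2 * n - 3 * q - 3) *
          ∏ t ∈ range b, (2 * (n : ℚ) - 3 * ((q + 1 : ℕ) : ℚ) - 1 - t) := by
      rw [prod_range_succ', prod_range_succ', prod_range_succ']
      push_cast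
      have h2 : ∏ t ∈ range b, (2 * (n : ℚ) - 3 * q - 1 - ((t : ℚ) + 1 + 1 + 1)) =
          ∏ t ∈ range b, (2 * (n : ℚ) - 3 * ((q : ℚ) + 1) - 1 - t) := by
        refine prod_congr rfl fun s _ => ?_
        ring
      rw [h2]
      ring
    have h3 : ∏ t ∈ range (b + 3), (2 * (n : ℚ) - 3 * q - 1 - t) =
        (∏ t ∈ range (b + 1), (2 * (n : ℚ) - 3 * q - 1 - t)) *
          (2 * (n : ℚ) - 3 * q - (b + 1) - 1) * (2 * n - 3 * q - (b + 1) - 2) := by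
      rw [prod_range_succ, prod_range_succ]
      push_cast
      ring
    rw [h] at h3
    push_cast at h3 ⊢
    linear_combination (2 * (n : ℚ) - 3 * (q + (b + 1 + 1))) * h3

private theorem KKr38 (n q a b : ℕ) (hn : 16 * (q + (a + 1) + (b + 1)) + 40 ≤ n) :
    Dq n (q + 1) * KK n (q + 1) a b = Dq n q * KK n q (a + 1) (b + 1) *
      (((a : ℚ) + 1) * ((b : ℚ) + 1) * (((n : ℚ) - 3 * q - (a + 1)) * ((n : ℚ) - 3 * q - (a + 1) - 1)) *
        ((2 * (n : ℚ) - 3 * q - (b + 1)) * (2 * n - 3 * q - (b + 1) - 1)) * ((n : ℚ) - 2 * q - 2) /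
        (((n : ℚ) - 2 * q) * ((n : ℚ) - 2 * q - 1 - (a + 1)) * ((n : ℚ) - 2 * q - 1 - (b + 1)))) := by
  have hc : 16 * ((q : ℚ) + (a + 1) + (b + 1)) + 40 ≤ n := by exact_mod_cast hn
  have hq : (0 : ℚ) ≤ q := by positivity
  have ha : (0 : ℚ) ≤ a := by positivity
  have hb : (0 : ℚ) ≤ b := by positivity
  have hN : (((n : ℚ) - 3 * q) * (n - 3 * q - 1) * (n - 3 * q - 2)) *
      ∏ t ∈ range a, ((n : ℚ) - 3 * ((q + 1 : ℕ) : ℚ) - t) =
      (∏ t ∈ range (a + 1), ((n : ℚ) - 3 * q - t)) *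
        (((n : ℚ) - 3 * q - (a + 1)) * ((n : ℚ) - 3 * q - (a + 1) - 1)) := by
    have h1 : ∏ t ∈ range (a + 3), ((n : ℚ) - 3 * q - t) =
        (((n : ℚ) - 3 * q) * (n - 3 * q - 1) * (n - 3 * q - 2)) *
      ∏ t ∈ range a, ((n : ℚ) - 3 * ((q + 1 : ℕ) : ℚ) - t) := by
      rw [prod_range_succ', prod_range_succ', prod_range_succ']
      push_cast
      have h2 : ∏ t ∈ range a, ((n : ℚ) - 3 * q - ((t : ℚ) + 1 + 1 + 1)) =
          ∏ t ∈ range a, ((n : ℚ) - 3 * ((q : ℚ) + 1) - t) := by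
        refine prod_congr rfl fun s _ => ?_
        ring
      rw [h2]
      ring
    rw [← h1, prod_range_succ, prod_range_succ]
    push_cast
    ring
  have hR := RY38 n q b
  have hX : ∀ c : ℕ, (((n : ℚ) - 2 * q - 1) * (n - 2 * q - 2)) *
      ∏ t ∈ range c, ((n : ℚ) - 2 * ((q + 1 : ℕ) : ℚ) - 1 - t) =
      (∏ t ∈ range (c + 1), ((n : ℚ) - 2 * q - 1 - t)) * ((n : ℚ) - 2 * q - 1 - (c + 1)) := by
    intro c
    have h1 : ∏ t ∈ range (c + 2), ((n : ℚ) - 2 * q - 1 - t) =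
        (((n : ℚ) - 2 * q - 1) * (n - 2 * q - 2)) *
      ∏ t ∈ range c, ((n : ℚ) - 2 * ((q + 1 : ℕ) : ℚ) - 1 - t) := by
      rw [prod_range_succ', prod_range_succ']
      push_cast
      have h2 : ∏ t ∈ range c, ((n : ℚ) - 2 * q - 1 - ((t : ℚ) + 1 + 1)) =
          ∏ t ∈ range c, ((n : ℚ) - 2 * ((q : ℚ) + 1) - 1 - t) := by
        refine prod_congr rfl fun s _ => ?_
        ring
      rw [h2]
      ring
    rw [← h1, prod_range_succ]
    push_cast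
    ring
  have hX1 : ∏ t ∈ range (a + 1), (2 * (q : ℚ) + 1 + 2 * t) =
      (2 * (q : ℚ) + 1) * ∏ t ∈ range a, (2 * ((q + 1 : ℕ) : ℚ) + 1 + 2 * t) := by
    rw [prod_range_succ', mul_comm]
    congr 1
    · push_cast
      ring
    · refine prod_congr rfl fun s _ => ?_
      push_cast
      ring
  have hX2 : ∏ t ∈ range (b + 1), (2 * (n : ℚ) - 2 * q - 1 - 2 * t) =
      (2 * (n : ℚ) - 2 * q - 1) * ∏ t ∈ range b, (2 * (n : ℚ) - 2 * ((q + 1 : ℕ) : ℚ) - 1 - 2 * t) := by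
    rw [prod_range_succ', mul_comm]
    congr 1
    · push_cast
      ring
    · refine prod_congr rfl fun s _ => ?_
      push_cast
      ring
  have hne : ∀ c : ℕ, c ≤ a + b → ∏ t ∈ range c, ((n : ℚ) - 2 * ((q + 1 : ℕ) : ℚ) - 1 - t) ≠ 0 := by
    intro c hcab
    rw [prod_ne_zero_iff]
    intro t ht
    have h1 : (t : ℚ) ≤ a + b := by
      have := mem_range.mp ht
      exact_mod_cast (by omega : t ≤ a + b)
    push_cast
    apply ne_of_gt
    linarith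
  have key := absKK38 (Dq n q) (2 ^ a * (-2) ^ b)
    (∏ t ∈ range (a + 1), ((n : ℚ) - 3 * q - t))
    (∏ t ∈ range a, ((n : ℚ) - 3 * ((q + 1 : ℕ) : ℚ) - t))
    (RY n q (q + (b + 1))) (RY n (q + 1) (q + 1 + b))
    (Nat.factorial a : ℚ) (Nat.factorial b : ℚ)
    (∏ t ∈ range a, (2 * ((q + 1 : ℕ) : ℚ) + 1 + 2 * t))
    (∏ t ∈ range b, (2 * (n : ℚ) - 2 * ((q + 1 : ℕ) : ℚ) - 1 - 2 * t))
    (∏ t ∈ range (a + 1), ((n : ℚ) - 2 * q - 1 - t))
    (∏ t ∈ range a, ((n : ℚ) - 2 * ((q + 1 : ℕ) : ℚ) - 1 - t))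
    (∏ t ∈ range (b + 1), ((n : ℚ) - 2 * q - 1 - t))
    (∏ t ∈ range b, ((n : ℚ) - 2 * ((q + 1 : ℕ) : ℚ) - 1 - t))
    ((a : ℚ) + 1) ((b : ℚ) + 1)
    (((n : ℚ) - 3 * q) * (n - 3 * q - 1) * (n - 3 * q - 2))
    ((2 * (n : ℚ) - 3 * q - 1) * (2 * n - 3 * q - 2) * (2 * n - 3 * q - 3))
    (2 * (q : ℚ) + 1) (2 * (n : ℚ) - 2 * q - 1) ((n : ℚ) - 2 * q) ((n : ℚ) - 2 * q - 1)
    ((n : ℚ) - 2 * q - 2)
    (((n : ℚ) - 3 * q - (a + 1)) * ((n : ℚ) - 3 * q - (a + 1) - 1))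
    ((2 * (n : ℚ) - 3 * q - (b + 1)) * (2 * n - 3 * q - (b + 1) - 1))
    ((n : ℚ) - 2 * q - 1 - (a + 1)) ((n : ℚ) - 2 * q - 1 - (b + 1))
    hN hR (hX a) (hX b)
    (mul_ne_zero (ne_of_gt (by linarith)) (ne_of_gt (by linarith)))
    (mul_ne_zero (ne_of_gt (by linarith)) (ne_of_gt (by linarith)))
    (ne_of_gt (by linarith)) (ne_of_gt (by linarith)) (ne_of_gt (by linarith))
    (ne_of_gt (by linarith)) (ne_of_gt (by linarith)) (ne_of_gt (by linarith))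
    (by positivity) (by positivity)
    (by
      rw [prod_ne_zero_iff]
      intro t _
      positivity)
    (by
      rw [prod_ne_zero_iff]
      intro t ht
      have h1 : (t : ℚ) ≤ b := by
        have := mem_range.mp ht
        exact_mod_cast (by omega : t ≤ b)
      push_cast
      apply ne_of_gt
      linarith)
    (hne a (by omega)) (hne b (by omega))
    (by positivity) (ne_of_gt (by linarith)) (ne_of_gt (by linarith))
  have hD : Dq n (q + 1) = Dq n q * (-4 * ((2 * (n : ℚ) - 3 * q - 1) * (2 * n - 3 * q - 2) *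
      (2 * n - 3 * q - 3)) * (((n : ℚ) - 3 * q) * (n - 3 * q - 1) * (n - 3 * q - 2)) /
      ((2 * (q : ℚ) + 1) * (2 * (n : ℚ) - 2 * q - 1) * ((n : ℚ) - 2 * q) * ((n : ℚ) - 2 * q - 1) ^ 2 *
        ((n : ℚ) - 2 * q - 2))) := by
    unfold Dq
    rw [prod_range_succ]
    congr 1
    congr 1
    ring
  rw [hD]
  have hK1 : KK n (q + 1) a b = 2 ^ a * (-2) ^ b * (∏ t ∈ range a, ((n : ℚ) - 3 * ((q + 1 : ℕ) : ℚ) - t)) *
      RY n (q + 1) (q + 1 + b) / ((Nat.factorial a : ℚ) * (Nat.factorial b : ℚ) *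
      (∏ t ∈ range a, (2 * ((q + 1 : ℕ) : ℚ) + 1 + 2 * t)) *
      (∏ t ∈ range b, (2 * (n : ℚ) - 2 * ((q + 1 : ℕ) : ℚ) - 1 - 2 * t)) *
      (∏ t ∈ range a, ((n : ℚ) - 2 * ((q + 1 : ℕ) : ℚ) - 1 - t)) *
      (∏ t ∈ range b, ((n : ℚ) - 2 * ((q + 1 : ℕ) : ℚ) - 1 - t))) := rfl
  have hK2 : KK n q (a + 1) (b + 1) = -4 * (2 ^ a * (-2) ^ b) *
      (∏ t ∈ range (a + 1), ((n : ℚ) - 3 * q - t)) *
      RY n q (q + (b + 1)) / ((((a : ℚ) + 1) * (Nat.factorial a : ℚ)) * (((b : ℚ) + 1) * (Nat.factorial b : ℚ)) *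
      ((2 * (q : ℚ) + 1) * (∏ t ∈ range a, (2 * ((q + 1 : ℕ) : ℚ) + 1 + 2 * t))) *
      ((2 * (n : ℚ) - 2 * q - 1) * (∏ t ∈ range b, (2 * (n : ℚ) - 2 * ((q + 1 : ℕ) : ℚ) - 1 - 2 * t))) *
      (∏ t ∈ range (a + 1), ((n : ℚ) - 2 * q - 1 - t)) *
      (∏ t ∈ range (b + 1), ((n : ℚ) - 2 * q - 1 - t))) := by
    unfold KK
    rw [hX1, hX2, Nat.factorial_succ, Nat.factorial_succ]
    push_cast
    ring
  rw [hK1, hK2]
  refine key.trans ?_
  congr 1

private theorem LR38 (n q a b : ℕ) (hd : (n : ℚ) - 2 * q ≠ 0) :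
    -Go38 n q a b 0 = Lq n (q + a) q * Rq n q (q + b) := by
  unfold Go38 Lq Rq KK
  rw [if_neg (by omega), if_neg (by omega), show q + a - q = a by omega, show q + b - q = b by omega]
  have h1 : ∏ t ∈ range (2 * a), ((n : ℚ) + ((q + a : ℕ) : ℚ) - 2 * q - 1 - t) =
      ∏ t ∈ range (2 * (a - 0)), ((n : ℚ) - q + a - 1 - 2 * ((0 : ℕ) : ℚ) - t) := by
    rw [Nat.sub_zero]
    refine prod_congr rfl fun s _ => ?_
    push_cast
    ring
  have h2 : ∏ t ∈ range (2 * b), (((q + b : ℕ) : ℚ) - t) =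
      (∏ t ∈ range (b - 0), ((q : ℚ) + b - 2 * (((0 : ℕ) : ℚ) + t))) *
        (∏ t ∈ range (b - 0), ((q : ℚ) + b - 1 - 2 * t)) := by
    rw [Nat.sub_zero]
    have h3 : ∀ c : ℕ, ∏ t ∈ range (2 * c), (((q + b : ℕ) : ℚ) - t) =
      (∏ t ∈ range c, ((q : ℚ) + b - 2 * (((0 : ℕ) : ℚ) + t))) *
        (∏ t ∈ range c, ((q : ℚ) + b - 1 - 2 * t)) := by
      intro c
      induction c with
      | zero => simp
      | succ c ih =>
        rw [show 2 * (c + 1) = 2 * c + 1 + 1 by ring, prod_range_succ, prod_range_succ, ih,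
          prod_range_succ _ c, prod_range_succ _ c]
        push_cast
        ring
    exact h3 b
  rw [h1, h2]
  simp only [prod_range_zero, pow_zero, Nat.cast_zero, sub_zero, div_one, mul_one]
  field_simp

private theorem last38 (n q a b : ℕ) (hn : 16 * (q + a + b) + 40 ≤ n)
    (hne : 2 * ((q : ℚ) + a) - (q + b) - 2 * ((min a b : ℕ) : ℚ) ≠ 0) :
    Eo n q a b (min a b) = -Go38 n q a b (min a b) := by
  have hc : 16 * ((q : ℚ) + a + b) + 40 ≤ n := by exact_mod_cast hn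
  have hq : (0 : ℚ) ≤ q := by positivity
  have ha : (0 : ℚ) ≤ a := by positivity
  have hb : (0 : ℚ) ≤ b := by positivity
  have hY : (n : ℚ) - 2 * q - a - b ≠ 0 := ne_of_gt (by linarith)
  have hd : (n : ℚ) - 2 * q ≠ 0 := ne_of_gt (by linarith)
  set k := min a b with hk
  have hYa := Yf38_a ((n : ℚ) - 2 * q - a - b) hY k
  have hP : ∏ t ∈ range (k + 1), (2 * ((q : ℚ) + a) - (q + b) - 2 * t) =
      (∏ t ∈ range k, (2 * ((q : ℚ) + a) - (q + b) - 2 * t)) *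
        (2 * ((q : ℚ) + a) - (q + b) - 2 * k) := prod_range_succ _ _
  have hYf : (if k = 0 then ((n : ℚ) - 2 * q - a - b)⁻¹ else
      ∏ s ∈ range (k - 1), ((n : ℚ) - 2 * q - a - b + 2 * k - 1 - s)) =
      Yf38 ((n : ℚ) - 2 * q - a - b) k := rfl
  have hsh := shift38 (fun t => (q : ℚ) + b - 2 * ((k : ℚ) + t)) (b - k)
  unfold Eo Go38
  rw [hYf, hYa, hP]
  have hsh2 : ((q : ℚ) + b - 2 * k) * ∏ t ∈ range (b - k), ((q : ℚ) + b - 2 * ((k : ℚ) + 1 + t)) =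
      (∏ t ∈ range (b - k), ((q : ℚ) + b - 2 * ((k : ℚ) + t))) * ((q : ℚ) + b - 2 * b) := by
    have h1 : ∏ t ∈ range (b - k), ((q : ℚ) + b - 2 * ((k : ℚ) + 1 + t)) =
        ∏ t ∈ range (b - k), ((q : ℚ) + b - 2 * ((k : ℚ) + ((t + 1 : ℕ) : ℚ))) := by
      refine prod_congr rfl fun s _ => ?_
      push_cast
      ring
    have h2 : (k : ℚ) + ((b - k : ℕ) : ℚ) = b := by
      have h3 : k + (b - k) = b := by omega
      exact_mod_cast h3
    rw [h1]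
    simp only [Nat.cast_zero, add_zero] at hsh
    rw [h2] at hsh
    exact hsh
  rcases le_total a b with hab | hab
  · have hka : k = a := by omega
    have hkq : (k : ℚ) = a := by exact_mod_cast hka
    have hm : ((q : ℚ) + b + 2 * a - 4 * k) = q + b - 2 * k := by rw [hkq]; ring
    have hm2 : (2 * ((q : ℚ) + a) - (q + b) - 2 * k) = q + b - 2 * b := by rw [hkq]; ring
    rw [hm2] at hne ⊢
    have hm3 : ((n : ℚ) - 2 * q - a - b + k) = n - 2 * q - b := by rw [hkq]; ring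
    have hm4 : ((n : ℚ) - 2 * q - k) = n - 2 * q - a := by rw [hkq]
    rw [hm, hm3, hm4]
    rw [← sub_eq_zero]
    generalize (∏ t ∈ range (2 * (a - k)), ((n : ℚ) - q + a - 1 - 2 * k - t)) = P1
    generalize (∏ t ∈ range (b - k), ((q : ℚ) + b - 2 * ((k : ℚ) + 1 + t))) = P2 at hsh2 ⊢
    generalize (∏ t ∈ range (b - k), ((q : ℚ) + b - 2 * ((k : ℚ) + t))) = P2' at hsh2 ⊢
    generalize (∏ t ∈ range (b - k), ((q : ℚ) + b - 1 - 2 * t)) = P3
    generalize (∏ s ∈ range k, ((1 - 2 * ((q : ℚ) + a) + 2 * s) * ((b : ℚ) - 2 * n + 3 * q + 2 * s))) = U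
    generalize (∏ s ∈ range k, (((a : ℚ) - s) * ((b : ℚ) - s))) = V
    generalize (∏ t ∈ range k, (2 * ((q : ℚ) + a) - (q + b) - 2 * t)) = P7
    generalize Yf38 ((n : ℚ) - 2 * q - a - b) k = Z
    generalize (q : ℚ) + b - 2 * b = m at hne hsh2 ⊢
    have h5 : P7⁻¹ = (P7 * m)⁻¹ * m := by
      rw [mul_inv, mul_assoc, inv_mul_cancel₀ hne, mul_one]
    simp only [div_eq_mul_inv]
    rw [h5]
    linear_combination KK n q a b * ((n : ℚ) - 2 * q - a) * ((n : ℚ) - 2 * q - b) *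
      ((n : ℚ) - 2 * q)⁻¹ * P1 * P3 * 2 ^ k * U * V * Z * (P7 * m)⁻¹ * hsh2
  · have hkb : k = b := by omega
    have hkq : (k : ℚ) = b := by exact_mod_cast hkb
    have hb0 : b - k = 0 := by omega
    rw [hb0]
    simp only [prod_range_zero]
    have hm : ((q : ℚ) + b + 2 * a - 4 * k) = 2 * ((q : ℚ) + a) - (q + b) - 2 * k := by rw [hkq]; ring
    have hm3 : ((n : ℚ) - 2 * q - a - b + k) = n - 2 * q - a := by rw [hkq]; ring
    have hm4 : ((n : ℚ) - 2 * q - k) = n - 2 * q - b := by rw [hkq]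
    rw [hm, hm3, hm4]
    generalize (∏ t ∈ range (2 * (a - k)), ((n : ℚ) - q + a - 1 - 2 * k - t)) = P1
    generalize (∏ s ∈ range k, ((1 - 2 * ((q : ℚ) + a) + 2 * s) * ((b : ℚ) - 2 * n + 3 * q + 2 * s))) = U
    generalize (∏ s ∈ range k, (((a : ℚ) - s) * ((b : ℚ) - s))) = V
    generalize (∏ t ∈ range k, (2 * ((q : ℚ) + a) - (q + b) - 2 * t)) = P7
    generalize Yf38 ((n : ℚ) - 2 * q - a - b) k = Z
    generalize 2 * ((q : ℚ) + a) - (q + b) - 2 * (k : ℚ) = m at hne ⊢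
    have h5 : P7⁻¹ = (P7 * m)⁻¹ * m := by
      rw [mul_inv, mul_assoc, inv_mul_cancel₀ hne, mul_one]
    simp only [div_eq_mul_inv]
    rw [h5]
    ring

private theorem absStep38 (D0 K p1 p2 p3 c U V Z P A B u1 u2 u3 u4 u5 u6 u7 u8 u10 u11 : ℚ)
    (hA : A ≠ 0) (hB : B ≠ 0) (h4 : u4 ≠ 0) (h5 : u5 ≠ 0) (h6 : u6 ≠ 0) (h7 : u7 ≠ 0) :
    D0 * K * (A * B * (u3 * (u3 - 1)) * (u4 * (u4 - 1)) * u7 / (u8 * u5 * u6)) *
      (u5 * u6 / u7 * u2 * p1 * p2 * p3 * c * (-(U * u1 / u4)) * (V * (u10 * u11) / (A * B)) * Z * P) =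
    D0 * (K * p1 * p2 * p3 * c * U * V * Z * P * u8⁻¹) *
      (-(u3 * (u3 - 1) * (u4 - 1)) * u2 * u1 * u10 * u11) := by
  have e : D0 * K * (A * B * (u3 * (u3 - 1)) * (u4 * (u4 - 1)) * u7 / (u8 * u5 * u6)) *
      (u5 * u6 / u7 * u2 * p1 * p2 * p3 * c * (-(U * u1 / u4)) * (V * (u10 * u11) / (A * B)) * Z * P) =
      D0 * (K * p1 * p2 * p3 * c * U * V * Z * P * u8⁻¹) *
      (-(u3 * (u3 - 1) * (u4 - 1)) * u2 * u1 * u10 * u11) *
        ((A * A⁻¹) * (B * B⁻¹) * (u4 * u4⁻¹) * (u5 * u5⁻¹) * (u6 * u6⁻¹) * (u7 * u7⁻¹)) := by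
    simp only [div_eq_mul_inv, mul_inv]
    ring
  rw [e, mul_inv_cancel₀ hA, mul_inv_cancel₀ hB, mul_inv_cancel₀ h4, mul_inv_cancel₀ h5,
    mul_inv_cancel₀ h6, mul_inv_cancel₀ h7]
  ring

private theorem absFin38 (D0 K p1 p2 p3 c U V Z P N Q A B κ u8 : ℚ) :
    D0 * (K * (N - 2 * Q - A) * (N - 2 * Q - B) * u8⁻¹ *
      (Q + B + 2 * A - 4 * κ) * ((N - Q + A - 1 - 2 * κ) * (N - Q + A - 2 - 2 * κ) * p1) *
      (p2 * (Q + B - 2 * B)) * (p3 * (Q + B - 1 - 2 * (B - κ - 1))) * c * U * V * Z * P) -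
      D0 * (K * p1 * p2 * p3 * c * U * V * Z * P * u8⁻¹) *
        (-((N - 3 * Q - A) * (N - 3 * Q - A - 1) * (2 * N - 3 * Q - B - 1)) *
          (Q + B + 2 * A - 2 - 4 * κ) * (B - 2 * N + 3 * Q + 2 * κ) * (A - κ) * (B - κ)) =
      D0 * (-(K * (N - 2 * Q - (κ + 1)) * u8⁻¹ *
      p1 * p2 * p3 * (c * 2) *
      (U * ((1 - 2 * (Q + A) + 2 * κ) * (B - 2 * N + 3 * Q + 2 * κ))) * (V * ((A - κ) * (B - κ))) *
      ((N - 2 * Q - A - B + 2 * κ + 1) * (N - 2 * Q - A - B + 2 * κ) * Z) * P) -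
      -(K * (N - 2 * Q - κ) * u8⁻¹ *
      ((N - Q + A - 1 - 2 * κ) * (N - Q + A - 2 - 2 * κ) * p1) * ((Q + B - 2 * κ) * p2) *
      (p3 * (Q + B - 1 - 2 * (B - κ - 1))) * c * U * V * ((N - 2 * Q - A - B + κ) * Z) *
      (P * (2 * (Q + A) - (Q + B) - 2 * κ)))) := by
  have e : (N - 2 * Q - A) * (N - 2 * Q - B) *
      (Q + B + 2 * A - 4 * κ) * ((N - Q + A - 1 - 2 * κ) * (N - Q + A - 2 - 2 * κ)) *
      (Q + B - 2 * B) * (Q + B - 1 - 2 * (B - κ - 1)) -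
      (-((N - 3 * Q - A) * (N - 3 * Q - A - 1) * (2 * N - 3 * Q - B - 1)) *
          (Q + B + 2 * A - 2 - 4 * κ) * (B - 2 * N + 3 * Q + 2 * κ) * (A - κ) * (B - κ)) =
      (-((N - 2 * Q - (κ + 1)) * 2 *
      ((1 - 2 * (Q + A) + 2 * κ) * (B - 2 * N + 3 * Q + 2 * κ)) * ((A - κ) * (B - κ)) *
      ((N - 2 * Q - A - B + 2 * κ + 1) * (N - 2 * Q - A - B + 2 * κ))) -
      -((N - 2 * Q - κ) *
      ((N - Q + A - 1 - 2 * κ) * (N - Q + A - 2 - 2 * κ)) * (Q + B - 2 * κ) *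
      (Q + B - 1 - 2 * (B - κ - 1)) * (N - 2 * Q - A - B + κ) *
      (2 * (Q + A) - (Q + B) - 2 * κ))) := by
    ring
  linear_combination (D0 * K * p1 * p2 * p3 * c * U * V * Z * P * u8⁻¹) * e

private theorem step38 (n q k x y : ℕ) (hn : 16 * (q + (k + x + 1) + (k + y + 1)) + 40 ≤ n)
    (hne : 2 * ((q : ℚ) + (k + x + 1)) - (q + (k + y + 1)) - 2 * (k : ℚ) ≠ 0) :
    Dq n q * Eo n q (k + x + 1) (k + y + 1) k - Dq n (q + 1) * Eo n (q + 1) (k + x) (k + y) k =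
      Dq n q * (Go38 n q (k + x + 1) (k + y + 1) (k + 1) - Go38 n q (k + x + 1) (k + y + 1) k) := by
  have hc : 16 * ((q : ℚ) + (k + x + 1) + (k + y + 1)) + 40 ≤ n := by exact_mod_cast hn
  have hq : (0 : ℚ) ≤ q := by positivity
  have hk : (0 : ℚ) ≤ k := by positivity
  have hx : (0 : ℚ) ≤ x := by positivity
  have hy : (0 : ℚ) ≤ y := by positivity
  -- abbreviations
  set N : ℚ := (n : ℚ) with hNdef
  set Q : ℚ := (q : ℚ) with hQdef
  set κ : ℚ := (k : ℚ) with hκ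
  set A : ℚ := κ + x + 1 with hA
  set B : ℚ := κ + y + 1 with hB
  have cA : (((k + x + 1 : ℕ)) : ℚ) = A := by push_cast; rw [hA]
  have cB : (((k + y + 1 : ℕ)) : ℚ) = B := by push_cast; rw [hB]
  have cA' : (((k + x : ℕ)) : ℚ) = A - 1 := by push_cast; rw [hA]; ring
  have cB' : (((k + y : ℕ)) : ℚ) = B - 1 := by push_cast; rw [hB]; ring
  have cq : (((q + 1 : ℕ)) : ℚ) = Q + 1 := by push_cast; rfl
  have ck : (((k + 1 : ℕ)) : ℚ) = κ + 1 := by push_cast; rfl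
  have hd : N - 2 * Q ≠ 0 := ne_of_gt (by linarith)
  have hd2 : N - 2 * Q - 2 ≠ 0 := ne_of_gt (by linarith)
  have hda : N - 2 * Q - 1 - A ≠ 0 := ne_of_gt (by linarith)
  have hdb : N - 2 * Q - 1 - B ≠ 0 := ne_of_gt (by linarith)
  have hY : N - 2 * Q - A - B ≠ 0 := ne_of_gt (by linarith)
  have hbn : B - 2 * N + 3 * Q ≠ 0 := ne_of_lt (by linarith)
  have hA0 : A ≠ 0 := ne_of_gt (by linarith)
  have hB0 : B ≠ 0 := ne_of_gt (by linarith)
  -- the products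
  set K := KK n q (k + x + 1) (k + y + 1) with hK
  set p1 : ℚ := ∏ t ∈ range (2 * x), (N - Q + A - 3 - 2 * κ - t) with hp1
  set p2 : ℚ := ∏ t ∈ range y, (Q + B - 2 * (κ + 1 + t)) with hp2
  set p3 : ℚ := ∏ t ∈ range y, (Q + B - 1 - 2 * t) with hp3
  set U : ℚ := ∏ s ∈ range k, ((1 - 2 * (Q + A) + 2 * s) * (B - 2 * N + 3 * Q + 2 * s)) with hU
  set V : ℚ := ∏ s ∈ range k, ((A - s) * (B - s)) with hV
  set Z : ℚ := Yf38 (N - 2 * Q - A - B) k with hZ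
  set P7 : ℚ := ∏ t ∈ range (k + 1), (2 * (Q + A) - (Q + B) - 2 * t) with hP7
  have e1 : ∏ t ∈ range (2 * x + 2), (N - Q + A - 1 - 2 * κ - t) =
      (N - Q + A - 1 - 2 * κ) * (N - Q + A - 2 - 2 * κ) * p1 := by
    rw [prod_range_succ', prod_range_succ']
    push_cast
    have h2 : ∏ t ∈ range (2 * x), (N - Q + A - 1 - 2 * κ - ((t : ℚ) + 1 + 1)) = p1 := by
      rw [hp1]
      refine prod_congr rfl fun s _ => ?_
      ring
    rw [h2]
    ring
  have e2 : ∏ t ∈ range (y + 1), (Q + B - 2 * (κ + 1 + t)) = p2 * (Q + B - 2 * B) := by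
    rw [prod_range_succ]
    congr 1
    rw [hB]
    ring
  have e2' : ∏ t ∈ range (y + 1), (Q + B - 2 * (κ + t)) = (Q + B - 2 * κ) * p2 := by
    rw [prod_range_succ', mul_comm]
    congr 1
    · push_cast
      ring
    · rw [hp2]
      refine prod_congr rfl fun s _ => ?_
      push_cast
      ring
  have e3 : ∏ t ∈ range (y + 1), (Q + B - 1 - 2 * t) = p3 * (Q + B - 1 - 2 * (B - κ - 1)) := by
    rw [prod_range_succ]
    congr 1
    rw [hB]
    ring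
  have e4 : ∏ s ∈ range (k + 1), ((1 - 2 * (Q + A) + 2 * s) * (B - 2 * N + 3 * Q + 2 * s)) =
      U * ((1 - 2 * (Q + A) + 2 * κ) * (B - 2 * N + 3 * Q + 2 * κ)) := prod_range_succ _ _
  have e4' : ∏ s ∈ range k, ((1 - 2 * ((Q + 1) + (A - 1)) + 2 * s) *
      ((B - 1) - 2 * N + 3 * (Q + 1) + 2 * s)) =
      U * (B - 2 * N + 3 * Q + 2 * κ) / (B - 2 * N + 3 * Q) := by
    rw [eq_div_iff hbn, hU]
    have h1 := shift38 (fun t => B - 2 * N + 3 * Q + 2 * (t : ℚ)) k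
    simp only [Nat.cast_zero, mul_zero, add_zero] at h1
    rw [prod_mul_distrib, prod_mul_distrib]
    have h2 : ∏ s ∈ range k, ((B - 1) - 2 * N + 3 * (Q + 1) + 2 * (s : ℚ)) =
        ∏ t ∈ range k, (B - 2 * N + 3 * Q + 2 * ((t + 1 : ℕ) : ℚ)) := by
      refine prod_congr rfl fun s _ => ?_
      push_cast
      ring
    have h3 : ∏ s ∈ range k, (1 - 2 * ((Q + 1) + (A - 1)) + 2 * (s : ℚ)) =
        ∏ s ∈ range k, (1 - 2 * (Q + A) + 2 * (s : ℚ)) := by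
      refine prod_congr rfl fun s _ => ?_
      ring
    rw [h2, h3]
    linear_combination (∏ s ∈ range k, (1 - 2 * (Q + A) + 2 * (s : ℚ))) * h1
  have e5 : ∏ s ∈ range (k + 1), ((A - s) * (B - s)) = V * ((A - κ) * (B - κ)) := prod_range_succ _ _
  have e5' : ∏ s ∈ range k, ((A - 1 - s) * (B - 1 - s)) = V * ((A - κ) * (B - κ)) / (A * B) := by
    rw [eq_div_iff (mul_ne_zero hA0 hB0), hV]
    have h1 := shift38 (fun t => (A - t) * (B - (t : ℚ))) k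
    simp only [Nat.cast_zero, sub_zero] at h1
    have h2 : ∏ s ∈ range k, ((A - 1 - s) * (B - 1 - (s : ℚ))) =
        ∏ t ∈ range k, ((A - ((t + 1 : ℕ) : ℚ)) * (B - ((t + 1 : ℕ) : ℚ))) := by
      refine prod_congr rfl fun s _ => ?_
      push_cast
      ring
    rw [h2]
    linear_combination h1
  have e6 : ∏ s ∈ range k, (N - 2 * Q - A - B + 2 * κ - 1 - s) = (N - 2 * Q - A - B + κ) * Z :=
    Yf38_a _ hY k
  have e6' : ∏ s ∈ range (k + 1), (N - 2 * Q - A - B + 2 * (κ + 1) - 1 - s) =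
      (N - 2 * Q - A - B + 2 * κ + 1) * (N - 2 * Q - A - B + 2 * κ) * Z := Yf38_b _ hY k
  have e7 : (∏ t ∈ range k, (2 * (Q + A) - (Q + B) - 2 * (t : ℚ)))⁻¹ =
      P7⁻¹ * (2 * (Q + A) - (Q + B) - 2 * κ) := by
    rw [hP7, prod_range_succ, mul_inv, mul_assoc, inv_mul_cancel₀ hne, mul_one]
  have E1 : Eo n q (k + x + 1) (k + y + 1) k = K * (N - 2 * Q - A) * (N - 2 * Q - B) / (N - 2 * Q) *
      (Q + B + 2 * A - 4 * κ) * ((N - Q + A - 1 - 2 * κ) * (N - Q + A - 2 - 2 * κ) * p1) *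
      (p2 * (Q + B - 2 * B)) * (p3 * (Q + B - 1 - 2 * (B - κ - 1))) * 2 ^ k * U * V * Z / P7 := by
    unfold Eo
    rw [show k + x + 1 - k = x + 1 by omega, show k + y + 1 - k = y + 1 by omega,
      show 2 * (x + 1) = 2 * x + 2 by ring, cA, cB, ← e1, ← e2, ← e3]
    rfl
  have E2 : Eo n (q + 1) (k + x) (k + y) k = KK n (q + 1) (k + x) (k + y) *
      (N - 2 * Q - 1 - A) * (N - 2 * Q - 1 - B) / (N - 2 * Q - 2) *
      (Q + B + 2 * A - 2 - 4 * κ) * p1 * p2 * p3 * 2 ^ k *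
      (U * (B - 2 * N + 3 * Q + 2 * κ) / (B - 2 * N + 3 * Q)) *
      (V * ((A - κ) * (B - κ)) / (A * B)) * Z / P7 := by
    unfold Eo
    rw [show k + x - k = x by omega, show k + y - k = y by omega, cA', cB', cq, e4', e5']
    have g1 : ∏ t ∈ range (2 * x), (N - (Q + 1) + (A - 1) - 1 - 2 * κ - t) = p1 := by
      rw [hp1]
      refine prod_congr rfl fun s _ => ?_
      ring
    have g2 : ∏ t ∈ range y, (Q + 1 + (B - 1) - 2 * (κ + 1 + t)) = p2 := by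
      rw [hp2]
      refine prod_congr rfl fun s _ => ?_
      ring
    have g3 : ∏ t ∈ range y, (Q + 1 + (B - 1) - 1 - 2 * (t : ℚ)) = p3 := by
      rw [hp3]
      refine prod_congr rfl fun s _ => ?_
      ring
    have g6 : (if k = 0 then (N - 2 * (Q + 1) - (A - 1) - (B - 1))⁻¹ else
        ∏ s ∈ range (k - 1), (N - 2 * (Q + 1) - (A - 1) - (B - 1) + 2 * κ - 1 - s)) = Z := by
      rw [hZ]
      have : N - 2 * (Q + 1) - (A - 1) - (B - 1) = N - 2 * Q - A - B := by ring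
      rw [this]
      rfl
    have g7 : ∏ t ∈ range (k + 1), (2 * (Q + 1 + (A - 1)) - (Q + 1 + (B - 1)) - 2 * (t : ℚ)) = P7 := by
      rw [hP7]
      refine prod_congr rfl fun s _ => ?_
      ring
    rw [g1, g2, g3, g6, g7]
    have g8 : N - 2 * (Q + 1) - (A - 1) = N - 2 * Q - 1 - A := by ring
    have g9 : N - 2 * (Q + 1) - (B - 1) = N - 2 * Q - 1 - B := by ring
    have g10 : N - 2 * (Q + 1) = N - 2 * Q - 2 := by ring
    have g11 : Q + 1 + (B - 1) + 2 * (A - 1) - 4 * κ = Q + B + 2 * A - 2 - 4 * κ := by ring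
    rw [g8, g9, g10, g11]
  have G1 : Go38 n q (k + x + 1) (k + y + 1) k = -(K * (N - 2 * Q - κ) / (N - 2 * Q) *
      ((N - Q + A - 1 - 2 * κ) * (N - Q + A - 2 - 2 * κ) * p1) * ((Q + B - 2 * κ) * p2) *
      (p3 * (Q + B - 1 - 2 * (B - κ - 1))) * 2 ^ k * U * V * ((N - 2 * Q - A - B + κ) * Z) *
      (P7⁻¹ * (2 * (Q + A) - (Q + B) - 2 * κ))) := by
    unfold Go38
    rw [show k + x + 1 - k = x + 1 by omega, show k + y + 1 - k = y + 1 by omega,
      show 2 * (x + 1) = 2 * x + 2 by ring, cA, cB, ← e1, ← e2', ← e3, ← e6, ← e7, div_eq_mul_inv _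
        (∏ t ∈ range k, (2 * (Q + A) - (Q + B) - 2 * (t : ℚ)))]
  have G2 : Go38 n q (k + x + 1) (k + y + 1) (k + 1) = -(K * (N - 2 * Q - (κ + 1)) / (N - 2 * Q) *
      p1 * p2 * p3 * 2 ^ (k + 1) *
      (U * ((1 - 2 * (Q + A) + 2 * κ) * (B - 2 * N + 3 * Q + 2 * κ))) * (V * ((A - κ) * (B - κ))) *
      ((N - 2 * Q - A - B + 2 * κ + 1) * (N - 2 * Q - A - B + 2 * κ) * Z) / P7) := by
    unfold Go38
    rw [show k + x + 1 - (k + 1) = x by omega, show k + y + 1 - (k + 1) = y by omega, cA, cB, ck,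
      e4, e5, e6']
    have g1 : ∏ t ∈ range (2 * x), (N - Q + A - 1 - 2 * (κ + 1) - t) = p1 := by
      rw [hp1]
      refine prod_congr rfl fun s _ => ?_
      ring
    rw [g1]
  have hKK := KKr38 n q (k + x) (k + y) (by omega)
  rw [cA', cB', ← hNdef, ← hQdef] at hKK
  have hKK2 : Dq n (q + 1) * KK n (q + 1) (k + x) (k + y) = Dq n q * K *
      (A * B * ((N - 3 * Q - A) * (N - 3 * Q - A - 1)) *
        ((2 * N - 3 * Q - B) * (2 * N - 3 * Q - B - 1)) * (N - 2 * Q - 2) /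
        ((N - 2 * Q) * (N - 2 * Q - 1 - A) * (N - 2 * Q - 1 - B))) := by
    rw [hKK, hK]
    have g1 : A - 1 + 1 = A := by ring
    have g2 : B - 1 + 1 = B := by ring
    rw [g1, g2]
  rw [E1, E2, G1, G2]
  have hE2 : Dq n (q + 1) * (KK n (q + 1) (k + x) (k + y) *
      (N - 2 * Q - 1 - A) * (N - 2 * Q - 1 - B) / (N - 2 * Q - 2) *
      (Q + B + 2 * A - 2 - 4 * κ) * p1 * p2 * p3 * 2 ^ k *
      (U * (B - 2 * N + 3 * Q + 2 * κ) / (B - 2 * N + 3 * Q)) *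
      (V * ((A - κ) * (B - κ)) / (A * B)) * Z / P7) =
      Dq n q * (K * p1 * p2 * p3 * 2 ^ k * U * V * Z * P7⁻¹ * (N - 2 * Q)⁻¹) *
        (-((N - 3 * Q - A) * (N - 3 * Q - A - 1) * (2 * N - 3 * Q - B - 1)) *
          (Q + B + 2 * A - 2 - 4 * κ) * (B - 2 * N + 3 * Q + 2 * κ) * (A - κ) * (B - κ)) := by
    have h1 : Dq n (q + 1) * (KK n (q + 1) (k + x) (k + y) *
      (N - 2 * Q - 1 - A) * (N - 2 * Q - 1 - B) / (N - 2 * Q - 2) *
      (Q + B + 2 * A - 2 - 4 * κ) * p1 * p2 * p3 * 2 ^ k *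
      (U * (B - 2 * N + 3 * Q + 2 * κ) / (B - 2 * N + 3 * Q)) *
      (V * ((A - κ) * (B - κ)) / (A * B)) * Z / P7) =
      (Dq n (q + 1) * KK n (q + 1) (k + x) (k + y)) * (
      (N - 2 * Q - 1 - A) * (N - 2 * Q - 1 - B) / (N - 2 * Q - 2) *
      (Q + B + 2 * A - 2 - 4 * κ) * p1 * p2 * p3 * 2 ^ k *
      (U * (B - 2 * N + 3 * Q + 2 * κ) / (B - 2 * N + 3 * Q)) *
      (V * ((A - κ) * (B - κ)) / (A * B)) * Z * P7⁻¹) := by
      simp only [div_eq_mul_inv]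
      ring
    rw [h1, hKK2]
    have hbn2 : 2 * N - 3 * Q - B ≠ 0 := fun h => hbn (by linarith)
    have h2 : B - 2 * N + 3 * Q = -(2 * N - 3 * Q - B) := by ring
    have h3 : U * (B - 2 * N + 3 * Q + 2 * κ) / (B - 2 * N + 3 * Q) =
        -(U * (B - 2 * N + 3 * Q + 2 * κ) / (2 * N - 3 * Q - B)) := by
      rw [h2, div_neg]
    rw [h3]
    exact absStep38 (Dq n q) K p1 p2 p3 (2 ^ k) U V Z P7⁻¹ A B (B - 2 * N + 3 * Q + 2 * κ)
      (Q + B + 2 * A - 2 - 4 * κ) (N - 3 * Q - A) (2 * N - 3 * Q - B) (N - 2 * Q - 1 - A)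
      (N - 2 * Q - 1 - B) (N - 2 * Q - 2) (N - 2 * Q) (A - κ) (B - κ) hA0 hB0 hbn2 hda hdb hd2
  rw [hE2]
  have hfin := absFin38 (Dq n q) K p1 p2 p3 (2 ^ k) U V Z P7⁻¹ N Q A B κ (N - 2 * Q)
  simp only [div_eq_mul_inv, pow_succ] at hfin ⊢
  exact hfin

private theorem zero38 (n q a b : ℕ) : Eo n (q + 1) a b (min a b + 1) = 0 := by
  unfold Eo
  have h : ∏ s ∈ range (min a b + 1), (((a : ℚ) - s) * ((b : ℚ) - s)) = 0 := by
    rw [prod_eq_zero_iff]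
    refine ⟨min a b, by simp, ?_⟩
    rcases le_total a b with hab | hab
    · rw [min_eq_left hab]; simp
    · rw [min_eq_right hab]; simp
  rw [h]
  simp

private theorem castne38 (q a b t : ℕ) (h : 2 * ((q : ℤ) + a) - (q + b) - 2 * t ≠ 0) :
    2 * ((q : ℚ) + a) - (q + b) - 2 * (t : ℚ) ≠ 0 := by
  intro h0
  apply h
  exact_mod_cast h0

private theorem sum38 (n q a b : ℕ) (hn : 16 * (q + (a + 1) + (b + 1)) + 40 ≤ n)
    (hne : ∀ t : ℕ, t ≤ min (a + 1) (b + 1) →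
      2 * ((q : ℤ) + (a + 1 : ℕ)) - (q + (b + 1 : ℕ)) - 2 * t ≠ 0) :
    Dq n q * ∑ k ∈ range (min (a + 1) (b + 1) + 1), Eo n q (a + 1) (b + 1) k =
      Dq n (q + 1) * (∑ k ∈ range (min a b + 1), Eo n (q + 1) a b k) +
        Dq n q * (Lq n (q + (a + 1)) q * Rq n q (q + (b + 1))) := by
  have hmin : min (a + 1) (b + 1) = min a b + 1 := by omega
  have hc : 16 * ((q : ℚ) + (a + 1) + (b + 1)) + 40 ≤ n := by exact_mod_cast hn
  have hq : (0 : ℚ) ≤ q := by positivity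
  have ha : (0 : ℚ) ≤ a := by positivity
  have hb : (0 : ℚ) ≤ b := by positivity
  rw [← LR38 n q (a + 1) (b + 1) (ne_of_gt (by linarith)), hmin]
  have h1 : ∀ m : ℕ, m ≤ min a b + 1 →
      Dq n q * (∑ k ∈ range m, Eo n q (a + 1) (b + 1) k) -
        Dq n (q + 1) * (∑ k ∈ range m, Eo n (q + 1) a b k) =
        Dq n q * (Go38 n q (a + 1) (b + 1) m - Go38 n q (a + 1) (b + 1) 0) := by
    intro m
    induction m with
    | zero => intro _; simp
    | succ m ih =>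
      intro hm
      have h2 := ih (by omega)
      obtain ⟨x, hx⟩ := Nat.exists_eq_add_of_le (show m ≤ a by omega)
      obtain ⟨y, hy⟩ := Nat.exists_eq_add_of_le (show m ≤ b by omega)
      rw [sum_range_succ, sum_range_succ]
      have h3 := step38 n q m x y (by omega) (by
        have h4 := castne38 q (a + 1) (b + 1) m (by
          have := hne m (by omega)
          exact_mod_cast this)
        rw [hx, hy] at h4
        push_cast at h4
        exact h4)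
      rw [← hx, ← hy] at h3
      linear_combination h2 + h3
  have h5 := h1 (min a b + 1) le_rfl
  rw [sum_range_succ]
  have h6 := last38 n q (a + 1) (b + 1) hn (by
    apply castne38
    have := hne (min (a + 1) (b + 1)) le_rfl
    exact_mod_cast this)
  rw [hmin] at h6
  rw [h6]
  linear_combination h5

theorem bailey_odd (n q a b : ℕ) (hn : 16 * (q + a + b) + 40 ≤ n)
    (hne : ∀ t : ℕ, t ≤ min a b → 2 * ((q : ℤ) + a) - (q + b) - 2 * t ≠ 0) :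
    Sc n q a b = Dq n q * ∑ k ∈ range (min a b + 1), Eo n q a b k := by
  induction a generalizing q b with
  | zero =>
    have h0 := last38 n q 0 b hn (by
      apply castne38
      exact hne _ le_rfl)
    have hc : 16 * ((q : ℚ) + (0 : ℕ) + b) + 40 ≤ n := by exact_mod_cast hn
    have hq : (0 : ℚ) ≤ q := by positivity
    have hb : (0 : ℚ) ≤ b := by positivity
    simp only [Nat.cast_zero, add_zero] at hc
    unfold Sc
    simp only [Nat.zero_min, zero_add, sum_range_one, add_zero] at h0 ⊢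
    rw [h0, LR38 n q 0 b (ne_of_gt (by linarith))]
    simp only [add_zero]
    ring
  | succ a ih =>
    cases b with
    | zero =>
      have h0 := last38 n q (a + 1) 0 hn (by
        apply castne38
        exact hne _ le_rfl)
      have hc : 16 * ((q : ℚ) + ((a + 1 : ℕ) : ℚ) + (0 : ℕ)) + 40 ≤ n := by exact_mod_cast hn
      have hq : (0 : ℚ) ≤ q := by positivity
      have ha : (0 : ℚ) ≤ a := by positivity
      push_cast at hc
      unfold Sc
      simp only [Nat.min_zero, zero_add, sum_range_one, add_zero] at h0 ⊢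
      rw [h0, LR38 n q (a + 1) 0 (ne_of_gt (by linarith))]
      simp only [add_zero]
      ring
    | succ b =>
      rw [sum38 n q a b hn hne]
      have h1 := ih (q + 1) b (by omega) (by
        intro t ht
        have := hne t (by omega)
        intro h0
        apply this
        push_cast at h0 ⊢
        linarith)
      rw [← h1]
      unfold Sc
      rw [show min (a + 1) (b + 1) + 1 = (min a b + 1) + 1 by omega, sum_range_succ']
      simp only [add_zero]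
      congr 1
      · refine sum_congr rfl fun m _ => ?_
        rw [show q + (a + 1) = q + 1 + a by ring, show q + (b + 1) = q + 1 + b by ring,
          show q + (m + 1) = q + 1 + m by ring]
      · ring

end Pool.Agent.Helper44.BZ
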