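import Mathlib

/-! Block BZB-BLKA (only Mathlib, block matrices). `Matrix.fromBlocks_multiply`, associativity, and the relations
Li * L = 1, R * Ri = 1, Dinv * D = 1. With lam = L21 * Li, rho = Ri * R12:
row 1: Dinv Li (L D R) Ri = 1; Dinv Li (L D R)(-c2 rho) + Dinv Li (L D R12) c2 = 0 since R * Ri = 1;
row 2: (-c1 lam L D R + c1 L21 D R) Ri = 0 since Li * L = 1; the last entry: c1 c2 (lam A11 rho - lam A12 - A21 rho + A22) = c1 c2 S.
The second statement is the product of the outer matrices; the third: determinants (block triangular: `Matrix.det_fromBlocks_zero₁₂`,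
`Matrix.det_fromBlocks_zero₂₁`). -/

set_option autoImplicit false

namespace Pool.Agent.Helper44.BZ

open Matrix

variable {α β : Type*} [Fintype α] [Fintype β] [DecidableEq α] [DecidableEq β]

theorem block_fac (L Li D Dinv R Ri : Matrix α α ℚ) (L21 : Matrix β α ℚ) (R12 : Matrix α β ℚ) (S : Matrix β β ℚ)
    (hL : Li * L = 1) (hR : R * Ri = 1) (hD : Dinv * D = 1) (c1 c2 : ℚ) :
    fromBlocks (Dinv * Li) 0 (-(c1 • (L21 * Li))) (c1 • (1 : Matrix β β ℚ)) *
        fromBlocks (L * D * R) (L * D * R12) (L21 * D * R) (L21 * D * R12 + S) *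
        fromBlocks Ri (-(c2 • (Ri * R12))) 0 (c2 • (1 : Matrix β β ℚ)) =
      fromBlocks 1 0 0 ((c1 * c2) • S) := by
  have e1 : Dinv * Li * (L * D * R) = R := by
    calc Dinv * Li * (L * D * R) = Dinv * ((Li * L) * (D * R)) := by simp only [Matrix.mul_assoc]
      _ = (Dinv * D) * R := by rw [hL, Matrix.one_mul, Matrix.mul_assoc]
      _ = R := by rw [hD, Matrix.one_mul]
  have e2 : Dinv * Li * (L * D * R12) = R12 := by
    calc Dinv * Li * (L * D * R12) = Dinv * ((Li * L) * (D * R12)) := by simp only [Matrix.mul_assoc]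
      _ = (Dinv * D) * R12 := by rw [hL, Matrix.one_mul, Matrix.mul_assoc]
      _ = R12 := by rw [hD, Matrix.one_mul]
  have e3 : ∀ X : Matrix α α ℚ, L21 * Li * (L * D * X) = L21 * D * X := by
    intro X
    calc L21 * Li * (L * D * X) = L21 * ((Li * L) * (D * X)) := by simp only [Matrix.mul_assoc]
      _ = L21 * D * X := by rw [hL, Matrix.one_mul, Matrix.mul_assoc]
  have e4 : ∀ X : Matrix α β ℚ, L21 * Li * (L * D * X) = L21 * D * X := by
    intro X
    calc L21 * Li * (L * D * X) = L21 * ((Li * L) * (D * X)) := by simp only [Matrix.mul_assoc]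
      _ = L21 * D * X := by rw [hL, Matrix.one_mul, Matrix.mul_assoc]
  have e5 : R * (Ri * R12) = R12 := by rw [← Matrix.mul_assoc, hR, Matrix.one_mul]
  have m1 : fromBlocks (Dinv * Li) 0 (-(c1 • (L21 * Li))) (c1 • (1 : Matrix β β ℚ)) *
        fromBlocks (L * D * R) (L * D * R12) (L21 * D * R) (L21 * D * R12 + S) =
      fromBlocks R R12 0 (c1 • S) := by
    rw [Matrix.fromBlocks_multiply, e1, e2]
    congr 1
    · simp
    · simp
    · rw [Matrix.neg_mul, Matrix.smul_mul, e3, Matrix.smul_mul, Matrix.one_mul]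
      simp
    · rw [Matrix.neg_mul, Matrix.smul_mul, e4, Matrix.smul_mul, Matrix.one_mul, smul_add]
      simp
  rw [m1, Matrix.fromBlocks_multiply]
  congr 1
  · simp [hR]
  · rw [Matrix.mul_neg, Matrix.mul_smul, e5, Matrix.mul_smul, Matrix.mul_one]
    simp
  · simp
  · rw [Matrix.zero_mul, Matrix.mul_smul, Matrix.mul_one, smul_smul, mul_comm c2 c1]
    simp

theorem block_prod (Li Dinv Ri : Matrix α α ℚ) (L21 : Matrix β α ℚ) (R12 : Matrix α β ℚ) (c1 c2 : ℚ) :
    fromBlocks (Dinv * Li) 0 (-(c1 • (L21 * Li))) (c1 • (1 : Matrix β β ℚ)) *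
        fromBlocks Ri (-(c2 • (Ri * R12))) 0 (c2 • (1 : Matrix β β ℚ)) =
      fromBlocks (Dinv * Li * Ri) (-(c2 • (Dinv * Li * (Ri * R12)))) (-(c1 • (L21 * Li * Ri)))
        ((c1 * c2) • (L21 * Li * (Ri * R12) + 1)) := by
  rw [Matrix.fromBlocks_multiply]
  congr 1
  · simp
  · rw [Matrix.mul_neg, Matrix.mul_smul]
    simp
  · rw [Matrix.neg_mul, Matrix.smul_mul]
    simp
  · rw [Matrix.neg_mul, Matrix.mul_neg, Matrix.smul_mul, Matrix.mul_smul, Matrix.smul_mul, Matrix.one_mul,
      smul_smul, smul_smul, smul_add]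
    simp

theorem block_det (L Li D Dinv R Ri : Matrix α α ℚ) (L21 : Matrix β α ℚ) (R12 : Matrix α β ℚ)
    (hL : Li * L = 1) (hR : R * Ri = 1) (hD : Dinv * D = 1) (c1 c2 : ℚ) (h1 : c1 ≠ 0) (h2 : c2 ≠ 0) :
    (fromBlocks (Dinv * Li) 0 (-(c1 • (L21 * Li))) (c1 • (1 : Matrix β β ℚ))).det ≠ 0 ∧
      (fromBlocks Ri (-(c2 • (Ri * R12))) 0 (c2 • (1 : Matrix β β ℚ))).det ≠ 0 := by
  constructor
  · rw [Matrix.det_fromBlocks_zero₁₂]
    have a1 : Li.det ≠ 0 := by
      intro h
      have := congrArg Matrix.det hL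
      rw [Matrix.det_mul, h, zero_mul, Matrix.det_one] at this
      exact zero_ne_one this
    have a2 : Dinv.det ≠ 0 := by
      intro h
      have := congrArg Matrix.det hD
      rw [Matrix.det_mul, h, zero_mul, Matrix.det_one] at this
      exact zero_ne_one this
    rw [Matrix.det_mul, Matrix.det_smul, Matrix.det_one, mul_one]
    exact mul_ne_zero (mul_ne_zero a2 a1) (pow_ne_zero _ h1)
  · rw [Matrix.det_fromBlocks_zero₂₁]
    have a1 : Ri.det ≠ 0 := by
      intro h
      have := congrArg Matrix.det hR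
      rw [Matrix.det_mul, h, mul_zero, Matrix.det_one] at this
      exact zero_ne_one this
    rw [Matrix.det_smul, Matrix.det_one, mul_one]
    exact mul_ne_zero a1 (pow_ne_zero _ h2)

end Pool.Agent.Helper44.BZ
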