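import Mathlib

/-! Block BZB-BLKB (only Mathlib, determinant of a block triangular pencil over ZMod 2).
Over R = (ZMod 2)[X] the matrix X • G - N is fromBlocks P 0 Q (X • 1) with P = fromBlocks (-1) 0 (X • G21) (X • 1 - H): determinant
det P * det (X • 1) = det (-1) * det (X • 1 - H) * X^(card γ), and det (-1) = (-1)^(card α) = 1 in characteristic 2. -/

set_option autoImplicit false

namespace Pool.Agent.Helper44.BZ

open Matrix Polynomial

theorem det_pencil {α β γ : Type*} [Fintype α] [Fintype β] [Fintype γ] [DecidableEq α] [DecidableEq β] [DecidableEq γ]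
    (G21 : Matrix β α (ZMod 2)) (H : Matrix β β (ZMod 2)) :
    (((X : (ZMod 2)[X]) • (fromBlocks (fromBlocks 0 0 G21 1) 0 0 1 : Matrix ((α ⊕ β) ⊕ γ) ((α ⊕ β) ⊕ γ) (ZMod 2)).map C -
        (fromBlocks (fromBlocks 1 0 0 H) 0 0 0 : Matrix ((α ⊕ β) ⊕ γ) ((α ⊕ β) ⊕ γ) (ZMod 2)).map C)).det =
      X ^ Fintype.card γ * H.charpoly := by
  have e : ((X : (ZMod 2)[X]) • (fromBlocks (fromBlocks 0 0 G21 1) 0 0 1 : Matrix ((α ⊕ β) ⊕ γ) ((α ⊕ β) ⊕ γ) (ZMod 2)).map C -
        (fromBlocks (fromBlocks 1 0 0 H) 0 0 0 : Matrix ((α ⊕ β) ⊕ γ) ((α ⊕ β) ⊕ γ) (ZMod 2)).map C) =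
      fromBlocks (fromBlocks (-1) 0 ((X : (ZMod 2)[X]) • G21.map C) (charmatrix H)) 0 0
        ((X : (ZMod 2)[X]) • (1 : Matrix γ γ (ZMod 2)[X])) := by
    ext1 i j
    rcases i with (i | i) | i <;> rcases j with (j | j) | j
    · by_cases h : i = j
      · subst h
        simp
      · simp [h]
    · simp
    · simp
    · simp
    · by_cases h : i = j
      · subst h
        simp
      · simp [h]
    · simp
    · simp
    · simp
    · by_cases h : i = j
      · subst h
        simp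
      · simp [h]
  rw [e, det_fromBlocks_zero₁₂, det_fromBlocks_zero₁₂, det_neg, det_one, det_smul, det_one]
  have h2 : (-1 : (ZMod 2)[X]) = 1 := CharTwo.neg_eq 1
  rw [h2, one_pow, Matrix.charpoly]
  ring

end Pool.Agent.Helper44.BZ
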