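import Mathlib
import Pool.Agent.Helper44.BZ.Defs

/-! Block BZB-CHM (only Mathlib). Valuation of a binomial coefficient is at most the maximal valuation of the factors of the numerator.
Proof. `padicValNat_choose` (Kummer): padicValNat 2 (N.choose r) is the number of e in [1, b) such that there is a carry at e,
i.e. 2^e <= r % 2^e + (N-r) % 2^e. If there is a carry at e then there is a multiple of 2^e in (N-r, N]: because
N / 2^e = r / 2^e + (N-r) / 2^e + 1 >= (N-r)/2^e + 1; this multiple is N - t with t < r, so e <= padicValNat 2 (N-t) <= w.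
(N - t > 0 as t < r <= N.) So the number of such e is at most w. -/

set_option autoImplicit false

namespace Pool.Agent.Helper44.BZ

theorem choose_val_le (N r w : ℕ) (hr : r ≤ N) (h : ∀ t, t < r → padicValNat 2 (N - t) ≤ w) :
    padicValNat 2 (N.choose r) ≤ w := by
  have : Fact (Nat.Prime 2) := ⟨Nat.prime_two⟩
  rw [padicValNat_choose hr (Nat.lt_succ_self (Nat.log 2 N))]
  have hsub : (Finset.Ico 1 (Nat.log 2 N + 1)).filter
      (fun i => 2 ^ i ≤ r % 2 ^ i + (N - r) % 2 ^ i) ⊆ Finset.Icc 1 w := by
    intro e he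
    rw [Finset.mem_filter, Finset.mem_Ico] at he
    obtain ⟨⟨h1, _⟩, h2⟩ := he
    rw [Finset.mem_Icc]
    refine ⟨h1, ?_⟩
    have hq : 0 < 2 ^ e := by positivity
    have hx : (N - r) % 2 ^ e < 2 ^ e := Nat.mod_lt _ hq
    have hr' : r % 2 ^ e ≤ r := Nat.mod_le _ _
    have hdiv : 2 ^ e * ((N - r) / 2 ^ e) + (N - r) % 2 ^ e = N - r := Nat.div_add_mod _ _
    set x := (N - r) % 2 ^ e with hxdef
    set y := (N - r) / 2 ^ e with hydef
    set q := 2 ^ e with hqdef
    have ht : r - (q - x) < r := by omega
    have hv := h (r - (q - x)) ht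
    have hN : N - (r - (q - x)) = q * (y + 1) := by
      rw [mul_add, mul_one]
      omega
    have hne : N - (r - (q - x)) ≠ 0 := by
      rw [hN]
      positivity
    have hd : 2 ^ e ∣ N - (r - (q - x)) := by
      rw [hN]
      exact Dvd.intro _ rfl
    exact ((padicValNat_dvd_iff_le hne).1 hd).trans hv
  calc _ ≤ (Finset.Icc 1 w).card := Finset.card_le_card hsub
    _ = w := by simp

end Pool.Agent.Helper44.BZ
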