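import Mathlib
import Pool.Agent.Helper44.BZ.Defs

/-! Block BZB-DCL. Closed form of the diagonal `Dq n m`.
Induction on m (m = 0: both sides (n-1)! (2n-1)! n! = (2n-1)! n! (n-1)!). From m to m+1 (3m+3 <= n):
(2n-3m-1)! = (2n-3m-1)(2n-3m-2)(2n-3m-3) (2n-3m-4)!, (n-3m)! = (n-3m)(n-3m-1)(n-3m-2)(n-3m-3)!,
(n-2m)! = (n-2m)(n-2m-1)(n-2m-2)!, (n-2m-1)! = (n-2m-1)(n-2m-2)(n-2m-3)!, and the factor t = m of `Dq`. -/

set_option autoImplicit false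

namespace Pool.Agent.Helper44.BZ

open Finset

theorem Dq_closed (n m : ℕ) (hm : 3 * m ≤ n) (hn : 1 ≤ n) (hm' : 2 * m + 1 ≤ n) :
    Dq n m * (∏ t ∈ range m, ((2 * (t : ℚ) + 1) * (2 * (n : ℚ) - 2 * t - 1))) *
        ((Nat.factorial (n - 1) : ℚ) * Nat.factorial (2 * n - 3 * m - 1) * Nat.factorial (n - 3 * m)) =
      (-4) ^ m * ((Nat.factorial (2 * n - 1) : ℚ) * Nat.factorial (n - 2 * m) * Nat.factorial (n - 2 * m - 1)) := by
  clear hn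
  induction m with
  | zero =>
    simp only [Dq, Finset.range_zero, Finset.prod_empty, pow_zero, Nat.mul_zero, Nat.sub_zero]
    ring
  | succ m ih =>
    have ih' := ih (by omega) (by omega)
    obtain ⟨k, rfl⟩ : ∃ k, n = 3 * m + 3 + k := ⟨n - (3 * m + 3), by omega⟩
    have e1 : 2 * (3 * m + 3 + k) - 3 * m - 1 = (3 * m + 2 + 2 * k) + 1 + 1 + 1 := by omega
    have e2 : 2 * (3 * m + 3 + k) - 3 * (m + 1) - 1 = 3 * m + 2 + 2 * k := by omega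
    have e3 : 3 * m + 3 + k - 3 * m = k + 1 + 1 + 1 := by omega
    have e4 : 3 * m + 3 + k - 3 * (m + 1) = k := by omega
    have e5 : 3 * m + 3 + k - 2 * m = (m + k) + 1 + 1 + 1 := by omega
    have e6 : 3 * m + 3 + k - 2 * (m + 1) = (m + k) + 1 := by omega
    have e7 : (m + k) + 1 + 1 + 1 - 1 = (m + k) + 1 + 1 := by omega
    have e8 : (m + k) + 1 - 1 = m + k := by omega
    rw [e1, e3, e5, e7] at ih'
    rw [e2, e4, e6, e8]
    have hD : Dq (3 * m + 3 + k) (m + 1) = Dq (3 * m + 3 + k) m *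
        (-4 * (3 * (m : ℚ) + 5 + 2 * k) * (3 * m + 4 + 2 * k) * (3 * m + 3 + 2 * k) * (k + 3) * (k + 2) * (k + 1) /
          ((2 * m + 1) * (2 * (3 * m + 3 + k) - 2 * m - 1) * (m + k + 3) * (m + k + 2) ^ 2 * (m + k + 1))) := by
      unfold Dq
      rw [Finset.prod_range_succ]
      push_cast
      congr 1
      congr 1
      · ring
      · ring
    rw [hD, Finset.prod_range_succ]
    rw [Nat.factorial_succ (3 * m + 2 + 2 * k + 1 + 1), Nat.factorial_succ (3 * m + 2 + 2 * k + 1),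
      Nat.factorial_succ (3 * m + 2 + 2 * k), Nat.factorial_succ (k + 1 + 1), Nat.factorial_succ (k + 1),
      Nat.factorial_succ k, Nat.factorial_succ (m + k + 1 + 1), Nat.factorial_succ (m + k + 1),
      Nat.factorial_succ (m + k)] at ih'
    rw [Nat.factorial_succ (m + k)]
    obtain ⟨D, hDD⟩ : ∃ D, D = Dq (3 * m + 3 + k) m := ⟨_, rfl⟩
    obtain ⟨P, hP⟩ : ∃ P : ℚ, P = ∏ t ∈ range m, ((2 * (t : ℚ) + 1) * (2 * ((3 * m + 3 + k : ℕ) : ℚ) - 2 * t - 1)) :=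
      ⟨_, rfl⟩
    rw [← hDD, ← hP] at ih' ⊢
    obtain ⟨A, hA⟩ : ∃ A : ℚ, A = (Nat.factorial (3 * m + 3 + k - 1) : ℚ) := ⟨_, rfl⟩
    obtain ⟨B, hB⟩ : ∃ B : ℚ, B = (Nat.factorial (2 * (3 * m + 3 + k) - 1) : ℚ) := ⟨_, rfl⟩
    obtain ⟨F, hF⟩ : ∃ F : ℚ, F = (Nat.factorial (3 * m + 2 + 2 * k) : ℚ) := ⟨_, rfl⟩
    obtain ⟨G, hG⟩ : ∃ G : ℚ, G = (Nat.factorial k : ℚ) := ⟨_, rfl⟩
    obtain ⟨H, hH⟩ : ∃ H : ℚ, H = (Nat.factorial (m + k) : ℚ) := ⟨_, rfl⟩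
    push_cast at ih' ⊢
    rw [← hA, ← hB, ← hF, ← hG, ← hH] at ih'
    rw [← hA, ← hB, ← hF, ← hG, ← hH]
    have p1 : (2 * (m : ℚ) + 1) ≠ 0 := by positivity
    have p2 : (2 * (3 * (m : ℚ) + 3 + k) - 2 * m - 1) ≠ 0 := by
      have : (2 * (3 * (m : ℚ) + 3 + k) - 2 * m - 1) = 4 * m + 5 + 2 * k := by ring
      rw [this]
      positivity
    have p3 : ((m : ℚ) + k + 3) ≠ 0 := by positivity
    have p4 : ((m : ℚ) + k + 2) ≠ 0 := by positivity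
    have p5 : ((m : ℚ) + k + 1) ≠ 0 := by positivity
    have key : D * P * (A * F * G) * ((3 * (m : ℚ) + 5 + 2 * k) * (3 * m + 4 + 2 * k) * (3 * m + 3 + 2 * k) *
        (k + 3) * (k + 2) * (k + 1)) =
        (-4) ^ m * (B * H * H) * ((m + k + 3) * (m + k + 2) ^ 2 * (m + k + 1) * (m + k + 1)) := by
      linear_combination ih'
    have e : D * (-4 * (3 * (m : ℚ) + 5 + 2 * k) * (3 * m + 4 + 2 * k) * (3 * m + 3 + 2 * k) * (k + 3) * (k + 2) * (k + 1) /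
          ((2 * m + 1) * (2 * (3 * m + 3 + k) - 2 * m - 1) * (m + k + 3) * (m + k + 2) ^ 2 * (m + k + 1))) *
        (P * ((2 * (m : ℚ) + 1) * (2 * (3 * m + 3 + k) - 2 * m - 1))) * (A * F * G) =
        -4 * (D * P * (A * F * G) * ((3 * (m : ℚ) + 5 + 2 * k) * (3 * m + 4 + 2 * k) * (3 * m + 3 + 2 * k) *
        (k + 3) * (k + 2) * (k + 1))) / ((m + k + 3) * (m + k + 2) ^ 2 * (m + k + 1)) := by
      generalize (2 * (3 * (m : ℚ) + 3 + k) - 2 * m - 1) = W at p2 ⊢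
      field_simp
    rw [e, key]
    field_simp
    ring

theorem Dq_ne_zero (n m : ℕ) (hm : 3 * m ≤ n) (hm' : 2 * m + 1 ≤ n) : Dq n m ≠ 0 := by
  unfold Dq
  refine Finset.prod_ne_zero_iff.2 fun t ht => ?_
  have h1 : 3 * t + 3 ≤ n := by
    have := Finset.mem_range.1 ht
    omega
  have h2 : 3 * (t : ℚ) + 3 ≤ n := by exact_mod_cast h1
  have h3 : (0 : ℚ) ≤ t := Nat.cast_nonneg t
  have a1 : 2 * (n : ℚ) - 3 * t - 1 ≠ 0 := by
    have : 0 < 2 * (n : ℚ) - 3 * t - 1 := by linarith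
    exact this.ne'
  have a2 : 2 * (n : ℚ) - 3 * t - 2 ≠ 0 := by
    have : 0 < 2 * (n : ℚ) - 3 * t - 2 := by linarith
    exact this.ne'
  have a3 : 2 * (n : ℚ) - 3 * t - 3 ≠ 0 := by
    have : 0 < 2 * (n : ℚ) - 3 * t - 3 := by linarith
    exact this.ne'
  have a4 : (n : ℚ) - 3 * t ≠ 0 := by
    have : 0 < (n : ℚ) - 3 * t := by linarith
    exact this.ne'
  have a5 : (n : ℚ) - 3 * t - 1 ≠ 0 := by
    have : 0 < (n : ℚ) - 3 * t - 1 := by linarith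
    exact this.ne'
  have a6 : (n : ℚ) - 3 * t - 2 ≠ 0 := by
    have : 0 < (n : ℚ) - 3 * t - 2 := by linarith
    exact this.ne'
  have b1 : (2 * (t : ℚ) + 1) ≠ 0 := by positivity
  have b2 : (2 * (n : ℚ) - 2 * t - 1) ≠ 0 := by
    have : 0 < 2 * (n : ℚ) - 2 * t - 1 := by linarith
    exact this.ne'
  have b3 : ((n : ℚ) - 2 * t) ≠ 0 := by
    have : 0 < (n : ℚ) - 2 * t := by linarith
    exact this.ne'
  have b4 : ((n : ℚ) - 2 * t - 1) ≠ 0 := by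
    have : 0 < (n : ℚ) - 2 * t - 1 := by linarith
    exact this.ne'
  have b5 : ((n : ℚ) - 2 * t - 2) ≠ 0 := by
    have : 0 < (n : ℚ) - 2 * t - 2 := by linarith
    exact this.ne'
  refine div_ne_zero ?_ ?_
  · exact mul_ne_zero (mul_ne_zero (mul_ne_zero (mul_ne_zero (mul_ne_zero (mul_ne_zero (by norm_num) a1) a2) a3) a4) a5) a6
  · exact mul_ne_zero (mul_ne_zero (mul_ne_zero (mul_ne_zero b1 b2) b3) (pow_ne_zero 2 b4)) b5

end Pool.Agent.Helper44.BZ
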