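import Mathlib
import Pool.Agent.Helper44.BZ.Defs

/-! Block BZB-S2A. Elementary facts on the binary digit sum `s2`. (`Nat.digits` recursion: `s2 n = n % 2 + s2 (n / 2)`.)
* `s2_add_le`: strong induction: (x + y) % 2 and (x + y) / 2, with carry.
* `s2_pow_mul_add`: induction on e.
* `s2_compl`: induction on e.
* `val_fact`: `sub_one_mul_padicValNat_factorial` of Mathlib with p = 2.
* `val_succ`: from `val_fact` for (x+1)! = (x+1) x!.
* `s2_le`: 2 * s2 x <= x + 1, strong induction. -/

set_option autoImplicit false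

namespace Pool.Agent.Helper44.BZ

theorem s2_rec (n : ℕ) : s2 n = n % 2 + s2 (n / 2) := by
  rcases Nat.eq_zero_or_pos n with h | h
  · subst h; simp [s2]
  · unfold s2
    rw [Nat.digits_def' (by norm_num) h]
    simp

theorem s2_zero : s2 0 = 0 := by
  simp [s2]

theorem s2_one : s2 1 = 1 := by
  simp [s2]

theorem s2_two_mul (x : ℕ) : s2 (2 * x) = s2 x := by
  rw [s2_rec (2 * x)]
  have h1 : (2 * x) % 2 = 0 := by omega
  have h2 : (2 * x) / 2 = x := by omega
  rw [h1, h2, zero_add]

theorem s2_two_mul_add_one (x : ℕ) : s2 (2 * x + 1) = s2 x + 1 := by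
  rw [s2_rec (2 * x + 1)]
  have h1 : (2 * x + 1) % 2 = 1 := by omega
  have h2 : (2 * x + 1) / 2 = x := by omega
  rw [h1, h2, add_comm]

theorem s2_add_le (x y : ℕ) : s2 (x + y) ≤ s2 x + s2 y := by
  suffices H : ∀ N x y : ℕ, x + y ≤ N → s2 (x + y) ≤ s2 x + s2 y from H _ x y le_rfl
  intro N
  induction N using Nat.strong_induction_on with
  | _ N ih =>
    intro x y hN
    obtain ⟨a, ha⟩ := Nat.even_or_odd' x
    obtain ⟨b, hb⟩ := Nat.even_or_odd' y
    by_cases h0 : N = 0
    · have hx : x = 0 := by omega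
      have hy : y = 0 := by omega
      subst hx; subst hy; simp [s2_zero]
    rcases ha with ha | ha <;> rcases hb with hb | hb
    · subst ha; subst hb
      have e : 2 * a + 2 * b = 2 * (a + b) := by ring
      rw [e, s2_two_mul, s2_two_mul, s2_two_mul]
      by_cases hab : a + b = 0
      · have hx : a = 0 := by omega
        have hy : b = 0 := by omega
        subst hx; subst hy; simp [s2_zero]
      · exact ih (a + b) (by omega) a b le_rfl
    · subst ha; subst hb
      have e : 2 * a + (2 * b + 1) = 2 * (a + b) + 1 := by ring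
      rw [e, s2_two_mul_add_one, s2_two_mul, s2_two_mul_add_one]
      have := ih (a + b) (by omega) a b le_rfl
      omega
    · subst ha; subst hb
      have e : 2 * a + 1 + 2 * b = 2 * (a + b) + 1 := by ring
      rw [e, s2_two_mul_add_one, s2_two_mul, s2_two_mul_add_one]
      have := ih (a + b) (by omega) a b le_rfl
      omega
    · subst ha; subst hb
      have e : 2 * a + 1 + (2 * b + 1) = 2 * ((a + b) + 1) := by ring
      rw [e, s2_two_mul, s2_two_mul_add_one, s2_two_mul_add_one]
      have h1 := ih (a + b) (by omega) a b le_rfl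
      have h2 := ih (a + b + 1) (by omega) (a + b) 1 le_rfl
      rw [s2_one] at h2
      omega

theorem s2_pow_mul_add (e w x : ℕ) (h : x < 2 ^ e) : s2 (2 ^ e * w + x) = s2 w + s2 x := by
  induction e generalizing x with
  | zero =>
    have hx : x = 0 := by simpa using h
    subst hx; simp [s2_zero]
  | succ e ih =>
    obtain ⟨a, ha⟩ := Nat.even_or_odd' x
    have hp : 2 ^ (e + 1) = 2 * 2 ^ e := by ring
    rcases ha with ha | ha
    · subst ha
      have e1 : 2 ^ (e + 1) * w + 2 * a = 2 * (2 ^ e * w + a) := by rw [hp]; ring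
      rw [e1, s2_two_mul, s2_two_mul]
      exact ih a (by omega)
    · subst ha
      have e1 : 2 ^ (e + 1) * w + (2 * a + 1) = 2 * (2 ^ e * w + a) + 1 := by rw [hp]; ring
      rw [e1, s2_two_mul_add_one, s2_two_mul_add_one, ih a (by omega)]
      ring

theorem s2_compl (e x : ℕ) (h : x < 2 ^ e) : s2 (2 ^ e - 1 - x) + s2 x = e := by
  induction e generalizing x with
  | zero =>
    have hx : x = 0 := by simpa using h
    subst hx; simp [s2_zero]
  | succ e ih =>
    obtain ⟨a, ha⟩ := Nat.even_or_odd' x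
    have hp : 2 ^ (e + 1) = 2 * 2 ^ e := by ring
    rcases ha with ha | ha
    · subst ha
      have e1 : 2 ^ (e + 1) - 1 - 2 * a = 2 * (2 ^ e - 1 - a) + 1 := by omega
      rw [e1, s2_two_mul, s2_two_mul_add_one]
      have := ih a (by omega)
      omega
    · subst ha
      have e1 : 2 ^ (e + 1) - 1 - (2 * a + 1) = 2 * (2 ^ e - 1 - a) := by omega
      rw [e1, s2_two_mul, s2_two_mul_add_one]
      have := ih a (by omega)
      omega

theorem s2_le (x : ℕ) : 2 * s2 x ≤ x + 1 := by
  induction x using Nat.strong_induction_on with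
  | _ x ih =>
    obtain ⟨a, ha⟩ := Nat.even_or_odd' x
    by_cases h0 : x = 0
    · subst h0; simp [s2_zero]
    rcases ha with ha | ha
    · subst ha
      rw [s2_two_mul]
      have := ih a (by omega)
      omega
    · subst ha
      rw [s2_two_mul_add_one]
      by_cases ha0 : a = 0
      · subst ha0; simp [s2_zero]
      have := ih a (by omega)
      omega

theorem s2_le_of_lt (e x : ℕ) (h : x < 2 ^ e) : s2 x ≤ e := by
  have := s2_compl e x h
  omega

theorem s2_pos (x : ℕ) (h : 0 < x) : 0 < s2 x := by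
  induction x using Nat.strong_induction_on with
  | _ x ih =>
    obtain ⟨a, ha⟩ := Nat.even_or_odd' x
    rcases ha with ha | ha
    · subst ha
      rw [s2_two_mul]
      exact ih a (by omega) (by omega)
    · subst ha
      rw [s2_two_mul_add_one]
      omega

theorem val_fact (n : ℕ) : padicValNat 2 (Nat.factorial n) + s2 n = n := by
  have h1 := sub_one_mul_padicValNat_factorial (p := 2) n
  have h2 : (Nat.digits 2 n).sum ≤ n := Nat.digit_sum_le 2 n
  unfold s2
  have h3 : (2 - 1) * padicValNat 2 (Nat.factorial n) = padicValNat 2 (Nat.factorial n) := by norm_num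
  rw [h3] at h1
  omega

theorem val_succ (x : ℕ) : padicValNat 2 (x + 1) + s2 (x + 1) = s2 x + 1 := by
  have h1 := val_fact x
  have h2 := val_fact (x + 1)
  rw [Nat.factorial_succ, padicValNat.mul (by omega) (Nat.factorial_ne_zero x)] at h2
  omega

/-- same with x >= 1 -/
theorem val_pred (x : ℕ) (h : 1 ≤ x) : padicValNat 2 x + s2 x = s2 (x - 1) + 1 := by
  have h1 := val_succ (x - 1)
  have e : x - 1 + 1 = x := by omega
  rwa [e] at h1

/-- valuation of a binomial coefficient -/
theorem val_choose (N r : ℕ) (h : r ≤ N) : padicValNat 2 (N.choose r) + s2 N = s2 r + s2 (N - r) := by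
  have h1 := val_fact N
  have h2 := val_fact r
  have h3 := val_fact (N - r)
  have h4 := Nat.choose_mul_factorial_mul_factorial h
  have hc : N.choose r ≠ 0 := (Nat.choose_pos h).ne'
  rw [← h4, padicValNat.mul (mul_ne_zero hc (Nat.factorial_ne_zero r)) (Nat.factorial_ne_zero _),
    padicValNat.mul hc (Nat.factorial_ne_zero r)] at h1
  omega

/-- 2 ^ v <= x, so v is small -/
theorem two_pow_val_le (x : ℕ) (h : 1 ≤ x) : 2 ^ padicValNat 2 x ≤ x := by
  exact Nat.le_of_dvd h pow_padicValNat_dvd

/-- v(x + 2^e w) = v(x) for 0 < x < 2^e -/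
theorem val_add_pow (e w x : ℕ) (h0 : 0 < x) (h : x < 2 ^ e) :
    padicValNat 2 (2 ^ e * w + x) = padicValNat 2 x := by
  have h1 := val_succ (2 ^ e * w + x - 1)
  have e1 : 2 ^ e * w + x - 1 + 1 = 2 ^ e * w + x := by omega
  have e2 : 2 ^ e * w + x - 1 = 2 ^ e * w + (x - 1) := by omega
  have h2 := val_pred x h0
  rw [e1, e2, s2_pow_mul_add e w x h, s2_pow_mul_add e w (x - 1) (by omega)] at h1
  omega

/-- v(2^e w - x) = v(x) for 0 < x < 2^e, w > 0 -/
theorem val_pow_sub (e w x : ℕ) (hw : 0 < w) (h0 : 0 < x) (h : x < 2 ^ e) :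
    padicValNat 2 (2 ^ e * w - x) = padicValNat 2 x := by
  obtain ⟨w', rfl⟩ : ∃ w', w = w' + 1 := ⟨w - 1, by omega⟩
  have hm : 2 ^ e * (w' + 1) = 2 ^ e * w' + 2 ^ e := by ring
  have e3 : 2 ^ e * (w' + 1) - x = 2 ^ e * w' + (2 ^ e - x) := by omega
  rw [e3, val_add_pow e w' (2 ^ e - x) (by omega) (by omega)]
  have h1 := val_pred (2 ^ e - x) (by omega)
  have h2 := val_pred x h0
  have h3 := s2_compl e x h
  have h4 := s2_compl e (x - 1) (by omega)
  have e4 : 2 ^ e - x - 1 = 2 ^ e - 1 - x := by omega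
  have e5 : 2 ^ e - 1 - (x - 1) = 2 ^ e - x := by omega
  rw [e4] at h1
  rw [e5] at h4
  omega

end Pool.Agent.Helper44.BZ
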