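import Mathlib
import Pool.Agent.Helper44.BZ.Defs
import Pool.Agent.Helper44.BZ.S2A

/-! Block BZB-MSA. Facts on the tower `Ms`: 0, 1, 5, 1029, ...; `Ms (s+1) = Ms s + 4 ^ Ms s`.
The binary digits of `Ms r` are ones exactly at the positions `2 * Ms t`, t < r.

Proofs. `Ms_five`: 4^x >= 4x. `Ms_three`: r = 1: 3 < 4; r >= 2: x = Ms r >= 5, 3x < 4^x.
`s2_Ms`, `s2_three_Ms`: induction, with `s2_pow_mul_add` (e = 2 * Ms r): Ms (r+1) = 2^(2 Ms r) * 1 + Ms r and
Ms r < 4^(Ms r); 3 * Ms (r+1) = 2^(2 Ms r) * 3 + 3 * Ms r and 3 * Ms r < 4^(Ms r) for r >= 1.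
`Ms_split`: for r <= I write Ms I = Ms r + 4^(Ms r) * w; induction on I: for I = r, w = 0; from I to I+1 add
4^(Ms I) = 4^(Ms r) * 4^(Ms I - Ms r); w = 1 for I = r + 1; for I >= r+1 the new summand 4^(Ms I - Ms r) is a
multiple of 4 and larger than w (Ms I = Ms r + 4^(Ms r) w < 4^(Ms I)), so the digit sum goes up by one.
`s2_top_sub`: Ms (I+1) - Ms r = 4^(Ms r) * w with w odd (w = the w of Ms_split for I+1), s2 w = I + 1 - r;
Ms (I+1) - Ms r - 1 - x = 4^(Ms r) * (w-1) + (4^(Ms r) - 1 - x), s2 (w-1) = s2 w - 1 as w is odd, `s2_compl`.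
`s2_top_add`, `val_top`: same decomposition with `s2_pow_mul_add`, `val_pow_sub`.
`val_Ms_add`: v = padicValNat 2 (Ms u + c). If v <= 2 nothing to do except c = ... : in general Ms u mod 2^v has only
even digits, so Ms u mod 2^v <= (2^(v+1) - 1)/3 hence (2^v divides Ms u + c, c > 0) c >= 2^v - (2^(v+1)-1)/3 >= 2^v / 3,
i.e. 3 c >= 2^v + 1; so 2 v <= c + 3 follows for v = 0, 1, 2 directly (2 v <= 4 <= c + 3 for c >= 1), for v = 3
we need c >= 3: 3 c >= 9 ok; v = 4: 3c >= 17, c >= 6, 8 <= 9 ok; v >= 5: 2^v + 1 >= 3 (2 v - 3).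
(The bound 3 * (Ms u mod 2^v) < 2^(v+1): prove  3 * (Ms u % 2^v) + 1 <= 2^(v+1)  by induction on u.)
`val_Ms_add4`: for I >= 2, Ms I = 5 mod 8 (indeed 5 mod 1024 or Ms I = 5): v = 0, 1, 2: need 4 v <= c + 9: v = 2 ok
(8 <= 10). v = 3: c = -5 = 3 mod 8 so c >= 3: 12 <= 12 ok. v = 4: 3 c >= 17, c >= 6, and c = 3 mod 8, so c >= 11.
v >= 5: 3c >= 2^v + 1 gives c + 9 >= 4 v for v >= 6 (c >= 22, 24 <= 31; then growth), and v = 5: c >= 11. -/

set_option autoImplicit false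

namespace Pool.Agent.Helper44.BZ

theorem Ms_lt_succ (r : ℕ) : Ms r < Ms (r + 1) := by
  have h : Ms (r + 1) = Ms r + 4 ^ Ms r := rfl
  have h2 : 0 < 4 ^ Ms r := pow_pos (by norm_num) _
  omega

theorem Ms_strictMono : StrictMono Ms := strictMono_nat_of_lt_succ Ms_lt_succ

theorem Ms_one : Ms 1 = 1 := by
  have h : Ms (0 + 1) = Ms 0 + 4 ^ Ms 0 := rfl
  have h0 : Ms 0 = 0 := rfl
  rw [h0] at h
  simpa using h

theorem Ms_two : Ms 2 = 5 := by
  have h : Ms (1 + 1) = Ms 1 + 4 ^ Ms 1 := rfl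
  rw [Ms_one] at h
  simpa using h

theorem Ms_three' : Ms 3 = 1029 := by
  have h : Ms (2 + 1) = Ms 2 + 4 ^ Ms 2 := rfl
  rw [Ms_two] at h
  norm_num at h
  exact h

theorem Ms_succ_eq (r : ℕ) : Ms (r + 1) = Ms r + 4 ^ Ms r := rfl

theorem Ms_five (r : ℕ) : 5 * Ms r ≤ Ms (r + 1) := by
  have h : ∀ x : ℕ, 4 * x ≤ 4 ^ x := by
    intro x
    induction x with
    | zero => norm_num
    | succ x ih =>
      have h1 : x < 4 ^ x := Nat.lt_pow_self (by norm_num)
      rw [pow_succ]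
      omega
  have h1 := h (Ms r)
  rw [Ms_succ_eq]
  omega

theorem Ms_lt_pow (r : ℕ) : Ms r < 4 ^ Ms r := Nat.lt_pow_self (by norm_num)

theorem three_mul_lt (x : ℕ) : 3 * x < 4 ^ x := by
  induction x with
  | zero => norm_num
  | succ x ih =>
    rw [pow_succ]
    omega

theorem Ms_three (r : ℕ) (hr : 1 ≤ r) : 3 * Ms r < 4 ^ Ms r := three_mul_lt _

theorem Ms_pos (r : ℕ) (hr : 1 ≤ r) : 1 ≤ Ms r := by
  have h := Ms_strictMono.monotone hr
  rwa [Ms_one] at h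

theorem Ms_odd (r : ℕ) (hr : 1 ≤ r) : Odd (Ms r) := by
  induction r, hr using Nat.le_induction with
  | base => rw [Ms_one]; exact odd_one
  | succ r hr ih =>
    rw [Ms_succ_eq]
    refine ih.add_even ?_
    exact Even.pow_of_ne_zero (by decide) (by have := Ms_pos r hr; omega)

theorem four_pow (e : ℕ) : (4 : ℕ) ^ e = 2 ^ (2 * e) := by
  rw [pow_mul]
  norm_num

theorem s2_Ms (r : ℕ) : s2 (Ms r) = r := by
  induction r with
  | zero => exact s2_zero
  | succ r ih =>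
    have h1 := Ms_lt_pow r
    rw [four_pow] at h1
    have h2 := s2_pow_mul_add (2 * Ms r) 1 (Ms r) h1
    have h3 : Ms (r + 1) = 2 ^ (2 * Ms r) * 1 + Ms r := by
      rw [Ms_succ_eq, four_pow]
      omega
    rw [h3, h2, ih, s2_one]
    omega

theorem s2_three : s2 3 = 2 := by
  have h := s2_two_mul_add_one 1
  rw [s2_one] at h
  simpa using h

theorem s2_three_Ms (r : ℕ) : s2 (3 * Ms r) = 2 * r := by
  induction r with
  | zero => exact s2_zero
  | succ r ih =>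
    have h1 := three_mul_lt (Ms r)
    rw [four_pow] at h1
    have h2 := s2_pow_mul_add (2 * Ms r) 3 (3 * Ms r) h1
    have h3 : 3 * Ms (r + 1) = 2 ^ (2 * Ms r) * 3 + 3 * Ms r := by
      rw [Ms_succ_eq, four_pow]
      ring
    rw [h3, h2, ih, s2_three]
    omega

theorem Ms_split (I r : ℕ) (h : r ≤ I) :
    ∃ w : ℕ, Ms I = Ms r + 4 ^ Ms r * w ∧ s2 w = I - r ∧ (r < I → w % 4 = 1) := by
  induction I, h using Nat.le_induction with
  | base =>
    refine ⟨0, by simp, ?_, fun h => absurd h (lt_irrefl _)⟩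
    rw [s2_zero]
    omega
  | succ I hI ih =>
    obtain ⟨w, h1, h2, h3⟩ := ih
    have hle : Ms r ≤ Ms I := Ms_strictMono.monotone hI
    obtain ⟨e, he⟩ := Nat.exists_eq_add_of_le hle
    have hpow : 4 ^ Ms I = 4 ^ Ms r * 4 ^ e := by rw [he, pow_add]
    have hw : w < 4 ^ e := by
      have h4 := Ms_lt_pow I
      have h5 : 4 ^ Ms r * w < 4 ^ Ms r * 4 ^ e := by
        rw [← hpow]
        omega
      exact lt_of_mul_lt_mul_left h5 (Nat.zero_le _)
    have hw2 := hw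
    rw [four_pow] at hw2
    have h6 := s2_pow_mul_add (2 * e) 1 w hw2
    refine ⟨2 ^ (2 * e) * 1 + w, ?_, ?_, fun _ => ?_⟩
    · rw [Ms_succ_eq, hpow, ← four_pow]
      calc Ms I + 4 ^ Ms r * 4 ^ e = (Ms r + 4 ^ Ms r * w) + 4 ^ Ms r * 4 ^ e := by rw [← h1]
        _ = Ms r + 4 ^ Ms r * (4 ^ e * 1 + w) := by ring
    · rw [h6, h2, s2_one]
      omega
    · rw [← four_pow]
      rcases Nat.lt_or_ge r I with h7 | h7
      · have h8 := h3 h7
        have h9 : Ms r < Ms I := Ms_strictMono h7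
        obtain ⟨e', rfl⟩ : ∃ e', e = e' + 1 := ⟨e - 1, by omega⟩
        rw [pow_succ]
        omega
      · have h8 : r = I := le_antisymm hI h7
        subst h8
        have h9 : e = 0 := by omega
        subst h9
        simp at hw
        subst hw
        simp

theorem s2_top_sub (I r x : ℕ) (h : r ≤ I) (hx : x < 4 ^ Ms r) :
    s2 (Ms (I + 1) - Ms r - 1 - x) + s2 x = (I - r) + 2 * Ms r := by
  obtain ⟨w, h1, h2, h3⟩ := Ms_split (I + 1) r (by omega)
  have h4 := h3 (by omega)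
  obtain ⟨u, rfl⟩ : ∃ u, w = 2 * u + 1 := ⟨w / 2, by omega⟩
  rw [s2_two_mul_add_one] at h2
  rw [four_pow] at hx
  have h5 := s2_compl (2 * Ms r) x hx
  have h6 := s2_pow_mul_add (2 * Ms r) (2 * u) (2 ^ (2 * Ms r) - 1 - x) (by omega)
  rw [s2_two_mul] at h6
  have h7 : Ms (I + 1) - Ms r - 1 - x = 2 ^ (2 * Ms r) * (2 * u) + (2 ^ (2 * Ms r) - 1 - x) := by
    rw [h1, four_pow, Nat.mul_add, Nat.mul_one]
    omega
  rw [h7, h6]
  omega

theorem s2_top_add (I r x : ℕ) (h : r ≤ I) (hx : x < 4 ^ Ms r) :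
    s2 (Ms (I + 1) - Ms r + x) = (I - r) + 1 + s2 x := by
  obtain ⟨w, h1, h2, h3⟩ := Ms_split (I + 1) r (by omega)
  rw [four_pow] at hx
  have h6 := s2_pow_mul_add (2 * Ms r) w x hx
  have h7 : Ms (I + 1) - Ms r + x = 2 ^ (2 * Ms r) * w + x := by
    rw [h1, four_pow]
    omega
  rw [h7, h6, h2]
  omega

theorem val_top (I r x : ℕ) (h : r ≤ I) (h0 : 0 < x) (hx : x < 4 ^ Ms r) :
    padicValNat 2 (Ms (I + 1) - Ms r - x) = padicValNat 2 x := by
  obtain ⟨w, h1, h2, h3⟩ := Ms_split (I + 1) r (by omega)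
  have h4 := h3 (by omega)
  rw [four_pow] at hx
  have h7 : Ms (I + 1) - Ms r - x = 2 ^ (2 * Ms r) * w - x := by
    rw [h1, four_pow]
    omega
  rw [h7]
  exact val_pow_sub _ _ _ (by omega) h0 hx

theorem val_top_zero (I r : ℕ) (h : r ≤ I) : padicValNat 2 (Ms (I + 1) - Ms r) = 2 * Ms r := by
  obtain ⟨w, h1, h2, h3⟩ := Ms_split (I + 1) r (by omega)
  have h4 := h3 (by omega)
  have h7 : Ms (I + 1) - Ms r = 2 ^ (2 * Ms r) * w := by
    rw [h1, four_pow]
    omega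
  have hw : w ≠ 0 := by omega
  have h8 : padicValNat 2 w = 0 := padicValNat.eq_zero_of_not_dvd (by omega)
  rw [h7, padicValNat.mul (pow_ne_zero _ (by norm_num)) hw, padicValNat.prime_pow, h8]
  rfl

theorem Ms_mod (u v : ℕ) : 3 * (Ms u % 2 ^ v) + 1 ≤ 2 ^ (v + 1) := by
  induction u with
  | zero =>
    have h : Ms 0 = 0 := rfl
    rw [h]
    have := pow_pos (show 0 < 2 by norm_num) (v + 1)
    simp
    omega
  | succ u ih =>
    rw [Ms_succ_eq, four_pow]
    rcases Nat.lt_or_ge (2 * Ms u) v with h | h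
    · obtain ⟨d, rfl⟩ : ∃ d, v = 2 * Ms u + 1 + d := ⟨v - (2 * Ms u + 1), by omega⟩
      have h1 := three_mul_lt (Ms u)
      rw [four_pow] at h1
      have h3 : (1 : ℕ) ≤ 2 ^ d := Nat.one_le_two_pow
      have h4 : 2 ^ (2 * Ms u + 1 + d + 1) = 4 * (2 ^ (2 * Ms u) * 2 ^ d) := by ring
      have h5 : 2 ^ (2 * Ms u) * 1 ≤ 2 ^ (2 * Ms u) * 2 ^ d := Nat.mul_le_mul_left _ h3
      have h6 := Nat.mod_le (Ms u + 2 ^ (2 * Ms u)) (2 ^ (2 * Ms u + 1 + d))
      omega
    · obtain ⟨d, hd⟩ := Nat.exists_eq_add_of_le h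
      have h2 : (Ms u + 2 ^ (2 * Ms u)) % 2 ^ v = Ms u % 2 ^ v := by
        rw [hd, pow_add, Nat.add_mul_mod_self_left]
      rw [h2]
      exact ih

theorem three_mul_ge (u c : ℕ) (hc : 1 ≤ c) : 2 ^ padicValNat 2 (Ms u + c) + 1 ≤ 3 * c := by
  set v := padicValNat 2 (Ms u + c) with hv
  have h1 : 2 ^ v ∣ Ms u + c := pow_padicValNat_dvd
  have h2 := Ms_mod u v
  have h3 : 2 ^ v ∣ Ms u % 2 ^ v + c := by
    have h4 : Ms u + c = 2 ^ v * (Ms u / 2 ^ v) + (Ms u % 2 ^ v + c) := by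
      rw [← Nat.add_assoc, Nat.div_add_mod]
    rw [h4] at h1
    exact (Nat.dvd_add_right (Dvd.intro _ rfl)).1 h1
  have h5 := Nat.le_of_dvd (by omega) h3
  rw [pow_succ] at h2
  omega

theorem six_le (v : ℕ) : 6 * v ≤ 2 ^ v + 10 := by
  have h : ∀ d : ℕ, 6 * (d + 3) ≤ 2 ^ (d + 3) + 10 ∧ 8 ≤ 2 ^ (d + 3) := by
    intro d
    induction d with
    | zero => norm_num
    | succ d ih =>
      have h1 : 2 ^ (d + 1 + 3) = 2 * 2 ^ (d + 3) := by ring
      omega
  rcases Nat.lt_or_ge v 3 with h1 | h1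
  · interval_cases v <;> norm_num
  · obtain ⟨d, rfl⟩ := Nat.exists_eq_add_of_le h1
    have := (h d).1
    rw [add_comm 3 d]
    exact this

theorem val_Ms_add (u c : ℕ) (hc : 1 ≤ c) : 2 * padicValNat 2 (Ms u + c) ≤ c + 3 := by
  have h1 := three_mul_ge u c hc
  have h2 := six_le (padicValNat 2 (Ms u + c))
  omega

theorem Ms_mod8 (I : ℕ) (hI : 2 ≤ I) : Ms I % 8 = 5 := by
  induction I, hI using Nat.le_induction with
  | base => rw [Ms_two]
  | succ I hI ih =>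
    rw [Ms_succ_eq]
    have h1 : 5 ≤ Ms I := by
      have h := Ms_strictMono.monotone hI
      rwa [Ms_two] at h
    obtain ⟨e, he⟩ := Nat.exists_eq_add_of_le h1
    have h2 : 4 ^ Ms I = 8 * (128 * 4 ^ e) := by
      rw [he, pow_add]
      ring
    rw [h2]
    omega

theorem twelve_le (v : ℕ) (hv : 5 ≤ v) : 12 * v ≤ 2 ^ v + 28 := by
  induction v, hv using Nat.le_induction with
  | base => norm_num
  | succ v hv ih =>
    have h1 : 2 ^ 4 ≤ 2 ^ v := Nat.pow_le_pow_right (by norm_num) (by omega)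
    rw [pow_succ]
    omega

theorem val_Ms_add4 (I c : ℕ) (hI : 2 ≤ I) (hc : 1 ≤ c) : 4 * padicValNat 2 (Ms I + c) ≤ c + 9 := by
  have h1 := three_mul_ge I c hc
  have h8 := Ms_mod8 I hI
  have hd : 2 ^ padicValNat 2 (Ms I + c) ∣ Ms I + c := pow_padicValNat_dvd
  generalize padicValNat 2 (Ms I + c) = v at h1 hd
  rcases Nat.lt_or_ge v 5 with hv | hv
  · interval_cases v
    · omega
    · omega
    · omega
    · norm_num at hd
      omega
    · norm_num at hd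
      have h9 : 8 ∣ Ms I + c := Dvd.dvd.trans (by norm_num) hd
      norm_num at h1
      omega
  · have h2 := twelve_le v hv
    omega

/-- the level of x: the index r <= I with Ms r < x and (r < I -> x < Ms (r+1)), for x > 0 outside the pattern -/
theorem level_exists (I x : ℕ) (hx : 1 ≤ x) (hoff : x ∉ pat I) :
    ∃ r ≤ I, Ms r < x ∧ (r < I → x < Ms (r + 1)) := by
  induction I with
  | zero => exact ⟨0, le_refl _, by have h : Ms 0 = 0 := rfl; omega, fun h => absurd h (lt_irrefl _)⟩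
  | succ I ih =>
    have h1 : x ∉ pat I := by
      intro h
      apply hoff
      simp only [pat, Finset.mem_image, Finset.mem_range] at h ⊢
      obtain ⟨a, ha, hb⟩ := h
      exact ⟨a, by omega, hb⟩
    have h2 : x ≠ Ms (I + 1) := by
      intro h
      apply hoff
      simp only [pat, Finset.mem_image, Finset.mem_range]
      exact ⟨I + 1, by omega, h.symm⟩
    obtain ⟨r, hr, h3, h4⟩ := ih h1
    rcases Nat.lt_or_ge r I with h5 | h5
    · exact ⟨r, by omega, h3, fun _ => h4 h5⟩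
    · have h6 : r = I := le_antisymm hr h5
      subst h6
      rcases Nat.lt_or_ge x (Ms (r + 1)) with h7 | h7
      · exact ⟨r, by omega, h3, fun _ => h7⟩
      · exact ⟨r + 1, le_refl _, by omega, fun h => absurd h (lt_irrefl _)⟩

/-- the level of x >= 1: index s with Ms s < x <= Ms (s+1) -/
theorem level_exists' (x : ℕ) (hx : 1 ≤ x) : ∃ s, Ms s < x ∧ x ≤ Ms (s + 1) := by
  have hex : ∃ s, x ≤ Ms s := ⟨x, Ms_strictMono.le_apply⟩
  classical
  have h1 := Nat.find_spec hex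
  have h2 : Nat.find hex ≠ 0 := by
    intro h
    rw [h] at h1
    have h0 : Ms 0 = 0 := rfl
    omega
  obtain ⟨s, hs⟩ := Nat.exists_eq_succ_of_ne_zero h2
  refine ⟨s, ?_, ?_⟩
  · have h3 := Nat.find_min hex (m := s) (by omega)
    omega
  · rw [hs] at h1
    exact h1

/-- s2 of the numerator-type numbers -/
theorem s2_big_sub (I r : ℕ) (h : r ≤ I) : s2 (Ms (I + 1) + Ms I - Ms r) = I + 1 := by
  rcases Nat.lt_or_ge r I with h5 | h5
  · obtain ⟨w, h1, h2, h3⟩ := Ms_split I r h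
    have hlt := Ms_lt_pow r
    rw [four_pow] at hlt h1
    have h6 := s2_pow_mul_add (2 * Ms r) (2 * w) (Ms r) hlt
    rw [s2_two_mul, h2, s2_Ms] at h6
    have h7 := three_mul_lt (Ms I)
    rw [four_pow] at h7
    have h8 : 2 ^ (2 * Ms r) * (2 * w) = 2 * (2 ^ (2 * Ms r) * w) := by ring
    have h9 := s2_pow_mul_add (2 * Ms I) 1 (2 ^ (2 * Ms r) * (2 * w) + Ms r) (by omega)
    rw [s2_one, h6] at h9
    have h10 : Ms (I + 1) + Ms I - Ms r = 2 ^ (2 * Ms I) * 1 + (2 ^ (2 * Ms r) * (2 * w) + Ms r) := by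
      rw [Ms_succ_eq, four_pow]
      omega
    rw [h10, h9]
    omega
  · have h6 : r = I := le_antisymm h h5
    subst h6
    rw [Nat.add_sub_cancel]
    exact s2_Ms (r + 1)

end Pool.Agent.Helper44.BZ
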