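import Mathlib
import Pool.Agent.Helper44.BZ.Defs
import Pool.Agent.Helper44.BZ.S2A
import Pool.Agent.Helper44.BZ.MsA
import Pool.Agent.Helper44.BZ.Dcl

/-! Block BZB-DVAL. Valuations of the diagonal entries.
From `Dq_closed` (the product over t is odd) and v(x!) = x - s(x) (s = s2), v((-4)^m) = 2m:
  v(Dq n m) = 2m + (2n-1 - s(2n-1)) + (n-2m - s(n-2m)) + (n-2m-1 - s(n-2m-1)) - (n-1 - s(n-1)) - (2n-3m-1 - s(2n-3m-1)) - (n-3m - s(n-3m))
            = 4m - 1 + s(2n-3m-1) + s(n-3m) - s(n-2m) - s(n-2m-1),         using s(2n-1) = s(n-1) + 1.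
`D_val_q`: n = nn I, q = qq I, M = Ms I, n - 2q = Ms (I+1) = M + 4^M =: d; 2n-3q-1 = 2*4^M + 3M, s = 1 + 2I (s2_three_Ms, 3M < 4^M);
n-3q = 4^M - 1, s = 2M; s(n-2q) = s(Ms (I+1)) = I+1; s(n-2q-1) = I (d is odd). So v = 4q-1 + 1+2I + 2M - (I+1) - I = 4q-1+2M = 6q-3.
`D_val_lt`: m <= M: n = 4^M + 3M + 2; 2n-3m-1 = 2*4^M + (6M+3-3m), 6M+3-3m < 2^l, so s <= 1 + l (subadditivity); n-3m = 4^M + (3M+2-3m),
s <= 1 + l; s(n-2m), s(n-2m-1) >= 1. So v <= 4m-1+2+2l-2. -/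

set_option autoImplicit false

namespace Pool.Agent.Helper44.BZ

open Finset

private theorem odd_prod_h2 (n : ℕ) : ∀ m : ℕ, m ≤ n → ∃ N : ℕ, Odd N ∧
    (∏ t ∈ range m, ((2 * (t : ℚ) + 1) * (2 * (n : ℚ) - 2 * t - 1))) = (N : ℚ) := by
  intro m
  induction m with
  | zero =>
    intro _
    exact ⟨1, odd_one, by simp⟩
  | succ m ih =>
    intro hm
    obtain ⟨N, hN, h⟩ := ih (by omega)
    refine ⟨N * ((2 * m + 1) * (2 * (n - m - 1) + 1)), ?_, ?_⟩
    · refine hN.mul (Odd.mul ⟨m, rfl⟩ ⟨n - m - 1, rfl⟩)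
    · rw [Finset.prod_range_succ, h]
      have e : ((n - m - 1 : ℕ) : ℚ) = (n : ℚ) - m - 1 := by
        rw [Nat.cast_sub (by omega), Nat.cast_sub (by omega)]
        push_cast
        ring
      push_cast
      rw [e]
      ring

private theorem val_fact_h2 (x : ℕ) :
    padicValRat 2 ((Nat.factorial x : ℕ) : ℚ) = (x : ℤ) - s2 x := by
  rw [padicValRat.of_nat]
  have := val_fact x
  omega

private theorem val_four_h2 (m : ℕ) : padicValRat 2 ((-4 : ℚ) ^ m) = 2 * (m : ℤ) := by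
  have h4 : padicValRat 2 (-4 : ℚ) = 2 := by
    rw [padicValRat.neg]
    have e : (4 : ℚ) = (2 : ℚ) ^ 2 := by norm_num
    rw [e, padicValRat.pow]
    have h2 : padicValRat 2 (2 : ℚ) = 1 := by
      have := padicValRat.self (p := 2) (by norm_num)
      exact_mod_cast this
    rw [h2]
    norm_num
  rw [padicValRat.pow, h4]
  ring

theorem D_val (n m : ℕ) (hm : 3 * m ≤ n) (hm' : 2 * m + 1 ≤ n) :
    padicValRat 2 (Dq n m) = 4 * (m : ℤ) - 1 + s2 (2 * n - 3 * m - 1) + s2 (n - 3 * m) - s2 (n - 2 * m) - s2 (n - 2 * m - 1) := by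
  have hc := Dq_closed n m hm (by omega) hm'
  have hD := Dq_ne_zero n m hm hm'
  obtain ⟨N, hN, hP⟩ := odd_prod_h2 n m (by omega)
  have hN0 : (N : ℚ) ≠ 0 := by
    have : N ≠ 0 := by
      rintro rfl
      exact absurd hN (by decide)
    exact_mod_cast this
  have hf : ∀ x : ℕ, ((Nat.factorial x : ℕ) : ℚ) ≠ 0 := fun x => by
    exact_mod_cast Nat.factorial_ne_zero x
  have hNv : padicValRat 2 (N : ℚ) = 0 := by
    rw [padicValRat.of_nat, padicValNat.eq_zero_of_not_dvd]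
    · rfl
    · intro h
      exact (Nat.not_even_iff_odd.2 hN) (even_iff_two_dvd.2 h)
  rw [hP] at hc
  have hv := congrArg (padicValRat 2) hc
  rw [padicValRat.mul (mul_ne_zero hD hN0) (mul_ne_zero (mul_ne_zero (hf _) (hf _)) (hf _)),
    padicValRat.mul hD hN0, padicValRat.mul (mul_ne_zero (hf _) (hf _)) (hf _),
    padicValRat.mul (hf _) (hf _),
    padicValRat.mul (pow_ne_zero _ (by norm_num)) (mul_ne_zero (mul_ne_zero (hf _) (hf _)) (hf _)),
    padicValRat.mul (mul_ne_zero (hf _) (hf _)) (hf _), padicValRat.mul (hf _) (hf _),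
    hNv, val_four_h2, val_fact_h2, val_fact_h2, val_fact_h2, val_fact_h2, val_fact_h2,
    val_fact_h2] at hv
  have hs : s2 (2 * n - 1) = s2 (n - 1) + 1 := by
    have e : 2 * n - 1 = 2 * (n - 1) + 1 := by omega
    rw [e, s2_two_mul_add_one]
  rw [hs] at hv
  omega

private theorem four_pow_h2 (M : ℕ) : 4 ^ M = 2 ^ (2 * M) := by
  rw [pow_mul]
  norm_num

private theorem s2_two_h2 : s2 2 = 1 := by
  have := s2_two_mul 1
  rw [s2_one] at this
  exact this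

private theorem nn_eq_h2 (I : ℕ) : nn I = 4 ^ Ms I + 3 * Ms I + 2 := by
  unfold nn qq
  show 2 * (Ms I + 1) + (Ms I + 4 ^ Ms I) = _
  ring

theorem D_val_q (I : ℕ) (hI : 1 ≤ I) : padicValRat 2 (Dq (nn I) (qq I)) = hh I := by
  have hn := nn_eq_h2 I
  have hq : qq I = Ms I + 1 := rfl
  have hM : Ms (I + 1) = Ms I + 4 ^ Ms I := rfl
  have hp : 1 ≤ 4 ^ Ms I := Nat.one_le_pow _ _ (by norm_num)
  rw [D_val (nn I) (qq I) (by omega) (by omega)]
  have e1 : 2 * nn I - 3 * qq I - 1 = 2 ^ (2 * Ms I) * 2 + 3 * Ms I := by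
    rw [← four_pow_h2]
    omega
  have e2 : nn I - 3 * qq I = 2 ^ (2 * Ms I) - 1 - 0 := by
    rw [← four_pow_h2]
    omega
  have e3 : nn I - 2 * qq I = Ms (I + 1) := by omega
  have h3 := Ms_three I hI
  rw [four_pow_h2] at h3
  have f1 : s2 (2 * nn I - 3 * qq I - 1) = 1 + 2 * I := by
    rw [e1, s2_pow_mul_add _ _ _ h3, s2_two_h2, s2_three_Ms]
  have f2 : s2 (nn I - 3 * qq I) = 2 * Ms I := by
    have := s2_compl (2 * Ms I) 0 (by positivity)
    rw [s2_zero] at this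
    rw [e2]
    omega
  have f3 : s2 (nn I - 2 * qq I) = I + 1 := by rw [e3, s2_Ms]
  have f4 : s2 (nn I - 2 * qq I - 1) = I := by
    rw [e3]
    obtain ⟨a, ha⟩ := Ms_odd (I + 1) (by omega)
    have g1 := s2_Ms (I + 1)
    rw [ha, s2_two_mul_add_one] at g1
    rw [ha, Nat.add_sub_cancel, s2_two_mul]
    omega
  rw [f1, f2, f3, f4]
  unfold hh
  push_cast
  omega

theorem D_val_lt (I l m : ℕ) (hI : 1 ≤ I) (hl : 6 * Ms I + 3 < 2 ^ l) (hm : m < qq I) :
    padicValRat 2 (Dq (nn I) m) ≤ 4 * (m : ℤ) + 2 * l := by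
  have hn := nn_eq_h2 I
  have hq : qq I = Ms I + 1 := rfl
  have hp : 1 ≤ 4 ^ Ms I := Nat.one_le_pow _ _ (by norm_num)
  rw [D_val (nn I) m (by omega) (by omega)]
  have hpw : ∀ w : ℕ, s2 (2 ^ (2 * Ms I) * w) = s2 w := by
    intro w
    have := s2_pow_mul_add (2 * Ms I) w 0 (by positivity)
    rw [add_zero, s2_zero, add_zero] at this
    exact this
  have e1 : 2 * nn I - 3 * m - 1 = 2 ^ (2 * Ms I) * 2 + (6 * Ms I + 3 - 3 * m) := by
    rw [← four_pow_h2]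
    omega
  have e2 : nn I - 3 * m = 2 ^ (2 * Ms I) * 1 + (3 * Ms I + 2 - 3 * m) := by
    rw [← four_pow_h2]
    omega
  have f1 : s2 (2 * nn I - 3 * m - 1) ≤ 1 + l := by
    rw [e1]
    refine (s2_add_le _ _).trans ?_
    rw [hpw, s2_two_h2]
    exact Nat.add_le_add_left (s2_le_of_lt l _ (by omega)) 1
  have f2 : s2 (nn I - 3 * m) ≤ 1 + l := by
    rw [e2]
    refine (s2_add_le _ _).trans ?_
    rw [hpw, s2_one]
    exact Nat.add_le_add_left (s2_le_of_lt l _ (by omega)) 1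
  have f3 : 0 < s2 (nn I - 2 * m) := s2_pos _ (by omega)
  have f4 : 0 < s2 (nn I - 2 * m - 1) := s2_pos _ (by omega)
  omega

end Pool.Agent.Helper44.BZ
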