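import Mathlib

/-! Block BZB-LAG (only Mathlib). Divided differences. Let `n` be a natural number, `j < i`, `2 * i < n` (so that the numbers
w_k := k (n-k), j <= k <= i, are pairwise different: w_k - w_s = (k-s)(n-k-s)). For a polynomial Q of degree < i - j
  sum_{k=j}^{i} (-1)^(k-j) / ((i-k)! (k-j)!) * (n-2k) * Q(w_k) / prod_{s=j}^{i} (n-k-s) = 0.
Proof. prod_{s in [j,i], s <> k} (w_k - w_s) = prod_{s<>k} (k-s) * prod_{s<>k} (n-k-s) = (k-j)! (-1)^(i-k) (i-k)! * prod_{s=j}^{i} (n-k-s) / (n-2k).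
So up to the sign (-1)^(i-j) the sum is sum_k Q(w_k) / prod_{s<>k} (w_k - w_s), the coefficient of X^(i-j) in the Lagrange interpolation
polynomial of Q at the i-j+1 nodes w_j, ..., w_i; as deg Q < i-j+1 the interpolation polynomial is Q itself, whose coefficient of
X^(i-j) is 0. (Mathlib: `Lagrange.interpolate`, `Lagrange.eq_interpolate_of_eval_eq` / `Lagrange.eq_interpolate`, `Lagrange.basis`,
coefficient of X^(i-j) in `Lagrange.basis` = product of inverses of differences: leading coefficient of a product of linear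
polynomials; or `Lagrange.sum_basis`-style arguments, or induction.) -/

set_option autoImplicit false

namespace Pool.Agent.Helper44.BZ

open Finset

private theorem lag_lo (j k : ℕ) (h : j ≤ k) :
    ∏ s ∈ Ico j k, ((k : ℚ) - s) = (Nat.factorial (k - j) : ℚ) := by
  obtain ⟨m, rfl⟩ := Nat.exists_eq_add_of_le h
  rw [Nat.add_sub_cancel_left, Finset.prod_Ico_eq_prod_range, Nat.add_sub_cancel_left]
  have h1 : ∀ t ∈ range m, (((j + m : ℕ) : ℚ) - ((j + t : ℕ) : ℚ)) = ((m - t : ℕ) : ℚ) := by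
    intro t ht
    rw [Nat.cast_sub (mem_range.1 ht).le]
    push_cast
    ring
  rw [prod_congr rfl h1, ← Nat.cast_prod]
  congr 1
  rw [← Finset.prod_range_reflect, ← Finset.prod_range_add_one_eq_factorial]
  refine prod_congr rfl fun t ht => ?_
  have := mem_range.1 ht
  omega

private theorem lag_hi (k i : ℕ) (h : k ≤ i) :
    ∏ s ∈ Ioc k i, ((k : ℚ) - s) = (-1) ^ (i - k) * (Nat.factorial (i - k) : ℚ) := by
  obtain ⟨m, rfl⟩ := Nat.exists_eq_add_of_le h
  rw [Nat.add_sub_cancel_left]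
  have h0 : Ioc k (k + m) = Ico (k + 1) (k + m + 1) := by
    ext x
    simp only [mem_Ioc, mem_Ico]
    omega
  rw [h0, Finset.prod_Ico_eq_prod_range]
  have h2 : k + m + 1 - (k + 1) = m := by omega
  rw [h2]
  have h1 : ∀ t ∈ range m, ((k : ℚ) - ((k + 1 + t : ℕ) : ℚ)) = (-1) * ((t + 1 : ℕ) : ℚ) := by
    intro t _
    push_cast
    ring
  rw [prod_congr rfl h1, prod_mul_distrib, prod_const, card_range, ← Nat.cast_prod,
    Finset.prod_range_add_one_eq_factorial]

private theorem lag_mid (j k i : ℕ) (h : j ≤ k) (h' : k ≤ i) :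
    ∏ s ∈ (Icc j i).erase k, ((k : ℚ) - s) =
      (-1) ^ (i - k) * (Nat.factorial (i - k) : ℚ) * (Nat.factorial (k - j) : ℚ) := by
  have h0 : (Icc j i).erase k = Ico j k ∪ Ioc k i := by
    ext x
    simp only [mem_erase, mem_Icc, mem_union, mem_Ico, mem_Ioc]
    omega
  have h1 : Disjoint (Ico j k) (Ioc k i) := by
    rw [Finset.disjoint_left]
    intro x hx hx'
    simp only [mem_Ico, mem_Ioc] at hx hx'
    omega
  rw [h0, prod_union h1, lag_lo j k h, lag_hi k i h']
  ring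

theorem lag (n i j : ℕ) (hij : j < i) (hn : 2 * i < n) (Q : Polynomial ℚ) (hQ : Q.degree < ((i - j : ℕ) : ℕ)) :
    ∑ k ∈ Icc j i, (-1 : ℚ) ^ (k - j) / ((Nat.factorial (i - k) : ℚ) * Nat.factorial (k - j)) * ((n : ℚ) - 2 * k) *
        Q.eval ((k : ℚ) * ((n : ℚ) - k)) / (∏ s ∈ Icc j i, ((n : ℚ) - k - s)) = 0 := by
  set v : ℕ → ℚ := fun k => (k : ℚ) * ((n : ℚ) - k) with hv
  have hdiff : ∀ k s : ℕ, v k - v s = ((k : ℚ) - s) * ((n : ℚ) - k - s) := by
    intro k s
    simp only [hv]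
    ring
  have hne : ∀ k ∈ Icc j i, ∀ s ∈ Icc j i, ((n : ℚ) - k - s) ≠ 0 := by
    intro k hk s hs
    have h1 := (mem_Icc.1 hk).2
    have h2 := (mem_Icc.1 hs).2
    have h3 : ((k + s : ℕ) : ℚ) < (n : ℚ) := by
      exact_mod_cast (by omega : k + s < n)
    push_cast at h3
    intro h
    linarith
  have hinj : Set.InjOn v (Icc j i : Finset ℕ) := by
    intro k hk s hs hks
    have h1 := hdiff k s
    rw [hks, sub_self] at h1
    rcases mul_eq_zero.1 h1.symm with h | h
    · have : (k : ℚ) = s := by linarith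
      exact_mod_cast this
    · exact absurd h (hne k hk s hs)
  have hcard : (Icc j i).card = i - j + 1 := by
    rw [Nat.card_Icc]
    omega
  have hdeg : Q.degree < ((Icc j i).card : ℕ) := by
    refine lt_trans hQ ?_
    rw [hcard]
    exact_mod_cast Nat.lt_succ_self _
  have hco := Lagrange.coeff_eq_sum hinj hdeg
  rw [hcard, Nat.add_sub_cancel, Polynomial.coeff_eq_zero_of_degree_lt hQ] at hco
  have hterm : ∀ k ∈ Icc j i,
      (-1 : ℚ) ^ (k - j) / ((Nat.factorial (i - k) : ℚ) * Nat.factorial (k - j)) * ((n : ℚ) - 2 * k) *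
        Q.eval ((k : ℚ) * ((n : ℚ) - k)) / (∏ s ∈ Icc j i, ((n : ℚ) - k - s)) =
      (-1) ^ (i - j) * (Q.eval (v k) / ∏ s ∈ (Icc j i).erase k, (v k - v s)) := by
    intro k hk
    have h1 := (mem_Icc.1 hk).1
    have h2 := (mem_Icc.1 hk).2
    have hP : ∏ s ∈ (Icc j i).erase k, (v k - v s) =
        ((-1) ^ (i - k) * (Nat.factorial (i - k) : ℚ) * (Nat.factorial (k - j) : ℚ)) *
          ∏ s ∈ (Icc j i).erase k, ((n : ℚ) - k - s) := by
      rw [← lag_mid j k i h1 h2, ← prod_mul_distrib]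
      exact prod_congr rfl fun s _ => hdiff k s
    have hR : ∏ s ∈ Icc j i, ((n : ℚ) - k - s) =
        ((n : ℚ) - 2 * k) * ∏ s ∈ (Icc j i).erase k, ((n : ℚ) - k - s) := by
      rw [← Finset.mul_prod_erase (Icc j i) _ hk]
      ring
    have hn0 : ((n : ℚ) - 2 * k) ≠ 0 := by
      have := hne k hk k hk
      intro h
      apply this
      linarith
    have hE : ∏ s ∈ (Icc j i).erase k, ((n : ℚ) - k - s) ≠ 0 :=
      prod_ne_zero_iff.2 fun s hs => hne k hk s (mem_of_mem_erase hs)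
    have hf1 : (Nat.factorial (i - k) : ℚ) ≠ 0 := by exact_mod_cast (Nat.factorial_ne_zero _)
    have hf2 : (Nat.factorial (k - j) : ℚ) ≠ 0 := by exact_mod_cast (Nat.factorial_ne_zero _)
    have hs1 : ((-1 : ℚ) ^ (i - k)) ≠ 0 := pow_ne_zero _ (by norm_num)
    have hs2 : (-1 : ℚ) ^ (i - j) = (-1) ^ (i - k) * (-1) ^ (k - j) := by
      rw [← pow_add]
      congr 1
      omega
    rw [hP, hR, hs2]
    show _ = (-1 : ℚ) ^ (i - k) * (-1) ^ (k - j) * (Q.eval ((k : ℚ) * ((n : ℚ) - k)) / _)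
    field_simp
  rw [sum_congr rfl hterm, ← mul_sum, ← hco, mul_zero]

end Pool.Agent.Helper44.BZ
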