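import Mathlib
import Pool.Agent.Helper44.BZ.Defs
import Pool.Agent.Helper44.BZ.Lag

/-! Block BZB-INVL. Li is the inverse of L. For j < i and j <= k <= i
  Lq n i k * Li n k j = C0 * (-1)^(k-j) / ((i-k)! (k-j)!) * (n-2k) * prod_{s=j+1}^{i-1} ((n-2k)^2 - s^2) / prod_{s=j}^{i} (n-k-s),
  C0 = 2^(i-j) (n-3j) * prod_{t<i-j+1} (n-j-t) / prod_{s<i-j} (2j+1+2s)          (constant in k).
Proof of the term formula: write the products as quotients of factorials (k > j; k = j is similar, Li = 1):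
  L_ik = 2^(i-k) (n+i-2k-1)!/(n-i-1)! * (n-3k)!/(n-2k-i)! * (n-k-i-1)!/(n-2k-1)! / ((i-k)! prod_{s<i-k} (2k+1+2s)),
  Li_kj = (-2)^(k-j) (n-j)!/(n+j-2k)! * (n-3j) (n-j-2k-1)!/(n-3k)! * (n-2k)!/(n-j-k)! / ((k-j)! prod_{s<k-j} (2j+1+2s));
  (n-3k)! cancels; (n+i-2k-1)!/(n+j-2k)! = prod_{s=j+1}^{i-1} (n-2k+s); (n-j-2k-1)!/(n-2k-i)! = prod_{s=j+1}^{i-1} (n-2k-s);
  (n-2k)!/(n-2k-1)! = n-2k; (n-k-i-1)!/(n-j-k)! = 1/prod_{s=j}^{i} (n-k-s); (n-j)!/(n-i-1)! = prod_{t<i-j+1} (n-j-t);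
  prod_{s<i-k} (2k+1+2s) * prod_{s<k-j} (2j+1+2s) = prod_{s<i-j} (2j+1+2s). (Checked by computer.)
The polynomial prod_{s=j+1}^{i-1} ((n-2k)^2 - s^2) is Q(w) with w = k(n-k), (n-2k)^2 = n^2 - 4w, degree i-j-1 < i-j. Apply `lag`.
For i = j the sum is Lq n i i * Li n i i = 1, for i < j it is 0 (Lq n i k = 0 for k > i, Li n k j = 0 for k < j). -/

set_option autoImplicit false

namespace Pool.Agent.Helper44.BZ

open Finset

private lemma D_add21 (x : ℚ) (m m' : ℕ) :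
    ∏ t ∈ range (m + m'), (x - t) = (∏ t ∈ range m, (x - t)) * ∏ t ∈ range m', (x - m - t) := by
  rw [Finset.prod_range_add]
  congr 1
  apply Finset.prod_congr rfl
  intro t _
  push_cast
  ring

private lemma key2_21 (n j k i : ℕ) (hjk : j ≤ k) (hki : k ≤ i) (hji : j < i) :
    (∏ t ∈ range (2 * (i - k)), ((n : ℚ) + i - 2 * k - 1 - t)) * (∏ t ∈ range (2 * (k - j)), ((n : ℚ) - j - t)) =
      (∏ t ∈ range (i - j + 1), ((n : ℚ) - j - t)) * ∏ t ∈ range (i - j - 1), ((n : ℚ) + i - 2 * k - 1 - t) := by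
  obtain ⟨a, rfl⟩ := Nat.exists_eq_add_of_le hjk
  obtain ⟨b, rfl⟩ := Nat.exists_eq_add_of_le hki
  rcases le_total (b + 1) a with h | h
  · obtain ⟨c, rfl⟩ := Nat.exists_eq_add_of_le h
    have e1 : 2 * (j + (b + 1 + c) - j) = (2 * b + 2 + c) + c := by omega
    have e2 : 2 * (j + (b + 1 + c) + b - (j + (b + 1 + c))) = 2 * b := by omega
    have e3 : j + (b + 1 + c) + b - j + 1 = 2 * b + 2 + c := by omega
    have e4 : j + (b + 1 + c) + b - j - 1 = 2 * b + c := by omega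
    rw [e1, e2, e3, e4, D_add21 _ (2 * b + 2 + c) c, D_add21 _ (2 * b) c]
    have : ∏ t ∈ range c, ((n : ℚ) - (j : ℚ) - ((2 * b + 2 + c : ℕ) : ℚ) - t) =
        ∏ t ∈ range c, ((n : ℚ) + ((j + (b + 1 + c) + b : ℕ) : ℚ) - 2 * (((j + (b + 1 + c) : ℕ)) : ℚ) - 1 -
          ((2 * b : ℕ) : ℚ) - t) := by
      apply Finset.prod_congr rfl
      intro t _
      push_cast
      ring
    rw [this]
    ring
  · obtain ⟨c, hc⟩ := Nat.exists_eq_add_of_le h
    have hm : ∃ m, a + b = m + 1 := ⟨a + b - 1, by omega⟩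
    obtain ⟨m, hm⟩ := hm
    have e1 : 2 * (j + a - j) = 2 * a := by omega
    have e2 : 2 * (j + a + b - (j + a)) = m + c := by omega
    have e3 : j + a + b - j + 1 = 2 * a + c := by omega
    have e4 : j + a + b - j - 1 = m := by omega
    rw [e1, e2, e3, e4, D_add21 _ (2 * a) c, D_add21 _ m c]
    have : ∏ t ∈ range c, ((n : ℚ) + ((j + a + b : ℕ) : ℚ) - 2 * ((j + a : ℕ) : ℚ) - 1 - ((m : ℕ) : ℚ) - t) =
        ∏ t ∈ range c, ((n : ℚ) - (j : ℚ) - ((2 * a : ℕ) : ℚ) - t) := by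
      apply Finset.prod_congr rfl
      intro t _
      have h1 : (a : ℚ) + b = m + 1 := by exact_mod_cast hm
      push_cast
      linear_combination h1
    rw [this]
    ring

private noncomputable def Y21 (n k j : ℕ) : ℚ :=
  if k = j then 1 else ((n : ℚ) - 3 * j) * ∏ t ∈ range (k - j - 1), ((n : ℚ) - j - 2 * k - 1 - t)

private lemma key3_21 (n j k i : ℕ) (hjk : j ≤ k) (hki : k ≤ i) (hji : j < i) :
    (∏ t ∈ range (i - k), ((n : ℚ) - 3 * k - t)) * Y21 n k j =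
      ((n : ℚ) - 3 * j) * ∏ t ∈ range (i - j - 1), ((n : ℚ) - j - 2 * k - 1 - t) := by
  unfold Y21
  rcases eq_or_lt_of_le hjk with h | h
  · subst h
    rw [if_pos rfl, mul_one]
    obtain ⟨a, ha⟩ : ∃ a, i = j + (a + 1) := ⟨i - j - 1, by omega⟩
    subst ha
    have e1 : j + (a + 1) - j = a + 1 := by omega
    rw [e1, show a + 1 - 1 = a by omega, Finset.prod_range_succ', mul_comm]
    congr 1
    · push_cast
      ring
    · apply Finset.prod_congr rfl
      intro t _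
      push_cast
      ring
  · rw [if_neg (by omega)]
    obtain ⟨b, rfl⟩ := Nat.exists_eq_add_of_le hki
    obtain ⟨a, ha⟩ : ∃ a, k = j + (a + 1) := ⟨k - j - 1, by omega⟩
    subst ha
    have e1 : j + (a + 1) + b - (j + (a + 1)) = b := by omega
    have e2 : j + (a + 1) + b - j - 1 = a + b := by omega
    have e3 : j + (a + 1) - j - 1 = a := by omega
    rw [e1, e2, e3, D_add21]
    have : ∏ t ∈ range b, ((n : ℚ) - j - 2 * ((j + (a + 1) : ℕ) : ℚ) - 1 - (a : ℚ) - t) =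
        ∏ t ∈ range b, ((n : ℚ) - 3 * ((j + (a + 1) : ℕ) : ℚ) - t) := by
      apply Finset.prod_congr rfl
      intro t _
      push_cast
      ring
    rw [this]
    ring

private lemma key4_21 (n j k l : ℕ) (hjk : j ≤ k) (hkl : k ≤ l) :
    (∏ t ∈ range (k - j), ((n : ℚ) - j - k - t)) * ((n : ℚ) - 2 * k) *
      (∏ t ∈ range (l - k), ((n : ℚ) - 2 * k - 1 - t)) = ∏ s ∈ Icc j l, ((n : ℚ) - k - s) := by
  have e0 : Icc j l = Ico j (l + 1) := by
    ext x; simp only [mem_Icc, mem_Ico]; omega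
  rw [e0, Finset.prod_Ico_eq_prod_range]
  obtain ⟨a, rfl⟩ := Nat.exists_eq_add_of_le hjk
  obtain ⟨b, rfl⟩ := Nat.exists_eq_add_of_le hkl
  have e1 : j + a - j = a := by omega
  have e2 : j + a + b - (j + a) = b := by omega
  have e3 : j + a + b + 1 - j = a + (1 + b) := by omega
  rw [e1, e2, e3]
  have : ∏ x ∈ range (a + (1 + b)), ((n : ℚ) - ((j + a : ℕ) : ℚ) - ((j + x : ℕ) : ℚ)) =
      ∏ t ∈ range (a + (1 + b)), ((n : ℚ) - j - ((j + a : ℕ) : ℚ) - t) := by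
    apply Finset.prod_congr rfl
    intro t _
    push_cast
    ring
  rw [this, D_add21, D_add21 _ 1 b]
  have h2 : ∏ t ∈ range b, ((n : ℚ) - j - ((j + a : ℕ) : ℚ) - (a : ℚ) - ((1 : ℕ) : ℚ) - t) =
      ∏ t ∈ range b, ((n : ℚ) - 2 * ((j + a : ℕ) : ℚ) - 1 - t) := by
    apply Finset.prod_congr rfl
    intro t _
    push_cast
    ring
  rw [h2, Finset.prod_range_one]
  push_cast
  ring

private lemma key1_21 (j k l : ℕ) (hjk : j ≤ k) (hkl : k ≤ l) :
    (∏ t ∈ range (k - j), (2 * (j : ℚ) + 1 + 2 * t)) *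
      (∏ t ∈ range (l - k), (2 * (k : ℚ) + 1 + 2 * t)) =
      ∏ t ∈ range (l - j), (2 * (j : ℚ) + 1 + 2 * t) := by
  obtain ⟨a, rfl⟩ := Nat.exists_eq_add_of_le hjk
  obtain ⟨b, rfl⟩ := Nat.exists_eq_add_of_le hkl
  have e1 : j + a - j = a := by omega
  have e2 : j + a + b - (j + a) = b := by omega
  have e3 : j + a + b - j = a + b := by omega
  rw [e1, e2, e3, Finset.prod_range_add]
  congr 1
  apply Finset.prod_congr rfl
  intro t _
  push_cast
  ring

private noncomputable def Qp21 (n j i : ℕ) : Polynomial ℚ :=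
  ∏ s ∈ range (i - j - 1), (Polynomial.C (-4) * Polynomial.X +
    Polynomial.C ((n : ℚ) ^ 2 - ((j : ℚ) + 1 + s) ^ 2))

private lemma Qp_eval21 (n j k i : ℕ) :
    (Qp21 n j i).eval ((k : ℚ) * ((n : ℚ) - k)) =
      (∏ t ∈ range (i - j - 1), ((n : ℚ) + i - 2 * k - 1 - t)) *
        ∏ t ∈ range (i - j - 1), ((n : ℚ) - j - 2 * k - 1 - t) := by
  unfold Qp21
  have h0 : ∏ t ∈ range (i - j - 1), ((n : ℚ) + i - 2 * k - 1 - t) =
      ∏ t ∈ range (i - j - 1), ((n : ℚ) - 2 * k + (j + 1 + t)) := by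
    rw [← Finset.prod_range_reflect]
    apply Finset.prod_congr rfl
    intro t ht
    have ht' := mem_range.1 ht
    have h1 : ((i - j - 1 - 1 - t : ℕ) : ℚ) = (i : ℚ) - j - 1 - 1 - t := by
      rw [eq_sub_iff_add_eq, eq_sub_iff_add_eq, eq_sub_iff_add_eq, eq_sub_iff_add_eq]
      exact_mod_cast (by omega : i - j - 1 - 1 - t + t + 1 + 1 + j = i)
    rw [h1]
    ring
  rw [h0, Polynomial.eval_prod, ← Finset.prod_mul_distrib]
  apply Finset.prod_congr rfl
  intro t _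
  simp only [Polynomial.eval_add, Polynomial.eval_mul, Polynomial.eval_C, Polynomial.eval_X]
  ring

private lemma Qp_deg21 (n j l : ℕ) (hjl : j < l) :
    (Qp21 n j l).degree < ((l - j : ℕ) : ℕ) := by
  have h1 : (Qp21 n j l).natDegree ≤ l - j - 1 := by
    unfold Qp21
    refine (Polynomial.natDegree_prod_le _ _).trans ?_
    refine (Finset.sum_le_card_nsmul _ _ 1 ?_).trans (by simp)
    intro s _
    refine (Polynomial.natDegree_add_le _ _).trans ?_
    simp only [Polynomial.natDegree_C, max_le_iff]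
    refine ⟨(Polynomial.natDegree_C_mul_le _ _).trans Polynomial.natDegree_X_le, by omega⟩
  refine lt_of_le_of_lt Polynomial.degree_le_natDegree ?_
  have : (Qp21 n j l).natDegree < l - j := by omega
  exact_mod_cast this

private lemma Li_ge21 (n j k : ℕ) (hjk : j ≤ k) :
    Li n k j = (-2) ^ (k - j) * (∏ t ∈ range (2 * (k - j)), ((n : ℚ) - j - t)) * Y21 n k j /
      ((Nat.factorial (k - j) : ℚ) * (∏ t ∈ range (k - j), (2 * (j : ℚ) + 1 + 2 * t)) *
        (∏ t ∈ range (k - j), ((n : ℚ) - j - k - t))) := by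
  unfold Li Y21
  rw [if_neg (by omega)]
  split_ifs with h
  · subst h
    simp
  · ring

private lemma term21 (n j k i : ℕ) (hjk : j ≤ k) (hki : k ≤ i) (hji : j < i) (hk : 2 * k < n) :
    Lq n i k * Li n k j =
      ((2 ^ (i - j) * ((n : ℚ) - 3 * j) * (∏ t ∈ range (i - j + 1), ((n : ℚ) - j - t)) /
        (∏ t ∈ range (i - j), (2 * (j : ℚ) + 1 + 2 * t)))) *
      ((-1 : ℚ) ^ (k - j) / ((Nat.factorial (i - k) : ℚ) * Nat.factorial (k - j)) * ((n : ℚ) - 2 * k) *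
        (Qp21 n j i).eval ((k : ℚ) * ((n : ℚ) - k)) / (∏ s ∈ Icc j i, ((n : ℚ) - k - s))) := by
  rw [Li_ge21 n j k hjk]
  unfold Lq
  rw [if_neg (by omega)]
  have hx : (n : ℚ) - 2 * k ≠ 0 := by
    have : (2 : ℚ) * k < n := by exact_mod_cast hk
    linarith
  rw [Qp_eval21, ← key4_21 n j k i hjk hki, ← key1_21 j k i hjk hki]
  have h2 := key2_21 n j k i hjk hki hji
  have h3 := key3_21 n j k i hjk hki hji
  generalize (∏ t ∈ range (2 * (i - k)), ((n : ℚ) + i - 2 * k - 1 - t)) = A1 at *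
  generalize (∏ t ∈ range (2 * (k - j)), ((n : ℚ) - j - t)) = A3 at *
  generalize (∏ t ∈ range (i - k), ((n : ℚ) - 3 * k - t)) = A2 at *
  generalize Y21 n k j = A4 at *
  generalize (∏ t ∈ range (i - k), (2 * (k : ℚ) + 1 + 2 * t)) = B1 at *
  generalize (∏ t ∈ range (i - k), ((n : ℚ) - 2 * k - 1 - t)) = B2 at *
  generalize (∏ t ∈ range (k - j), (2 * (j : ℚ) + 1 + 2 * t)) = B3 at *
  generalize (∏ t ∈ range (k - j), ((n : ℚ) - j - k - t)) = B4 at *
  generalize (∏ t ∈ range (i - j + 1), ((n : ℚ) - j - t)) = E1 at *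
  generalize (∏ t ∈ range (i - j - 1), ((n : ℚ) + i - 2 * k - 1 - t)) = E2 at *
  generalize (∏ t ∈ range (i - j - 1), ((n : ℚ) - j - 2 * k - 1 - t)) = E3 at *
  have hp : (2 : ℚ) ^ (i - j) = 2 ^ (k - j) * 2 ^ (i - k) := by
    rw [← pow_add]; congr 1; omega
  have hm2 : (-2 : ℚ) ^ (k - j) = (-1) ^ (k - j) * 2 ^ (k - j) := by
    rw [← mul_pow]; norm_num
  generalize ((n : ℚ) - 2 * k) = x at *
  have hcan : ∀ Y : ℚ, x * Y / (B4 * x * B2) = Y / (B4 * B2) := by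
    intro Y
    rw [show B4 * x * B2 = x * (B4 * B2) by ring, mul_div_mul_left _ _ hx]
  have r1 : ((2 ^ (i - j) * ((n : ℚ) - 3 * j) * E1 / (B3 * B1))) *
      ((-1 : ℚ) ^ (k - j) / ((Nat.factorial (i - k) : ℚ) * Nat.factorial (k - j)) * x *
        (E2 * E3) / (B4 * x * B2)) =
      (-1 : ℚ) ^ (k - j) * 2 ^ (i - j) * ((n : ℚ) - 3 * j) * E1 / (B3 * B1) *
      (1 / ((Nat.factorial (i - k) : ℚ) * Nat.factorial (k - j))) * (x * (E2 * E3) / (B4 * x * B2)) := by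
    ring
  rw [r1, hcan, hp, hm2]
  have r2 : 2 ^ (i - k) * A1 * A2 / ((Nat.factorial (i - k) : ℚ) * B1 * B2) *
      ((-1) ^ (k - j) * 2 ^ (k - j) * A3 * A4 / ((Nat.factorial (k - j) : ℚ) * B3 * B4)) =
      (2 ^ (k - j) * 2 ^ (i - k) * (-1) ^ (k - j)) * (A1 * A3) * (A2 * A4) /
        ((Nat.factorial (k - j) : ℚ) * (Nat.factorial (i - k) : ℚ) * B1 * B2 * B3 * B4) := by
    ring
  rw [r2, h2, h3]
  ring

theorem inv_L (n q i j : ℕ) (hi : i < q) (hj : j < q) (hn : 16 * q + 40 ≤ n) :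
    ∑ k ∈ range q, Lq n i k * Li n k j = if i = j then 1 else 0 := by
  have hsub : Icc j i ⊆ range q := by
    intro x hx
    rw [mem_Icc] at hx
    rw [mem_range]
    omega
  have hsum : ∑ k ∈ range q, Lq n i k * Li n k j = ∑ k ∈ Icc j i, Lq n i k * Li n k j := by
    symm
    apply Finset.sum_subset hsub
    intro k _ hk
    rw [mem_Icc] at hk
    by_cases h1 : k < j
    · have : Li n k j = 0 := by unfold Li; rw [if_pos h1]
      rw [this, mul_zero]
    · have h2 : i < k := by omega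
      have : Lq n i k = 0 := by unfold Lq; rw [if_pos h2]
      rw [this, zero_mul]
  rw [hsum]
  rcases lt_trichotomy j i with h | h | h
  · rw [if_neg (by omega)]
    have hlag := lag n i j h (by omega) (Qp21 n j i) (Qp_deg21 n j i h)
    have : ∑ k ∈ Icc j i, Lq n i k * Li n k j =
        ∑ k ∈ Icc j i, ((2 ^ (i - j) * ((n : ℚ) - 3 * j) * (∏ t ∈ range (i - j + 1), ((n : ℚ) - j - t)) /
          (∏ t ∈ range (i - j), (2 * (j : ℚ) + 1 + 2 * t)))) *
        ((-1 : ℚ) ^ (k - j) / ((Nat.factorial (i - k) : ℚ) * Nat.factorial (k - j)) * ((n : ℚ) - 2 * k) *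
          (Qp21 n j i).eval ((k : ℚ) * ((n : ℚ) - k)) / (∏ s ∈ Icc j i, ((n : ℚ) - k - s))) := by
      apply Finset.sum_congr rfl
      intro k hk
      rw [mem_Icc] at hk
      exact term21 n j k i hk.1 hk.2 h (by omega)
    rw [this, ← Finset.mul_sum, hlag, mul_zero]
  · subst h
    rw [if_pos rfl, Finset.Icc_self, Finset.sum_singleton]
    have h1 : Li n j j = 1 := by unfold Li; rw [if_neg (lt_irrefl _), if_pos rfl]
    have h2 : Lq n j j = 1 := by
      unfold Lq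
      rw [if_neg (lt_irrefl _)]
      simp
    rw [h1, h2, mul_one]
  · rw [if_neg (by omega), Finset.Icc_eq_empty (by omega), Finset.sum_empty]

end Pool.Agent.Helper44.BZ
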