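import Mathlib
import Pool.Agent.Helper44.BZ.Defs
import Pool.Agent.Helper44.BZ.Lag

/-! Block BZB-INVR. Ri is the inverse of R. For 1 <= j < l and j <= k <= l
  Ri n j k * Rq n k l = C1 * (-1)^(l-k) / ((k-j)! (l-k)!) * (n-2k) * prod_{s=j+1}^{l-1} ((2k-s)(2n-2k-s)) / prod_{s=j}^{l} (n-k-s),
  C1 = 2^(l-j) (2n-3l) * l!/(j-1)! / prod_{s<l-j} (2n-2j-1-2s)          (constant in k).
Proof of the term formula: with quotients of factorials (j < k < l)
  Ri_jk = 2^(k-j) (2k-j-1)!/(j-1)! * (2n-j-2k-1)!/(2n-3k-1)! * (n-2k)!/(n-j-k)! / ((k-j)! prod_{s<k-j} (2n-2j-1-2s)),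
  R_kl = (-2)^(l-k) [prod_{t<2(l-k)} (l-t)] * (2n-3k-1)!/(2n-2k-l)! * (2n-3l) * (n-k-l-1)!/(n-2k-1)! / ((l-k)! prod_{s<l-k} (2n-2k-1-2s)),
  and (2k-j-1)! * prod_{t<2(l-k)} (l-t) = l! * prod_{s=j+1}^{l-1} (2k-s) (if l <= 2k this is (2k-j-1)! l!/(2k-l)!; if l > 2k both sides are 0
  as long as 2k > j, i.e. always: 2k >= 2j > j, and s = 2k occurs in j+1 <= s <= l-1);
  (2n-3k-1)! cancels; (2n-j-2k-1)!/(2n-2k-l)! = prod_{s=j+1}^{l-1} (2n-2k-s); (n-2k)!/(n-2k-1)! = n-2k;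
  (n-k-l-1)!/(n-j-k)! = 1/prod_{s=j}^{l} (n-k-s). The cases k = j (Ri = 1) and k = l (Rq = 1) are similar. (Checked by computer.)
(2k-s)(2n-2k-s) = 4w - 2ns + s^2 with w = k(n-k): polynomial in w of degree l-j-1 < l-j. Apply `lag`.
For j = 0 < l: Ri n 0 k = 0 for k >= 1 (its product over 2k factors 2k-1-t contains 0) and Rq n 0 l = 0 (the product over 2l factors l-t
contains 0), so the sum is 0. For j = l: 1. For j > l: 0. -/

set_option autoImplicit false

namespace Pool.Agent.Helper44.BZ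

open Finset

private lemma D_add69 (x : ℚ) (m m' : ℕ) :
    ∏ t ∈ range (m + m'), (x - t) = (∏ t ∈ range m, (x - t)) * ∏ t ∈ range m', (x - m - t) := by
  rw [Finset.prod_range_add]
  congr 1
  apply Finset.prod_congr rfl
  intro t _
  push_cast
  ring

private lemma key2_69 (j k l : ℕ) (hjk : j ≤ k) (hkl : k ≤ l) (hjl : j < l) :
    (∏ t ∈ range (2 * (k - j)), (2 * (k : ℚ) - j - 1 - t)) * (∏ t ∈ range (2 * (l - k)), ((l : ℚ) - t)) =
      (∏ t ∈ range (l - j + 1), ((l : ℚ) - t)) * ∏ t ∈ range (l - j - 1), (2 * (k : ℚ) - j - 1 - t) := by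
  obtain ⟨a, rfl⟩ := Nat.exists_eq_add_of_le hjk
  obtain ⟨b, rfl⟩ := Nat.exists_eq_add_of_le hkl
  rcases le_total (a + 1) b with h | h
  · obtain ⟨c, rfl⟩ := Nat.exists_eq_add_of_le h
    have e1 : 2 * (j + a - j) = 2 * a := by omega
    have e2 : 2 * (j + a + (a + 1 + c) - (j + a)) = (2 * a + 2 + c) + c := by omega
    have e3 : j + a + (a + 1 + c) - j + 1 = 2 * a + 2 + c := by omega
    have e4 : j + a + (a + 1 + c) - j - 1 = 2 * a + c := by omega
    rw [e1, e2, e3, e4, D_add69, D_add69 _ (2 * a) c]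
    have : ∏ t ∈ range c, ((((j + a + (a + 1 + c) : ℕ)) : ℚ) - ((2 * a + 2 + c : ℕ) : ℚ) - t) =
        ∏ t ∈ range c, (2 * (((j + a : ℕ)) : ℚ) - j - 1 - ((2 * a : ℕ) : ℚ) - t) := by
      apply Finset.prod_congr rfl
      intro t _
      push_cast
      ring
    rw [this]
    ring
  · obtain ⟨c, hc⟩ := Nat.exists_eq_add_of_le h
    have hm : ∃ m, a + b = m + 1 := ⟨a + b - 1, by omega⟩
    obtain ⟨m, hm⟩ := hm
    have e1 : 2 * (j + a - j) = m + c := by omega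
    have e2 : 2 * (j + a + b - (j + a)) = 2 * b := by omega
    have e3 : j + a + b - j + 1 = 2 * b + c := by omega
    have e4 : j + a + b - j - 1 = m := by omega
    rw [e1, e2, e3, e4, D_add69, D_add69 _ (2 * b) c]
    have : ∏ t ∈ range c, ((((j + a + b : ℕ)) : ℚ) - ((2 * b : ℕ) : ℚ) - t) =
        ∏ t ∈ range c, (2 * (((j + a : ℕ)) : ℚ) - j - 1 - ((m : ℕ) : ℚ) - t) := by
      apply Finset.prod_congr rfl
      intro t _
      have h1 : (a : ℚ) + b = m + 1 := by exact_mod_cast hm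
      push_cast
      linear_combination (-1 : ℚ) * h1
    rw [this]
    ring

private lemma key3_69 (n j k l : ℕ) (hjk : j ≤ k) (hkl : k ≤ l) (hjl : j < l) :
    (∏ t ∈ range (k - j), (2 * (n : ℚ) - j - 2 * k - 1 - t)) * RY n k l =
      (∏ t ∈ range (l - j - 1), (2 * (n : ℚ) - j - 2 * k - 1 - t)) * (2 * (n : ℚ) - 3 * l) := by
  unfold RY
  rcases eq_or_lt_of_le hkl with h | h
  · subst h
    rw [if_pos le_rfl]
    obtain ⟨a, ha⟩ : ∃ a, k = j + (a + 1) := ⟨k - j - 1, by omega⟩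
    subst ha
    have e1 : j + (a + 1) - j = a + 1 := by omega
    have e2 : j + (a + 1) - j - 1 = a := by omega
    rw [e1, show a + 1 - 1 = a by omega, Finset.prod_range_succ]
    push_cast
    ring
  · rw [if_neg (by omega)]
    obtain ⟨a, rfl⟩ := Nat.exists_eq_add_of_le hjk
    have e1 : j + a - j = a := by omega
    have e2 : l - j - 1 = a + (l - (j + a) - 1) := by omega
    rw [e1, e2, D_add69]
    have : ∏ t ∈ range (l - (j + a) - 1), (2 * (n : ℚ) - 3 * ((j + a : ℕ) : ℚ) - 1 - t) =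
        ∏ t ∈ range (l - (j + a) - 1), (2 * (n : ℚ) - j - 2 * ((j + a : ℕ) : ℚ) - 1 - (a : ℚ) - t) := by
      apply Finset.prod_congr rfl
      intro t _
      push_cast
      ring
    rw [this]
    ring

private lemma key4_69 (n j k l : ℕ) (hjk : j ≤ k) (hkl : k ≤ l) :
    (∏ t ∈ range (k - j), ((n : ℚ) - j - k - t)) * ((n : ℚ) - 2 * k) *
      (∏ t ∈ range (l - k), ((n : ℚ) - 2 * k - 1 - t)) = ∏ s ∈ Icc j l, ((n : ℚ) - k - s) := by
  have e0 : Icc j l = Ico j (l + 1) := by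
    ext x; simp only [mem_Icc, mem_Ico]; omega
  rw [e0, Finset.prod_Ico_eq_prod_range]
  obtain ⟨a, rfl⟩ := Nat.exists_eq_add_of_le hjk
  obtain ⟨b, rfl⟩ := Nat.exists_eq_add_of_le hkl
  have e1 : j + a - j = a := by omega
  have e2 : j + a + b - (j + a) = b := by omega
  have e3 : j + a + b + 1 - j = a + (1 + b) := by omega
  rw [e1, e2, e3]
  have : ∏ x ∈ range (a + (1 + b)), ((n : ℚ) - ((j + a : ℕ) : ℚ) - ((j + x : ℕ) : ℚ)) =
      ∏ t ∈ range (a + (1 + b)), ((n : ℚ) - j - ((j + a : ℕ) : ℚ) - t) := by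
    apply Finset.prod_congr rfl
    intro t _
    push_cast
    ring
  rw [this, D_add69, D_add69 _ 1 b]
  have h2 : ∏ t ∈ range b, ((n : ℚ) - j - ((j + a : ℕ) : ℚ) - (a : ℚ) - ((1 : ℕ) : ℚ) - t) =
      ∏ t ∈ range b, ((n : ℚ) - 2 * ((j + a : ℕ) : ℚ) - 1 - t) := by
    apply Finset.prod_congr rfl
    intro t _
    push_cast
    ring
  rw [h2, Finset.prod_range_one]
  push_cast
  ring

private lemma key1_69 (n j k l : ℕ) (hjk : j ≤ k) (hkl : k ≤ l) :
    (∏ t ∈ range (k - j), (2 * (n : ℚ) - 2 * j - 1 - 2 * t)) *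
      (∏ t ∈ range (l - k), (2 * (n : ℚ) - 2 * k - 1 - 2 * t)) =
      ∏ t ∈ range (l - j), (2 * (n : ℚ) - 2 * j - 1 - 2 * t) := by
  obtain ⟨a, rfl⟩ := Nat.exists_eq_add_of_le hjk
  obtain ⟨b, rfl⟩ := Nat.exists_eq_add_of_le hkl
  have e1 : j + a - j = a := by omega
  have e2 : j + a + b - (j + a) = b := by omega
  have e3 : j + a + b - j = a + b := by omega
  rw [e1, e2, e3, Finset.prod_range_add]
  congr 1
  apply Finset.prod_congr rfl
  intro t _
  push_cast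
  ring

private noncomputable def Qp69 (n j l : ℕ) : Polynomial ℚ :=
  ∏ s ∈ range (l - j - 1), (Polynomial.C 4 * Polynomial.X +
    Polynomial.C (((j : ℚ) + 1 + s) ^ 2 - 2 * n * ((j : ℚ) + 1 + s)))

private lemma Qp_eval69 (n j k l : ℕ) :
    (Qp69 n j l).eval ((k : ℚ) * ((n : ℚ) - k)) =
      (∏ t ∈ range (l - j - 1), (2 * (k : ℚ) - j - 1 - t)) *
        ∏ t ∈ range (l - j - 1), (2 * (n : ℚ) - j - 2 * k - 1 - t) := by
  unfold Qp69
  rw [Polynomial.eval_prod, ← Finset.prod_mul_distrib]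
  apply Finset.prod_congr rfl
  intro t _
  simp only [Polynomial.eval_add, Polynomial.eval_mul, Polynomial.eval_C, Polynomial.eval_X]
  ring

private lemma Qp_deg69 (n j l : ℕ) (hjl : j < l) :
    (Qp69 n j l).degree < ((l - j : ℕ) : ℕ) := by
  have h1 : (Qp69 n j l).natDegree ≤ l - j - 1 := by
    unfold Qp69
    refine (Polynomial.natDegree_prod_le _ _).trans ?_
    refine (Finset.sum_le_card_nsmul _ _ 1 ?_).trans (by simp)
    intro s _
    refine (Polynomial.natDegree_add_le _ _).trans ?_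
    simp only [Polynomial.natDegree_C, max_le_iff]
    refine ⟨(Polynomial.natDegree_C_mul_le _ _).trans Polynomial.natDegree_X_le, by omega⟩
  refine lt_of_le_of_lt Polynomial.degree_le_natDegree ?_
  have : (Qp69 n j l).natDegree < l - j := by omega
  exact_mod_cast this

private lemma Ri_ge69 (n j k : ℕ) (hjk : j ≤ k) :
    Ri n j k = 2 ^ (k - j) * (∏ t ∈ range (2 * (k - j)), (2 * (k : ℚ) - j - 1 - t)) *
      (∏ t ∈ range (k - j), (2 * (n : ℚ) - j - 2 * k - 1 - t)) /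
      ((Nat.factorial (k - j) : ℚ) * (∏ t ∈ range (k - j), (2 * (n : ℚ) - 2 * j - 1 - 2 * t)) *
        (∏ t ∈ range (k - j), ((n : ℚ) - j - k - t))) := by
  unfold Ri
  rw [if_neg (by omega)]
  split_ifs with h
  · subst h
    simp
  · rfl

private lemma term69 (n j k l : ℕ) (hjk : j ≤ k) (hkl : k ≤ l) (hjl : j < l) (hk : 2 * k < n) :
    Ri n j k * Rq n k l =
      ((-1) ^ (l - j) * (2 ^ (l - j) * (2 * (n : ℚ) - 3 * l) * (∏ t ∈ range (l - j + 1), ((l : ℚ) - t)) /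
        (∏ t ∈ range (l - j), (2 * (n : ℚ) - 2 * j - 1 - 2 * t)))) *
      ((-1 : ℚ) ^ (k - j) / ((Nat.factorial (l - k) : ℚ) * Nat.factorial (k - j)) * ((n : ℚ) - 2 * k) *
        (Qp69 n j l).eval ((k : ℚ) * ((n : ℚ) - k)) / (∏ s ∈ Icc j l, ((n : ℚ) - k - s))) := by
  rw [Ri_ge69 n j k hjk]
  unfold Rq
  rw [if_neg (by omega)]
  have hx : (n : ℚ) - 2 * k ≠ 0 := by
    have : (2 : ℚ) * k < n := by exact_mod_cast hk
    linarith
  rw [Qp_eval69, ← key4_69 n j k l hjk hkl, ← key1_69 n j k l hjk hkl]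
  have h2 := key2_69 j k l hjk hkl hjl
  have h3 := key3_69 n j k l hjk hkl hjl
  generalize (∏ t ∈ range (2 * (k - j)), (2 * (k : ℚ) - j - 1 - t)) = A1 at *
  generalize (∏ t ∈ range (k - j), (2 * (n : ℚ) - j - 2 * k - 1 - t)) = A2 at *
  generalize (∏ t ∈ range (k - j), (2 * (n : ℚ) - 2 * j - 1 - 2 * t)) = B1 at *
  generalize (∏ t ∈ range (k - j), ((n : ℚ) - j - k - t)) = B2 at *
  generalize (∏ t ∈ range (2 * (l - k)), ((l : ℚ) - t)) = A3 at *
  generalize RY n k l = A4 at *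
  generalize (∏ t ∈ range (l - k), (2 * (n : ℚ) - 2 * k - 1 - 2 * t)) = B3 at *
  generalize (∏ t ∈ range (l - k), ((n : ℚ) - 2 * k - 1 - t)) = B4 at *
  generalize (∏ t ∈ range (l - j + 1), ((l : ℚ) - t)) = E1 at *
  generalize (∏ t ∈ range (l - j - 1), (2 * (k : ℚ) - j - 1 - t)) = E2 at *
  generalize (∏ t ∈ range (l - j - 1), (2 * (n : ℚ) - j - 2 * k - 1 - t)) = E3 at *
  have hs : (-1 : ℚ) ^ (l - j) * (-1) ^ (k - j) = (-1) ^ (l - k) := by
    have e : l - j = (l - k) + (k - j) := by omega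
    rw [e, pow_add, mul_assoc, ← pow_add, ← two_mul, pow_mul]
    simp
  have hp : (2 : ℚ) ^ (l - j) = 2 ^ (k - j) * 2 ^ (l - k) := by
    rw [← pow_add]; congr 1; omega
  have hm2 : (-2 : ℚ) ^ (l - k) = (-1) ^ (l - k) * 2 ^ (l - k) := by
    rw [← mul_pow]; norm_num
  generalize ((n : ℚ) - 2 * k) = x at *
  have hcan : ∀ Y : ℚ, x * Y / (B2 * x * B4) = Y / (B2 * B4) := by
    intro Y
    rw [show B2 * x * B4 = x * (B2 * B4) by ring, mul_div_mul_left _ _ hx]
  have r1 : ((-1 : ℚ) ^ (l - j) * (2 ^ (l - j) * (2 * (n : ℚ) - 3 * l) * E1 / (B1 * B3))) *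
      ((-1 : ℚ) ^ (k - j) / ((Nat.factorial (l - k) : ℚ) * Nat.factorial (k - j)) * x *
        (E2 * E3) / (B2 * x * B4)) =
      ((-1 : ℚ) ^ (l - j) * (-1 : ℚ) ^ (k - j)) * 2 ^ (l - j) * (2 * (n : ℚ) - 3 * l) * E1 / (B1 * B3) *
      (1 / ((Nat.factorial (l - k) : ℚ) * Nat.factorial (k - j))) * (x * (E2 * E3) / (B2 * x * B4)) := by
    ring
  rw [r1, hcan, hs, hp, hm2]
  have r2 : 2 ^ (k - j) * A1 * A2 / ((Nat.factorial (k - j) : ℚ) * B1 * B2) *
      ((-1) ^ (l - k) * 2 ^ (l - k) * A3 * A4 / ((Nat.factorial (l - k) : ℚ) * B3 * B4)) =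
      (2 ^ (k - j) * 2 ^ (l - k) * (-1) ^ (l - k)) * (A1 * A3) * (A2 * A4) /
        ((Nat.factorial (k - j) : ℚ) * (Nat.factorial (l - k) : ℚ) * B1 * B2 * B3 * B4) := by
    ring
  rw [r2, h2, h3]
  ring

theorem inv_R (n q j l : ℕ) (hj : j < q) (hl : l < q) (hn : 16 * q + 40 ≤ n) :
    ∑ k ∈ range q, Ri n j k * Rq n k l = if j = l then 1 else 0 := by
  have hsub : Icc j l ⊆ range q := by
    intro x hx
    rw [mem_Icc] at hx
    rw [mem_range]
    omega
  have hsum : ∑ k ∈ range q, Ri n j k * Rq n k l = ∑ k ∈ Icc j l, Ri n j k * Rq n k l := by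
    symm
    apply Finset.sum_subset hsub
    intro k _ hk
    rw [mem_Icc] at hk
    by_cases h1 : k < j
    · have : Ri n j k = 0 := by unfold Ri; rw [if_pos h1]
      rw [this, zero_mul]
    · have h2 : l < k := by omega
      have : Rq n k l = 0 := by unfold Rq; rw [if_pos h2]
      rw [this, mul_zero]
  rw [hsum]
  rcases lt_trichotomy j l with h | h | h
  · rw [if_neg (by omega)]
    have hlag := lag n l j h (by omega) (Qp69 n j l) (Qp_deg69 n j l h)
    have : ∑ k ∈ Icc j l, Ri n j k * Rq n k l =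
        ∑ k ∈ Icc j l, ((-1) ^ (l - j) * (2 ^ (l - j) * (2 * (n : ℚ) - 3 * l) *
          (∏ t ∈ range (l - j + 1), ((l : ℚ) - t)) /
          (∏ t ∈ range (l - j), (2 * (n : ℚ) - 2 * j - 1 - 2 * t)))) *
        ((-1 : ℚ) ^ (k - j) / ((Nat.factorial (l - k) : ℚ) * Nat.factorial (k - j)) * ((n : ℚ) - 2 * k) *
          (Qp69 n j l).eval ((k : ℚ) * ((n : ℚ) - k)) / (∏ s ∈ Icc j l, ((n : ℚ) - k - s))) := by
      apply Finset.sum_congr rfl
      intro k hk
      rw [mem_Icc] at hk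
      exact term69 n j k l hk.1 hk.2 h (by omega)
    rw [this, ← Finset.mul_sum, hlag, mul_zero]
  · subst h
    rw [if_pos rfl, Finset.Icc_self, Finset.sum_singleton]
    have h1 : Ri n j j = 1 := by unfold Ri; rw [if_neg (lt_irrefl _), if_pos rfl]
    have h2 : Rq n j j = 1 := by
      unfold Rq RY
      rw [if_neg (lt_irrefl _), if_pos le_rfl]
      simp
    rw [h1, h2, mul_one]
  · rw [if_neg (by omega), Finset.Icc_eq_empty (by omega), Finset.sum_empty]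

end Pool.Agent.Helper44.BZ
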