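import Mathlib
import Pool.Agent.Helper44.BZ.Defs
import Pool.Agent.Helper44.BZ.S2A
import Pool.Agent.Helper44.BZ.MsA
import Pool.Agent.Helper44.BZ.ChM

/-! Block BZB-GAP. Put d = Ms (I+1) = M + 4^M, M = Ms I, q = M+1; M = 5 mod 8 (I >= 2). v = padicValNat 2.
(a) for 1 <= c <= 2q+1: v(d+c) = v(M+c) (since 0 < M+c <= 3M+3 < 4^M, `val_add_pow`), and 4 v(M+c) <= c+9 (`val_Ms_add4`); v(d) = 0.
(b) for 1 <= c <= 3q: v(d-c) <= 2c: take r <= I with Ms r <= c and (r < I -> c < Ms (r+1)); if c = Ms r then v = 2 Ms r (`val_top_zero`);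
    otherwise c = Ms r + x, 0 < x < 4^(Ms r), v = v(x) <= x (`val_top`; 2^v <= x).
(c) d+1 = 6 mod 8 so v = 1; v(d+3) = 3 (M = 5 mod 16: M = 5 or M = 5 mod 1024, so d+3 = 8 mod 16); v(d+5) = 1; v(d+2) = v(d+4) = 0.
Let w1 = v((d+2x-1).choose (x+a)), numerator factors d+c, c = 2x-1, ..., x-a; w2 = v((d+X+x).choose (X-x)), factors d+c, 2x+1 <= c <= X+x.
By `choose_val_le`: if x = X then w2 = 0; if x < X then 4 w2 <= X+x+9; and w1 <= max over the factors:
4 w1 <= 2x+8 or (x < a and w1 <= 2(a-x)).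
Case x = X: if w1 <= 2(a-X): fine. If 4 w1 <= 2X+8: need w1+1 <= 2(X+a): clear if 6X+8a >= 12; the rest is X = 1, a = 0: w1 = v(d+1) = 1.
Case x < X: if w1 <= 2(a-x): need w2+1 <= 2X+2x: 4 w2 + 4 <= X+x+13 <= 8(X+x). If 4 w1 <= 2x+8: 4(w1+w2) <= 3x+X+17 <= 4X+14, so
w1+w2 <= X+3 and w1+w2+1 <= 2X+2a if X+2a >= 4. The rest is a = 0, X = 2 (x = 1) and a = 0, X = 3 (x = 1, 2):
X = 3, x = 1: w1 = v(d+1) = 1, w2 <= 3 (factors d+4, d+3): 5 <= 6. X = 3, x = 2: w1 <= 3 (factors d+3, d+2), w2 = v(d+5) = 1: 5 <= 6.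
X = 2, x = 1: w1 = 1, w2 = v(d+3) = 3: w1 + w2 = 4 <= 4 (second statement). -/

set_option autoImplicit false

namespace Pool.Agent.Helper44.BZ

private theorem val_eq32 (n k : ℕ) (h1 : 2 ^ k ∣ n) (h2 : ¬ 2 ^ (k + 1) ∣ n) : padicValNat 2 n = k := by
  have hn : n ≠ 0 := by
    rintro rfl
    exact h2 (dvd_zero _)
  have h3 := (padicValNat_dvd_iff_le (p := 2) hn).1 h1
  have h4 : ¬ (k + 1 ≤ padicValNat 2 n) := fun h => h2 ((padicValNat_dvd_iff_le (p := 2) hn).2 h)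
  omega

private theorem big32 (M : ℕ) (h : 5 ≤ M) : 100 * M ≤ 4 ^ M := by
  induction M, h using Nat.le_induction with
  | base => norm_num
  | succ M hM ih =>
    rw [pow_succ]
    omega

private theorem five_le32 (I : ℕ) (hI : 2 ≤ I) : 5 ≤ Ms I := by
  have h := Ms_strictMono.monotone hI
  rwa [Ms_two] at h

private theorem top_mod32 (I : ℕ) (hI : 2 ≤ I) : Ms (I + 1) % 16 = Ms I % 16 ∧ Ms I % 16 = 5 := by
  have key : ∀ J : ℕ, 5 ≤ Ms J → Ms (J + 1) % 16 = Ms J % 16 := by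
    intro J hJ
    obtain ⟨e, he⟩ := Nat.exists_eq_add_of_le hJ
    have h2 : 4 ^ Ms J = 16 * (64 * 4 ^ e) := by
      rw [he, pow_add]
      ring
    rw [Ms_succ_eq, h2]
    omega
  refine ⟨key I (five_le32 I hI), ?_⟩
  induction I, hI using Nat.le_induction with
  | base => rw [Ms_two]
  | succ I hI ih =>
    rw [key I (five_le32 I hI), ih]

private theorem va32 (I c : ℕ) (hI : 2 ≤ I) (hc : 1 ≤ c) (hc2 : c ≤ 2 * Ms I + 3) :
    4 * padicValNat 2 (Ms (I + 1) + c) ≤ c + 9 := by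
  have h5 := five_le32 I hI
  have hb := big32 (Ms I) h5
  have h1 : Ms (I + 1) + c = 2 ^ (2 * Ms I) * 1 + (Ms I + c) := by
    rw [Ms_succ_eq, four_pow]
    omega
  rw [four_pow] at hb
  rw [h1, val_add_pow (2 * Ms I) 1 (Ms I + c) (by omega) (by omega)]
  exact val_Ms_add4 I c hI hc

private theorem vd32 (I : ℕ) (hI : 2 ≤ I) : padicValNat 2 (Ms (I + 1)) = 0 := by
  have h := top_mod32 I hI
  exact padicValNat.eq_zero_of_not_dvd (by omega)

private theorem vb32 (I c : ℕ) (hI : 2 ≤ I) (hc : 1 ≤ c) (hc2 : c ≤ 3 * Ms I + 3) :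
    padicValNat 2 (Ms (I + 1) - c) ≤ 2 * c := by
  have h5 := five_le32 I hI
  have hb := big32 (Ms I) h5
  by_cases hp : c ∈ pat I
  · simp only [pat, Finset.mem_image, Finset.mem_range] at hp
    obtain ⟨r, hr, rfl⟩ := hp
    rw [val_top_zero I r (by omega)]
  · obtain ⟨r, hr, h1, h2⟩ := level_exists I c hc hp
    obtain ⟨x, hx⟩ := Nat.exists_eq_add_of_le h1.le
    have hx0 : 0 < x := by omega
    have hx1 : x < 4 ^ Ms r := by
      rcases Nat.lt_or_ge r I with h3 | h3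
      · have h4 := h2 h3
        rw [Ms_succ_eq] at h4
        omega
      · have h4 : r = I := le_antisymm hr h3
        subst h4
        omega
    have h6 := val_top I r x hr hx0 hx1
    have h7 : Ms (I + 1) - c = Ms (I + 1) - Ms r - x := by omega
    rw [h7, h6]
    have h8 := two_pow_val_le x hx0
    have h9 : padicValNat 2 x < 2 ^ padicValNat 2 x := Nat.lt_pow_self (by norm_num)
    omega

private theorem w1_32 (I x a : ℕ) (hI : 2 ≤ I) (hx : 1 ≤ x) (hxq : x ≤ qq I) (ha : a < 3 * qq I) :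
    padicValNat 2 ((Ms (I + 1) + 2 * x - 1).choose (x + a)) ≤ max ((2 * x + 8) / 4) (2 * (a - x)) := by
  have h5 := five_le32 I hI
  have hb := big32 (Ms I) h5
  have hd := Ms_succ_eq I
  unfold qq at hxq ha
  apply choose_val_le
  · omega
  · intro t ht
    rcases Nat.lt_trichotomy t (2 * x - 1) with h | h | h
    · have h1 : Ms (I + 1) + 2 * x - 1 - t = Ms (I + 1) + (2 * x - 1 - t) := by omega
      rw [h1]
      have h2 := va32 I (2 * x - 1 - t) hI (by omega) (by omega)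
      refine le_trans ?_ (le_max_left _ _)
      omega
    · have h1 : Ms (I + 1) + 2 * x - 1 - t = Ms (I + 1) := by omega
      rw [h1, vd32 I hI]
      exact Nat.zero_le _
    · have h1 : Ms (I + 1) + 2 * x - 1 - t = Ms (I + 1) - (t - (2 * x - 1)) := by omega
      rw [h1]
      have h2 := vb32 I (t - (2 * x - 1)) hI (by omega) (by omega)
      refine le_trans ?_ (le_max_right _ _)
      omega

private theorem w2_32 (I x X : ℕ) (hI : 2 ≤ I) (hx : 1 ≤ x) (hxX : x ≤ X) (hX : X ≤ qq I) :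
    padicValNat 2 ((Ms (I + 1) + X + x).choose (X - x)) ≤ (X + x + 9) / 4 := by
  unfold qq at hX
  apply choose_val_le
  · omega
  · intro t ht
    have h1 : Ms (I + 1) + X + x - t = Ms (I + 1) + (X + x - t) := by omega
    rw [h1]
    have h2 := va32 I (X + x - t) hI (by omega) (by omega)
    omega

private theorem sp1_32 (I : ℕ) (hI : 2 ≤ I) : padicValNat 2 (Ms (I + 1) + 1) = 1 := by
  have h := top_mod32 I hI
  exact val_eq32 _ _ (by omega) (by norm_num; omega)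

private theorem sp3_32 (I : ℕ) (hI : 2 ≤ I) : padicValNat 2 (Ms (I + 1) + 3) = 3 := by
  have h := top_mod32 I hI
  exact val_eq32 _ _ (by norm_num; omega) (by norm_num; omega)

private theorem sp5_32 (I : ℕ) (hI : 2 ≤ I) : padicValNat 2 (Ms (I + 1) + 5) = 1 := by
  have h := top_mod32 I hI
  exact val_eq32 _ _ (by omega) (by norm_num; omega)

private theorem sp24_32 (I c : ℕ) (hI : 2 ≤ I) (hc : c % 2 = 0) : padicValNat 2 (Ms (I + 1) + c) = 0 := by
  have h := top_mod32 I hI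
  exact padicValNat.eq_zero_of_not_dvd (by omega)

private theorem ch1_32 (I : ℕ) (hI : 2 ≤ I) :
    padicValNat 2 ((Ms (I + 1) + 2 * 1 - 1).choose (1 + 0)) = 1 := by
  have h1 : Ms (I + 1) + 2 * 1 - 1 = Ms (I + 1) + 1 := by omega
  rw [h1, Nat.add_zero, Nat.choose_one_right, sp1_32 I hI]

private theorem ch2_32 (I : ℕ) (hI : 2 ≤ I) :
    padicValNat 2 ((Ms (I + 1) + 2 * 2 - 1).choose (2 + 0)) ≤ 3 := by
  apply choose_val_le
  · omega
  · intro t ht
    have ht2 : t = 0 ∨ t = 1 := by omega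
    rcases ht2 with rfl | rfl
    · have h1 : Ms (I + 1) + 2 * 2 - 1 - 0 = Ms (I + 1) + 3 := by omega
      rw [h1, sp3_32 I hI]
    · have h1 : Ms (I + 1) + 2 * 2 - 1 - 1 = Ms (I + 1) + 2 := by omega
      rw [h1, sp24_32 I 2 hI (by norm_num)]
      exact Nat.zero_le _

private theorem ch31_32 (I : ℕ) (hI : 2 ≤ I) :
    padicValNat 2 ((Ms (I + 1) + 3 + 1).choose (3 - 1)) ≤ 3 := by
  apply choose_val_le
  · omega
  · intro t ht
    have ht2 : t = 0 ∨ t = 1 := by omega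
    rcases ht2 with rfl | rfl
    · have h1 : Ms (I + 1) + 3 + 1 - 0 = Ms (I + 1) + 4 := by omega
      rw [h1, sp24_32 I 4 hI (by norm_num)]
      exact Nat.zero_le _
    · have h1 : Ms (I + 1) + 3 + 1 - 1 = Ms (I + 1) + 3 := by omega
      rw [h1, sp3_32 I hI]

private theorem ch32_32 (I : ℕ) (hI : 2 ≤ I) :
    padicValNat 2 ((Ms (I + 1) + 3 + 2).choose (3 - 2)) = 1 := by
  have h1 : Ms (I + 1) + 3 + 2 = Ms (I + 1) + 5 := by omega
  have h2 : 3 - 2 = 1 := by norm_num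
  rw [h1, h2, Nat.choose_one_right, sp5_32 I hI]

private theorem ch21_32 (I : ℕ) (hI : 2 ≤ I) :
    padicValNat 2 ((Ms (I + 1) + 2 + 1).choose (2 - 1)) = 3 := by
  have h1 : Ms (I + 1) + 2 + 1 = Ms (I + 1) + 3 := by omega
  have h2 : 2 - 1 = 1 := by norm_num
  rw [h1, h2, Nat.choose_one_right, sp3_32 I hI]

private theorem w2_zero32 (N X : ℕ) : padicValNat 2 (N.choose (X - X)) = 0 := by
  rw [Nat.sub_self, Nat.choose_zero_right]
  simp

theorem gap (I x X a : ℕ) (hI : 2 ≤ I) (hx : 1 ≤ x) (hxX : x ≤ X) (hX : X ≤ qq I) (ha : a < 3 * qq I)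
    (hs : ¬ (a = 0 ∧ X = 2 ∧ x = 1)) :
    padicValNat 2 ((Ms (I + 1) + 2 * x - 1).choose (x + a)) + padicValNat 2 ((Ms (I + 1) + X + x).choose (X - x)) + 1 ≤
      2 * (X + a) := by
  have h1 := w1_32 I x a hI hx (hxX.trans hX) ha
  rcases Nat.eq_or_lt_of_le hxX with h | h
  · subst h
    have h2 := w2_zero32 (Ms (I + 1) + x + x) x
    rw [h2]
    by_cases hsp : x = 1 ∧ a = 0
    · obtain ⟨rfl, rfl⟩ := hsp
      rw [ch1_32 I hI]
    · rcases le_max_iff.1 h1 with h3 | h3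
      · omega
      · omega
  · have h2 := w2_32 I x X hI hx hxX hX
    by_cases hsp : a = 0 ∧ X = 3
    · obtain ⟨rfl, rfl⟩ := hsp
      have hx2 : x = 1 ∨ x = 2 := by omega
      rcases hx2 with rfl | rfl
      · have h3 := ch1_32 I hI
        have h4 := ch31_32 I hI
        omega
      · have h3 := ch2_32 I hI
        have h4 := ch32_32 I hI
        omega
    · rcases le_max_iff.1 h1 with h3 | h3
      · omega
      · omega

theorem gap' (I x X a : ℕ) (hI : 2 ≤ I) (hx : 1 ≤ x) (hxX : x ≤ X) (hX : X ≤ qq I) (ha : a < 3 * qq I) :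
    padicValNat 2 ((Ms (I + 1) + 2 * x - 1).choose (x + a)) + padicValNat 2 ((Ms (I + 1) + X + x).choose (X - x)) ≤
      2 * (X + a) := by
  by_cases hs : a = 0 ∧ X = 2 ∧ x = 1
  · obtain ⟨rfl, rfl, rfl⟩ := hs
    have h3 := ch1_32 I hI
    have h4 := ch21_32 I hI
    omega
  · have := gap I x X a hI hx hxX hX ha hs
    omega

/-- special values used in `lam_val` -/
theorem gap_special (I : ℕ) (hI : 2 ≤ I) :
    padicValNat 2 (Ms (I + 1) + 1) = 1 ∧ padicValNat 2 (Ms (I + 1) + 3) = 3 ∧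
      padicValNat 2 (Ms (I + 1) + qq I + 1) = 2 ∧ padicValNat 2 (Ms (I + 1) + qq I) = 0 ∧
      padicValNat 2 (Ms (I + 1) + 3 - qq I) = 1 := by
  have h := top_mod32 I hI
  have h5 := five_le32 I hI
  have hd := Ms_succ_eq I
  have h16 : 4 ^ Ms I % 16 = 0 := by omega
  have hb := big32 (Ms I) h5
  refine ⟨sp1_32 I hI, sp3_32 I hI, ?_, ?_, ?_⟩
  · unfold qq
    exact val_eq32 _ _ (by norm_num; omega) (by norm_num; omega)
  · unfold qq
    exact padicValNat.eq_zero_of_not_dvd (by omega)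
  · unfold qq
    exact val_eq32 _ _ (by omega) (by norm_num; omega)

end Pool.Agent.Helper44.BZ
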