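import Mathlib
import Pool.Agent.Helper44.BZ.Defs
import Pool.Agent.Helper44.BZ.VGA
import Pool.Agent.Helper44.BZ.S2A

/-! Block BZB-VALL. Lower bounds for the valuations of the entries of L, R, Li, Ri: each is at least 2r - w, r the distance to the
diagonal, w a bound for the valuation of ONE binomial coefficient. s(x) = s2 x, v(x!) = x - s(x), v = valuation.
All arguments are positive since n is large. r = 0: value 1 (or w >= 0). Let r >= 1.
* L (r = i-m): Lq = 2^r * A * B / (r! * odd * C), A = prod_{t<2r} (n+i-2m-1-t) = (2r)! * binom, B = prod_{t<r} (n-3m-t) = r! * binom,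
  C = prod_{t<r} (n-2m-1-t) = r! * (n-2m-1).choose r. So v >= r + (2r - s(r)) + (r - s(r)) - (r - s(r)) - (r - s(r)) - w = 2r - w.
  (n-3m may be smaller than r? no: 3m + r <= 3(i+m) <= n.)
* R (r = j-m): Rq = (-2)^r * A * RY / (r! * odd * C), A = prod_{t<2r} (j-t) = (2r)! * j.choose (2r) (also if 2r > j, when both are 0),
  RY = (y-1)(y-2)...(y-r+1) (y-3r) with y = 2n-3m, so RY / r! = y.choose r - 3 (y-1).choose (r-1) is an integer;
  C = r! * (n-2m-1).choose r. So v >= r + (2r - s(r)) + v(r!) - v(r!) - (r - s(r)) - w = 2r - w (or Rq = 0).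
* Li (r = i-m): Li = (-2)^r * A * (N (N-2r-1)...(N-3r+1)) / (r! * odd * C), N = n-3m [n-m-2i-1 = N-2r-1], A = (2r)! * (n-m).choose (2r),
  N (N-2r-1)...(N-3r+1) / r! = (N-2r).choose r + 2 (N-2r-1).choose (r-1), C = prod_{t<r} (n-m-i-t) = r! * (n-m-i).choose r.
  So v >= r + (2r - s(r)) - (r - s(r)) - w = 2r - w.
* Ri (r = j-m): Ri = 2^r * A * B / (r! * odd * C), A = prod_{t<2r} (2j-m-1-t) = (2r)! * (m+2r-1).choose (2r) (2j-m-1 = m+2r-1; both sides
  are 0 for m = 0), B = prod_{t<r} (2n-m-2j-1-t) = r! * (2n-m-2j-1).choose r, C = r! * (n-m-j).choose r. Same count. -/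

set_option autoImplicit false

namespace Pool.Agent.Helper44.BZ

open Finset

private theorem prodN56 (N : ℕ) {x : ℚ} (hx : x = N) (k : ℕ) :
    (∏ t ∈ range k, (x - t)) = (k.factorial : ℚ) * (N.choose k : ℚ) := by
  subst hx
  have h1 : (∏ t ∈ range k, ((N : ℚ) - t)) = (N.descFactorial k : ℚ) := by
    induction k with
    | zero => simp
    | succ k ih =>
      rw [Finset.prod_range_succ, ih, Nat.descFactorial_succ]
      rcases le_or_gt k N with h | h
      · push_cast [Nat.cast_sub h]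
        ring
      · rw [Nat.descFactorial_eq_zero_iff_lt.mpr h]
        simp
  rw [h1, Nat.descFactorial_eq_factorial_mul_choose]
  push_cast
  ring

private theorem core56 (r w c : ℕ) (X : ℤ) {O e : ℚ} (he : e = 2 ^ r ∨ e = (-2) ^ r) (hO : O ≠ 0)
    (hO' : padicValRat 2 O = 0) (hc : c ≠ 0) (hcw : padicValNat 2 c ≤ w) :
    VG (2 * (r : ℤ) - w) (e * ((2 * r).factorial : ℚ) * X / ((r.factorial : ℚ) * O * c)) := by
  have h1 : VG (r : ℤ) e := by
    rcases he with he | he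
    · rw [he]; exact VG_two_pow r
    · rw [he, neg_pow]
      have h2 : VG (0 + (r : ℤ)) ((-1 : ℚ) ^ r * 2 ^ r) := by
        refine VG_mul ?_ (VG_two_pow r)
        have h3 := VG_int ((-1) ^ r)
        push_cast at h3
        exact h3
      simpa using h2
  have h2 : VG (2 * (r : ℤ) - s2 r) ((2 * r).factorial : ℚ) := by
    have h3 := val_fact (2 * r)
    rw [s2_two_mul] at h3
    refine VG_mono (VG_nat_val (c := padicValNat 2 (2 * r).factorial) le_rfl) ?_
    omega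
  have hr0 : (r.factorial : ℚ) ≠ 0 := by exact_mod_cast Nat.factorial_ne_zero r
  have hc0 : (c : ℚ) ≠ 0 := by exact_mod_cast hc
  have hd : (r.factorial : ℚ) * O * c ≠ 0 := mul_ne_zero (mul_ne_zero hr0 hO) hc0
  have h4 : padicValRat 2 ((r.factorial : ℚ) * O * c) = (padicValNat 2 r.factorial : ℤ) + padicValNat 2 c := by
    rw [padicValRat.mul (mul_ne_zero hr0 hO) hc0, padicValRat.mul hr0 hO, hO', padicValRat.of_nat,
      padicValRat.of_nat]
    ring
  have h5 := VG_div (VG_mul (VG_mul h1 h2) (VG_int X)) hd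
  refine VG_mono h5 ?_
  rw [h4]
  have h6 := val_fact r
  omega

private theorem odd56a (m r : ℕ) :
    (∏ t ∈ range r, (2 * (m : ℚ) + 1 + 2 * t)) ≠ 0 ∧ padicValRat 2 (∏ t ∈ range r, (2 * (m : ℚ) + 1 + 2 * t)) = 0 := by
  have h := val_prod_odd (k := r) (f := fun t => 2 * (m : ℤ) + 1 + 2 * t) (fun t _ => ⟨(m : ℤ) + t, by ring⟩)
  push_cast at h
  exact h

private theorem odd56b (n m r : ℕ) :
    (∏ t ∈ range r, (2 * (n : ℚ) - 2 * m - 1 - 2 * t)) ≠ 0 ∧
      padicValRat 2 (∏ t ∈ range r, (2 * (n : ℚ) - 2 * m - 1 - 2 * t)) = 0 := by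
  have h := val_prod_odd (k := r) (f := fun t => 2 * (n : ℤ) - 2 * m - 1 - 2 * t)
    (fun t _ => ⟨(n : ℤ) - m - t - 1, by ring⟩)
  push_cast at h
  exact h

private theorem choose56 (y r : ℕ) (hy : 1 ≤ y) (hr : 1 ≤ r) (k : ℤ) :
    ((r - 1).factorial : ℚ) * ((y - 1).choose (r - 1) : ℚ) * ((y : ℚ) + k * r) =
      (r.factorial : ℚ) * (((y.choose r : ℤ) + k * ((y - 1).choose (r - 1) : ℤ) : ℤ) : ℚ) := by
  obtain ⟨y, rfl⟩ : ∃ y', y = y' + 1 := ⟨y - 1, by omega⟩
  obtain ⟨r, rfl⟩ : ∃ r', r = r' + 1 := ⟨r - 1, by omega⟩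
  have h1 := Nat.add_one_mul_choose_eq y r
  have h2 : ((y : ℚ) + 1) * (y.choose r : ℚ) = ((y + 1).choose (r + 1) : ℚ) * ((r : ℚ) + 1) := by
    exact_mod_cast h1
  simp only [Nat.add_sub_cancel]
  rw [Nat.factorial_succ]
  push_cast
  linear_combination (r.factorial : ℚ) * h2

theorem L_val (n i m w : ℕ) (hmi : m ≤ i) (hn : 8 * (i + m) + 20 ≤ n)
    (hw : padicValNat 2 ((n - 2 * m - 1).choose (i - m)) ≤ w) :
    VG (2 * ((i : ℤ) - m) - w) (Lq n i m) := by
  obtain ⟨r, rfl⟩ : ∃ r, i = m + r := ⟨i - m, by omega⟩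
  have hr : m + r - m = r := by omega
  rw [hr] at hw
  obtain ⟨hO, hO'⟩ := odd56a m r
  have hc : (n - 2 * m - 1).choose r ≠ 0 := (Nat.choose_pos (by omega)).ne'
  have h := core56 r w _ (((n + (m + r) - 2 * m - 1).choose (2 * r) : ℤ) * ((n - 3 * m).choose r : ℤ))
    (Or.inl rfl) hO hO' hc hw
  have hcast : (2 * (((m + r : ℕ) : ℤ) - m) - w) = 2 * (r : ℤ) - w := by push_cast; ring
  rw [hcast]
  convert h using 1
  unfold Lq
  rw [if_neg (by omega), hr,
    prodN56 (n + (m + r) - 2 * m - 1) (x := (n : ℚ) + ((m + r : ℕ) : ℚ) - 2 * m - 1)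
      (by rw [Nat.cast_sub (by omega), Nat.cast_sub (by omega)]; push_cast; ring) (2 * r),
    prodN56 (n - 3 * m) (x := (n : ℚ) - 3 * m) (by rw [Nat.cast_sub (by omega)]; push_cast; ring) r,
    prodN56 (n - 2 * m - 1) (x := (n : ℚ) - 2 * m - 1)
      (by rw [Nat.cast_sub (by omega), Nat.cast_sub (by omega)]; push_cast; ring) r]
  have hr0 : (r.factorial : ℚ) ≠ 0 := by exact_mod_cast Nat.factorial_ne_zero r
  have hc0 : ((n - 2 * m - 1).choose r : ℚ) ≠ 0 := by exact_mod_cast hc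
  rw [div_eq_div_iff (by positivity) (by positivity)]
  push_cast
  ring

theorem R_val (n m j w : ℕ) (hmj : m ≤ j) (hn : 8 * (j + m) + 20 ≤ n)
    (hw : padicValNat 2 ((n - 2 * m - 1).choose (j - m)) ≤ w) :
    VG (2 * ((j : ℤ) - m) - w) (Rq n m j) := by
  obtain ⟨r, rfl⟩ : ∃ r, j = m + r := ⟨j - m, by omega⟩
  have hr : m + r - m = r := by omega
  rw [hr] at hw
  obtain ⟨hO, hO'⟩ := odd56b n m r
  have hc : (n - 2 * m - 1).choose r ≠ 0 := (Nat.choose_pos (by omega)).ne'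
  obtain ⟨Y, hY⟩ : ∃ Y : ℤ, RY n m (m + r) = (r.factorial : ℚ) * (Y : ℚ) := by
    by_cases hr0 : r = 0
    · refine ⟨1, ?_⟩
      unfold RY
      rw [if_pos (by omega), hr0]
      simp
    · refine ⟨((2 * n - 3 * m).choose r : ℤ) + (-3) * ((2 * n - 3 * m - 1).choose (r - 1) : ℤ), ?_⟩
      unfold RY
      rw [if_neg (by omega), hr, prodN56 (2 * n - 3 * m - 1) (x := 2 * (n : ℚ) - 3 * m - 1)
        (by rw [Nat.cast_sub (by omega), Nat.cast_sub (by omega)]; push_cast; ring) (r - 1),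
        ← choose56 (2 * n - 3 * m) r (by omega) (by omega) (-3), Nat.cast_sub (by omega)]
      push_cast
      ring
  have h := core56 r w _ (((m + r).choose (2 * r) : ℤ) * Y) (Or.inr rfl) hO hO' hc hw
  have hcast : (2 * (((m + r : ℕ) : ℤ) - m) - w) = 2 * (r : ℤ) - w := by push_cast; ring
  rw [hcast]
  convert h using 1
  unfold Rq
  rw [if_neg (by omega), hr, hY, prodN56 (m + r) (x := ((m + r : ℕ) : ℚ)) rfl (2 * r),
    prodN56 (n - 2 * m - 1) (x := (n : ℚ) - 2 * m - 1)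
      (by rw [Nat.cast_sub (by omega), Nat.cast_sub (by omega)]; push_cast; ring) r]
  have hr0 : (r.factorial : ℚ) ≠ 0 := by exact_mod_cast Nat.factorial_ne_zero r
  have hc0 : ((n - 2 * m - 1).choose r : ℚ) ≠ 0 := by exact_mod_cast hc
  rw [div_eq_div_iff (mul_ne_zero (mul_ne_zero hr0 hO) (mul_ne_zero hr0 hc0))
    (mul_ne_zero (mul_ne_zero hr0 hO) hc0)]
  push_cast
  ring

theorem Li_val (n i m w : ℕ) (hmi : m ≤ i) (hn : 8 * (i + m) + 20 ≤ n)
    (hw : padicValNat 2 ((n - m - i).choose (i - m)) ≤ w) :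
    VG (2 * ((i : ℤ) - m) - w) (Li n i m) := by
  obtain ⟨r, rfl⟩ : ∃ r, i = m + r := ⟨i - m, by omega⟩
  have hr : m + r - m = r := by omega
  rw [hr] at hw
  have hcast : (2 * (((m + r : ℕ) : ℤ) - m) - w) = 2 * (r : ℤ) - w := by push_cast; ring
  rw [hcast]
  by_cases hr0' : r = 0
  · subst hr0'
    unfold Li
    rw [if_neg (by omega), if_pos (by omega)]
    have h := VG_nat 1
    push_cast at h
    exact VG_mono h (by push_cast; omega)
  obtain ⟨hO, hO'⟩ := odd56a m r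
  have hc : (n - m - (m + r)).choose r ≠ 0 := (Nat.choose_pos (by omega)).ne'
  have h := core56 r w _ (((n - m).choose (2 * r) : ℤ) * (((n - 3 * m - 2 * r).choose r : ℤ) +
    2 * ((n - 3 * m - 2 * r - 1).choose (r - 1) : ℤ))) (Or.inr rfl) hO hO' hc hw
  convert h using 1
  have h2 := choose56 (n - 3 * m - 2 * r) r (by omega) (by omega) 2
  have h3 : ((n - 3 * m - 2 * r : ℕ) : ℚ) = (n : ℚ) - 3 * m - 2 * r := by
    rw [Nat.cast_sub (by omega), Nat.cast_sub (by omega)]; push_cast; ring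
  rw [h3] at h2
  unfold Li
  rw [if_neg (by omega), if_neg (by omega), hr,
    prodN56 (n - m) (x := (n : ℚ) - m) (by rw [Nat.cast_sub (by omega)]) (2 * r),
    prodN56 (n - 3 * m - 2 * r - 1) (x := (n : ℚ) - m - 2 * ((m + r : ℕ) : ℚ) - 1)
      (by rw [Nat.cast_sub (by omega), h3]; push_cast; ring) (r - 1),
    prodN56 (n - m - (m + r)) (x := (n : ℚ) - m - ((m + r : ℕ) : ℚ))
      (by rw [Nat.cast_sub (by omega), Nat.cast_sub (by omega)]) r]
  have hr0 : (r.factorial : ℚ) ≠ 0 := by exact_mod_cast Nat.factorial_ne_zero r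
  have hc0 : ((n - m - (m + r)).choose r : ℚ) ≠ 0 := by exact_mod_cast hc
  rw [div_eq_div_iff (mul_ne_zero (mul_ne_zero hr0 hO) (mul_ne_zero hr0 hc0))
    (mul_ne_zero (mul_ne_zero hr0 hO) hc0)]
  push_cast at h2 ⊢
  linear_combination (-2) ^ r * (((2 * r).factorial : ℚ) * ((n - m).choose (2 * r) : ℚ)) *
    ((r.factorial : ℚ) * (∏ t ∈ range r, (2 * (m : ℚ) + 1 + 2 * t)) * ((n - m - (m + r)).choose r : ℚ)) * h2

theorem Ri_val (n m j w : ℕ) (hmj : m ≤ j) (hn : 8 * (j + m) + 20 ≤ n)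
    (hw : padicValNat 2 ((n - m - j).choose (j - m)) ≤ w) :
    VG (2 * ((j : ℤ) - m) - w) (Ri n m j) := by
  obtain ⟨r, rfl⟩ : ∃ r, j = m + r := ⟨j - m, by omega⟩
  have hr : m + r - m = r := by omega
  rw [hr] at hw
  have hcast : (2 * (((m + r : ℕ) : ℤ) - m) - w) = 2 * (r : ℤ) - w := by push_cast; ring
  rw [hcast]
  by_cases hr0' : r = 0
  · subst hr0'
    unfold Ri
    rw [if_neg (by omega), if_pos (by omega)]
    have h := VG_nat 1
    push_cast at h
    exact VG_mono h (by push_cast; omega)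
  obtain ⟨hO, hO'⟩ := odd56b n m r
  have hc : (n - m - (m + r)).choose r ≠ 0 := (Nat.choose_pos (by omega)).ne'
  have h := core56 r w _ (((2 * (m + r) - m - 1).choose (2 * r) : ℤ) *
    ((2 * n - m - 2 * (m + r) - 1).choose r : ℤ)) (Or.inl rfl) hO hO' hc hw
  convert h using 1
  unfold Ri
  rw [if_neg (by omega), if_neg (by omega), hr,
    prodN56 (2 * (m + r) - m - 1) (x := 2 * ((m + r : ℕ) : ℚ) - m - 1)
      (by rw [Nat.cast_sub (by omega), Nat.cast_sub (by omega)]; push_cast; ring) (2 * r),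
    prodN56 (2 * n - m - 2 * (m + r) - 1) (x := 2 * (n : ℚ) - m - 2 * ((m + r : ℕ) : ℚ) - 1)
      (by rw [Nat.cast_sub (by omega), Nat.cast_sub (by omega), Nat.cast_sub (by omega)]; push_cast; ring) r,
    prodN56 (n - m - (m + r)) (x := (n : ℚ) - m - ((m + r : ℕ) : ℚ))
      (by rw [Nat.cast_sub (by omega), Nat.cast_sub (by omega)]) r]
  have hr0 : (r.factorial : ℚ) ≠ 0 := by exact_mod_cast Nat.factorial_ne_zero r
  have hc0 : ((n - m - (m + r)).choose r : ℚ) ≠ 0 := by exact_mod_cast hc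
  rw [div_eq_div_iff (mul_ne_zero (mul_ne_zero hr0 hO) (mul_ne_zero hr0 hc0))
    (mul_ne_zero (mul_ne_zero hr0 hO) hc0)]
  push_cast
  ring

end Pool.Agent.Helper44.BZ
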