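import Mathlib
import Pool.Agent.Helper44.BZ.Defs
import Pool.Agent.Helper44.BZ.VGA
import Pool.Agent.Helper44.BZ.S2A
import Pool.Agent.Helper44.BZ.MsA
import Pool.Agent.Helper44.BZ.ValL
import Pool.Agent.Helper44.BZ.Gap
import Pool.Agent.Helper44.BZ.ChM

/-! Block BZB-LAM. n = nn I, q = qq I, d = n - 2q = Ms (I+1).
For a term t in [m, q) put x = q-t, X = q-m (1 <= x <= X <= q): n-2t-1 = d+2x-1, q+a-t = x+a, n-m-t = d+X+x, t-m = X-x.
By `L_val` (w = the valuation itself) and `Li_val` the product Lq n (q+a) t * Li n t m has valuation at least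
2(x+a) - w1 + 2(X-x) - w2 = 2(X+a) - w1 - w2 >= 1 by `gap`, except if a = 0, X = 2, x = 1 (t = q-1, m = q-2). In this case
Lq n q (q-1) = 2 (n-q+1)(n-q)(n-3q+3) / ((2q-1)(n-2q+1)); n-q+1 = d+q+1, n-q = d+q, n-3q+3 = d+3-q, n-2q+1 = d+1, valuation
1 + 2 + 0 + 1 - 1 = 3 (`gap_special`), and Li n (q-1) (q-2) has valuation >= 2 - v(d+3) = -1 (`Li_val`, (d+3).choose 1). Total >= 2.
`rho_val`: the same with `Ri_val`, `R_val` and `gap'`.
`Li_crude`, `Ri_crude`: i, m < q. By `Li_val` with w = l: the factors of the numerator of (n-m-i).choose (i-m) are n-m-i-t, t < i-m, they are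
4^M + x with 0 < x <= 3M+2 < 2^l, 3M + 2 < 4^M (n = 4^M+3M+2, m+i+t <= 2i-1 < 2q), so their valuation v(x) is <= l (`choose_val_le`, `val_add_pow`,
2^v(x) <= x). 2r - l >= -l. -/

set_option autoImplicit false

namespace Pool.Agent.Helper44.BZ

open Finset

private theorem pow_big (M : ℕ) (h : 5 ≤ M) : 100 * M + 200 ≤ 4 ^ M := by
  induction M, h using Nat.le_induction with
  | base => norm_num
  | succ M hM ih =>
    rw [pow_succ]
    omega

private theorem lam_size (I : ℕ) (hI : 3 ≤ I) :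
    1029 ≤ Ms I ∧ Ms (I + 1) = Ms I + 4 ^ Ms I ∧ 100 * Ms I + 200 ≤ 4 ^ Ms I ∧ qq I = Ms I + 1 ∧
      nn I = 2 * qq I + Ms (I + 1) := by
  have h1 : Ms 3 ≤ Ms I := Ms_strictMono.monotone hI
  rw [Ms_three'] at h1
  exact ⟨h1, Ms_succ_eq I, pow_big (Ms I) (by omega), rfl, rfl⟩

/-- valuation of the product of two bounds -/
private theorem term_val {c d e : ℤ} {x y : ℚ} (hx : VG c x) (hy : VG d y) (h : e ≤ c + d) :
    VG e (x * y) := VG_mono (VG_mul hx hy) h

private theorem special_L (I : ℕ) (hI : 3 ≤ I) : VG 3 (Lq (nn I) (qq I) (qq I - 1)) := by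
  obtain ⟨h1, h2, h3, h4, h5⟩ := lam_size I hI
  obtain ⟨g1, g2, g3, g4, g5⟩ := gap_special I (by omega)
  have e1 : qq I - (qq I - 1) = 1 := by omega
  have hL : Lq (nn I) (qq I) (qq I - 1) =
      (2 : ℚ) * ((Ms (I + 1) + qq I + 1 : ℕ) : ℚ) * ((Ms (I + 1) + qq I : ℕ) : ℚ) *
        ((Ms (I + 1) + 3 - qq I : ℕ) : ℚ) / (((2 * qq I - 1 : ℕ) : ℚ) * ((Ms (I + 1) + 1 : ℕ) : ℚ)) := by
    unfold Lq
    rw [if_neg (by omega), e1]
    simp only [Finset.prod_range_succ, Finset.prod_range_zero, pow_one, Nat.factorial_one, Nat.cast_one, one_mul,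
      Nat.cast_zero, mul_zero, add_zero, sub_zero, mul_one]
    have c1 : ((qq I - 1 : ℕ) : ℚ) = (qq I : ℚ) - 1 := by
      rw [Nat.cast_sub (by omega)]; simp
    have c2 : ((2 * qq I - 1 : ℕ) : ℚ) = 2 * (qq I : ℚ) - 1 := by
      rw [Nat.cast_sub (by omega)]; simp
    have c3 : ((Ms (I + 1) + 3 - qq I : ℕ) : ℚ) = (Ms (I + 1) : ℚ) + 3 - qq I := by
      rw [Nat.cast_sub (by omega)]; simp
    have c4 : ((nn I : ℕ) : ℚ) = 2 * (qq I : ℚ) + Ms (I + 1) := by
      rw [h5]; push_cast; ring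
    rw [c1, c2, c3, c4]
    push_cast
    congr 1
    · ring
    · ring
  rw [hL]
  have k1 : padicValNat 2 (2 * qq I - 1) = 0 := by
    apply padicValNat.eq_zero_of_not_dvd
    omega
  have hden : (((2 * qq I - 1 : ℕ) : ℚ) * ((Ms (I + 1) + 1 : ℕ) : ℚ)) ≠ 0 := by
    apply mul_ne_zero
    · have : (2 * qq I - 1 : ℕ) ≠ 0 := by omega
      exact_mod_cast this
    · have : (Ms (I + 1) + 1 : ℕ) ≠ 0 := by omega
      exact_mod_cast this
  have hv : padicValRat 2 (((2 * qq I - 1 : ℕ) : ℚ) * ((Ms (I + 1) + 1 : ℕ) : ℚ)) = 1 := by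
    rw [padicValRat.mul (left_ne_zero_of_mul hden) (right_ne_zero_of_mul hden), padicValRat.of_nat,
      padicValRat.of_nat, k1, g1]
    simp
  have n1 : VG 1 (2 : ℚ) := by
    have := VG_two_pow 1
    simpa using this
  have n2 : VG 2 ((Ms (I + 1) + qq I + 1 : ℕ) : ℚ) := by
    have := VG_nat_val (c := 2) (z := Ms (I + 1) + qq I + 1) (by omega)
    exact_mod_cast this
  have n3 : VG 0 ((Ms (I + 1) + qq I : ℕ) : ℚ) := VG_nat _
  have n4 : VG 1 ((Ms (I + 1) + 3 - qq I : ℕ) : ℚ) := by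
    have := VG_nat_val (c := 1) (z := Ms (I + 1) + 3 - qq I) (by omega)
    exact_mod_cast this
  have hnum := VG_mul (VG_mul (VG_mul n1 n2) n3) n4
  have hfin := VG_div hnum hden
  rw [hv] at hfin
  exact VG_mono hfin (by norm_num)

theorem lam_val (I a m : ℕ) (hI : 3 ≤ I) (ha : a < 3 * qq I) (hm : m < qq I) :
    VG 1 (lam (nn I) (qq I) (qq I + a) m) := by
  obtain ⟨h1, h2, h3, h4, h5⟩ := lam_size I hI
  unfold lam
  apply VG_sum
  intro t ht
  rw [Finset.mem_Ico] at ht
  have hL := L_val (nn I) (qq I + a) t _ (by omega) (by omega) le_rfl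
  have hLi := Li_val (nn I) t m _ (by omega) (by omega) le_rfl
  have e1 : nn I - 2 * t - 1 = Ms (I + 1) + 2 * (qq I - t) - 1 := by omega
  have e2 : qq I + a - t = (qq I - t) + a := by omega
  have e3 : nn I - m - t = Ms (I + 1) + (qq I - m) + (qq I - t) := by omega
  have e4 : t - m = (qq I - m) - (qq I - t) := by omega
  rw [e1, e2] at hL
  rw [e3, e4] at hLi
  by_cases hs : a = 0 ∧ qq I - m = 2 ∧ qq I - t = 1
  · obtain ⟨ha0, hm2, ht1⟩ := hs
    have et : t = qq I - 1 := by omega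
    have hsp := special_L I hI
    rw [hm2, ht1] at hLi
    have hc : padicValNat 2 ((Ms (I + 1) + 2 + 1).choose (2 - 1)) = 3 := by
      have : (Ms (I + 1) + 2 + 1).choose (2 - 1) = Ms (I + 1) + 3 := by
        rw [show (2 - 1 : ℕ) = 1 from rfl, Nat.choose_one_right]
      rw [this]
      exact (gap_special I (by omega)).2.1
    rw [hc] at hLi
    rw [← et] at hsp
    subst ha0
    rw [add_zero]
    refine term_val hsp hLi ?_
    have : ((t : ℕ) : ℤ) - m = 1 := by omega
    rw [this]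
    norm_num
  · have hg := gap I (qq I - t) (qq I - m) a (by omega) (by omega) (by omega) (by omega) ha hs
    refine term_val hL hLi ?_
    omega

theorem rho_val (I b m : ℕ) (hI : 3 ≤ I) (hb : b < 3 * qq I) (hm : m < qq I) :
    VG 0 (rho (nn I) (qq I) m (qq I + b)) := by
  obtain ⟨h1, h2, h3, h4, h5⟩ := lam_size I hI
  unfold rho
  apply VG_sum
  intro t ht
  rw [Finset.mem_Ico] at ht
  have hL := R_val (nn I) t (qq I + b) _ (by omega) (by omega) le_rfl
  have hLi := Ri_val (nn I) m t _ (by omega) (by omega) le_rfl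
  have e1 : nn I - 2 * t - 1 = Ms (I + 1) + 2 * (qq I - t) - 1 := by omega
  have e2 : qq I + b - t = (qq I - t) + b := by omega
  have e3 : nn I - m - t = Ms (I + 1) + (qq I - m) + (qq I - t) := by omega
  have e4 : t - m = (qq I - m) - (qq I - t) := by omega
  rw [e1, e2] at hL
  rw [e3, e4] at hLi
  have hg := gap' I (qq I - t) (qq I - m) b (by omega) (by omega) (by omega) (by omega) hb
  refine term_val hLi hL ?_
  omega

private theorem crude_choose (I l i m : ℕ) (hI : 3 ≤ I) (hl : 6 * Ms I + 3 < 2 ^ l) (hi : i < qq I) (hmi : m ≤ i) :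
    padicValNat 2 ((nn I - m - i).choose (i - m)) ≤ l := by
  obtain ⟨h1, h2, h3, h4, h5⟩ := lam_size I hI
  apply choose_val_le
  · omega
  · intro t ht
    obtain ⟨x, hx⟩ : ∃ x, nn I - m - i - t = 2 ^ (2 * Ms I) * 1 + x := by
      refine ⟨3 * Ms I + 2 - m - i - t, ?_⟩
      rw [← four_pow]
      omega
    have hxx : x = 3 * Ms I + 2 - m - i - t := by
      rw [← four_pow] at hx
      omega
    rw [hx, val_add_pow (2 * Ms I) 1 x (by omega) (by rw [← four_pow]; omega)]
    have hv := two_pow_val_le x (by omega)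
    by_contra hcon
    have : 2 ^ l ≤ 2 ^ padicValNat 2 x := Nat.pow_le_pow_right (by norm_num) (by omega)
    omega

theorem Li_crude (I l i m : ℕ) (hI : 3 ≤ I) (hl : 6 * Ms I + 3 < 2 ^ l) (hi : i < qq I) (hm : m < qq I) :
    VG (-(l : ℤ)) (Li (nn I) i m) := by
  obtain ⟨h1, h2, h3, h4, h5⟩ := lam_size I hI
  by_cases hmi : m ≤ i
  · have h := Li_val (nn I) i m l hmi (by omega) (crude_choose I l i m hI hl hi hmi)
    exact VG_mono h (by omega)
  · have : Li (nn I) i m = 0 := by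
      unfold Li
      rw [if_pos (by omega)]
    rw [this]
    exact VG_zero _

theorem Ri_crude (I l m j : ℕ) (hI : 3 ≤ I) (hl : 6 * Ms I + 3 < 2 ^ l) (hj : j < qq I) (hm : m < qq I) :
    VG (-(l : ℤ)) (Ri (nn I) m j) := by
  obtain ⟨h1, h2, h3, h4, h5⟩ := lam_size I hI
  by_cases hmi : m ≤ j
  · have h := Ri_val (nn I) m j l hmi (by omega) (by
      have := crude_choose I l j m hI hl hj hmi
      exact this)
    exact VG_mono h (by omega)
  · have : Ri (nn I) m j = 0 := by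
      unfold Ri
      rw [if_pos (by omega)]
    rw [this]
    exact VG_zero _

end Pool.Agent.Helper44.BZ
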