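import Mathlib
import Pool.Agent.Helper44.BZ.Defs

/-! Block BZB-LDUA (rational function identities for Block LDUB). n, i, j, m natural numbers, all real numbers below
are nonzero because of `hn`. Write t(i,m) = Lq n i m * Dq n m * Rq n m j.

(1) `t_step_i`: Lq n (i+1) m / Lq n i m for m <= i, read off from the definition with r = i - m:
 2^(r+1)/2^r = 2;  prod_{s<2r+2} (n+i+1-2m-1-s) = (n+i-2m) * prod_{s<2r} (n+i-2m-1-s) * (n-i-1)
 (last factor: n+i-2m-(2r+1) = n-i-1);  prod_{s<r+1} (n-3m-s) has the new factor n-3m-r = n-2m-i; the new factors below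
 are r+1 = i+1-m, 2m+1+2r = 2i+1, n-2m-1-r = n-m-i-1. For m = i+1 both sides are 0 (Lq n i m = 0 and i+1-m = 0).
(2) `t_step_m`: t(i,m+1)/t(i,m) for m < i, m < j. Ratio of the L part (r = i-m, from m to m+1):
 2^(-1);  1/((n+i-2m-1)(n+i-2m-2)) (the product over 2r factors starts at n+i-2m-1 and ends at n-i in both cases);
 prod (n-3m-s), s<r, is (n-3m)(n-3m-1)...(n-2m-i+1), it becomes (n-3m-3)...(n-2m-2-i+1): factor
 (n-2m-i)(n-2m-i-1)/((n-3m)(n-3m-1)(n-3m-2));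
 1/prod (n-2m-1-s) (from n-2m-1 down to n-m-i) becomes 1/(n-2m-3 ... n-m-1-i): factor (n-2m-1)(n-2m-2)/(n-m-i-1);
 r!/(r-1)! = i-m;  prod (2m+1+2s) loses the factor 2m+1: factor (2m+1).
 Ratio of the R part (r' = j-m): (-2)^(-1); prod_{s<2r'} (j-s) loses its last two factors j-2r'+2, j-2r'+1 = 2m+2-j, 2m+1-j
 (here the cross multiplied form is used: they may vanish); RY = (2n-3m-1)...(2n-2m-j+1) * (2n-3j) becomes
 (2n-3m-4)...(2n-2m-2-j+1) * (2n-3j): factor (2n-2m-j)(2n-2m-j-1)/((2n-3m-1)(2n-3m-2)(2n-3m-3)) (also for r' = 1, where RY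
 goes from (2n-3j) to 1: check: 2n-2m-j = 2n-3m-1, 2n-2m-j-1 = 2n-3m-2, 2n-3m-3 = 2n-3j);
 (n-2m-1)(n-2m-2)/(n-m-j-1); r' = j-m; (2n-2m-1).
 Ratio of D: the factor t = m in the definition of Dq. The product of the three ratios is as stated.
 For m >= min(i, j) both sides vanish (the left side since Lq or Rq is 0 there, the right side since i-m = 0 or j-m = 0 when
 m = min(i,j); for m > min(i,j) also t(i,m) = 0). -/

set_option autoImplicit false

namespace Pool.Agent.Helper44.BZ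

open Finset

/-- the term of the LDU sum -/
noncomputable def tt (n i j m : ℕ) : ℚ := Lq n i m * Dq n m * Rq n m j

private theorem shA67 (x : ℚ) (r : ℕ) :
    (∏ t ∈ range (2 * (r + 1)), (x + 1 - t)) = (∏ t ∈ range (2 * r), (x - t)) * ((x + 1) * (x - 2 * r)) := by
  induction r with
  | zero =>
    simp only [zero_add, mul_one, prod_range_zero, Nat.cast_zero, mul_zero, sub_zero, one_mul]
    rw [prod_range_succ, prod_range_succ, prod_range_zero]
    push_cast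
    ring
  | succ k ih =>
    have e1 : 2 * (k + 1 + 1) = 2 * (k + 1) + 1 + 1 := by ring
    have e2 : 2 * (k + 1) = 2 * k + 1 + 1 := by ring
    rw [e1, prod_range_succ, prod_range_succ, ih, e2, prod_range_succ, prod_range_succ]
    push_cast
    ring

private theorem shB67 (x : ℚ) (r : ℕ) :
    (∏ t ∈ range (2 * (r + 1)), (x - t)) = (∏ t ∈ range (2 * r), (x - 2 - t)) * (x * (x - 1)) := by
  have e1 : 2 * (r + 1) = 2 * r + 1 + 1 := by ring
  rw [e1, prod_range_succ', prod_range_succ']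
  have e2 : ∀ k ∈ range (2 * r), (x - ((k + 1 + 1 : ℕ) : ℚ)) = x - 2 - k := by
    intro k _
    push_cast
    ring
  rw [prod_congr rfl e2]
  push_cast
  ring

private theorem shC67 (x : ℚ) (r : ℕ) :
    (∏ t ∈ range r, (x - 3 - t)) * (x * (x - 1) * (x - 2)) =
      (∏ t ∈ range (r + 1), (x - t)) * ((x - (r + 1)) * (x - (r + 2))) := by
  induction r with
  | zero => simp; ring
  | succ k ih =>
    rw [prod_range_succ, prod_range_succ _ (k + 1)]
    calc (∏ t ∈ range k, (x - 3 - t)) * (x - 3 - k) * (x * (x - 1) * (x - 2))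
        = ((∏ t ∈ range k, (x - 3 - t)) * (x * (x - 1) * (x - 2))) * (x - 3 - k) := by ring
      _ = _ := by rw [ih]; push_cast; ring

private theorem shD67 (x : ℚ) (r : ℕ) :
    (∏ t ∈ range r, (x - 2 - t)) * (x * (x - 1)) = (∏ t ∈ range (r + 1), (x - t)) * (x - (r + 1)) := by
  induction r with
  | zero => simp
  | succ k ih =>
    rw [prod_range_succ, prod_range_succ _ (k + 1)]
    calc (∏ t ∈ range k, (x - 2 - t)) * (x - 2 - k) * (x * (x - 1))
        = ((∏ t ∈ range k, (x - 2 - t)) * (x * (x - 1))) * (x - 2 - k) := by ring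
      _ = _ := by rw [ih]; push_cast; ring

private theorem shE67 (x : ℚ) (r : ℕ) :
    (∏ t ∈ range (r + 1), (x + 2 * t)) = x * (∏ t ∈ range r, (x + 2 + 2 * t)) := by
  rw [prod_range_succ']
  have e2 : ∀ k ∈ range r, (x + 2 * ((k + 1 : ℕ) : ℚ)) = x + 2 + 2 * k := by
    intro k _
    push_cast
    ring
  rw [prod_congr rfl e2]
  push_cast
  ring

private theorem shF67 (x : ℚ) (r : ℕ) :
    (∏ t ∈ range (r + 1), (x - 2 * t)) = x * (∏ t ∈ range r, (x - 2 - 2 * t)) := by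
  rw [prod_range_succ']
  have e2 : ∀ k ∈ range r, (x - 2 * ((k + 1 : ℕ) : ℚ)) = x - 2 - 2 * k := by
    intro k _
    push_cast
    ring
  rw [prod_congr rfl e2]
  push_cast
  ring

private theorem lqE67 (n m r : ℕ) : Lq n (m + r) m =
    2 ^ r * (∏ t ∈ range (2 * r), ((n : ℚ) + r - m - 1 - t)) *
      (∏ t ∈ range r, ((n : ℚ) - 3 * m - t)) /
      ((Nat.factorial r : ℚ) * (∏ t ∈ range r, (2 * (m : ℚ) + 1 + 2 * t)) *
        (∏ t ∈ range r, ((n : ℚ) - 2 * m - 1 - t))) := by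
  unfold Lq
  rw [if_neg (by omega)]
  have e : m + r - m = r := by omega
  rw [e]
  have e2 : ∀ t ∈ range (2 * r), ((n : ℚ) + ((m + r : ℕ) : ℚ) - 2 * m - 1 - t) = (n : ℚ) + r - m - 1 - t := by
    intro t _
    push_cast
    ring
  rw [prod_congr rfl e2]

private theorem rqE67 (n m r : ℕ) : Rq n m (m + r) =
    (-2) ^ r * (∏ t ∈ range (2 * r), ((m : ℚ) + r - t)) * RY n m (m + r) /
      ((Nat.factorial r : ℚ) * (∏ t ∈ range r, (2 * (n : ℚ) - 2 * m - 1 - 2 * t)) *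
        (∏ t ∈ range r, ((n : ℚ) - 2 * m - 1 - t))) := by
  unfold Rq
  rw [if_neg (by omega)]
  have e : m + r - m = r := by omega
  rw [e]
  have e2 : ∀ t ∈ range (2 * r), (((m + r : ℕ) : ℚ) - t) = (m : ℚ) + r - t := by
    intro t _
    push_cast
    ring
  rw [prod_congr rfl e2]

private theorem ryS67 (n m r : ℕ) :
    RY n (m + 1) (m + 1 + r) * ((2 * (n : ℚ) - 3 * m - 1) * (2 * (n : ℚ) - 3 * m - 2) * (2 * (n : ℚ) - 3 * m - 3)) =
      RY n m (m + 1 + r) * ((2 * (n : ℚ) - 3 * m - r - 1) * (2 * (n : ℚ) - 3 * m - r - 2)) := by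
  cases r with
  | zero =>
    have h1 : RY n (m + 1) (m + 1 + 0) = 1 := by
      unfold RY
      rw [if_pos (by omega)]
    have h2 : RY n m (m + 1 + 0) = 2 * (n : ℚ) - 3 * (m + 1) := by
      unfold RY
      rw [if_neg (by omega)]
      have e : m + 1 + 0 - m - 1 = 0 := by omega
      rw [e]
      simp
    rw [h1, h2]
    push_cast
    ring
  | succ k =>
    have h1 : RY n (m + 1) (m + 1 + (k + 1)) =
        (∏ t ∈ range k, ((2 * (n : ℚ) - 3 * m - 1) - 3 - t)) * (2 * (n : ℚ) - 3 * (m + 1 + (k + 1))) := by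
      unfold RY
      rw [if_neg (by omega)]
      have e : m + 1 + (k + 1) - (m + 1) - 1 = k := by omega
      rw [e]
      have e2 : ∀ t ∈ range k, (2 * (n : ℚ) - 3 * ((m + 1 : ℕ) : ℚ) - 1 - t) = (2 * (n : ℚ) - 3 * m - 1) - 3 - t := by
        intro t _
        push_cast
        ring
      rw [prod_congr rfl e2]
      push_cast
      ring
    have h2 : RY n m (m + 1 + (k + 1)) =
        (∏ t ∈ range (k + 1), ((2 * (n : ℚ) - 3 * m - 1) - t)) * (2 * (n : ℚ) - 3 * (m + 1 + (k + 1))) := by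
      unfold RY
      rw [if_neg (by omega)]
      have e : m + 1 + (k + 1) - m - 1 = k + 1 := by omega
      rw [e]
      push_cast
      ring
    rw [h1, h2]
    have h3 := shC67 (2 * (n : ℚ) - 3 * m - 1) k
    push_cast
    linear_combination (2 * (n : ℚ) - 3 * (m + 1 + (k + 1))) * h3

private theorem nz1_67 (m r : ℕ) : (∏ t ∈ range r, (2 * (m : ℚ) + 1 + 2 * t)) ≠ 0 := by
  apply prod_ne_zero_iff.mpr
  intro t _
  positivity

private theorem nz2_67 (n m r : ℕ) (h : 2 * m + r < n) : (∏ t ∈ range r, ((n : ℚ) - 2 * m - 1 - t)) ≠ 0 := by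
  apply prod_ne_zero_iff.mpr
  intro t ht
  have ht' := mem_range.mp ht
  have h2 : ((2 * m + 1 + t : ℕ) : ℚ) < (n : ℚ) := by exact_mod_cast (by omega : 2 * m + 1 + t < n)
  push_cast at h2
  intro h3
  linarith

private theorem nz3_67 (n m r : ℕ) (h : m + r < n) : (∏ t ∈ range r, (2 * (n : ℚ) - 2 * m - 1 - 2 * t)) ≠ 0 := by
  apply prod_ne_zero_iff.mpr
  intro t ht
  have ht' := mem_range.mp ht
  have h2 : ((2 * m + 1 + 2 * t : ℕ) : ℚ) < ((2 * n : ℕ) : ℚ) := by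
    exact_mod_cast (by omega : 2 * m + 1 + 2 * t < 2 * n)
  push_cast at h2
  intro h3
  linarith

private theorem genI67 (c P1 P2 P3 P4 f a b g d e r1 : ℚ) (hf : f ≠ 0) (h3 : P3 ≠ 0) (h4 : P4 ≠ 0) (hd : d ≠ 0)
    (he : e ≠ 0) (hr : r1 ≠ 0) :
    c * P1 * P2 / (f * P3 * P4) * (2 * a * b * g) =
      c * 2 * (P1 * (a * b)) * (P2 * g) / (r1 * f * (P3 * d) * (P4 * e)) * (r1 * d * e) := by
  rw [div_mul_eq_mul_div, div_mul_eq_mul_div, div_eq_div_iff (mul_ne_zero (mul_ne_zero hf h3) h4)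
    (mul_ne_zero (mul_ne_zero (mul_ne_zero hr hf) (mul_ne_zero h3 hd)) (mul_ne_zero h4 he))]
  ring

/-- step in i for L -/
private theorem lStepI67 (n m r : ℕ) (h : 2 * m + r + 1 < n) :
    Lq n (m + r) m * (2 * ((n : ℚ) + r - m) * ((n : ℚ) - m - r - 1) * ((n : ℚ) - 3 * m - r)) =
      Lq n (m + (r + 1)) m * (((r : ℚ) + 1) * (2 * m + 1 + 2 * r) * ((n : ℚ) - 2 * m - 1 - r)) := by
  rw [lqE67, lqE67]
  have hA := shA67 ((n : ℚ) + r - m - 1) r
  have hA' : (∏ t ∈ range (2 * (r + 1)), ((n : ℚ) + ((r + 1 : ℕ) : ℚ) - m - 1 - t)) =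
      (∏ t ∈ range (2 * r), ((n : ℚ) + r - m - 1 - t)) * (((n : ℚ) + r - m) * ((n : ℚ) - m - r - 1)) := by
    have e2 : ∀ t ∈ range (2 * (r + 1)), ((n : ℚ) + ((r + 1 : ℕ) : ℚ) - m - 1 - t) =
        (n : ℚ) + r - m - 1 + 1 - t := by
      intro t _
      push_cast
      ring
    rw [prod_congr rfl e2, hA]
    ring
  rw [hA', prod_range_succ _ r, prod_range_succ _ r, prod_range_succ _ r, Nat.factorial_succ, pow_succ]
  have n1 := nz1_67 m r
  have n2 := nz2_67 n m r (by omega)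
  have n3 : (2 * (m : ℚ) + 1 + 2 * r) ≠ 0 := by positivity
  have n4 : ((n : ℚ) - 2 * m - 1 - r) ≠ 0 := by
    have h2 : ((2 * m + r + 1 : ℕ) : ℚ) < (n : ℚ) := by exact_mod_cast h
    push_cast at h2
    intro h3
    linarith
  have n5 : (Nat.factorial r : ℚ) ≠ 0 := by exact_mod_cast (Nat.factorial_ne_zero r)
  have n6 : ((r : ℚ) + 1) ≠ 0 := by positivity
  have e5 : (((r + 1) * Nat.factorial r : ℕ) : ℚ) = ((r : ℚ) + 1) * (Nat.factorial r : ℚ) := by push_cast; ring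
  rw [e5]
  exact genI67 _ _ _ _ _ _ _ _ _ _ _ _ n5 n1 n2 n3 n4 n6

private theorem genM67 (c k P1 P2 P2' P3 P4 P4' f T V S e x r1 m1 : ℚ) (h2 : P2 * T = P2' * V)
    (h4 : P4 * S = P4' * e) (hf : f ≠ 0) (n3 : P3 ≠ 0) (n4 : P4 ≠ 0) (n4' : P4' ≠ 0) (nr : r1 ≠ 0) (nm : m1 ≠ 0) :
    c * P1 * P2 / (f * P3 * P4) * (k * x * T * e) =
      c * k * (P1 * x) * P2' / (r1 * f * (m1 * P3) * P4') * (V * S * r1 * m1) := by
  rw [div_mul_eq_mul_div, div_mul_eq_mul_div, div_eq_div_iff (mul_ne_zero (mul_ne_zero hf n3) n4)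
    (mul_ne_zero (mul_ne_zero (mul_ne_zero nr hf) (mul_ne_zero nm n3)) n4')]
  linear_combination (c * k * P1 * x * r1 * f * m1 * P3) * (e * P4') * h2 -
    (c * k * P1 * x * r1 * f * m1 * P3) * (P2' * V) * h4

/-- step in m for L -/
private theorem lStepM67 (n m r : ℕ) (h : 2 * m + r + 2 < n) :
    Lq n (m + 1 + r) (m + 1) * (2 * (((n : ℚ) + r - m) * ((n : ℚ) + r - m - 1)) *
        (((n : ℚ) - 3 * m) * ((n : ℚ) - 3 * m - 1) * ((n : ℚ) - 3 * m - 2)) * ((n : ℚ) - 2 * m - 1 - (r + 1))) =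
      Lq n (m + 1 + r) m * ((((n : ℚ) - 3 * m - (r + 1)) * ((n : ℚ) - 3 * m - (r + 2))) *
        (((n : ℚ) - 2 * m - 1) * ((n : ℚ) - 2 * m - 1 - 1)) * ((r : ℚ) + 1) * (2 * m + 1)) := by
  rw [lqE67 n (m + 1) r]
  have e0 : m + 1 + r = m + (r + 1) := by ring
  rw [e0, lqE67 n m (r + 1)]
  have hP1 : (∏ t ∈ range (2 * (r + 1)), ((n : ℚ) + ((r + 1 : ℕ) : ℚ) - m - 1 - t)) =
      (∏ t ∈ range (2 * r), ((n : ℚ) + r - ((m + 1 : ℕ) : ℚ) - 1 - t)) *
        (((n : ℚ) + r - m) * ((n : ℚ) + r - m - 1)) := by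
    have e1 : ∀ t ∈ range (2 * (r + 1)), ((n : ℚ) + ((r + 1 : ℕ) : ℚ) - m - 1 - t) = (n : ℚ) + r - m - t := by
      intro t _
      push_cast
      ring
    have e2 : ∀ t ∈ range (2 * r), ((n : ℚ) + r - ((m + 1 : ℕ) : ℚ) - 1 - t) = (n : ℚ) + r - m - 2 - t := by
      intro t _
      push_cast
      ring
    rw [prod_congr rfl e1, prod_congr rfl e2, shB67]
  have hP2 : (∏ t ∈ range r, ((n : ℚ) - 3 * ((m + 1 : ℕ) : ℚ) - t)) =
      ∏ t ∈ range r, ((n : ℚ) - 3 * m - 3 - t) := by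
    apply prod_congr rfl
    intro t _
    push_cast
    ring
  have hP3 : (∏ t ∈ range (r + 1), (2 * (m : ℚ) + 1 + 2 * t)) =
      (2 * (m : ℚ) + 1) * (∏ t ∈ range r, (2 * ((m + 1 : ℕ) : ℚ) + 1 + 2 * t)) := by
    rw [shE67]
    congr 1
    apply prod_congr rfl
    intro t _
    push_cast
    ring
  have hP4 : (∏ t ∈ range r, ((n : ℚ) - 2 * ((m + 1 : ℕ) : ℚ) - 1 - t)) =
      ∏ t ∈ range r, ((n : ℚ) - 2 * m - 1 - 2 - t) := by
    apply prod_congr rfl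
    intro t _
    push_cast
    ring
  have n3 := nz1_67 (m + 1) r
  have n4 := nz2_67 n (m + 1) r (by omega)
  have n4' := nz2_67 n m (r + 1) (by omega)
  have n5 : (Nat.factorial r : ℚ) ≠ 0 := by exact_mod_cast (Nat.factorial_ne_zero r)
  have n6 : ((r : ℚ) + 1) ≠ 0 := by positivity
  have n7 : (2 * (m : ℚ) + 1) ≠ 0 := by positivity
  have e5 : (((r + 1) * Nat.factorial r : ℕ) : ℚ) = ((r : ℚ) + 1) * (Nat.factorial r : ℚ) := by push_cast; ring
  rw [hP4] at n4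
  rw [hP1, hP2, hP3, hP4, Nat.factorial_succ, pow_succ, e5]
  exact genM67 _ _ _ _ _ _ _ _ _ _ _ _ _ _ _ _ (shC67 ((n : ℚ) - 3 * m) r) (shD67 ((n : ℚ) - 2 * m - 1) r)
    n5 n3 n4 n4' n6 n7

/-- step in m for R -/
private theorem rStepM67 (n m r : ℕ) (h : 2 * m + r + 2 < n) :
    Rq n (m + 1) (m + 1 + r) * (-2 * (((m : ℚ) + 1 - r) * ((m : ℚ) - r)) *
        ((2 * (n : ℚ) - 3 * m - 1) * (2 * (n : ℚ) - 3 * m - 2) * (2 * (n : ℚ) - 3 * m - 3)) *
        ((n : ℚ) - 2 * m - 1 - (r + 1))) =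
      Rq n m (m + 1 + r) * (((2 * (n : ℚ) - 3 * m - r - 1) * (2 * (n : ℚ) - 3 * m - r - 2)) *
        (((n : ℚ) - 2 * m - 1) * ((n : ℚ) - 2 * m - 1 - 1)) * ((r : ℚ) + 1) * (2 * (n : ℚ) - 2 * m - 1)) := by
  have hY := ryS67 n m r
  rw [rqE67 n (m + 1) r]
  have e0 : m + 1 + r = m + (r + 1) := by ring
  rw [e0, rqE67 n m (r + 1)]
  rw [e0] at hY
  have hP1 : (∏ t ∈ range (2 * (r + 1)), ((m : ℚ) + ((r + 1 : ℕ) : ℚ) - t)) =
      (∏ t ∈ range (2 * r), (((m + 1 : ℕ) : ℚ) + r - t)) * (((m : ℚ) + 1 - r) * ((m : ℚ) - r)) := by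
    have e1 : ∀ t ∈ range (2 * (r + 1)), ((m : ℚ) + ((r + 1 : ℕ) : ℚ) - t) = ((m + 1 : ℕ) : ℚ) + r - t := by
      intro t _
      push_cast
      ring
    have e3 : 2 * (r + 1) = 2 * r + 1 + 1 := by ring
    rw [prod_congr rfl e1, e3, prod_range_succ, prod_range_succ]
    push_cast
    ring
  have hP3 : (∏ t ∈ range (r + 1), (2 * (n : ℚ) - 2 * m - 1 - 2 * t)) =
      (2 * (n : ℚ) - 2 * m - 1) * (∏ t ∈ range r, (2 * (n : ℚ) - 2 * ((m + 1 : ℕ) : ℚ) - 1 - 2 * t)) := by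
    rw [shF67]
    congr 1
    apply prod_congr rfl
    intro t _
    push_cast
    ring
  have hP4 : (∏ t ∈ range r, ((n : ℚ) - 2 * ((m + 1 : ℕ) : ℚ) - 1 - t)) =
      ∏ t ∈ range r, ((n : ℚ) - 2 * m - 1 - 2 - t) := by
    apply prod_congr rfl
    intro t _
    push_cast
    ring
  have n3 := nz3_67 n (m + 1) r (by omega)
  have n4 := nz2_67 n (m + 1) r (by omega)
  have n4' := nz2_67 n m (r + 1) (by omega)
  have n5 : (Nat.factorial r : ℚ) ≠ 0 := by exact_mod_cast (Nat.factorial_ne_zero r)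
  have n6 : ((r : ℚ) + 1) ≠ 0 := by positivity
  have n7 : (2 * (n : ℚ) - 2 * m - 1) ≠ 0 := by
    have h2 : ((2 * m + r + 2 : ℕ) : ℚ) < (n : ℚ) := by exact_mod_cast h
    push_cast at h2
    intro h3
    have : (0 : ℚ) ≤ r := by positivity
    linarith
  have e5 : (((r + 1) * Nat.factorial r : ℕ) : ℚ) = ((r : ℚ) + 1) * (Nat.factorial r : ℚ) := by push_cast; ring
  rw [hP4] at n4
  rw [hP1, hP3, hP4, Nat.factorial_succ, pow_succ, e5]
  exact genM67 _ _ _ _ _ _ _ _ _ _ _ _ _ _ _ _ hY (shD67 ((n : ℚ) - 2 * m - 1) r)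
    n5 n3 n4 n4' n6 n7

private theorem lq0_67 (n i m : ℕ) (h : i < m) : Lq n i m = 0 := by
  unfold Lq
  rw [if_pos h]

private theorem rq0_67 (n m j : ℕ) (h : j < m) : Rq n m j = 0 := by
  unfold Rq
  rw [if_pos h]

/-- clearing denominators -/
private theorem fin67 (L0 L1 R0 R1 D q1 q2 q3 q4 q5 q6 q7 q8 q9 q10 q11 x1 x2 z1 z2 E1 E2 v1 v2 w1 w2 r s : ℚ)
    (h1 : L1 * (2 * (x1 * x2) * (q4 * q5 * q6) * E1) = L0 * ((v1 * v2) * (q10 * q11) * r * q7))
    (h2 : R1 * (-2 * (z1 * z2) * (q1 * q2 * q3) * E2) = R0 * ((w1 * w2) * (q10 * q11) * s * q8))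
    (n7 : q7 ≠ 0) (n8 : q8 ≠ 0) (n9 : q9 ≠ 0) (n10 : q10 ≠ 0) (n11 : q11 ≠ 0) :
    L1 * (D * (-4 * q1 * q2 * q3 * q4 * q5 * q6 / (q7 * q8 * q9 * q10 ^ 2 * q11))) * R1 *
      (x1 * x2 * z2 * z1 * E1 * E2 * q9) = L0 * D * R0 * (r * s * v1 * v2 * w1 * w2 * q11) := by
  have h12 : (L1 * (2 * (x1 * x2) * (q4 * q5 * q6) * E1)) * (R1 * (-2 * (z1 * z2) * (q1 * q2 * q3) * E2)) =
      (L0 * ((v1 * v2) * (q10 * q11) * r * q7)) * (R0 * ((w1 * w2) * (q10 * q11) * s * q8)) := by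
    rw [h1, h2]
  have h3 : L1 * (D * (-4 * q1 * q2 * q3 * q4 * q5 * q6 / (q7 * q8 * q9 * q10 ^ 2 * q11))) * R1 *
      (x1 * x2 * z2 * z1 * E1 * E2 * q9) =
      D * q9 / (q7 * q8 * q9 * q10 ^ 2 * q11) * ((L1 * (2 * (x1 * x2) * (q4 * q5 * q6) * E1)) *
        (R1 * (-2 * (z1 * z2) * (q1 * q2 * q3) * E2))) := by
    ring
  rw [h3, h12]
  field_simp

theorem t_step_i (n i j m : ℕ) (hm : m ≤ i + 1) (hn : 4 * (i + j) + 20 ≤ n) :
    tt n i j m * (2 * ((n : ℚ) + i - 2 * m) * ((n : ℚ) - i - 1) * ((n : ℚ) - 2 * m - i)) =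
      tt n (i + 1) j m * (((i : ℚ) + 1 - m) * (2 * i + 1) * ((n : ℚ) - m - i - 1)) := by
  unfold tt
  rcases Nat.lt_or_ge i m with h | h
  · have h2 : m = i + 1 := by omega
    subst h2
    rw [lq0_67 n i (i + 1) h]
    push_cast
    ring
  · obtain ⟨r, rfl⟩ := Nat.exists_eq_add_of_le h
    have h1 := lStepI67 n m r (by omega)
    have e : m + r + 1 = m + (r + 1) := by ring
    rw [e]
    push_cast
    linear_combination (Dq n m * Rq n m j) * h1

theorem t_step_m (n i j m : ℕ) (hn : 4 * (i + j) + 20 ≤ n) :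
    tt n i j (m + 1) * (((n : ℚ) + i - 2 * m - 1) * ((n : ℚ) + i - 2 * m - 2) * (2 * m + 1 - j) * (2 * m + 2 - j) *
        ((n : ℚ) - m - i - 1) * ((n : ℚ) - m - j - 1) * ((n : ℚ) - 2 * m)) =
      tt n i j m * (((i : ℚ) - m) * ((j : ℚ) - m) * ((n : ℚ) - 2 * m - i) * ((n : ℚ) - 2 * m - i - 1) *
        (2 * (n : ℚ) - 2 * m - j) * (2 * (n : ℚ) - 2 * m - j - 1) * ((n : ℚ) - 2 * m - 2)) := by
  unfold tt
  by_cases hi : m < i
  · by_cases hj : m < j
    · obtain ⟨r, rfl⟩ := Nat.exists_eq_add_of_le (show m + 1 ≤ i from hi)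
      obtain ⟨s, rfl⟩ := Nat.exists_eq_add_of_le (show m + 1 ≤ j from hj)
      have h1 := lStepM67 n m r (by omega)
      have h2 := rStepM67 n m s (by omega)
      have hD : Dq n (m + 1) = Dq n m *
          (-4 * (2 * (n : ℚ) - 3 * m - 1) * (2 * n - 3 * m - 2) * (2 * n - 3 * m - 3) *
            (n - 3 * m) * (n - 3 * m - 1) * (n - 3 * m - 2) /
            ((2 * m + 1) * (2 * n - 2 * m - 1) * (n - 2 * m) * (n - 2 * m - 1) ^ 2 * (n - 2 * m - 2))) := by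
        unfold Dq
        rw [prod_range_succ]
      have hn' : ((4 * (m + 1 + r + (m + 1 + s)) + 20 : ℕ) : ℚ) ≤ (n : ℚ) := by exact_mod_cast hn
      push_cast at hn'
      have hr0 : (0 : ℚ) ≤ r := by positivity
      have hs0 : (0 : ℚ) ≤ s := by positivity
      have hm0 : (0 : ℚ) ≤ m := by positivity
      have q7 : (2 * (m : ℚ) + 1) ≠ 0 := by positivity
      have q8 : (2 * (n : ℚ) - 2 * m - 1) ≠ 0 := by intro h3; linarith
      have q9 : ((n : ℚ) - 2 * m) ≠ 0 := by intro h3; linarith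
      have q10 : ((n : ℚ) - 2 * m - 1) ≠ 0 := by intro h3; linarith
      have q11 : ((n : ℚ) - 2 * m - 2) ≠ 0 := by intro h3; linarith
      have k0 : (n : ℚ) - 2 * m - 1 - 1 = (n : ℚ) - 2 * m - 2 := by ring
      rw [k0] at h1 h2
      have k1 : (n : ℚ) + ((m + 1 + r : ℕ) : ℚ) - 2 * m - 1 = (n : ℚ) + r - m := by push_cast; ring
      have k2 : (n : ℚ) + ((m + 1 + r : ℕ) : ℚ) - 2 * m - 2 = (n : ℚ) + r - m - 1 := by push_cast; ring
      have k3 : 2 * (m : ℚ) + 1 - ((m + 1 + s : ℕ) : ℚ) = (m : ℚ) - s := by push_cast; ring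
      have k4 : 2 * (m : ℚ) + 2 - ((m + 1 + s : ℕ) : ℚ) = (m : ℚ) + 1 - s := by push_cast; ring
      have k5 : (n : ℚ) - m - ((m + 1 + r : ℕ) : ℚ) - 1 = (n : ℚ) - 2 * m - 1 - (r + 1) := by push_cast; ring
      have k6 : (n : ℚ) - m - ((m + 1 + s : ℕ) : ℚ) - 1 = (n : ℚ) - 2 * m - 1 - (s + 1) := by push_cast; ring
      have k7 : ((m + 1 + r : ℕ) : ℚ) - m = (r : ℚ) + 1 := by push_cast; ring
      have k8 : ((m + 1 + s : ℕ) : ℚ) - m = (s : ℚ) + 1 := by push_cast; ring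
      have k9 : (n : ℚ) - 2 * m - ((m + 1 + r : ℕ) : ℚ) = (n : ℚ) - 3 * m - (r + 1) := by push_cast; ring
      have k10 : (n : ℚ) - 3 * m - (r + 1) - 1 = (n : ℚ) - 3 * m - (r + 2) := by ring
      have k11 : 2 * (n : ℚ) - 2 * m - ((m + 1 + s : ℕ) : ℚ) = 2 * (n : ℚ) - 3 * m - s - 1 := by push_cast; ring
      have k12 : 2 * (n : ℚ) - 3 * m - s - 1 - 1 = 2 * (n : ℚ) - 3 * m - s - 2 := by ring
      rw [hD, k1, k2, k3, k4, k5, k6, k7, k8, k9, k10, k11, k12]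
      exact fin67 _ _ _ _ _ _ _ _ _ _ _ _ _ _ _ _ _ _ _ _ _ _ _ _ _ _ _ _ h1 h2 q7 q8 q9 q10 q11
    · rw [rq0_67 n (m + 1) j (by omega)]
      rcases Nat.lt_or_ge j m with h | h
      · rw [rq0_67 n m j h]
        ring
      · have h2 : m = j := by omega
        subst h2
        ring
  · rw [lq0_67 n i (m + 1) (by omega)]
    rcases Nat.lt_or_ge i m with h | h
    · rw [lq0_67 n i m h]
      ring
    · have h2 : m = i := by omega
      subst h2
      ring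

end Pool.Agent.Helper44.BZ
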