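import Mathlib
import Pool.Agent.Helper44.BZ.Defs
import Pool.Agent.Helper44.BZ.Dcl

/-! Block BZB-LDUC. The two base cases of the LDU identity.
`base_even`: use `Dq_closed` and, with double factorials x!! (odd x):
 Rq n p (2p) = (-2)^p (2p)! * [(2n-3p-1)!/(2n-4p)!] (2n-6p) / (p! * [(2n-2p-1)!!/(2n-4p-1)!!] * [(n-2p-1)!/(n-3p-1)!]) (p >= 1),
 Dq n p = (-4)^p (2n-1)! (n-2p)! (n-2p-1)! / ((2n-3p-1)! (n-3p)! (n-1)! (2p-1)!! [(2n-1)!!/(2n-2p-1)!!]).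
 Product: (2n-6p)(n-3p-1)!/(n-3p)! = 2; (2p)!/((2p-1)!! p!) = 2^p; (2n-1)!/((2n-1)!! (n-1)!) = 2^(n-1);
 (n-2p)! (2n-4p-1)!!/(2n-4p)! = 2^(-(n-2p)); total 8^p * 2 * 2^p * 2^(n-1-n+2p) = 64^p.
 Alternative: induction on p; the quotient of the two sides for p+1 and p is 1 by the definitions.
`base_odd`: Rq n p (2p-1) / Rq n p (2p): from r = p-1 to r = p the factor is
 -2 * (2p)(product over 2r factors (j-t): (2p-1)! for j = 2p-1, 2r = 2p-2, last factor 2; (2p)! for j = 2p, 2r = 2p)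
 * RY n p (2p)/RY n p (2p-1) / (p * (2n-4p+1) * (n-3p)),
 RY n p (2p-1) = (2n-3p-1)...(2n-4p+2) * (2n-6p+3), RY n p (2p) = (2n-3p-1)...(2n-4p+1) * (2n-6p) (p >= 2; p = 1:
 RY n 1 1 = 1, RY n 1 2 = 2n-6, and 1 = (2n-4p+1)^(-1) (2n-6p+3) formally, 2n-4+1 = 2n-6+3 ok),
 so Rq n p (2p) = Rq n p (2p-1) * (-2) * 2p * (2n-4p+1)(2n-6p)/((2n-6p+3) p (2n-4p+1)(n-3p)) = Rq n p (2p-1) * (-8)/(2n-6p+3);
 hence Dq n p * Rq n p (2p-1) = 64^p (2n-6p+3)/(-8). -/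

set_option autoImplicit false

namespace Pool.Agent.Helper44.BZ

open Finset

private theorem pA50 (n p : ℕ) :
    (∏ t ∈ range (p + 1), (2 * (n : ℚ) - 2 * ((p + 1 : ℕ) : ℚ) - 1 - 2 * t)) * (2 * (n : ℚ) - 2 * p - 1) =
      (∏ t ∈ range p, (2 * (n : ℚ) - 2 * p - 1 - 2 * t)) *
        ((2 * (n : ℚ) - 4 * p - 1) * (2 * (n : ℚ) - 4 * p - 3)) := by
  have h1 : (∏ t ∈ range (p + 2), (2 * (n : ℚ) - 2 * p - 1 - 2 * t)) =
      (∏ t ∈ range (p + 1), (2 * (n : ℚ) - 2 * ((p + 1 : ℕ) : ℚ) - 1 - 2 * t)) *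
        (2 * (n : ℚ) - 2 * p - 1) := by
    rw [prod_range_succ']
    congr 1
    · apply prod_congr rfl
      intro t _
      push_cast
      ring
    · simp
  have h2 : (∏ t ∈ range (p + 2), (2 * (n : ℚ) - 2 * p - 1 - 2 * t)) =
      (∏ t ∈ range p, (2 * (n : ℚ) - 2 * p - 1 - 2 * t)) *
        ((2 * (n : ℚ) - 4 * p - 1) * (2 * (n : ℚ) - 4 * p - 3)) := by
    rw [prod_range_succ, prod_range_succ, mul_assoc]
    congr 1
    push_cast
    ring
  rw [← h1, h2]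

private theorem pB50 (n p : ℕ) :
    (∏ t ∈ range (p + 1), ((n : ℚ) - 2 * ((p + 1 : ℕ) : ℚ) - 1 - t)) *
        (((n : ℚ) - 2 * p - 1) * ((n : ℚ) - 2 * p - 2)) =
      (∏ t ∈ range p, ((n : ℚ) - 2 * p - 1 - t)) *
        (((n : ℚ) - 3 * p - 1) * ((n : ℚ) - 3 * p - 2) * ((n : ℚ) - 3 * p - 3)) := by
  have h1 : (∏ t ∈ range (p + 3), ((n : ℚ) - 2 * p - 1 - t)) =
      (∏ t ∈ range (p + 1), ((n : ℚ) - 2 * ((p + 1 : ℕ) : ℚ) - 1 - t)) *
        (((n : ℚ) - 2 * p - 1) * ((n : ℚ) - 2 * p - 2)) := by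
    rw [prod_range_succ', prod_range_succ', mul_assoc]
    congr 1
    · apply prod_congr rfl
      intro t _
      push_cast
      ring
    · push_cast
      ring
  have h2 : (∏ t ∈ range (p + 3), ((n : ℚ) - 2 * p - 1 - t)) =
      (∏ t ∈ range p, ((n : ℚ) - 2 * p - 1 - t)) *
        (((n : ℚ) - 3 * p - 1) * ((n : ℚ) - 3 * p - 2) * ((n : ℚ) - 3 * p - 3)) := by
    rw [prod_range_succ, prod_range_succ, prod_range_succ, mul_assoc, mul_assoc]
    congr 1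
    push_cast
    ring
  rw [← h1, h2]

private theorem pC50 (n p : ℕ) :
    RY n (p + 1) (2 * (p + 1)) * ((2 * (n : ℚ) - 3 * p - 1) * (2 * (n : ℚ) - 3 * p - 2) *
        (2 * (n : ℚ) - 3 * p - 3) * (2 * (n : ℚ) - 6 * p)) =
      RY n p (2 * p) * ((2 * (n : ℚ) - 4 * p) * (2 * (n : ℚ) - 4 * p - 1) * (2 * (n : ℚ) - 4 * p - 2) *
        (2 * (n : ℚ) - 4 * p - 3) * (2 * (n : ℚ) - 6 * p - 6)) := by
  rcases Nat.eq_zero_or_pos p with h0 | h0
  · subst h0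
    unfold RY
    norm_num
    ring
  · obtain ⟨r, rfl⟩ : ∃ r, p = r + 1 := ⟨p - 1, by omega⟩
    unfold RY
    rw [if_neg (by omega), if_neg (by omega)]
    have e1 : 2 * (r + 1 + 1) - (r + 1 + 1) - 1 = r + 1 := by omega
    have e2 : 2 * (r + 1) - (r + 1) - 1 = r := by omega
    rw [e1, e2]
    have h1 : (∏ t ∈ range (r + 4), (2 * (n : ℚ) - 3 * ((r + 1 : ℕ) : ℚ) - 1 - t)) =
        (∏ t ∈ range (r + 1), (2 * (n : ℚ) - 3 * ((r + 1 + 1 : ℕ) : ℚ) - 1 - t)) *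
          ((2 * (n : ℚ) - 3 * ((r + 1 : ℕ) : ℚ) - 1) * (2 * (n : ℚ) - 3 * ((r + 1 : ℕ) : ℚ) - 2) *
            (2 * (n : ℚ) - 3 * ((r + 1 : ℕ) : ℚ) - 3)) := by
      rw [prod_range_succ', prod_range_succ', prod_range_succ', mul_assoc, mul_assoc]
      congr 1
      · apply prod_congr rfl
        intro t _
        push_cast
        ring
      · push_cast
        ring
    have h2 : (∏ t ∈ range (r + 4), (2 * (n : ℚ) - 3 * ((r + 1 : ℕ) : ℚ) - 1 - t)) =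
        (∏ t ∈ range r, (2 * (n : ℚ) - 3 * ((r + 1 : ℕ) : ℚ) - 1 - t)) *
          ((2 * (n : ℚ) - 4 * ((r + 1 : ℕ) : ℚ)) * (2 * (n : ℚ) - 4 * ((r + 1 : ℕ) : ℚ) - 1) *
            (2 * (n : ℚ) - 4 * ((r + 1 : ℕ) : ℚ) - 2) * (2 * (n : ℚ) - 4 * ((r + 1 : ℕ) : ℚ) - 3)) := by
      rw [prod_range_succ, prod_range_succ, prod_range_succ, prod_range_succ, mul_assoc, mul_assoc,
        mul_assoc]
      congr 1
      push_cast
      ring
    have h3 := h1.symm.trans h2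
    push_cast at h3 ⊢
    linear_combination ((2 * (n : ℚ) - 6 * (r + 1)) * (2 * (n : ℚ) - 6 * (r + 1) - 6)) * h3

private theorem fac50 (m : ℕ) : (∏ t ∈ range m, ((m : ℚ) - t)) = (m.factorial : ℚ) := by
  induction m with
  | zero => simp
  | succ m ih =>
    rw [prod_range_succ', Nat.factorial_succ]
    push_cast
    rw [← ih, mul_comm ((m : ℚ) + 1)]
    congr 1
    · apply prod_congr rfl
      intro t _
      ring
    · ring

private theorem neA50 (n p : ℕ) (hn : 16 * p + 20 ≤ n) (r : ℕ) (hr : r ≤ p) :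
    (∏ t ∈ range r, (2 * (n : ℚ) - 2 * p - 1 - 2 * t)) ≠ 0 := by
  rw [prod_ne_zero_iff]
  intro t ht
  rw [mem_range] at ht
  have h1 : (16 * (p : ℚ) + 20) ≤ n := by exact_mod_cast hn
  have h2 : (t : ℚ) + 1 ≤ p := by exact_mod_cast (by omega : t + 1 ≤ p)
  have h3 : (0 : ℚ) ≤ p := by positivity
  apply ne_of_gt
  linarith

private theorem neB50 (n p : ℕ) (hn : 16 * p + 20 ≤ n) (r : ℕ) (hr : r ≤ p) :
    (∏ t ∈ range r, ((n : ℚ) - 2 * p - 1 - t)) ≠ 0 := by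
  rw [prod_ne_zero_iff]
  intro t ht
  rw [mem_range] at ht
  have h1 : (16 * (p : ℚ) + 20) ≤ n := by exact_mod_cast hn
  have h2 : (t : ℚ) + 1 ≤ p := by exact_mod_cast (by omega : t + 1 ≤ p)
  have h3 : (0 : ℚ) ≤ p := by positivity
  apply ne_of_gt
  linarith

private theorem Req50 (n p : ℕ) : Rq n p (2 * p) =
    (-2) ^ p * ((2 * p).factorial : ℚ) * RY n p (2 * p) /
      ((Nat.factorial p : ℚ) * (∏ t ∈ range p, (2 * (n : ℚ) - 2 * p - 1 - 2 * t)) *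
        (∏ t ∈ range p, ((n : ℚ) - 2 * p - 1 - t))) := by
  unfold Rq
  rw [if_neg (by omega)]
  have e1 : 2 * p - p = p := by omega
  rw [e1]
  have := fac50 (2 * p)
  rw [this]

private theorem step50 (x p D R F G A B C D' F' G' A' B' C' E : ℚ)
    (hp : 0 ≤ p) (hx : 16 * p + 36 ≤ x)
    (hG : G ≠ 0) (hA : A ≠ 0) (hB : B ≠ 0) (hG' : G' ≠ 0) (hA' : A' ≠ 0) (hB' : B' ≠ 0)
    (hD : D' = D * (-4 * (2 * x - 3 * p - 1) * (2 * x - 3 * p - 2) * (2 * x - 3 * p - 3) *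
      (x - 3 * p) * (x - 3 * p - 1) * (x - 3 * p - 2) /
      ((2 * p + 1) * (2 * x - 2 * p - 1) * (x - 2 * p) * (x - 2 * p - 1) ^ 2 * (x - 2 * p - 2))))
    (hF : F' = F * ((2 * p + 1) * (2 * p + 2))) (hGG : G' = G * (p + 1))
    (hAA : A' * (2 * x - 2 * p - 1) = A * ((2 * x - 4 * p - 1) * (2 * x - 4 * p - 3)))
    (hBB : B' * ((x - 2 * p - 1) * (x - 2 * p - 2)) =
      B * ((x - 3 * p - 1) * (x - 3 * p - 2) * (x - 3 * p - 3)))
    (hCC : C' * ((2 * x - 3 * p - 1) * (2 * x - 3 * p - 2) * (2 * x - 3 * p - 3) * (2 * x - 6 * p)) =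
      C * ((2 * x - 4 * p) * (2 * x - 4 * p - 1) * (2 * x - 4 * p - 2) *
        (2 * x - 4 * p - 3) * (2 * x - 6 * p - 6)))
    (hE : D * (E * F * C / (G * A * B)) = R) :
    D' * (E * (-2) * F' * C' / (G' * A' * B')) = R * 64 := by
  have n1 : 2 * x - 3 * p - 1 ≠ 0 := by apply ne_of_gt; linarith
  have n2 : 2 * x - 3 * p - 2 ≠ 0 := by apply ne_of_gt; linarith
  have n3 : 2 * x - 3 * p - 3 ≠ 0 := by apply ne_of_gt; linarith
  have n4 : 2 * x - 6 * p ≠ 0 := by apply ne_of_gt; linarith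
  have n5 : x - 2 * p - 1 ≠ 0 := by apply ne_of_gt; linarith
  have n6 : x - 2 * p - 2 ≠ 0 := by apply ne_of_gt; linarith
  have n7 : x - 2 * p ≠ 0 := by apply ne_of_gt; linarith
  have n8 : 2 * x - 2 * p - 1 ≠ 0 := by apply ne_of_gt; linarith
  have n9 : 2 * p + 1 ≠ 0 := by apply ne_of_gt; linarith
  have n10 : p + 1 ≠ 0 := by apply ne_of_gt; linarith
  have n11 : x - 3 * p - 1 ≠ 0 := by apply ne_of_gt; linarith
  have n12 : x - 3 * p - 2 ≠ 0 := by apply ne_of_gt; linarith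
  have n13 : x - 3 * p - 3 ≠ 0 := by apply ne_of_gt; linarith
  have n14 : 2 * x - 4 * p - 1 ≠ 0 := by apply ne_of_gt; linarith
  have n15 : 2 * x - 4 * p - 3 ≠ 0 := by apply ne_of_gt; linarith
  have n16 : x - 3 * p ≠ 0 := by apply ne_of_gt; linarith
  have eA : A' = A * ((2 * x - 4 * p - 1) * (2 * x - 4 * p - 3)) / (2 * x - 2 * p - 1) := by
    rw [eq_div_iff n8]; exact hAA
  have eB : B' = B * ((x - 3 * p - 1) * (x - 3 * p - 2) * (x - 3 * p - 3)) /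
      ((x - 2 * p - 1) * (x - 2 * p - 2)) := by
    rw [eq_div_iff (mul_ne_zero n5 n6)]; exact hBB
  have eC : C' = C * ((2 * x - 4 * p) * (2 * x - 4 * p - 1) * (2 * x - 4 * p - 2) *
        (2 * x - 4 * p - 3) * (2 * x - 6 * p - 6)) /
      ((2 * x - 3 * p - 1) * (2 * x - 3 * p - 2) * (2 * x - 3 * p - 3) * (2 * x - 6 * p)) := by
    rw [eq_div_iff (mul_ne_zero (mul_ne_zero (mul_ne_zero n1 n2) n3) n4)]; exact hCC
  rw [← hE, hD, hF, hGG, eA, eB, eC]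
  have m4 : 2 * x - 6 * p = 2 * (x - 3 * p) := by ring
  have m5 : 2 * x - 6 * p - 6 = 2 * (x - 3 * p - 3) := by ring
  have m6 : 2 * x - 4 * p = 2 * (x - 2 * p) := by ring
  have m7 : 2 * x - 4 * p - 2 = 2 * (x - 2 * p - 1) := by ring
  have m8 : 2 * p + 2 = 2 * (p + 1) := by ring
  rw [m5, m7, m4, m6, m8]
  have n14' : 2 * (x - 2 * p) - 1 ≠ 0 := by apply ne_of_gt; linarith
  have n15' : 2 * (x - 2 * p) - 3 ≠ 0 := by apply ne_of_gt; linarith
  have n8' : 2 * (x - p) - 1 ≠ 0 := by apply ne_of_gt; linarith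
  generalize x - 3 * p - 3 = y3 at *
  field_simp
  ring

theorem base_even (n p : ℕ) (hn : 16 * p + 20 ≤ n) : Dq n p * Rq n p (2 * p) = 64 ^ p := by
  induction p with
  | zero =>
    simp [Dq, Rq, RY]
  | succ p ih =>
    have ih' := ih (by omega)
    have hx : 16 * (p : ℚ) + 36 ≤ n := by exact_mod_cast (by omega : 16 * p + 36 ≤ n)
    rw [Req50] at ih' ⊢
    have hD : Dq n (p + 1) = Dq n p * (-4 * (2 * (n : ℚ) - 3 * p - 1) * (2 * n - 3 * p - 2) *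
        (2 * n - 3 * p - 3) * (n - 3 * p) * (n - 3 * p - 1) * (n - 3 * p - 2) /
        ((2 * p + 1) * (2 * n - 2 * p - 1) * (n - 2 * p) * (n - 2 * p - 1) ^ 2 * (n - 2 * p - 2))) := by
      unfold Dq
      rw [prod_range_succ]
    have hF : ((2 * (p + 1)).factorial : ℚ) = ((2 * p).factorial : ℚ) *
        ((2 * (p : ℚ) + 1) * (2 * (p : ℚ) + 2)) := by
      have e : 2 * (p + 1) = (2 * p + 1) + 1 := by ring
      rw [e, Nat.factorial_succ, Nat.factorial_succ]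
      push_cast
      ring
    have hG : ((p + 1).factorial : ℚ) = (p.factorial : ℚ) * ((p : ℚ) + 1) := by
      rw [Nat.factorial_succ]
      push_cast
      ring
    have key := step50 (n : ℚ) (p : ℚ) (Dq n p) (64 ^ p) ((2 * p).factorial : ℚ) (p.factorial : ℚ)
      (∏ t ∈ range p, (2 * (n : ℚ) - 2 * p - 1 - 2 * t)) (∏ t ∈ range p, ((n : ℚ) - 2 * p - 1 - t))
      (RY n p (2 * p)) (Dq n (p + 1)) ((2 * (p + 1)).factorial : ℚ) ((p + 1).factorial : ℚ)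
      (∏ t ∈ range (p + 1), (2 * (n : ℚ) - 2 * ((p + 1 : ℕ) : ℚ) - 1 - 2 * t))
      (∏ t ∈ range (p + 1), ((n : ℚ) - 2 * ((p + 1 : ℕ) : ℚ) - 1 - t))
      (RY n (p + 1) (2 * (p + 1))) ((-2) ^ p) (by positivity) hx (by positivity)
      (neA50 n p (by omega) p le_rfl) (neB50 n p (by omega) p le_rfl) (by positivity)
      (neA50 n (p + 1) hn (p + 1) le_rfl) (neB50 n (p + 1) hn (p + 1) le_rfl)
      hD hF hG (pA50 n p) (pB50 n p) (pC50 n p) ih'
    rw [pow_succ, pow_succ]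
    exact key

private theorem pY50 (n r : ℕ) :
    RY n (r + 1) (2 * (r + 1)) * (2 * (n : ℚ) - 6 * r - 3) =
      RY n (r + 1) (2 * (r + 1) - 1) * ((2 * (n : ℚ) - 4 * r - 3) * (2 * (n : ℚ) - 6 * r - 6)) := by
  rcases Nat.eq_zero_or_pos r with h0 | h0
  · subst h0
    unfold RY
    norm_num
    ring
  · obtain ⟨s, rfl⟩ : ∃ s, r = s + 1 := ⟨r - 1, by omega⟩
    unfold RY
    rw [if_neg (by omega), if_neg (by omega)]
    have e1 : 2 * (s + 1 + 1) - (s + 1 + 1) - 1 = s + 1 := by omega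
    have e2 : 2 * (s + 1 + 1) - 1 - (s + 1 + 1) - 1 = s := by omega
    have e3 : 2 * (s + 1 + 1) - 1 = 2 * s + 3 := by omega
    rw [e1, e2, e3, prod_range_succ]
    push_cast
    ring

theorem base_odd (n p : ℕ) (hp : 1 ≤ p) (hn : 16 * p + 20 ≤ n) :
    Dq n p * Rq n p (2 * p - 1) * 8 = -(64 ^ p * (2 * (n : ℚ) - 6 * p + 3)) := by
  have he := base_even n p hn
  obtain ⟨r, rfl⟩ : ∃ r, p = r + 1 := ⟨p - 1, by omega⟩
  have hx : 16 * (r : ℚ) + 36 ≤ n := by exact_mod_cast (by omega : 16 * r + 36 ≤ n)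
  have hr0 : (0 : ℚ) ≤ r := by positivity
  have hR : Rq n (r + 1) (2 * (r + 1) - 1) =
      (-2) ^ r * ((2 * r + 1).factorial : ℚ) * RY n (r + 1) (2 * (r + 1) - 1) /
      ((Nat.factorial r : ℚ) * (∏ t ∈ range r, (2 * (n : ℚ) - 2 * ((r + 1 : ℕ) : ℚ) - 1 - 2 * t)) *
        (∏ t ∈ range r, ((n : ℚ) - 2 * ((r + 1 : ℕ) : ℚ) - 1 - t))) := by
    unfold Rq
    rw [if_neg (by omega)]
    have e1 : 2 * (r + 1) - 1 - (r + 1) = r := by omega
    have e3 : 2 * (r + 1) - 1 = 2 * r + 1 := by omega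
    rw [e1]
    have h := fac50 (2 * r + 1)
    rw [prod_range_succ] at h
    rw [e3, ← h]
    congr 2
    push_cast
    ring
  have hE : Rq n (r + 1) (2 * (r + 1)) * (2 * (n : ℚ) - 6 * r - 3) =
      Rq n (r + 1) (2 * (r + 1) - 1) * (-8) := by
    rw [Req50, hR, prod_range_succ _ r, prod_range_succ _ r]
    have hF : ((2 * (r + 1)).factorial : ℚ) = ((2 * r + 1).factorial : ℚ) * (2 * ((r : ℚ) + 1)) := by
      have e : 2 * (r + 1) = (2 * r + 1) + 1 := by ring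
      rw [e, Nat.factorial_succ]
      push_cast
      ring
    have hG : ((r + 1).factorial : ℚ) = (r.factorial : ℚ) * ((r : ℚ) + 1) := by
      rw [Nat.factorial_succ]
      push_cast
      ring
    rw [hF, hG]
    have hY := pY50 n r
    have hA := neA50 n (r + 1) hn r (by omega)
    have hB := neB50 n (r + 1) hn r (by omega)
    have hr1 : (r : ℚ) + 1 ≠ 0 := by positivity
    have hG0 : (r.factorial : ℚ) ≠ 0 := by positivity
    have c1 : 2 * (n : ℚ) - 2 * ((r + 1 : ℕ) : ℚ) - 1 - 2 * r = 2 * (n : ℚ) - 4 * r - 3 := by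
      push_cast; ring
    have c2 : (n : ℚ) - 2 * ((r + 1 : ℕ) : ℚ) - 1 - r = (n : ℚ) - 3 * r - 3 := by
      push_cast; ring
    rw [c1, c2]
    have d1 : 2 * (n : ℚ) - 4 * r - 3 ≠ 0 := by apply ne_of_gt; linarith
    have d2 : (n : ℚ) - 3 * r - 3 ≠ 0 := by apply ne_of_gt; linarith
    generalize (∏ t ∈ range r, (2 * (n : ℚ) - 2 * ((r + 1 : ℕ) : ℚ) - 1 - 2 * t)) = A at *
    generalize (∏ t ∈ range r, ((n : ℚ) - 2 * ((r + 1 : ℕ) : ℚ) - 1 - t)) = B at *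
    generalize RY n (r + 1) (2 * (r + 1)) = Y at *
    generalize RY n (r + 1) (2 * (r + 1) - 1) = Z at *
    generalize (r.factorial : ℚ) = G at *
    generalize ((2 * r + 1).factorial : ℚ) = F at *
    have e6 : 2 * (n : ℚ) - 6 * r - 6 = 2 * ((n : ℚ) - 3 * r - 3) := by ring
    rw [e6] at hY
    rw [pow_succ]
    rw [div_mul_eq_mul_div, div_mul_eq_mul_div, div_eq_div_iff
      (mul_ne_zero (mul_ne_zero (mul_ne_zero hG0 hr1) (mul_ne_zero hA d1)) (mul_ne_zero hB d2))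
      (mul_ne_zero (mul_ne_zero hG0 hA) hB)]
    linear_combination ((-2) ^ r * (-2) * (F * (2 * ((r : ℚ) + 1))) * (G * A * B)) * hY
  have hx2 : 2 * (n : ℚ) - 6 * r - 3 ≠ 0 := by apply ne_of_gt; linarith
  push_cast
  linear_combination (-(2 * (n : ℚ) - 6 * r - 3)) * he + (Dq n (r + 1)) * hE

end Pool.Agent.Helper44.BZ
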