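import Mathlib
import Pool.Agent.Helper44.BZ.Defs
import Pool.Agent.Helper44.BZ.LduA
import Pool.Agent.Helper44.BZ.LduC

/-! Block BZB-LDUB. The LDU identity  Ae n i j = sum_m tt n i j m  (Dougall's sum, WZ method).
Fix j; induction on i, S(i) := sum_{m <= min i j} tt n i j m = sum_{m in range (i+2)} tt n i j m (terms with m > i or m > j vanish).
* 2 i < j: every term is 0 (Rq n m j = 0 for 2 m < j: the product over t < 2 (j-m) of (j - t) contains t = j), and Ae = 0.
* i = ceil(j/2) (j = 2i or j = 2i-1): only m = i gives a nonzero term, Lq n i i = 1; use `base_even`, `base_odd`;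
  Ae n i (2i) = 64^i; Ae n i (2i-1) = 64^(i-1) * (-1) * 2^(8i-4(2i-1)-1) * (2n-3(2i-1)) * 1/1! = -8 * 64^(i-1) (2n-6i+3)  (2i-1 = j <= 2i;
  Uent with 2i - j = 1).
* step from i >= ceil(j/2) (so 2 i >= j) to i+1: Ae satisfies
  (2i+2-j)(2i+1-j) Ae n (i+1) j = 4 (n+i-2j)(n-i-j) Ae n i j   [from the definition of Uent; for j = 2i: Uent n i j = 1,
  Uent n (i+1) j = 2^7 (2n-6i)(n-3i) / 2 with i = j/2: check: (2)(1) * 64^(-1) * 64 (2n-6i)(n-3i) = 4 (n-3i)(n-3i) * ... ok;
  in general the product over t < 2i-j-1 of (n+i-2j-1-t) becomes the product over t < 2i+1-j of (n+i+1-2j-1-t): two new factors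
  n+i-2j at the top and n-i-j at the bottom; the factorial gives (2i+2-j)(2i+1-j), the power of two 2^8, 64^(-1)].
  S satisfies the same recursion: with
  G(m) = -(n-3i-2)(2m-j)(2m-j-1)(n+i+1-2m)(n-j-m)(n-m-i-1) / ((n-i-j-1)(n-2m)(n-i-1)(n-2m-i)) * tt n (i+1) j m
  one has for m <= i+1
  (2i+2-j)(2i+1-j) tt n (i+1) j m - 4 (n+i-2j)(n-i-j) tt n i j m = G(m+1) - G(m).
  Proof: express tt n i j m by `t_step_i` and tt n (i+1) j (m+1) by `t_step_m` (for i+1) through T := tt n (i+1) j m: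
  G(m+1) = -(n-3i-2)(i+1-m)(j-m)(n-2m-i-1)(2n-2m-j)(2n-2m-j-1) / ((n-i-j-1)(n-i-1)(n+i-2m)(n-2m)) * T,
  tt n i j m = (i+1-m)(2i+1)(n-m-i-1) / (2 (n+i-2m)(n-i-1)(n-2m-i)) * T,
  and then it is an identity of rational functions (field_simp; ring). Denominators are nonzero as n is large.
  Sum over m in range (i+2): G(i+2) = 0 (tt n (i+1) j (i+2) = 0), G(0) = 0 (for j = 0 the factor 2m-j; for j >= 1, tt n (i+1) j 0 = 0
  since Rq n 0 j = 0). As 2i+2-j, 2i+1-j are nonzero (2 i >= j) the step follows.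
All was checked by computer. -/

set_option autoImplicit false

namespace Pool.Agent.Helper44.BZ

open Finset

theorem lduB_Lq_zero (n i m : ℕ) (h : i < m) : Lq n i m = 0 := by
  simp [Lq, h]

theorem lduB_Rq_zero' (n m j : ℕ) (h : j < m) : Rq n m j = 0 := by
  simp [Rq, h]

theorem lduB_Rq_zero (n m j : ℕ) (h : 2 * m < j) : Rq n m j = 0 := by
  unfold Rq
  have h1 : ¬ j < m := by omega
  rw [if_neg h1]
  have h2 : (∏ t ∈ range (2 * (j - m)), ((j : ℚ) - t)) = 0 := by
    apply Finset.prod_eq_zero (i := j)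
    · rw [mem_range]; omega
    · simp
  rw [h2]; simp

theorem lduB_Ae_zero (n i j : ℕ) (h : 2 * i < j) : Ae n i j = 0 := by
  unfold Ae Pool.Agent.Helper59.BZ.Uent
  rw [if_pos h]; simp

theorem lduB_Ae_even (n i : ℕ) : Ae n i (2 * i) = 64 ^ i := by
  unfold Ae Pool.Agent.Helper59.BZ.Uent
  rw [if_neg (lt_irrefl _), if_pos rfl]
  have : ((2 * i : ℕ) : ℤ) - (i : ℤ) = (i : ℤ) := by push_cast; ring
  rw [this, zpow_natCast, mul_one]

theorem lduB_Ae_odd (n i : ℕ) (hi : 1 ≤ i) :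
    Ae n i (2 * i - 1) * 8 = -(64 ^ i * (2 * (n : ℚ) - 6 * i + 3)) := by
  obtain ⟨k, rfl⟩ : ∃ k, i = k + 1 := ⟨i - 1, by omega⟩
  have hj : 2 * (k + 1) - 1 = 2 * k + 1 := by omega
  rw [hj]
  unfold Ae Pool.Agent.Helper59.BZ.Uent
  rw [if_neg (by omega), if_neg (by omega)]
  have e1 : ((2 * k + 1 : ℕ) : ℤ) - ((k + 1 : ℕ) : ℤ) = (k : ℤ) := by push_cast; ring
  have e2 : 8 * (k + 1) - 4 * (2 * k + 1) - 1 = 3 := by omega
  have e3 : 2 * (k + 1) - (2 * k + 1) = 1 := by omega
  have e4 : 2 * (k + 1) - (2 * k + 1) - 1 = 0 := by omega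
  have e5 : ((-1 : ℚ)) ^ (2 * k + 1) = -1 := by
    rw [pow_succ, pow_mul]; norm_num
  rw [e1, e4, e3, e2, e5, zpow_natCast]
  simp only [range_zero, prod_empty, Nat.factorial_one, Nat.cast_one, pow_succ]
  push_cast
  ring

theorem lduB_Ae_step (n i j : ℕ) (h : j ≤ 2 * i) :
    (2 * (i : ℚ) + 2 - j) * (2 * i + 1 - j) * Ae n (i + 1) j =
      4 * ((n : ℚ) + i - 2 * j) * (n - i - j) * Ae n i j := by
  have hz : (64 : ℚ) ^ ((j : ℤ) - ((i + 1 : ℕ) : ℤ)) = (64 : ℚ) ^ ((j : ℤ) - (i : ℤ)) / 64 := by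
    have : (j : ℤ) - ((i + 1 : ℕ) : ℤ) = ((j : ℤ) - (i : ℤ)) - 1 := by push_cast; ring
    rw [this, zpow_sub_one₀ (by norm_num)]; ring
  unfold Ae
  rw [hz]
  unfold Pool.Agent.Helper59.BZ.Uent
  rw [if_neg (by omega : ¬ 2 * (i + 1) < j), if_neg (by omega : ¬ j = 2 * (i + 1)),
    if_neg (by omega : ¬ 2 * i < j)]
  rcases Nat.lt_or_ge j (2 * i) with hlt | hge
  · rw [if_neg (by omega : ¬ j = 2 * i)]
    obtain ⟨r, hr⟩ : ∃ r, 2 * i = j + r + 1 := ⟨2 * i - j - 1, by omega⟩
    have hi : 2 * (i : ℚ) = j + r + 1 := by exact_mod_cast hr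
    have e1 : 8 * (i + 1) - 4 * j - 1 = (8 * i - 4 * j - 1) + 8 := by omega
    have e2 : 2 * (i + 1) - j - 1 = (r + 1) + 1 := by omega
    have e3 : 2 * i - j - 1 = r := by omega
    have e4 : 2 * (i + 1) - j = (r + 1) + 1 + 1 := by omega
    have e5 : 2 * i - j = r + 1 := by omega
    rw [e1, e2, e3, e4, e5]
    have p1 : (∏ t ∈ range (r + 1 + 1), ((n : ℚ) + ((i + 1 : ℕ) : ℚ) - 2 * j - ((t : ℚ) + 1))) =
        ((n : ℚ) + i - 2 * j) * (∏ t ∈ range r, ((n : ℚ) + i - 2 * j - ((t : ℚ) + 1))) *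
          ((n : ℚ) - i - j) := by
      rw [prod_range_succ, prod_range_succ']
      have q1 : (∏ k ∈ range r, ((n : ℚ) + ((i + 1 : ℕ) : ℚ) - 2 * j - (((k + 1 : ℕ) : ℚ) + 1))) =
          (∏ t ∈ range r, ((n : ℚ) + i - 2 * j - ((t : ℚ) + 1))) := by
        apply prod_congr rfl
        intro k _
        push_cast
        ring
      rw [q1]
      push_cast
      have : (n : ℚ) + (i + 1) - 2 * j - (r + 1 + 1) = n - i - j := by linarith
      rw [this]
      ring
    rw [p1]
    have f1 : ((Nat.factorial (r + 1 + 1 + 1) : ℕ) : ℚ) =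
        (2 * (i : ℚ) + 2 - j) * (2 * i + 1 - j) * (Nat.factorial (r + 1) : ℚ) := by
      rw [Nat.factorial_succ (r + 1 + 1), Nat.factorial_succ (r + 1)]
      push_cast
      have : (j : ℚ) = 2 * i - r - 1 := by linarith
      rw [this]; ring
    rw [f1]
    have g1 : (2 * (i : ℚ) + 2 - j) ≠ 0 := by
      have : (j : ℚ) ≤ 2 * i := by exact_mod_cast h
      linarith
    have g2 : (2 * (i : ℚ) + 1 - j) ≠ 0 := by
      have : (j : ℚ) ≤ 2 * i := by exact_mod_cast h
      linarith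
    have g3 : ((Nat.factorial (r + 1) : ℕ) : ℚ) ≠ 0 := by positivity
    rw [pow_add]
    generalize (∏ t ∈ range r, ((n : ℚ) + i - 2 * j - ((t : ℚ) + 1))) = P
    generalize (64 : ℚ) ^ ((j : ℤ) - (i : ℤ)) = Z
    generalize (2 : ℚ) ^ (8 * i - 4 * j - 1) = B
    generalize ((-1 : ℚ)) ^ j = C
    generalize (2 * (i : ℚ) + 2 - j) = A1 at g1 ⊢
    generalize (2 * (i : ℚ) + 1 - j) = A2 at g2 ⊢
    field_simp
    ring
  · have hj : j = 2 * i := by omega
    subst hj
    rw [if_pos rfl]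
    have e1 : 8 * (i + 1) - 4 * (2 * i) - 1 = 7 := by omega
    have e2 : 2 * (i + 1) - 2 * i - 1 = 1 := by omega
    have e3 : 2 * (i + 1) - 2 * i = 2 := by omega
    rw [e1, e2, e3]
    simp only [prod_range_one, Nat.factorial_two]
    have e5 : ((-1 : ℚ)) ^ (2 * i) = 1 := by rw [pow_mul]; norm_num
    rw [e5]
    push_cast
    ring

theorem lduB_key (n i j m T U V : ℚ) (a1 : n + i - 2 * m ≠ 0) (a2 : n - i - 1 ≠ 0)
    (a3 : n - 2 * m - i ≠ 0) (a4 : n - i - j - 1 ≠ 0) (a5 : n - 2 * m ≠ 0) (a6 : n - 2 * m - 2 ≠ 0)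
    (a7 : n - 2 * m - 2 - i ≠ 0)
    (h1 : U * (2 * (n + i - 2 * m) * (n - i - 1) * (n - 2 * m - i)) =
      T * ((i + 1 - m) * (2 * i + 1) * (n - m - i - 1)))
    (h2 : V * ((n + (i + 1) - 2 * m - 1) * (n + (i + 1) - 2 * m - 2) * (2 * m + 1 - j) * (2 * m + 2 - j) *
        (n - m - (i + 1) - 1) * (n - m - j - 1) * (n - 2 * m)) =
      T * (((i + 1) - m) * (j - m) * (n - 2 * m - (i + 1)) * (n - 2 * m - (i + 1) - 1) *
        (2 * n - 2 * m - j) * (2 * n - 2 * m - j - 1) * (n - 2 * m - 2))) :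
    (2 * i + 2 - j) * (2 * i + 1 - j) * T - 4 * (n + i - 2 * j) * (n - i - j) * U =
      -(n - 3 * i - 2) * (2 * (m + 1) - j) * (2 * (m + 1) - j - 1) * (n + i + 1 - 2 * (m + 1)) *
          (n - j - (m + 1)) * (n - (m + 1) - i - 1) /
          ((n - i - j - 1) * (n - 2 * (m + 1)) * (n - i - 1) * (n - 2 * (m + 1) - i)) * V -
        -(n - 3 * i - 2) * (2 * m - j) * (2 * m - j - 1) * (n + i + 1 - 2 * m) *
          (n - j - m) * (n - m - i - 1) /
          ((n - i - j - 1) * (n - 2 * m) * (n - i - 1) * (n - 2 * m - i)) * T := by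
  have hU : U = T * ((i + 1 - m) * (2 * i + 1) * (n - m - i - 1)) /
      (2 * (n + i - 2 * m) * (n - i - 1) * (n - 2 * m - i)) := by
    rw [eq_div_iff (by positivity)]
    exact h1
  have b1 : n - 2 * (m + 1) ≠ 0 := by intro h; apply a6; linarith
  have b2 : n - 2 * (m + 1) - i ≠ 0 := by intro h; apply a7; linarith
  have hV : -(n - 3 * i - 2) * (2 * (m + 1) - j) * (2 * (m + 1) - j - 1) * (n + i + 1 - 2 * (m + 1)) *
          (n - j - (m + 1)) * (n - (m + 1) - i - 1) /
          ((n - i - j - 1) * (n - 2 * (m + 1)) * (n - i - 1) * (n - 2 * (m + 1) - i)) * V =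
      -(n - 3 * i - 2) * (i + 1 - m) * (j - m) * (n - 2 * m - i - 1) * (2 * n - 2 * m - j) *
        (2 * n - 2 * m - j - 1) / ((n - i - j - 1) * (n - i - 1) * (n + i - 2 * m) * (n - 2 * m)) * T := by
    rw [div_mul_eq_mul_div, div_mul_eq_mul_div, div_eq_div_iff (by positivity) (by positivity)]
    linear_combination (-(n - 3 * i - 2) * (n - i - j - 1) * (n - i - 1)) * h2
  rw [hV, hU]
  field_simp
  ring

/-- the certificate -/
noncomputable def lduBG (n i j m : ℕ) : ℚ :=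
  -((n : ℚ) - 3 * i - 2) * (2 * (m : ℚ) - j) * (2 * m - j - 1) * ((n : ℚ) + i + 1 - 2 * m) *
          ((n : ℚ) - j - m) * ((n : ℚ) - m - i - 1) /
          (((n : ℚ) - i - j - 1) * (n - 2 * m) * (n - i - 1) * (n - 2 * m - i)) * tt n (i + 1) j m

theorem lduB_tele (n i j m : ℕ) (hm : m ≤ i + 1) (hn : 16 * (i + 1 + j) + 40 ≤ n) :
    (2 * (i : ℚ) + 2 - j) * (2 * i + 1 - j) * tt n (i + 1) j m -
      4 * ((n : ℚ) + i - 2 * j) * (n - i - j) * tt n i j m = lduBG n i j (m + 1) - lduBG n i j m := by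
  have h1 := t_step_i n i j m hm (by omega)
  have h2 := t_step_m n (i + 1) j m (by omega)
  have hn' : 16 * ((i : ℚ) + 1 + j) + 40 ≤ n := by exact_mod_cast hn
  have hm' : (m : ℚ) ≤ i + 1 := by exact_mod_cast hm
  have hi0 : (0 : ℚ) ≤ i := by positivity
  have hj0 : (0 : ℚ) ≤ j := by positivity
  have hm0 : (0 : ℚ) ≤ m := by positivity
  push_cast at h2
  have := lduB_key (n : ℚ) i j m (tt n (i + 1) j m) (tt n i j m) (tt n (i + 1) j (m + 1))
    (by linarith) (by linarith) (by linarith) (by linarith) (by linarith) (by linarith) (by linarith) h1 h2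
  rw [this]
  unfold lduBG
  push_cast
  rfl

theorem lduB_sum (n j : ℕ) : ∀ i : ℕ, 16 * (i + j) + 40 ≤ n →
    Ae n i j = ∑ m ∈ range (i + 1), tt n i j m := by
  have hlow : ∀ i : ℕ, 2 * i < j → Ae n i j = ∑ m ∈ range (i + 1), tt n i j m := by
    intro i h
    rw [lduB_Ae_zero n i j h]
    symm
    apply sum_eq_zero
    intro m hm
    rw [mem_range] at hm
    unfold tt
    rw [lduB_Rq_zero n m j (by omega), mul_zero]
  have hLii : ∀ i : ℕ, Lq n i i = 1 := by
    intro i
    simp [Lq]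
  have hbase : ∀ i : ℕ, 16 * (i + j) + 40 ≤ n → (j = 2 * i ∨ (1 ≤ i ∧ j = 2 * i - 1)) →
      Ae n i j = ∑ m ∈ range (i + 1), tt n i j m := by
    intro i hn h
    rw [sum_range_succ]
    have hz : ∑ m ∈ range i, tt n i j m = 0 := by
      apply sum_eq_zero
      intro m hm
      rw [mem_range] at hm
      unfold tt
      rw [lduB_Rq_zero n m j (by omega), mul_zero]
    rw [hz, zero_add]
    unfold tt
    rw [hLii, one_mul]
    rcases h with h | ⟨h1, h⟩
    · subst h
      rw [base_even n i (by omega), lduB_Ae_even]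
    · subst h
      have e1 := base_odd n i h1 (by omega)
      have e2 := lduB_Ae_odd n i h1
      linarith
  intro i
  induction i with
  | zero =>
    intro hn
    rcases Nat.lt_or_ge 0 j with h | h
    · exact hlow 0 (by omega)
    · exact hbase 0 hn (Or.inl (by omega))
  | succ i ih =>
    intro hn
    rcases Nat.lt_or_ge (2 * i) j with h | h
    · rcases Nat.lt_or_ge (2 * (i + 1)) j with h' | h'
      · exact hlow (i + 1) h'
      · exact hbase (i + 1) hn (by omega)
    · have ih' := ih (by omega)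
      have hs := lduB_Ae_step n i j h
      have ht : ∑ m ∈ range (i + 2), ((2 * (i : ℚ) + 2 - j) * (2 * i + 1 - j) * tt n (i + 1) j m -
          4 * ((n : ℚ) + i - 2 * j) * (n - i - j) * tt n i j m) =
          ∑ m ∈ range (i + 2), (lduBG n i j (m + 1) - lduBG n i j m) := by
        apply sum_congr rfl
        intro m hm
        rw [mem_range] at hm
        exact lduB_tele n i j m (by omega) hn
      rw [sum_range_sub] at ht
      have g2 : lduBG n i j (i + 2) = 0 := by
        unfold lduBG tt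
        rw [lduB_Lq_zero n (i + 1) (i + 2) (by omega)]
        simp
      have g0 : lduBG n i j 0 = 0 := by
        rcases Nat.eq_zero_or_pos j with hj | hj
        · subst hj
          unfold lduBG
          simp
        · unfold lduBG tt
          rw [lduB_Rq_zero n 0 j (by omega)]
          simp
      rw [g2, g0, sum_sub_distrib, ← mul_sum, ← mul_sum, sum_range_succ (fun m => tt n i j m) (i + 1),
        ← ih'] at ht
      have hl : tt n i j (i + 1) = 0 := by
        unfold tt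
        rw [lduB_Lq_zero n i (i + 1) (by omega)]; simp
      rw [hl, add_zero] at ht
      have k1 : (2 * (i : ℚ) + 2 - j) * (2 * i + 1 - j) ≠ 0 := by
        have : (j : ℚ) ≤ 2 * i := by exact_mod_cast h
        have a : (0 : ℚ) < 2 * (i : ℚ) + 2 - j := by linarith
        have b : (0 : ℚ) < 2 * (i : ℚ) + 1 - j := by linarith
        positivity
      apply mul_left_cancel₀ k1
      show (2 * (i : ℚ) + 2 - j) * (2 * i + 1 - j) * Ae n (i + 1) j = _
      rw [hs]
      have e : i + 1 + 1 = i + 2 := rfl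
      rw [e]
      linarith

theorem ldu (n i j : ℕ) (hn : 16 * (i + j) + 40 ≤ n) :
    Ae n i j = ∑ m ∈ range (min i j + 1), Lq n i m * Dq n m * Rq n m j := by
  rw [lduB_sum n j i hn]
  symm
  have : ∑ m ∈ range (min i j + 1), Lq n i m * Dq n m * Rq n m j =
      ∑ m ∈ range (i + 1), Lq n i m * Dq n m * Rq n m j := by
    apply sum_subset
    · intro x hx
      rw [mem_range] at hx ⊢
      have := min_le_left i j
      omega
    · intro x hx hx'
      rw [mem_range] at hx hx'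
      rw [lduB_Rq_zero' n x j (by
        rcases le_total i j with h | h
        · rw [min_eq_left h] at hx'; omega
        · rw [min_eq_right h] at hx'; omega), mul_zero]
  rw [this]
  rfl

end Pool.Agent.Helper44.BZ
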