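import Mathlib
import Pool.Agent.Helper44.BZ.Defs
import Pool.Agent.Helper44.BZ.S2A
import Pool.Agent.Helper44.BZ.MsA
import Pool.Agent.Helper44.BZ.ChM

/-! Block BZB-INE (lemmas for the digit inequalities). s = s2, v = padicValNat 2.
`F0_eq`: a = Ms s + al, 1 <= al <= 4^(Ms s), s <= I: Ms (I+1) - a = Ms (I+1) - Ms s - 1 - (al-1), `s2_top_sub` gives
 s2 (Ms (I+1) - a) = (I - s) + 2 Ms s - s2 (al-1); same for b = Ms u + ga.
`F0_ge`: s2 (Ms s + al) <= s + s2 al <= s + s2 (al-1) + 1 (subadditivity, s2_Ms), s2 (Ms u + ga - 1) <= u + s2 (ga-1).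
`s2_I_ge`: r = I trivial (1 to spare). r < I: Ms I = Ms r + 4^(Ms r) w, s2 w = I - r, w % 4 = 1 (`Ms_split`); x := Ms r + al < 2 * 4^(Ms r).
 If x < 4^(Ms r): s2 (Ms I + al) = s2 w + s2 x. Otherwise x = 4^(Ms r) + x', Ms I + al = 4^(Ms r) (w+1) + x', s2 (w+1) = s2 w as w = 1 mod 4,
 s2 x = 1 + s2 x'.
`val_N`: N = Ms (I+1) + Ms I = 4^M + 2M. t odd: N - t odd. t = 2t': if t' < M: N - t = 2 (4^M/2 + (M - t')), v = 1 + v(M - t'), and
 v(M - t') <= 2t': t' = 0: M odd. t' >= 1: take r with Ms r <= t' < Ms (r+1) (r < I); if t' = Ms r: M - Ms r = 4^(Ms r) * odd, v = 2 Ms r;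
 else t' = Ms r + x, 0 < x < 4^(Ms r), v = v(x) <= x. If t' = M: N - t = 4^M, v = 2M. If t' > M: N - t = 4^M - 2(t'-M), v = v(2(t'-M)) <= 1 + (t'-M)
 (0 < 2 (t'-M) < 4^M as t < 4 qq I).
`s2_N_sub`: s2 g + s2 (N-g) - s2 N = v(N.choose g) <= g by `choose_val_le` and `val_N` (t+1 <= g for t < g); s2 N = I+1 (`s2_big_sub` with r = 0).
`s2_q_add`: s2 (Ms I + Ms u + x) <= I + s2 x: Ms I + Ms u = 2 Ms u + (Ms I - Ms u), Ms I - Ms u = 4^(Ms u) w with s2 w = I - u. -/

set_option autoImplicit false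

namespace Pool.Agent.Helper44.BZ

private theorem val_N_aux_h54 (x : ℕ) (hx : 5 ≤ x) : 4 * (x + 1) < 4 ^ x := by
  induction x, hx using Nat.le_induction with
  | base => norm_num
  | succ n hn ih =>
    rw [pow_succ]
    omega

theorem F0_eq (I s u al ga : ℕ) (hs : s ≤ I) (hu : u ≤ I) (h1 : 1 ≤ al) (h2 : al ≤ 4 ^ Ms s) (h3 : 1 ≤ ga)
    (h4 : ga ≤ 4 ^ Ms u) :
    F0 I (Ms s + al) (Ms u + ga) = 2 * (al : ℤ) + 2 * ga + 1 + ((s : ℤ) - s2 (Ms s + al) + s2 (al - 1)) +
      ((u : ℤ) - s2 (Ms u + ga - 1) + s2 (ga - 1)) := by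
  have e1 := s2_top_sub I s (al - 1) hs (by omega)
  have e2 := s2_top_sub I u (ga - 1) hu (by omega)
  have e3 : Ms (I + 1) - Ms s - 1 - (al - 1) = Ms (I + 1) - (Ms s + al) := by omega
  have e4 : Ms (I + 1) - Ms u - 1 - (ga - 1) = Ms (I + 1) - (Ms u + ga) := by omega
  rw [e3] at e1
  rw [e4] at e2
  unfold F0
  push_cast
  omega

theorem F0_ge (I s u al ga : ℕ) (hs : s ≤ I) (hu : u ≤ I) (h1 : 1 ≤ al) (h2 : al ≤ 4 ^ Ms s) (h3 : 1 ≤ ga)
    (h4 : ga ≤ 4 ^ Ms u) :
    2 * (al : ℤ) + 2 * ga ≤ F0 I (Ms s + al) (Ms u + ga) := by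
  rw [F0_eq I s u al ga hs hu h1 h2 h3 h4]
  have e1 := s2_add_le (Ms s) al
  have e2 := s2_add_le (Ms u) (ga - 1)
  have e3 := s2_add_le (al - 1) 1
  rw [s2_Ms] at e1 e2
  rw [s2_one, Nat.sub_add_cancel h1] at e3
  have e4 : Ms u + ga - 1 = Ms u + (ga - 1) := by omega
  rw [e4]
  omega

theorem s2_I_ge (I r al : ℕ) (hr : r ≤ I) (h1 : 1 ≤ al) (h2 : al ≤ 4 ^ Ms r) :
    s2 (Ms r + al) + (I - r) ≤ s2 (Ms I + al) + 1 := by
  rcases Nat.lt_or_ge r I with hlt | hge
  · obtain ⟨w, hw, hsw, hw4⟩ := Ms_split I r hr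
    have hw4 := hw4 hlt
    have hpow : (2 : ℕ) ^ (2 * Ms r) = 4 ^ Ms r := by rw [pow_mul]; norm_num
    have hlt' := Ms_lt_pow r
    rcases Nat.lt_or_ge (Ms r + al) (4 ^ Ms r) with hx | hx
    · have h3 := s2_pow_mul_add (2 * Ms r) w (Ms r + al) (by rw [hpow]; exact hx)
      have h4 : Ms I + al = 2 ^ (2 * Ms r) * w + (Ms r + al) := by rw [hpow, hw]; ring
      rw [h4, h3]
      omega
    · obtain ⟨x', hx'⟩ := Nat.exists_eq_add_of_le hx
      have hx'' : x' < 2 ^ (2 * Ms r) := by rw [hpow]; omega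
      have h3 := s2_pow_mul_add (2 * Ms r) (w + 1) x' hx''
      have h4 : Ms I + al = 2 ^ (2 * Ms r) * (w + 1) + x' := by
        rw [hpow, mul_add, mul_one, hw]
        omega
      have h5 := s2_pow_mul_add (2 * Ms r) 1 x' hx''
      have h6 : Ms r + al = 2 ^ (2 * Ms r) * 1 + x' := by rw [hpow, mul_one, hx']
      obtain ⟨z, hz⟩ : ∃ z, w = 4 * z + 1 := ⟨w / 4, by omega⟩
      have h7 : s2 w = s2 z + 1 := by
        have : w = 2 * (2 * z) + 1 := by omega
        rw [this, s2_two_mul_add_one, s2_two_mul]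
      have h8 : s2 (w + 1) = s2 z + 1 := by
        have : w + 1 = 2 * (2 * z + 1) := by omega
        rw [this, s2_two_mul, s2_two_mul_add_one]
      rw [h4, h3, h6, h5, s2_one]
      omega
  · have : r = I := le_antisymm hr hge
    subst this
    omega

theorem val_N (I t : ℕ) (hI : 2 ≤ I) (ht : t < 4 * qq I) : padicValNat 2 (Ms (I + 1) + Ms I - t) ≤ t + 1 := by
  have hfact : Fact (Nat.Prime 2) := ⟨Nat.prime_two⟩
  have hM5 : 5 ≤ Ms I := by
    rw [← Ms_two]
    exact Ms_strictMono.monotone hI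
  have hM : Ms (I + 1) = Ms I + 4 ^ Ms I := rfl
  have hodd := Ms_odd I (by omega)
  unfold qq at ht
  have hpow : (2 : ℕ) ^ (2 * Ms I) = 4 ^ Ms I := by rw [pow_mul]; norm_num
  have hbig : 4 * (Ms I + 1) < 4 ^ Ms I := val_N_aux_h54 (Ms I) hM5
  have hvle : ∀ x : ℕ, 1 ≤ x → padicValNat 2 x ≤ x := by
    intro x hx
    have h1 := two_pow_val_le x hx
    have h2 : padicValNat 2 x < 2 ^ padicValNat 2 x := Nat.lt_two_pow_self
    omega
  have hhalf : (2 : ℕ) ^ (2 * Ms I) = 2 * 2 ^ (2 * Ms I - 1) := by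
    rw [← pow_succ']
    congr 1
    omega
  rcases Nat.even_or_odd' t with ⟨t', ht' | ht'⟩
  · subst ht'
    rcases lt_trichotomy t' (Ms I) with hlt | heq | hgt
    · have h1 : Ms (I + 1) + Ms I - 2 * t' = 2 * (2 ^ (2 * Ms I - 1) * 1 + (Ms I - t')) := by
        rw [hM, ← hpow, hhalf]
        omega
      have h2 : padicValNat 2 (2 ^ (2 * Ms I - 1) * 1 + (Ms I - t')) = padicValNat 2 (Ms I - t') := by
        apply val_add_pow
        · omega
        · omega
      have h3 : padicValNat 2 (Ms (I + 1) + Ms I - 2 * t') = 1 + padicValNat 2 (Ms I - t') := by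
        rw [h1, padicValNat.mul (by norm_num) (by omega), h2, padicValNat.self (by norm_num)]
      rw [h3]
      have h4 : padicValNat 2 (Ms I - t') ≤ 2 * t' := by
        rcases Nat.eq_zero_or_pos t' with h0 | h0
        · subst h0
          rw [Nat.sub_zero]
          obtain ⟨z, hz⟩ := hodd
          have : padicValNat 2 (Ms I) = 0 := by
            apply padicValNat.eq_zero_of_not_dvd
            omega
          omega
        · obtain ⟨s, hs1, hs2⟩ := level_exists' (t' + 1) (by omega)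
          have hsI : s < I := by
            by_contra hcon
            have := Ms_strictMono.monotone (not_lt.1 hcon)
            omega
          obtain ⟨w, hw, hsw, hw4⟩ := Ms_split I s hsI.le
          have hw4 := hw4 hsI
          have hpow' : (2 : ℕ) ^ (2 * Ms s) = 4 ^ Ms s := by rw [pow_mul]; norm_num
          have hMs : Ms (s + 1) = Ms s + 4 ^ Ms s := rfl
          rcases Nat.eq_or_lt_of_le (Nat.lt_succ_iff.1 hs1) with he | hl
          · have h5 : Ms I - t' = 2 ^ (2 * Ms s) * w := by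
              rw [hpow', ← he]
              omega
            have h6 : padicValNat 2 w = 0 := by
              apply padicValNat.eq_zero_of_not_dvd
              omega
            have hw0 : w ≠ 0 := by omega
            rw [h5, padicValNat.mul (by positivity) hw0, padicValNat.prime_pow, h6, ← he]
            omega
          · have h5 : Ms I - t' = 2 ^ (2 * Ms s) * w - (t' - Ms s) := by
              rw [hpow']
              omega
            have h6 := val_pow_sub (2 * Ms s) w (t' - Ms s) (by omega) (by omega)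
              (by rw [hpow']; omega)
            rw [h5, h6]
            have := hvle (t' - Ms s) (by omega)
            omega
      omega
    · subst heq
      have h1 : Ms (I + 1) + Ms I - 2 * Ms I = 2 ^ (2 * Ms I) := by
        rw [hM, hpow]
        omega
      rw [h1, padicValNat.prime_pow]
      omega
    · have h1 : Ms (I + 1) + Ms I - 2 * t' = 2 ^ (2 * Ms I) * 1 - 2 * (t' - Ms I) := by
        rw [hM, hpow]
        omega
      have h2 := val_pow_sub (2 * Ms I) 1 (2 * (t' - Ms I)) (by omega) (by omega)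
        (by rw [hpow]; omega)
      rw [h1, h2, padicValNat.mul (by norm_num) (by omega), padicValNat.self (by norm_num)]
      have := hvle (t' - Ms I) (by omega)
      omega
  · have h1 : padicValNat 2 (Ms (I + 1) + Ms I - t) = 0 := by
      apply padicValNat.eq_zero_of_not_dvd
      have h2 : 4 ^ Ms I = 2 * 2 ^ (2 * Ms I - 1) := by rw [← hpow, hhalf]
      omega
    omega

theorem s2_N_sub (I g : ℕ) (hI : 2 ≤ I) (hg : g ≤ 4 * qq I) :
    s2 g + s2 (Ms (I + 1) + Ms I - g) ≤ I + 1 + g := by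
  have hM5 : 5 ≤ Ms I := by
    rw [← Ms_two]
    exact Ms_strictMono.monotone hI
  have hM : Ms (I + 1) = Ms I + 4 ^ Ms I := rfl
  have hbig : 4 * (Ms I + 1) < 4 ^ Ms I := val_N_aux_h54 (Ms I) hM5
  have hgN : g ≤ Ms (I + 1) + Ms I := by
    unfold qq at hg
    omega
  have h1 := choose_val_le (Ms (I + 1) + Ms I) g g hgN (fun t ht => by
    have := val_N I t hI (by omega)
    omega)
  have h2 := val_choose (Ms (I + 1) + Ms I) g hgN
  have h3 := s2_big_sub I 0 (Nat.zero_le _)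
  have h4 : Ms 0 = 0 := rfl
  rw [h4, Nat.sub_zero] at h3
  omega

theorem s2_q_add (I u x : ℕ) (hu : u ≤ I) : s2 (Ms I + Ms u + x) ≤ I + s2 x := by
  obtain ⟨w, hw, hsw, _⟩ := Ms_split I u hu
  have hpow : (2 : ℕ) ^ (2 * Ms u) = 4 ^ Ms u := by rw [pow_mul]; norm_num
  have h1 := s2_add_le (Ms I + Ms u) x
  have h2 : Ms I + Ms u = 2 * Ms u + 2 ^ (2 * Ms u) * w := by
    rw [hpow, hw]
    ring
  have h3 := s2_add_le (2 * Ms u) (2 ^ (2 * Ms u) * w)
  have h4 := s2_pow_mul_add (2 * Ms u) w 0 (by positivity)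
  rw [add_zero, s2_zero, add_zero] at h4
  rw [← h2, s2_two_mul, s2_Ms, h4] at h3
  omega

/-- for a in (Ms s, Ms (s+1)], s <= I: the number N - a has many ones -/
theorem s2_N_sub_ge (I s al : ℕ) (hs : s ≤ I) (h : Ms s + al ≤ Ms (I + 1) + Ms I) :
    I + 1 ≤ s2 (Ms (I + 1) + Ms I - (Ms s + al)) + s2 al := by
  have h1 := s2_big_sub I s hs
  have h2 := s2_add_le (Ms (I + 1) + Ms I - (Ms s + al)) al
  have h3 : Ms (I + 1) + Ms I - (Ms s + al) + al = Ms (I + 1) + Ms I - Ms s := by omega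
  rw [h3, h1] at h2
  exact h2

end Pool.Agent.Helper44.BZ
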