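import Mathlib
import Pool.Agent.Helper44.BZ.Defs
import Pool.Agent.Helper44.BZ.VGA
import Pool.Agent.Helper44.BZ.S2A
import Pool.Agent.Helper44.BZ.MsA
import Pool.Agent.Helper44.BZ.Ine
import Pool.Agent.Helper44.BZ.ValL

/-! Block BZB-EDGE. n = nn I, q = qq I = M+1, M = Ms I, d = Ms (I+1) = M + 4^M = n - 2q. s = s2.
`L_off`, `R_off`: a >= 1 not in the pattern; r its level (`level_exists`), a = Ms r + al, 1 <= al < 4^(Ms r) (for r < I because a < Ms (r+1); for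
 r = I because a < 3q is small). (n-2q-1).choose a = (d-1).choose a has valuation s(a) + s(d-1-a) - s(d-1) (`val_choose`), s(d-1) = I,
 d-1-a = d - Ms r - 1 - al, s = (I-r) + 2 Ms r - s(al) (`s2_top_sub`), s(a) <= r + s(al); so the valuation is at most 2 Ms r =: w and `L_val`, `R_val`
 (difference of the indices a) give VG (2a - 2 Ms r), 2a - 2 Ms r = 2 al >= 1.
`L_on`: a = Ms r, 1 <= r <= I. Lq n (q+a) q = 2^a * A * B / (a! * odd * C): A = prod_{t<2a} (n-q+a-1-t) = (d+M+a)|(2a), B = prod_{t<a} (n-3q-t) =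
 (4^M - 1)|a, C = (d-1)|a; `val_desc`: v = a + (2a - s(d+M+a) + s(d+M-a)) + (a - s(4^M-1) + s(4^M-1-a)) - (a - s(a)) - (a - s(d-1) + s(d-1-a)).
 s(4^M-1-a) = 2M - s(a); s(d-1) = I; s(d-1-a) = (I-r) + 2 Ms r (`s2_top_sub`, x = 0); s(d+M-a) = I+1 (`s2_big_sub`);
 s(d+M+a) = s(4^M + 2M + Ms r) = s(4^M + 2 (M - Ms r) + 3 Ms r) = 1 + (I-r) + 2r. v = a + 2a - (1+I+r) + (I+1) + a - s(a) - a + s(a) - a + I - (I-r) - 2 Ms r
 = 2a - 2 Ms r = 0.
`R_on`: b = Ms r, 1 <= r <= I. Rq n q (q+b) = (-2)^b * A * RY / (b! * odd * C): A = (q+b)|(2b) (q >= b+1), v = 2b - s(q+b) + s(q-b),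
 q+b = 2 Ms r + 1 + (M - Ms r): s = r + 1 + (I-r) = I+1; q-b = 1 + (M - Ms r): s = 1 + (I-r) (M - Ms r is 0 or a multiple of 4^(Ms r) with s = I-r);
 RY = ((2n-3q-1)|(b-1)) * (2n-3(q+b)): 2n-3q-1 = 2*4^M + 3M, s = 1+2I; (2n-3q-1) - (b-1) = 2*4^M + 3 (M - Ms r) + 2 Ms r + 1: s = 1 + 2(I-r) + r + 1;
 2n-3(q+b) = 2*4^M + 3(M-Ms r) + 1 odd; b! : b - r; C = (d-1)|b: b - I + (I-r) + 2 Ms r.
 v = b + 2b - (I+1) + (1+I-r) + (b-1) - (1+2I) + (2+2I-2r+r) - (b-r) - (b-r+2 Ms r) = 2b - 2 Ms r = 0.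
 (Digit sums of 3 (M - Ms r): M - Ms r = 4^(Ms r) w; 3 M = 3 Ms r + 4^(Ms r) * 3w, 3 Ms r < 4^(Ms r), so s(3w) = s(3M) - s(3 Ms r) = 2I - 2r.)
For (Ms 0 = 0) the entries are Lq n q q = Rq n q q = 1. -/

set_option autoImplicit false

namespace Pool.Agent.Helper44.BZ

open Finset

private theorem big36 (x : ℕ) (hx : 5 ≤ x) : 41 * (x + 1) + 20 ≤ 4 ^ x := by
  induction x, hx using Nat.le_induction with
  | base => norm_num
  | succ x hx ih =>
    rw [pow_succ]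
    omega

private theorem Ms_big36 (I : ℕ) (hI : 3 ≤ I) : 5 ≤ Ms I := by
  have h := Ms_strictMono (show 2 < I by omega)
  rw [Ms_two] at h
  omega

private theorem Ms_succ36 (r : ℕ) : Ms (r + 1) = Ms r + 4 ^ Ms r := rfl

private theorem four36 (x : ℕ) : (4 : ℕ) ^ x = 2 ^ (2 * x) := by
  rw [pow_mul]
  norm_num

private theorem s2_top36 (I : ℕ) : s2 (Ms (I + 1) - 1) = I := by
  have h := s2_top_sub I 0 0 (Nat.zero_le _) (by positivity)
  have h0 : Ms 0 = 0 := rfl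
  rw [h0, s2_zero] at h
  simpa using h

/-- the valuation of the binomial coefficient off the pattern -/
private theorem off36 (I a : ℕ) (hI : 3 ≤ I) (ha : 1 ≤ a) (ha' : a < 3 * qq I) (hoff : a ∉ pat I) :
    ∃ r : ℕ, Ms r < a ∧ padicValNat 2 ((Ms (I + 1) - 1).choose a) ≤ 2 * Ms r := by
  obtain ⟨r, hr, h1, h2⟩ := level_exists I a ha hoff
  have hM := Ms_big36 I hI
  have hbig := big36 (Ms I) hM
  have hMI : Ms (I + 1) = Ms I + 4 ^ Ms I := rfl
  refine ⟨r, h1, ?_⟩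
  obtain ⟨al, hal⟩ : ∃ al, a = Ms r + al := ⟨a - Ms r, by omega⟩
  have hal2 : al < 4 ^ Ms r := by
    rcases Nat.lt_or_ge r I with h | h
    · have h3 := h2 h
      have h4 : Ms (r + 1) = Ms r + 4 ^ Ms r := rfl
      omega
    · have h3 : r = I := le_antisymm hr h
      subst h3
      unfold qq at ha'
      omega
  have hale : a ≤ Ms (I + 1) - 1 := by
    unfold qq at ha'
    omega
  have h3 := val_choose (Ms (I + 1) - 1) a hale
  rw [s2_top36] at h3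
  have h4 := s2_top_sub I r al hr hal2
  have h5 : Ms (I + 1) - 1 - a = Ms (I + 1) - Ms r - 1 - al := by omega
  rw [h5] at h3
  have h6 := s2_add_le (Ms r) al
  rw [← hal, s2_Ms] at h6
  omega

private theorem n_sub36 (I : ℕ) : nn I - 2 * qq I = Ms (I + 1) := by
  unfold nn
  omega

private theorem n_big36 (I a : ℕ) (hI : 3 ≤ I) (ha' : a < 3 * qq I) : 8 * (qq I + a + qq I) + 20 ≤ nn I := by
  have hM := Ms_big36 I hI
  have hbig := big36 (Ms I) hM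
  have hMI : Ms (I + 1) = Ms I + 4 ^ Ms I := rfl
  unfold nn
  unfold qq at *
  omega

private theorem three36 (r : ℕ) (hr : 1 ≤ r) : 3 * Ms r < 2 ^ (2 * Ms r) := by
  rw [← four36]
  exact Ms_three r hr

private theorem one_le36 (r : ℕ) (hr : 1 ≤ r) : 1 ≤ Ms r := by
  have h := Ms_strictMono.monotone hr
  rwa [Ms_one] at h

/-- digit sum of `d + M + Ms r` -/
private theorem s2_sum36 (I r : ℕ) (hr1 : 1 ≤ r) (hr : r ≤ I) : s2 (Ms (I + 1) + Ms I + Ms r) = 1 + I + r := by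
  obtain ⟨w, hw1, hw2, -⟩ := Ms_split I r hr
  have h3 := three36 r hr1
  have h3I := three36 I (hr1.trans hr)
  have hle : Ms r ≤ Ms I := Ms_strictMono.monotone hr
  have e1 : Ms (I + 1) + Ms I + Ms r = 2 ^ (2 * Ms I) * 1 + (2 * Ms I + Ms r) := by
    rw [Ms_succ36, four36]
    ring
  have e2 : 2 * Ms I + Ms r = 2 ^ (2 * Ms r) * (2 * w) + 3 * Ms r := by
    rw [← four36]
    conv_lhs => rw [hw1]
    ring
  rw [e1, s2_pow_mul_add _ _ _ (by omega), s2_one, e2, s2_pow_mul_add _ _ _ h3, s2_two_mul, hw2, s2_three_Ms]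
  omega

private theorem valq36 {x : ℚ} {v : ℤ} (hx : x ≠ 0) (h : padicValRat 2 x = v) (hv : v = 0) :
    x ≠ 0 ∧ padicValRat 2 x = 0 := ⟨hx, by rw [h, hv]⟩

private theorem fact36 (a : ℕ) : ((Nat.factorial a : ℕ) : ℚ) ≠ 0 ∧
    padicValRat 2 ((Nat.factorial a : ℕ) : ℚ) = (a : ℤ) - s2 a := by
  refine ⟨by exact_mod_cast Nat.factorial_ne_zero a, ?_⟩
  rw [padicValRat.of_nat]
  have := val_fact a
  omega

private theorem pow36 (a : ℕ) : ((2 : ℚ) ^ a) ≠ 0 ∧ padicValRat 2 ((2 : ℚ) ^ a) = a := by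
  refine ⟨by positivity, ?_⟩
  rw [padicValRat.pow]
  have : padicValRat 2 (2 : ℚ) = 1 := by
    have h := padicValRat.self (p := 2) (by norm_num)
    simpa using h
  rw [this]
  ring

private theorem npow36 (a : ℕ) : ((-2 : ℚ) ^ a) ≠ 0 ∧ padicValRat 2 ((-2 : ℚ) ^ a) = a := by
  refine ⟨pow_ne_zero _ (by norm_num), ?_⟩
  rw [padicValRat.pow, padicValRat.neg]
  have : padicValRat 2 (2 : ℚ) = 1 := by
    have h := padicValRat.self (p := 2) (by norm_num)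
    simpa using h
  rw [this]
  ring

/-- valuation of `x * A * B / (f * O * C)` -/
private theorem comb36 {x A B f O C : ℚ} (hx : x ≠ 0) (hA : A ≠ 0) (hB : B ≠ 0) (hf : f ≠ 0) (hO : O ≠ 0) (hC : C ≠ 0) :
    x * A * B / (f * O * C) ≠ 0 ∧ padicValRat 2 (x * A * B / (f * O * C)) =
      padicValRat 2 x + padicValRat 2 A + padicValRat 2 B -
        (padicValRat 2 f + padicValRat 2 O + padicValRat 2 C) := by
  refine ⟨by positivity, ?_⟩
  rw [padicValRat.div (by positivity) (by positivity), padicValRat.mul (by positivity) hB,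
    padicValRat.mul hx hA, padicValRat.mul (by positivity) hC, padicValRat.mul hf hO]

theorem L_off (I a : ℕ) (hI : 3 ≤ I) (ha : 1 ≤ a) (ha' : a < 3 * qq I) (hoff : a ∉ pat I) :
    VG 1 (Lq (nn I) (qq I + a) (qq I)) := by
  obtain ⟨r, h1, h2⟩ := off36 I a hI ha ha' hoff
  have h3 := L_val (nn I) (qq I + a) (qq I) (2 * Ms r) (by omega) (n_big36 I a hI ha') (by
    rw [n_sub36, Nat.add_sub_cancel_left]
    exact h2)
  refine VG_mono h3 ?_
  push_cast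
  omega

theorem R_off (I b : ℕ) (hI : 3 ≤ I) (hb : 1 ≤ b) (hb' : b < 3 * qq I) (hoff : b ∉ pat I) :
    VG 1 (Rq (nn I) (qq I) (qq I + b)) := by
  obtain ⟨r, h1, h2⟩ := off36 I b hI hb hb' hoff
  have h3 := R_val (nn I) (qq I) (qq I + b) (2 * Ms r) (by omega) (n_big36 I b hI hb') (by
    rw [n_sub36, Nat.add_sub_cancel_left]
    exact h2)
  refine VG_mono h3 ?_
  push_cast
  omega

theorem L_on (I r : ℕ) (hI : 3 ≤ I) (hr : r ≤ I) :
    Lq (nn I) (qq I + Ms r) (qq I) ≠ 0 ∧ padicValRat 2 (Lq (nn I) (qq I + Ms r) (qq I)) = 0 := by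
  rcases Nat.eq_zero_or_pos r with rfl | hr1
  · have h0 : Ms 0 = 0 := rfl
    have h1 : Lq (nn I) (qq I + Ms 0) (qq I) = 1 := by
      rw [h0]
      simp [Lq]
    rw [h1]
    simp
  have hM := Ms_big36 I hI
  have hbig := big36 (Ms I) hM
  have hMI : Ms (I + 1) = Ms I + 4 ^ Ms I := rfl
  have hle : Ms r ≤ Ms I := Ms_strictMono.monotone hr
  obtain ⟨a, ha⟩ : ∃ a, a = Ms r := ⟨_, rfl⟩
  rw [← ha]
  rw [← ha] at hle
  unfold Lq
  rw [if_neg (by omega), Nat.add_sub_cancel_left]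
  have eA : (∏ t ∈ range (2 * a), ((nn I : ℚ) + ((qq I + a : ℕ) : ℚ) - 2 * (qq I : ℚ) - 1 - t)) =
      ∏ t ∈ range (2 * a), (((Ms (I + 1) + Ms I + a : ℕ) : ℚ) - t) := by
    refine prod_congr rfl fun t _ => ?_
    unfold nn qq
    push_cast
    ring
  have eB : (∏ t ∈ range a, ((nn I : ℚ) - 3 * (qq I : ℚ) - t)) =
      ∏ t ∈ range a, (((4 ^ Ms I - 1 : ℕ) : ℚ) - t) := by
    refine prod_congr rfl fun t _ => ?_
    rw [Nat.cast_sub (by omega)]
    unfold nn qq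
    rw [hMI]
    push_cast
    ring
  have eC : (∏ t ∈ range a, ((nn I : ℚ) - 2 * (qq I : ℚ) - 1 - t)) =
      ∏ t ∈ range a, (((Ms (I + 1) - 1 : ℕ) : ℚ) - t) := by
    refine prod_congr rfl fun t _ => ?_
    rw [Nat.cast_sub (by omega)]
    unfold nn
    push_cast
    ring
  have eO : (∏ t ∈ range a, (2 * (qq I : ℚ) + 1 + 2 * t)) =
      ∏ t ∈ range a, (((2 * (qq I : ℤ) + 1 + 2 * t : ℤ)) : ℚ) := by
    refine prod_congr rfl fun t _ => ?_
    push_cast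
    ring
  have hO := val_prod_odd (k := a) (f := fun t => 2 * (qq I : ℤ) + 1 + 2 * t) (fun t _ => ⟨(qq I : ℤ) + t, by ring⟩)
  obtain ⟨-, hA0, hA⟩ := val_desc (Ms (I + 1) + Ms I + a) (2 * a) (by omega)
  obtain ⟨-, hB0, hB⟩ := val_desc (4 ^ Ms I - 1) a (by omega)
  obtain ⟨-, hC0, hC⟩ := val_desc (Ms (I + 1) - 1) a (by omega)
  obtain ⟨hf0, hf⟩ := fact36 a
  obtain ⟨hx0, hx⟩ := pow36 a
  rw [eA, eB, eC, eO]
  obtain ⟨hne, hval⟩ := comb36 hx0 hA0 hB0 hf0 hO.1 hC0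
  refine ⟨hne, ?_⟩
  rw [hval, hx, hA, hB, hf, hO.2, hC]
  -- digit sums
  have d1 : s2 (Ms (I + 1) + Ms I + a) = 1 + I + r := by
    rw [ha]
    exact s2_sum36 I r hr1 hr
  have d2 : s2 (Ms (I + 1) + Ms I + a - 2 * a) = I + 1 := by
    have h := s2_big_sub I r hr
    rw [← ha] at h
    have e : Ms (I + 1) + Ms I + a - 2 * a = Ms (I + 1) + Ms I - a := by omega
    rw [e, h]
  have d3 : s2 (4 ^ Ms I - 1) = 2 * Ms I := by
    have h := s2_compl (2 * Ms I) 0 (by positivity)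
    rw [← four36, s2_zero] at h
    simpa using h
  have d4 : s2 (4 ^ Ms I - 1 - a) + s2 a = 2 * Ms I := by
    have h := s2_compl (2 * Ms I) a (by rw [← four36]; omega)
    rwa [← four36] at h
  have d5 : s2 a = r := by rw [ha, s2_Ms]
  have d6 := s2_top36 I
  have d7 : s2 (Ms (I + 1) - 1 - a) = (I - r) + 2 * a := by
    have h := s2_top_sub I r 0 hr (by positivity)
    rw [s2_zero, ← ha] at h
    have e : Ms (I + 1) - a - 1 - 0 = Ms (I + 1) - 1 - a := by omega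
    rw [e] at h
    simpa using h
  rw [d1, d2, d3, d5, d6, d7]
  push_cast
  omega

theorem R_on (I r : ℕ) (hI : 3 ≤ I) (hr : r ≤ I) :
    Rq (nn I) (qq I) (qq I + Ms r) ≠ 0 ∧ padicValRat 2 (Rq (nn I) (qq I) (qq I + Ms r)) = 0 := by
  rcases Nat.eq_zero_or_pos r with rfl | hr1
  · have h0 : Ms 0 = 0 := rfl
    have h1 : Rq (nn I) (qq I) (qq I + Ms 0) = 1 := by
      rw [h0]
      simp [Rq, RY]
    rw [h1]
    simp
  have hM := Ms_big36 I hI
  have hbig := big36 (Ms I) hM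
  have hMI : Ms (I + 1) = Ms I + 4 ^ Ms I := rfl
  have hle : Ms r ≤ Ms I := Ms_strictMono.monotone hr
  have h1r := one_le36 r hr1
  have h3r := three36 r hr1
  have h3I := three36 I (by omega)
  have hoI := Ms_odd I (by omega)
  have hor := Ms_odd r hr1
  obtain ⟨w, hw1, hw2, -⟩ := Ms_split I r hr
  obtain ⟨b, hb⟩ : ∃ b, b = Ms r := ⟨_, rfl⟩
  rw [← hb] at hle h1r h3r hor hw1 ⊢
  rw [four36] at hw1
  unfold Rq RY
  rw [if_neg (by omega), if_neg (by omega), Nat.add_sub_cancel_left]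
  have eA : (∏ t ∈ range (2 * b), (((qq I + b : ℕ) : ℚ) - t)) =
      ∏ t ∈ range (2 * b), (((Ms I + 1 + b : ℕ) : ℚ) - t) := rfl
  have eY : (∏ t ∈ range (b - 1), (2 * (nn I : ℚ) - 3 * (qq I : ℚ) - 1 - t)) =
      ∏ t ∈ range (b - 1), (((2 * 4 ^ Ms I + 3 * Ms I : ℕ) : ℚ) - t) := by
    refine prod_congr rfl fun t _ => ?_
    unfold nn qq
    rw [hMI]
    push_cast
    ring
  have eZ : (2 * (nn I : ℚ) - 3 * ((qq I + b : ℕ) : ℚ)) =
      (((2 * 4 ^ Ms I + 3 * Ms I + 1 - 3 * b : ℤ)) : ℚ) := by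
    unfold nn qq
    rw [hMI]
    push_cast
    ring
  have eC : (∏ t ∈ range b, ((nn I : ℚ) - 2 * (qq I : ℚ) - 1 - t)) =
      ∏ t ∈ range b, (((Ms (I + 1) - 1 : ℕ) : ℚ) - t) := by
    refine prod_congr rfl fun t _ => ?_
    rw [Nat.cast_sub (by omega)]
    unfold nn
    push_cast
    ring
  have eO : (∏ t ∈ range b, (2 * (nn I : ℚ) - 2 * (qq I : ℚ) - 1 - 2 * t)) =
      ∏ t ∈ range b, (((2 * (nn I : ℤ) - 2 * (qq I : ℤ) - 1 - 2 * t : ℤ)) : ℚ) := by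
    refine prod_congr rfl fun t _ => ?_
    push_cast
    ring
  have hO := val_prod_odd (k := b) (f := fun t => 2 * (nn I : ℤ) - 2 * (qq I : ℤ) - 1 - 2 * t)
    (fun t _ => ⟨(nn I : ℤ) - qq I - 1 - t, by ring⟩)
  have hZ := val_prod_odd (k := 1) (f := fun _ => (2 * 4 ^ Ms I + 3 * Ms I + 1 - 3 * b : ℤ)) (fun t _ => by
    obtain ⟨x, hx⟩ := hoI
    obtain ⟨y, hy⟩ := hor
    refine ⟨4 ^ Ms I + 3 * (x : ℤ) - 3 * y, ?_⟩
    have hx' : (Ms I : ℤ) = 2 * x + 1 := by exact_mod_cast hx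
    have hy' : (b : ℤ) = 2 * y + 1 := by exact_mod_cast hy
    have : (2 * 4 ^ Ms I + 3 * (Ms I : ℤ) + 1 - 3 * b : ℤ) = 2 * 4 ^ Ms I + 3 * (2 * x + 1) + 1 - 3 * (2 * y + 1) := by
      rw [← hx', ← hy']
    rw [this]
    ring)
  rw [prod_range_one] at hZ
  obtain ⟨-, hA0, hA⟩ := val_desc (Ms I + 1 + b) (2 * b) (by omega)
  obtain ⟨-, hY0, hY⟩ := val_desc (2 * 4 ^ Ms I + 3 * Ms I) (b - 1) (by omega)
  obtain ⟨-, hC0, hC⟩ := val_desc (Ms (I + 1) - 1) b (by omega)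
  obtain ⟨hf0, hf⟩ := fact36 b
  obtain ⟨hx0, hx⟩ := npow36 b
  rw [eA, eY, eZ, eC, eO]
  obtain ⟨hne, hval⟩ := comb36 hx0 hA0 (mul_ne_zero hY0 hZ.1) hf0 hO.1 hC0
  refine ⟨hne, ?_⟩
  rw [hval, padicValRat.mul hY0 hZ.1, hx, hA, hY, hZ.2, hf, hO.2, hC]
  -- digit sums
  have hwI : Ms I = 2 ^ (2 * b) * w + b := by
    rw [hw1]
    ring
  have hb1 : 2 * b + 1 < 2 ^ (2 * b) := by omega
  have d0 : s2 (2 * b + 1) = r + 1 := by
    rw [s2_two_mul_add_one, hb, s2_Ms]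
  have d1 : s2 (Ms I + 1 + b) = I + 1 := by
    have e : Ms I + 1 + b = 2 ^ (2 * b) * w + (2 * b + 1) := by
      conv_lhs => rw [hwI]
      ring
    rw [e, s2_pow_mul_add _ _ _ hb1, hw2, d0]
    omega
  have d2 : s2 (Ms I + 1 + b - 2 * b) = I - r + 1 := by
    have e : Ms I + 1 + b - 2 * b = 2 ^ (2 * b) * w + 1 := by
      have : Ms I + 1 + b = 2 ^ (2 * b) * w + 1 + 2 * b := by
        conv_lhs => rw [hwI]
        ring
      omega
    rw [e, s2_pow_mul_add _ _ _ (by omega), hw2, s2_one]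
  have d3 : s2 (3 * Ms I) = 2 * I := s2_three_Ms I
  have d3w : s2 (3 * w) + 2 * r = 2 * I := by
    have e : 3 * Ms I = 2 ^ (2 * b) * (3 * w) + 3 * b := by
      conv_lhs => rw [hwI]
      ring
    rw [e, s2_pow_mul_add _ _ _ h3r] at d3
    have h := s2_three_Ms r
    rw [← hb] at h
    omega
  have d4 : s2 (2 * 4 ^ Ms I + 3 * Ms I) = 1 + 2 * I := by
    have e : 2 * 4 ^ Ms I + 3 * Ms I = 2 ^ (2 * Ms I) * 2 + 3 * Ms I := by
      rw [← four36]
      ring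
    have h2 : s2 2 = 1 := by
      have h := s2_two_mul 1
      rw [s2_one] at h
      simpa using h
    rw [e, s2_pow_mul_add _ _ _ h3I, s2_three_Ms, h2]
  have d5 : s2 (2 * 4 ^ Ms I + 3 * Ms I - (b - 1)) + 2 * r = 1 + 2 * I + (r + 1) := by
    have e1 : 2 * 4 ^ Ms I + 3 * Ms I - (b - 1) = 2 ^ (2 * Ms I) * 2 + (3 * Ms I - (b - 1)) := by
      rw [← four36]
      omega
    have e2 : 3 * Ms I - (b - 1) = 2 ^ (2 * b) * (3 * w) + (2 * b + 1) := by
      have : 3 * Ms I = 2 ^ (2 * b) * (3 * w) + 3 * b := by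
        conv_lhs => rw [hwI]
        ring
      omega
    have h2 : s2 2 = 1 := by
      have h := s2_two_mul 1
      rw [s2_one] at h
      simpa using h
    rw [e1, s2_pow_mul_add _ _ _ (by omega), e2, s2_pow_mul_add _ _ _ hb1, d0, h2]
    omega
  have d6 : s2 b = r := by rw [hb, s2_Ms]
  have d7 := s2_top36 I
  have d8 : s2 (Ms (I + 1) - 1 - b) = (I - r) + 2 * b := by
    have h := s2_top_sub I r 0 hr (by positivity)
    rw [s2_zero, ← hb] at h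
    have e : Ms (I + 1) - b - 1 - 0 = Ms (I + 1) - 1 - b := by omega
    rw [e] at h
    simpa using h
  rw [d1, d2, d4, d6, d7, d8]
  omega

end Pool.Agent.Helper44.BZ
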