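import Mathlib
import Pool.Agent.Helper44.BZ.Defs
import Pool.Agent.Helper44.BZ.VGA
import Pool.Agent.Helper44.BZ.S2A
import Pool.Agent.Helper44.BZ.MsA

/-! Block BZB-EVE. Lower bound for the valuation of the term `Ee`.
Notation: M = Ms I, d = Ms (I+1) = M + 4^M = n - 2q, N = d + M = n - q - 1, q = M+1, Y = d-a-b > 0, y = 2n-3q, v = valuation,
s = s2, x|k the falling factorial x(x-1)...(x-k+1); v(x|k) = k - s(x) + s(x-k) for k <= x (`val_desc`). a, b < 3q = 3M+3 are small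
compared with d (3 M < 4^M, in fact 20 (M+1) < 4^M).
If q + 2k < b: the factor j - 2t (j = q+b even) with t = (q+b)/2 < b-k vanishes, so Ee = 0.
Otherwise the valuations of the factors of Ee are
  2^a (-2)^b: a+b;   prod_{t<a} (n-3q-t) = (n-3q)|a: at least v(a!) = a - s(a);
  RY = ((y-1)|(b-1)) * (y-3b): at least (b-1) - s(b-1) + 1, since y - 3b = 2n - 3(q+b) is even;
  a!: -(a - s(a));  b!: -(b - s(b));   the products 2q+1+2t, 2n-2q-1-2t: odd, 0;
  (d-1)|a in the denominator with d - a in the numerator: (d-1)|(a-1) in the denominator: -((a-1) - s(d-1) + s(d-a)); same with b;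
  d odd: 0;  Y: -v(Y);   q+b+2a-1-4k: odd;   (N+a-2k)|(2(a-k)): 2(a-k) - s(N+a-2k) + s(N-a);
  prod_{t<b-k} (q+b-1-2(k+1+t)): odd;   prod_{t<b-k} (q+b-2t) = 2^(b-k) ((q+b)/2)|(b-k): 2(b-k) - s(q+b) + s(q+2k-b)  (s(2x) = s(x));
  (-2)^k: k;   prod (2i-1-2s)(b-2n+3q+1+2s): odd;   a|k: k - s(a) + s(a-k);  b|k: k - s(b) + s(b-k);
  (Y+2k)|k: k - s(Y+2k) + s(Y+k);    last denominator: odd (q+b even).
With s(d-1) = s(d) - 1 = I (d odd, s(Ms (I+1)) = I+1) the sum is exactly evE I a b k: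
 linear part (a+b)+a+b-a-b-(a-1)-(b-1)+2(a-k)+2(b-k)+4k = 2(a+b)+2. -/

set_option autoImplicit false

namespace Pool.Agent.Helper44.BZ

open Finset

private theorem big26 (M : ℕ) (h : 10 ≤ M) : 100 * (M + 1) ≤ 4 ^ M := by
  have h1 : M + 1 ≤ 2 ^ M := Nat.lt_two_pow_self
  have h2 : 2 ^ 10 ≤ 2 ^ M := Nat.pow_le_pow_right (by norm_num) h
  have h3 : 4 ^ M = 2 ^ M * 2 ^ M := by rw [← Nat.mul_pow]
  rw [h3]
  calc 100 * (M + 1) ≤ 2 ^ 10 * (M + 1) := Nat.mul_le_mul_right _ (by norm_num)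
    _ ≤ 2 ^ M * 2 ^ M := Nat.mul_le_mul h2 h1

private theorem cvt26 (N k : ℕ) (f : ℕ → ℚ) (h : k ≤ N) (hf : ∀ t, t < k → f t = (N : ℚ) - t) :
    (∏ t ∈ range k, f t) ≠ 0 ∧
      padicValRat 2 (∏ t ∈ range k, f t) = (k : ℤ) - s2 N + s2 (N - k) := by
  have e : ∏ t ∈ range k, f t = ∏ t ∈ range k, ((N : ℚ) - t) :=
    Finset.prod_congr rfl fun t ht => hf t (Finset.mem_range.1 ht)
  rw [e]
  exact ⟨(val_desc N k h).2.1, (val_desc N k h).2.2⟩

private theorem odd26 (k : ℕ) (f : ℕ → ℚ) (g : ℕ → ℤ) (hg : ∀ t, t < k → Odd (g t))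
    (hf : ∀ t, t < k → f t = (g t : ℚ)) :
    (∏ t ∈ range k, f t) ≠ 0 ∧ padicValRat 2 (∏ t ∈ range k, f t) = 0 := by
  have e : ∏ t ∈ range k, f t = ∏ t ∈ range k, (g t : ℚ) :=
    Finset.prod_congr rfl fun t ht => hf t (Finset.mem_range.1 ht)
  rw [e]
  exact val_prod_odd hg

private theorem nat26 {x : ℚ} {m : ℕ} (hm : 0 < m) (hx : x = (m : ℚ)) :
    x ≠ 0 ∧ padicValRat 2 x = (s2 (m - 1) : ℤ) + 1 - s2 m := by
  have h0 : (m : ℚ) ≠ 0 := by exact_mod_cast hm.ne'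
  rw [hx]
  refine ⟨h0, ?_⟩
  rw [padicValRat.of_nat]
  have := val_pred m hm
  omega

private theorem fact26 (a : ℕ) : ((Nat.factorial a : ℕ) : ℚ) ≠ 0 ∧
    padicValRat 2 ((Nat.factorial a : ℕ) : ℚ) = (a : ℤ) - s2 a := by
  have h0 : ((Nat.factorial a : ℕ) : ℚ) ≠ 0 := by exact_mod_cast (Nat.factorial_pos a).ne'
  refine ⟨h0, ?_⟩
  rw [padicValRat.of_nat]
  have := val_fact a
  omega

private theorem mul26 {x y : ℚ} {u v : ℤ} (hx : x ≠ 0 ∧ padicValRat 2 x = u)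
    (hy : y ≠ 0 ∧ padicValRat 2 y = v) : x * y ≠ 0 ∧ padicValRat 2 (x * y) = u + v := by
  refine ⟨mul_ne_zero hx.1 hy.1, ?_⟩
  rw [padicValRat.mul hx.1 hy.1, hx.2, hy.2]

private theorem vg26 {x : ℚ} {u : ℤ} (hx : x ≠ 0 ∧ padicValRat 2 x = u) : VG u x :=
  VG_of_val hx.2.ge

private theorem div26 {c : ℤ} {x y : ℚ} {v : ℤ} (hx : VG c x)
    (hy : y ≠ 0 ∧ padicValRat 2 y = v) : VG (c - v) (x / y) := by
  have h := VG_div hx hy.1
  rwa [hy.2] at h

private theorem neg_two_pow26 (k : ℕ) : VG (k : ℤ) ((-2 : ℚ) ^ k) := by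
  have h : ((-2 : ℚ) ^ k) = (-1) ^ k * 2 ^ k := by
    rw [← mul_pow]
    norm_num
  rw [h]
  have h1 : VG 0 (((-1 : ℤ) ^ k : ℤ) : ℚ) := VG_int _
  have h2 := VG_mul h1 (VG_two_pow k)
  push_cast at h2
  rwa [zero_add] at h2

set_option maxHeartbeats 2000000 in
private theorem core26 (M d q n a b k : ℕ) (hq : q = M + 1) (hn : n = 2 * q + d) (hdo : Odd d)
    (ha : 1 ≤ a) (hb : 1 ≤ b) (hd : 100 * q ≤ d) (ha' : a < 3 * q) (hb' : b < 3 * q)
    (hka : k ≤ a) (hkb : k ≤ b) (hpar : Even (q + b)) (hle : b ≤ q + 2 * k) :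
    VG (2 * ((a : ℤ) + b) + 2 + 2 * s2 (d - 1) - s2 a - s2 (b - 1) - s2 (d - a) - s2 (d - b)
      - padicValNat 2 (d - a - b)
      + ((s2 (a - k) : ℤ) + s2 (d + q - 1 - a) - s2 (d + q - 1 + a - 2 * k))
      + ((s2 (b - k) : ℤ) + s2 (q + 2 * k - b) - s2 (q + b))
      + s2 (d - a - b + k) - s2 (d - a - b + 2 * k)) (Ee n q a b k) := by
  obtain ⟨d', hd'⟩ := hdo
  obtain ⟨p, hp⟩ := hpar
  have hnq : (n : ℚ) = 2 * q + d := by rw [hn]; push_cast; ring
  -- the factors of `KK`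
  have k1 : VG ((a : ℤ) + b) ((2 : ℚ) ^ a * (-2) ^ b) := VG_mul (VG_two_pow a) (neg_two_pow26 b)
  have k2 := cvt26 (d - q) a (fun t => (n : ℚ) - 3 * q - t) (by omega) (fun t ht => by
    rw [hnq, Nat.cast_sub (by omega : q ≤ d)]
    ring)
  have k3 := cvt26 (q + 2 * d - 1) (b - 1) (fun t => 2 * (n : ℚ) - 3 * q - 1 - t) (by omega)
    (fun t ht => by
      rw [hnq, Nat.cast_sub (by omega : 1 ≤ q + 2 * d)]
      push_cast
      ring)
  have k4 : VG 1 (2 * (n : ℚ) - 3 * ((q + b : ℕ) : ℚ)) := by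
    have h1 : 2 * (n : ℚ) - 3 * ((q + b : ℕ) : ℚ) = 2 ^ 1 * (((n : ℤ) - 3 * p : ℤ) : ℚ) := by
      rw [hp]
      push_cast
      ring
    rw [h1]
    exact VG_mul (VG_two_pow 1) (VG_int _)
  have k5 : VG ((((b - 1 : ℕ) : ℤ) - s2 (q + 2 * d - 1) + s2 (q + 2 * d - 1 - (b - 1))) + 1)
      (RY n q (q + b)) := by
    unfold RY
    rw [if_neg (by omega)]
    have h1 : q + b - q - 1 = b - 1 := by omega
    rw [h1]
    exact VG_mul (vg26 k3) k4
  have k6 := fact26 a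
  have k7 := fact26 b
  have k8 := odd26 a (fun t => 2 * (q : ℚ) + 1 + 2 * t) (fun t => 2 * ((q : ℤ) + t) + 1)
    (fun t ht => ⟨_, rfl⟩) (fun t ht => by push_cast; ring)
  have k9 := odd26 b (fun t => 2 * (n : ℚ) - 2 * q - 1 - 2 * t) (fun t => 2 * ((n : ℤ) - q - 1 - t) + 1)
    (fun t ht => ⟨_, rfl⟩) (fun t ht => by push_cast; ring)
  have k10 := cvt26 (d - 1) a (fun t => (n : ℚ) - 2 * q - 1 - t) (by omega) (fun t ht => by
    rw [hnq, Nat.cast_sub (by omega : 1 ≤ d)]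
    push_cast
    ring)
  have k11 := cvt26 (d - 1) b (fun t => (n : ℚ) - 2 * q - 1 - t) (by omega) (fun t ht => by
    rw [hnq, Nat.cast_sub (by omega : 1 ≤ d)]
    push_cast
    ring)
  have hKK := div26 (VG_mul (VG_mul k1 (vg26 k2)) k5)
    (mul26 (mul26 (mul26 (mul26 (mul26 k6 k7) k8) k9) k10) k11)
  -- the other factors
  have x1 := nat26 (x := (n : ℚ) - 2 * q - a) (m := d - a) (by omega) (by
    rw [hnq, Nat.cast_sub (by omega : a ≤ d)]
    ring)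
  have x2 := nat26 (x := (n : ℚ) - 2 * q - b) (m := d - b) (by omega) (by
    rw [hnq, Nat.cast_sub (by omega : b ≤ d)]
    ring)
  have x3 : ((n : ℚ) - 2 * q) ≠ 0 ∧ padicValRat 2 ((n : ℚ) - 2 * q) = 0 := by
    have h := odd26 1 (fun _ => (n : ℚ) - 2 * q) (fun _ => 2 * (d' : ℤ) + 1)
      (fun t ht => ⟨_, rfl⟩) (fun t ht => by
        rw [hnq, hd']
        push_cast
        ring)
    simpa using h
  have x4 : ((n : ℚ) - 2 * q - a - b) ≠ 0 ∧
      padicValRat 2 ((n : ℚ) - 2 * q - a - b) = (padicValNat 2 (d - a - b) : ℤ) := by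
    have h1 : (n : ℚ) - 2 * q - a - b = ((d - a - b : ℕ) : ℚ) := by
      rw [hnq, Nat.cast_sub (by omega : b ≤ d - a), Nat.cast_sub (by omega : a ≤ d)]
      ring
    rw [h1]
    refine ⟨?_, padicValRat.of_nat⟩
    have h2 : 0 < d - a - b := by omega
    exact_mod_cast h2.ne'
  have x5 : VG 0 ((q : ℚ) + b + 2 * a - 1 - 4 * k) := by
    have h1 : (q : ℚ) + b + 2 * a - 1 - 4 * k = (((q : ℤ) + b + 2 * a - 1 - 4 * k : ℤ) : ℚ) := by
      push_cast
      ring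
    rw [h1]
    exact VG_int _
  have x6 := cvt26 (d + q - 1 + a - 2 * k) (2 * (a - k)) (fun t => (n : ℚ) - q + a - 1 - 2 * k - t)
    (by omega) (fun t ht => by
      rw [hnq, Nat.cast_sub (by omega : 2 * k ≤ d + q - 1 + a), Nat.cast_add,
        Nat.cast_sub (by omega : 1 ≤ d + q)]
      push_cast
      ring)
  have x7 := odd26 (b - k) (fun t => (q : ℚ) + b - 1 - 2 * (k + 1 + t))
    (fun t => 2 * ((p : ℤ) - k - t - 2) + 1) (fun t ht => ⟨_, rfl⟩) (fun t ht => by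
      have h1 : (q : ℚ) + b = p + p := by exact_mod_cast hp
      rw [h1]
      push_cast
      ring)
  have x8 : VG (((b - k : ℕ) : ℤ) + (((b - k : ℕ) : ℤ) - s2 p + s2 (p - (b - k))))
      (∏ t ∈ range (b - k), ((q : ℚ) + b - 2 * t)) := by
    have h1 : ∏ t ∈ range (b - k), ((q : ℚ) + b - 2 * t) =
        2 ^ (b - k) * ∏ t ∈ range (b - k), ((p : ℚ) - t) := by
      have h2 : ∀ t ∈ range (b - k), ((q : ℚ) + b - 2 * t) = 2 * ((p : ℚ) - t) := by
        intro t _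
        have h1 : (q : ℚ) + b = p + p := by exact_mod_cast hp
        rw [h1]
        ring
      rw [Finset.prod_congr rfl h2, Finset.prod_mul_distrib, Finset.prod_const, Finset.card_range]
    rw [h1]
    exact VG_mul (VG_two_pow _) (vg26 (cvt26 p (b - k) _ (by omega) fun t _ => rfl))
  have x9 := neg_two_pow26 k
  have x10 := odd26 k (fun s => (2 * ((q : ℚ) + a) - 1 - 2 * s) * ((b : ℚ) - 2 * n + 3 * q + 1 + 2 * s))
    (fun s => (2 * ((q : ℤ) + a - 1 - s) + 1) * (2 * ((p : ℤ) - n + q + s) + 1))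
    (fun s hs => Odd.mul ⟨_, rfl⟩ ⟨_, rfl⟩) (fun s hs => by
      have h1 : (b : ℚ) = p + p - q := by
        have : (q : ℚ) + b = p + p := by exact_mod_cast hp
        linarith
      rw [h1]
      push_cast
      ring)
  have x11 : (∏ s ∈ range k, (((a : ℚ) - s) * ((b : ℚ) - s))) ≠ 0 ∧
      padicValRat 2 (∏ s ∈ range k, (((a : ℚ) - s) * ((b : ℚ) - s))) =
        ((k : ℤ) - s2 a + s2 (a - k)) + ((k : ℤ) - s2 b + s2 (b - k)) := by
    rw [Finset.prod_mul_distrib]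
    exact mul26 (cvt26 a k _ hka fun t _ => rfl) (cvt26 b k _ hkb fun t _ => rfl)
  have x12 := cvt26 (d - a - b + 2 * k) k (fun s => (n : ℚ) - 2 * q - a - b + 2 * k - s)
    (by omega) (fun t ht => by
      rw [hnq, Nat.cast_add, Nat.cast_sub (by omega : b ≤ d - a), Nat.cast_sub (by omega : a ≤ d)]
      push_cast
      ring)
  have x13 := odd26 (k + 1) (fun t => 2 * ((q : ℚ) + a) - (q + b) - 1 - 2 * t)
    (fun t => 2 * ((q : ℤ) + a - p - 1 - t) + 1) (fun t ht => ⟨_, rfl⟩) (fun t ht => by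
      have h1 : (q : ℚ) + b = p + p := by exact_mod_cast hp
      rw [h1]
      push_cast
      ring)
  have hfin := div26 (VG_mul (VG_mul (VG_mul (VG_mul (VG_mul (VG_mul (VG_mul (VG_mul
    (div26 (VG_mul (VG_mul hKK (vg26 x1)) (vg26 x2)) (mul26 x3 x4)) x5) (vg26 x6)) (vg26 x7)) x8) x9)
    (vg26 x10)) (vg26 x11)) (vg26 x12)) x13
  refine VG_mono hfin ?_
  -- the digit sums
  have d1 : s2 (d - q) ≤ s2 a + s2 (d - q - a) := by
    have h := s2_add_le a (d - q - a)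
    rwa [show a + (d - q - a) = d - q by omega] at h
  have d2 : s2 (q + 2 * d - 1) ≤ s2 (b - 1) + s2 (q + 2 * d - 1 - (b - 1)) := by
    have h := s2_add_le (b - 1) (q + 2 * d - 1 - (b - 1))
    rwa [show b - 1 + (q + 2 * d - 1 - (b - 1)) = q + 2 * d - 1 by omega] at h
  have d3 : s2 p = s2 (q + b) := by
    rw [hp, ← two_mul, s2_two_mul]
  have d4 : s2 (p - (b - k)) = s2 (q + 2 * k - b) := by
    rw [← s2_two_mul (p - (b - k))]
    congr 1
    omega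
  have d5 : d - 1 - a = d - a - 1 := by omega
  have d6 : d - 1 - b = d - b - 1 := by omega
  have d7 : d + q - 1 + a - 2 * k - 2 * (a - k) = d + q - 1 - a := by omega
  have d8 : d - a - b + 2 * k - k = d - a - b + k := by omega
  rw [d3, d4, d5, d6, d7, d8]
  have c1 : ((b - 1 : ℕ) : ℤ) = b - 1 := by omega
  have c2 : ((b - k : ℕ) : ℤ) = b - k := by omega
  have c3 : ((2 * (a - k) : ℕ) : ℤ) = 2 * (a - k) := by omega
  rw [c1, c2, c3]
  have d1' : (s2 (d - q) : ℤ) ≤ s2 a + s2 (d - q - a) := by exact_mod_cast d1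
  have d2' : (s2 (q + 2 * d - 1) : ℤ) ≤ s2 (b - 1) + s2 (q + 2 * d - 1 - (b - 1)) := by
    exact_mod_cast d2
  linarith

theorem Ee_VG (I a b k : ℕ) (c : ℤ) (hI : 3 ≤ I) (ha : 1 ≤ a) (hb : 1 ≤ b) (ha' : a < 3 * qq I)
    (hb' : b < 3 * qq I) (hka : k ≤ a) (hkb : k ≤ b) (hpar : Even (qq I + b))
    (h : b ≤ qq I + 2 * k → c ≤ evE I a b k) : VG c (Ee (nn I) (qq I) a b k) := by
  have hM : 1029 ≤ Ms I := by
    have h1 := Ms_strictMono.monotone hI
    rw [Ms_three'] at h1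
    exact h1
  have hd : 100 * qq I ≤ Ms (I + 1) := by
    have h1 := big26 (Ms I) (by omega)
    have h2 : Ms (I + 1) = Ms I + 4 ^ Ms I := rfl
    unfold qq
    omega
  have hdo : Odd (Ms (I + 1)) := Ms_odd (I + 1) (by omega)
  have hs1 : s2 (Ms (I + 1) - 1) = I := by
    obtain ⟨x, hx⟩ := hdo
    have h1 := s2_Ms (I + 1)
    rw [hx, s2_two_mul_add_one] at h1
    rw [hx, Nat.add_sub_cancel, s2_two_mul]
    omega
  by_cases hle : b ≤ qq I + 2 * k
  · refine VG_mono (core26 (Ms I) (Ms (I + 1)) (qq I) (nn I) a b k rfl rfl hdo ha hb hd ha' hb' hka hkb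
      hpar hle) ((h hle).trans (le_of_eq ?_))
    rw [hs1]
    have e1 : Ms (I + 1) + Ms I - a = Ms (I + 1) + qq I - 1 - a := by unfold qq; omega
    have e2 : Ms (I + 1) + Ms I + a - 2 * k = Ms (I + 1) + qq I - 1 + a - 2 * k := by
      unfold qq; omega
    unfold evE F0
    rw [e1, e2]
    ring
  · obtain ⟨x, hx⟩ := hpar
    have h0 : ∏ t ∈ range (b - k), (((qq I : ℕ) : ℚ) + b - 2 * t) = 0 := by
      refine Finset.prod_eq_zero (i := x) (Finset.mem_range.2 (by omega)) ?_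
      have : ((qq I : ℕ) : ℚ) + b = x + x := by exact_mod_cast hx
      rw [this]
      ring
    have h1 : Ee (nn I) (qq I) a b k = 0 := by
      unfold Ee
      rw [h0]
      simp only [mul_zero, zero_mul, zero_div]
    rw [h1]
    exact VG_zero c

end Pool.Agent.Helper44.BZ
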