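import Mathlib
import Pool.Agent.Helper44.BZ.Defs
import Pool.Agent.Helper44.BZ.VGA
import Pool.Agent.Helper44.BZ.S2A
import Pool.Agent.Helper44.BZ.MsA

/-! Block BZB-EVO. Lower bound for the valuation of the term `Eo`, q + b odd. Read the header of EvE.lean (same notation).
The valuations of the factors of Eo are
  2^a (-2)^b: a+b;   (n-3q)|a: at least a - s(a);   RY = ((y-1)|(b-1)) * (y-3b): at least (b-1) - s(b-1);
  a!: -(a - s(a));  b!: -(b - s(b));   (d-1)|(a-1), (d-1)|(b-1) in the denominator: -((a-1) - I + s(d-a)) - ((b-1) - I + s(d-b));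
  d odd;   q+b+2a-4k: >= 0;   (N+a-2k)|(2(a-k)): 2(a-k) - s(N+a-2k) + s(N-a);
  prod_{t<b-k} (q+b-2(k+1+t)): odd;   prod_{t<b-k} (q+b-1-2t) = 2^(b-k) ((q+b-1)/2)|(b-k): 2(b-k) - s(q+b-1) + s(q+2k-1-b)
     if b + 1 <= q + 2k, otherwise the product is 0 and Eo = 0;
  2^k: k;   prod (1-2i+2s)(b-2n+3q+2s): odd;   a|k: k - s(a) + s(a-k);  b|k: k - s(b) + s(b-k);
  k = 0: 1/Y: -v(Y);   k >= 1: (Y+2k-1)|(k-1): (k-1) - s(Y+2k-1) + s(Y+k);    last denominator: odd.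
k = 0: the sum is F0 - v(Y) + [s(a) + s(N-a) - s(N+a)] + [s(b) + s(q-1-b) - s(q+b-1)], the brackets are >= 0 by subadditivity
(N+a = (N-a) + 2a, q+b-1 = (q-1-b) + 2b). k >= 1: the sum is exactly evO1 I a b k. -/

set_option autoImplicit false

namespace Pool.Agent.Helper44.BZ

open Finset

private theorem ev_mul92 {x y : ℚ} {v w : ℤ} (hx : x ≠ 0 ∧ padicValRat 2 x = v)
    (hy : y ≠ 0 ∧ padicValRat 2 y = w) : x * y ≠ 0 ∧ padicValRat 2 (x * y) = v + w := by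
  have : Fact (Nat.Prime 2) := ⟨Nat.prime_two⟩
  exact ⟨mul_ne_zero hx.1 hy.1, by rw [padicValRat.mul hx.1 hy.1, hx.2, hy.2]⟩

private theorem VG_div92 {c w : ℤ} {x y : ℚ} (hx : VG c x) (hy : y ≠ 0 ∧ padicValRat 2 y = w) :
    VG (c - w) (x / y) := by
  have := VG_div hx hy.1
  rwa [hy.2] at this

private theorem VG_ev92 {v : ℤ} {x : ℚ} (hx : x ≠ 0 ∧ padicValRat 2 x = v) : VG v x :=
  VG_of_val hx.2.ge

private theorem ev_nat92 (y : ℚ) (x : ℕ) (hy : y = x) (hx : x ≠ 0) :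
    y ≠ 0 ∧ padicValRat 2 y = (padicValNat 2 x : ℤ) := by
  subst hy
  exact ⟨by exact_mod_cast hx, padicValRat.of_nat⟩

private theorem ev_fact92 (n : ℕ) :
    (Nat.factorial n : ℚ) ≠ 0 ∧ padicValRat 2 (Nat.factorial n : ℚ) = (n : ℤ) - s2 n := by
  refine ⟨by exact_mod_cast n.factorial_ne_zero, ?_⟩
  rw [padicValRat.of_nat]
  have := val_fact n
  omega

private theorem ev_desc92 (x : ℚ) (N k r : ℕ) (hx : x = N) (h : k + r = N) :
    (∏ t ∈ range k, (x - t)) ≠ 0 ∧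
      padicValRat 2 (∏ t ∈ range k, (x - t)) = (k : ℤ) - s2 N + s2 r := by
  subst hx
  obtain ⟨_, h2, h3⟩ := val_desc N k (by omega)
  have hr : N - k = r := by omega
  rw [hr] at h3
  exact ⟨h2, h3⟩

private theorem ev_odd92 (k : ℕ) (f : ℕ → ℚ) (F : ℕ → ℤ) (hf : ∀ t, t < k → f t = F t)
    (hF : ∀ t, t < k → Odd (F t)) :
    (∏ t ∈ range k, f t) ≠ 0 ∧ padicValRat 2 (∏ t ∈ range k, f t) = 0 := by
  have h : (∏ t ∈ range k, f t) = ∏ t ∈ range k, (F t : ℚ) :=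
    Finset.prod_congr rfl fun t ht => hf t (Finset.mem_range.1 ht)
  rw [h]
  exact val_prod_odd hF

private theorem VG_negpow92 (b : ℕ) : VG b ((-2 : ℚ) ^ b) := by
  have h : (-2 : ℚ) ^ b = (((-1) ^ b : ℤ) : ℚ) * (2 : ℚ) ^ b := by
    push_cast
    rw [← mul_pow]
    norm_num
  rw [h]
  have := VG_mul (VG_int ((-1) ^ b)) (VG_two_pow b)
  simpa using this

private theorem VG_KK92 (M d q n a b I : ℕ) (hM : 1000 ≤ M) (hd : d = M + 4 ^ M) (hq : q = M + 1)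
    (hn : n = 2 * q + d) (h4 : 1000 * (M + 1) ≤ 4 ^ M) (hs : s2 (d - 1) = I) (ha : 1 ≤ a)
    (hb : 1 ≤ b) (ha' : a < 3 * q) (hb' : b < 3 * q) :
    VG (2 * (I : ℤ) - 1 - s2 (b - 1) + s2 b - s2 (d - 1 - a) - s2 (d - 1 - b)) (KK n q a b) := by
  have hnQ : (n : ℚ) = 2 * q + d := by rw [hn]; push_cast; ring
  -- numerator
  have e1 : VG a ((2 : ℚ) ^ a) := VG_two_pow a
  have e2 : VG b ((-2 : ℚ) ^ b) := VG_negpow92 b
  have hpow : (4 : ℕ) ^ M = 2 ^ (2 * M) := by rw [pow_mul]; norm_num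
  obtain ⟨P, hP⟩ : ∃ P, P = 4 ^ M := ⟨_, rfl⟩
  have c1 := s2_compl (2 * M) a (by rw [← hpow]; omega)
  have c2 := s2_compl (2 * M) 0 (by positivity)
  rw [s2_zero] at c2
  rw [← hpow, ← hP] at c1 c2
  rw [← hP] at hd h4
  have e3 : VG ((a : ℤ) - s2 a) (∏ t ∈ range a, ((n : ℚ) - 3 * q - t)) := by
    have h := VG_ev92 (ev_desc92 ((n : ℚ) - 3 * q) (P - 1) a (P - 1 - a) (by
      rw [hnQ, Nat.cast_sub (by omega)]
      have : (d : ℚ) = M + P := by exact_mod_cast hd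
      have hq' : (q : ℚ) = M + 1 := by exact_mod_cast hq
      rw [this, hq']; push_cast; ring) (by omega))
    refine VG_mono h ?_
    have : P - 1 - 0 = P - 1 := by omega
    rw [this] at c2
    omega
  have e4 : VG ((b : ℤ) - 1 - s2 (b - 1)) (RY n q (q + b)) := by
    unfold RY
    rw [if_neg (by omega)]
    have hq1 : q + b - q - 1 = b - 1 := by omega
    rw [hq1]
    have h := VG_ev92 (ev_desc92 (2 * (n : ℚ) - 3 * q - 1) (q + 2 * d - 1) (b - 1) (q + 2 * d - b) (by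
      rw [hnQ, Nat.cast_sub (by omega)]
      push_cast; ring) (by omega))
    have h2 : VG 0 (2 * (n : ℚ) - 3 * ((q + b : ℕ) : ℚ)) := by
      have := VG_int (2 * (n : ℤ) - 3 * ((q + b : ℕ) : ℤ))
      push_cast at this ⊢
      exact this
    refine VG_mono (VG_mul h h2) ?_
    have h3 := s2_add_le (q + 2 * d - b) (b - 1)
    have h4' : q + 2 * d - b + (b - 1) = q + 2 * d - 1 := by omega
    rw [h4'] at h3
    omega
  have f1 := ev_fact92 a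
  have f2 := ev_fact92 b
  have f3 := ev_odd92 a (fun t => 2 * (q : ℚ) + 1 + 2 * t) (fun t => 2 * (q : ℤ) + 1 + 2 * t)
    (fun t _ => by push_cast; ring) (fun t _ => ⟨(q : ℤ) + t, by ring⟩)
  have f4 := ev_odd92 b (fun t => 2 * (n : ℚ) - 2 * q - 1 - 2 * t)
    (fun t => 2 * (n : ℤ) - 2 * q - 1 - 2 * t)
    (fun t _ => by push_cast; ring) (fun t _ => ⟨(n : ℤ) - q - 1 - t, by ring⟩)
  have hd1 : ((n : ℚ) - 2 * q - 1) = ((d - 1 : ℕ) : ℚ) := by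
    rw [hnQ, Nat.cast_sub (by omega)]; push_cast; ring
  have f5 := ev_desc92 ((n : ℚ) - 2 * q - 1) (d - 1) a (d - 1 - a) hd1 (by omega)
  have f6 := ev_desc92 ((n : ℚ) - 2 * q - 1) (d - 1) b (d - 1 - b) hd1 (by omega)
  unfold KK
  refine VG_mono (VG_div92 (VG_mul (VG_mul (VG_mul e1 e2) e3) e4)
    (ev_mul92 (ev_mul92 (ev_mul92 (ev_mul92 (ev_mul92 f1 f2) f3) f4) f5) f6)) ?_
  rw [hs]
  have hbb : ((b - 1 : ℕ) : ℤ) = (b : ℤ) - 1 := by omega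
  linarith

private theorem core92 (M d q n a b k I : ℕ) (hM : 1000 ≤ M) (hd : d = M + 4 ^ M) (hq : q = M + 1)
    (hn : n = 2 * q + d) (h4 : 1000 * (M + 1) ≤ 4 ^ M) (hs : s2 (d - 1) = I) (hdo : Odd d)
    (ha : 1 ≤ a) (hb : 1 ≤ b) (ha' : a < 3 * q) (hb' : b < 3 * q) (hka : k ≤ a) (hkb : k ≤ b)
    (hpar : Odd (q + b)) (hc : b + 1 ≤ q + 2 * k) :
    ∃ X Z : ℚ, Eo n q a b k = X * (if k = 0 then ((n : ℚ) - 2 * q - a - b)⁻¹ else
      ∏ s ∈ range (k - 1), ((n : ℚ) - 2 * q - a - b + 2 * k - 1 - s)) / Z ∧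
      VG (2 * (I : ℤ) + 2 * a + 2 * b + 1 - k - s2 a - s2 (b - 1) - s2 (d - a) - s2 (d - b) +
        (s2 (a - k) + s2 (d + M - a) - s2 (d + M + a - 2 * k)) +
        (s2 (b - k) + s2 (q + 2 * k - 1 - b) - s2 (q + b - 1))) X ∧
      Z ≠ 0 ∧ padicValRat 2 Z = 0 := by
  have hnQ : (n : ℚ) = 2 * q + d := by rw [hn]; push_cast; ring
  have hK := VG_KK92 M d q n a b I hM hd hq hn h4 hs ha hb ha' hb'
  obtain ⟨P, hP⟩ : ∃ P, P = 4 ^ M := ⟨_, rfl⟩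
  rw [← hP] at hd h4
  obtain ⟨u, hu⟩ := hpar
  have huQ : (q : ℚ) + b = 2 * u + 1 := by exact_mod_cast hu
  have huZ : (q : ℤ) + b = 2 * u + 1 := by exact_mod_cast hu
  have g1 : VG (padicValNat 2 (d - a)) ((n : ℚ) - 2 * q - a) :=
    VG_ev92 (ev_nat92 _ (d - a) (by rw [hnQ, Nat.cast_sub (by omega)]; ring) (by omega))
  have g2 : VG (padicValNat 2 (d - b)) ((n : ℚ) - 2 * q - b) :=
    VG_ev92 (ev_nat92 _ (d - b) (by rw [hnQ, Nat.cast_sub (by omega)]; ring) (by omega))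
  have g3 := ev_nat92 ((n : ℚ) - 2 * q) d (by rw [hnQ]; ring) (by omega)
  have g3' : padicValNat 2 d = 0 := by
    apply padicValNat.eq_zero_of_not_dvd
    intro h
    obtain ⟨w, hw⟩ := hdo
    omega
  rw [g3'] at g3
  have g4 : VG 0 ((q : ℚ) + b + 2 * a - 4 * k) := by
    have := VG_int ((q : ℤ) + b + 2 * a - 4 * k)
    push_cast at this
    exact this
  have g5 := VG_ev92 (ev_desc92 ((n : ℚ) - q + a - 1 - 2 * k) (d + M + a - 2 * k) (2 * (a - k))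
    (d + M - a) (by
      rw [hnQ, Nat.cast_sub (by omega)]
      have hq' : (q : ℚ) = M + 1 := by exact_mod_cast hq
      rw [hq']; push_cast; ring) (by omega))
  have g6 : VG 0 (∏ t ∈ range (b - k), ((q : ℚ) + b - 2 * (k + 1 + t))) :=
    VG_ev92 (ev_odd92 (b - k) (fun t => (q : ℚ) + b - 2 * (k + 1 + t))
      (fun t => (q : ℤ) + b - 2 * (k + 1 + t)) (fun t _ => by push_cast; ring)
      (fun t _ => ⟨(u : ℤ) - k - 1 - t, by rw [huZ]; ring⟩))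
  have g7 : VG (2 * ((b : ℤ) - k) - s2 (q + b - 1) + s2 (q + 2 * k - 1 - b))
      (∏ t ∈ range (b - k), ((q : ℚ) + b - 1 - 2 * t)) := by
    have h1 : (∏ t ∈ range (b - k), ((q : ℚ) + b - 1 - 2 * t)) =
        2 ^ (b - k) * ∏ t ∈ range (b - k), ((u : ℚ) - t) := by
      have h2 : (2 : ℚ) ^ (b - k) = ∏ t ∈ range (b - k), (2 : ℚ) := by
        rw [Finset.prod_const, Finset.card_range]
      rw [h2, ← Finset.prod_mul_distrib]
      refine Finset.prod_congr rfl fun t _ => ?_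
      rw [huQ]; ring
    rw [h1]
    have h3 := VG_ev92 (ev_desc92 (u : ℚ) u (b - k) (u - (b - k)) rfl (by omega))
    refine VG_mono (VG_mul (VG_two_pow (b - k)) h3) ?_
    have h4' : q + b - 1 = 2 * u := by omega
    have h5 : q + 2 * k - 1 - b = 2 * (u - (b - k)) := by omega
    rw [h4', h5, s2_two_mul, s2_two_mul]
    have : ((b - k : ℕ) : ℤ) = (b : ℤ) - k := by omega
    rw [this]
    linarith
  have g8 : VG k ((2 : ℚ) ^ k) := VG_two_pow k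
  have g9 : VG 0 (∏ s ∈ range k, ((1 - 2 * ((q : ℚ) + a) + 2 * s) *
      ((b : ℚ) - 2 * n + 3 * q + 2 * s))) :=
    VG_ev92 (ev_odd92 k (fun s => (1 - 2 * ((q : ℚ) + a) + 2 * s) * ((b : ℚ) - 2 * n + 3 * q + 2 * s))
      (fun s => (1 - 2 * ((q : ℤ) + a) + 2 * s) * ((b : ℤ) - 2 * n + 3 * q + 2 * s))
      (fun s _ => by push_cast; ring)
      (fun s _ => Odd.mul ⟨-((q : ℤ) + a) + s, by ring⟩
        ⟨(u : ℤ) - n + q + s, by linear_combination huZ⟩))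
  have g10 : VG (((k : ℤ) - s2 a + s2 (a - k)) + ((k : ℤ) - s2 b + s2 (b - k)))
      (∏ s ∈ range k, (((a : ℚ) - s) * ((b : ℚ) - s))) := by
    rw [Finset.prod_mul_distrib]
    exact VG_mul (VG_ev92 (ev_desc92 (a : ℚ) a k (a - k) rfl (by omega)))
      (VG_ev92 (ev_desc92 (b : ℚ) b k (b - k) rfl (by omega)))
  have g11 := ev_odd92 (k + 1) (fun t => 2 * ((q : ℚ) + a) - (q + b) - 2 * t)
    (fun t => 2 * ((q : ℤ) + a) - (q + b) - 2 * t) (fun t _ => by push_cast; ring)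
    (fun t _ => ⟨(q : ℤ) + a - u - t - 1, by linear_combination -huZ⟩)
  refine ⟨_, _, rfl, ?_, g11.1, g11.2⟩
  refine VG_mono (VG_mul (VG_mul (VG_mul (VG_mul (VG_mul (VG_mul (VG_mul (VG_div92
    (VG_mul (VG_mul hK g1) g2) g3) g4) g5) g6) g7) g8) g9) g10) ?_
  have p1 := val_pred (d - a) (by omega)
  have p2 := val_pred (d - b) (by omega)
  have q1 : d - a - 1 = d - 1 - a := by omega
  have q2 : d - b - 1 = d - 1 - b := by omega
  rw [q1] at p1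
  rw [q2] at p2
  have hak : ((2 * (a - k) : ℕ) : ℤ) = 2 * ((a : ℤ) - k) := by omega
  rw [hak]
  have p1' : (padicValNat 2 (d - a) : ℤ) + s2 (d - a) = s2 (d - 1 - a) + 1 := by exact_mod_cast p1
  have p2' : (padicValNat 2 (d - b) : ℤ) + s2 (d - b) = s2 (d - 1 - b) + 1 := by exact_mod_cast p2
  push_cast
  linarith

private theorem Eo_zero92 (n q a b k : ℕ) (hpar : Odd (q + b)) (hc : ¬ (b + 1 ≤ q + 2 * k)) :
    Eo n q a b k = 0 := by
  obtain ⟨u, hu⟩ := hpar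
  have huQ : (q : ℚ) + b = 2 * u + 1 := by exact_mod_cast hu
  have h0 : (∏ t ∈ range (b - k), ((q : ℚ) + b - 1 - 2 * t)) = 0 := by
    refine Finset.prod_eq_zero (i := u) (Finset.mem_range.2 (by omega)) ?_
    rw [huQ]; ring
  unfold Eo
  rw [h0]
  simp

private theorem facts92 (I : ℕ) (hI : 3 ≤ I) : 1000 ≤ Ms I ∧ 1000 * (Ms I + 1) ≤ 4 ^ Ms I ∧
    s2 (Ms (I + 1) - 1) = I ∧ Odd (Ms (I + 1)) := by
  have h1 : 1029 ≤ Ms I := by
    rw [← Ms_three']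
    exact Ms_strictMono.monotone hI
  have hodd := Ms_odd (I + 1) (by omega)
  have hpos : 1 ≤ Ms (I + 1) := hodd.pos
  refine ⟨by omega, ?_, ?_, hodd⟩
  · have h2 : Ms I < 2 ^ Ms I := Nat.lt_two_pow_self
    have h3 : (4 : ℕ) ^ Ms I = 2 ^ Ms I * 2 ^ Ms I := by rw [← mul_pow]; norm_num
    rw [h3]
    exact Nat.mul_le_mul (by omega) (by omega)
  · have h2 := val_pred (Ms (I + 1)) hpos
    rw [s2_Ms] at h2
    have h3 : padicValNat 2 (Ms (I + 1)) = 0 := by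
      apply padicValNat.eq_zero_of_not_dvd
      intro h
      obtain ⟨w, hw⟩ := hodd
      omega
    omega

theorem Eo_VG0 (I a b : ℕ) (c : ℤ) (hI : 3 ≤ I) (ha : 1 ≤ a) (hb : 1 ≤ b) (ha' : a < 3 * qq I)
    (hb' : b < 3 * qq I) (hpar : Odd (qq I + b)) (h : c ≤ evO0 I a b) : VG c (Eo (nn I) (qq I) a b 0) := by
  obtain ⟨f1, f2, f3, f4⟩ := facts92 I hI
  by_cases hc : b + 1 ≤ qq I + 2 * 0
  swap
  · rw [Eo_zero92 _ _ _ _ _ hpar hc]
    exact VG_zero c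
  obtain ⟨X, Z, hE, hX, hZ⟩ := core92 (Ms I) (Ms (I + 1)) (qq I) (nn I) a b 0 I f1 rfl rfl rfl f2 f3 f4
    ha hb ha' hb' (Nat.zero_le _) (Nat.zero_le _) hpar hc
  have hq : qq I = Ms I + 1 := rfl
  have hd : Ms (I + 1) = Ms I + 4 ^ Ms I := rfl
  have hn : nn I = 2 * qq I + Ms (I + 1) := rfl
  have hnQ : (nn I : ℚ) = 2 * qq I + Ms (I + 1) := by rw [hn]; push_cast; ring
  obtain ⟨P, hP⟩ : ∃ P, P = 4 ^ Ms I := ⟨_, rfl⟩
  rw [← hP] at hd f2
  rw [hE, if_pos rfl, ← div_eq_mul_inv]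
  have hY := ev_nat92 ((nn I : ℚ) - 2 * qq I - a - b) (Ms (I + 1) - a - b) (by
    rw [hnQ, Nat.cast_sub (by omega), Nat.cast_sub (by omega)]; ring) (by omega)
  refine VG_mono (VG_div92 (VG_div92 hX hY) hZ) ?_
  unfold evO0 F0 at h
  have s1 := s2_add_le (Ms (I + 1) + Ms I - a) (2 * a)
  have s3 := s2_add_le (qq I - 1 - b) (2 * b)
  rw [s2_two_mul] at s1 s3
  have t1 : Ms (I + 1) + Ms I - a + 2 * a = Ms (I + 1) + Ms I + a := by omega
  have t2 : qq I - 1 - b + 2 * b = qq I + b - 1 := by omega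
  rw [t1] at s1
  rw [t2] at s3
  simp only [Nat.mul_zero, Nat.sub_zero, Nat.add_zero, Nat.cast_zero]
  have s1' : (s2 (Ms (I + 1) + Ms I + a) : ℤ) ≤ s2 (Ms (I + 1) + Ms I - a) + s2 a := by
    exact_mod_cast s1
  have s3' : (s2 (qq I + b - 1) : ℤ) ≤ s2 (qq I - 1 - b) + s2 b := by exact_mod_cast s3
  linarith

theorem Eo_VG1 (I a b k : ℕ) (c : ℤ) (hI : 3 ≤ I) (ha : 1 ≤ a) (hb : 1 ≤ b) (ha' : a < 3 * qq I)
    (hb' : b < 3 * qq I) (hk : 1 ≤ k) (hka : k ≤ a) (hkb : k ≤ b) (hpar : Odd (qq I + b))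
    (h : b + 1 ≤ qq I + 2 * k → c ≤ evO1 I a b k) : VG c (Eo (nn I) (qq I) a b k) := by
  obtain ⟨f1, f2, f3, f4⟩ := facts92 I hI
  by_cases hc : b + 1 ≤ qq I + 2 * k
  swap
  · rw [Eo_zero92 _ _ _ _ _ hpar hc]
    exact VG_zero c
  obtain ⟨X, Z, hE, hX, hZ⟩ := core92 (Ms I) (Ms (I + 1)) (qq I) (nn I) a b k I f1 rfl rfl rfl f2 f3 f4
    ha hb ha' hb' hka hkb hpar hc
  have hq : qq I = Ms I + 1 := rfl
  have hd : Ms (I + 1) = Ms I + 4 ^ Ms I := rfl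
  have hn : nn I = 2 * qq I + Ms (I + 1) := rfl
  have hnQ : (nn I : ℚ) = 2 * qq I + Ms (I + 1) := by rw [hn]; push_cast; ring
  obtain ⟨P, hP⟩ : ∃ P, P = 4 ^ Ms I := ⟨_, rfl⟩
  rw [← hP] at hd f2
  rw [hE, if_neg (by omega)]
  have hY := VG_ev92 (ev_desc92 ((nn I : ℚ) - 2 * qq I - a - b + 2 * k - 1)
    (Ms (I + 1) - a - b + 2 * k - 1) (k - 1) (Ms (I + 1) - a - b + k) (by
    rw [hnQ, Nat.cast_sub (by omega), Nat.cast_add, Nat.cast_sub (by omega),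
      Nat.cast_sub (by omega)]; push_cast; ring) (by omega))
  refine VG_mono (VG_div92 (VG_mul hX hY) hZ) ?_
  have h' := h hc
  unfold evO1 F0 at h'
  have hk1 : ((k - 1 : ℕ) : ℤ) = (k : ℤ) - 1 := by omega
  rw [hk1]
  linarith

end Pool.Agent.Helper44.BZ
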