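import Mathlib
import Pool.Agent.Helper44.BZ.Defs
import Pool.Agent.Helper44.BZ.S2A
import Pool.Agent.Helper44.BZ.MsA
import Pool.Agent.Helper44.BZ.Ine

/-! Block BZB-INEA (digit inequalities, case A: a, b <= Ms r < a + b). s = s2, v = padicValNat 2.
Put X+1 = a+b-Ms r (>= 1), X + 1 <= Ms r < 4^(Ms r), Y = Ms (I+1) - a - b = (Ms (I+1) - Ms r) - (X+1), so v(Y) = v(X+1) <= X (2^v <= X+1) (`val_top`).
Levels (`level_exists'`): Ms s < a <= Ms (s+1), Ms u < b <= Ms (u+1), s, u <= r-1 as a, b <= Ms r (if s >= r then a > Ms r); Ms s, Ms u <= Ms (r-1),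
5 Ms (r-1) <= Ms r. `F0_ge`: F0 >= 2(a - Ms s) + 2(b - Ms u) >= 2(a+b) - 4 Ms (r-1).
The two brackets in evE, evO1 are >= 0 by subadditivity (N+a-2k = (N-a) + 2(a-k), q+b = (q+2k-b) + 2(b-k), q+b-1 = (q+2k-1-b) + 2(b-k)), and
s(Y+2k) <= s(Y+k) + s(k), s(Y+2k-1) <= s(Y+k) + s(k-1). s(k) <= (k+1)/2 <= (Ms r + 1)/2.
evE >= 2 (Ms r + X+1) - 4 Ms (r-1) + 1 - (X+1) - (Ms r+1)/2 >= (7/10) Ms r + (X+1) + 1/2 >= 1; the others similarly. -/

set_option autoImplicit false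

namespace Pool.Agent.Helper44.BZ

private theorem lev_h12 (r x : ℕ) (hr : 1 ≤ r) (hx : 1 ≤ x) (hx' : x ≤ Ms r) :
    ∃ s al, s ≤ r - 1 ∧ x = Ms s + al ∧ 1 ≤ al ∧ al ≤ 4 ^ Ms s ∧ Ms s ≤ Ms (r - 1) := by
  obtain ⟨s, h1, h2⟩ := level_exists' x hx
  have h3 : s < r := Ms_strictMono.lt_iff_lt.1 (lt_of_lt_of_le h1 hx')
  have h4 : Ms (s + 1) = Ms s + 4 ^ Ms s := rfl
  refine ⟨s, x - Ms s, by omega, by omega, by omega, by omega, ?_⟩
  exact Ms_strictMono.monotone (by omega)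

private theorem core_h12 (I r a b : ℕ) (hr : 1 ≤ r) (hrI : r ≤ I) (ha : 1 ≤ a) (hb : 1 ≤ b)
    (ha' : a ≤ Ms r) (hb' : b ≤ Ms r) :
    2 * (a : ℤ) + 2 * b ≤ F0 I a b + 4 * Ms (r - 1) := by
  obtain ⟨s, al, hs, rfl, h1, h2, h3⟩ := lev_h12 r a hr ha ha'
  obtain ⟨u, ga, hu, rfl, h4, h5, h6⟩ := lev_h12 r b hr hb hb'
  have h7 := F0_ge I s u al ga (by omega) (by omega) h1 h2 h4 h5
  push_cast
  have h3' : (Ms s : ℤ) ≤ Ms (r - 1) := by exact_mod_cast h3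
  have h6' : (Ms u : ℤ) ≤ Ms (r - 1) := by exact_mod_cast h6
  linarith

private theorem val_h12 (I r a b : ℕ) (hrI : r ≤ I) (ha' : a ≤ Ms r) (hb' : b ≤ Ms r)
    (hab : Ms r < a + b) :
    padicValNat 2 (Ms (I + 1) - a - b) + Ms r + 1 ≤ a + b := by
  have h1 : Ms (I + 1) - a - b = Ms (I + 1) - Ms r - (a + b - Ms r) := by omega
  have h2 : a + b - Ms r < 4 ^ Ms r := lt_of_le_of_lt (by omega) (Ms_lt_pow r)
  rw [h1, val_top I r _ hrI (by omega) h2]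
  have h3 := two_pow_val_le (a + b - Ms r) (by omega)
  have h4 : padicValNat 2 (a + b - Ms r) < 2 ^ padicValNat 2 (a + b - Ms r) := Nat.lt_two_pow_self
  omega

private theorem five_h12 (r : ℕ) (hr : 1 ≤ r) : 5 * Ms (r - 1) ≤ Ms r := by
  have h1 := Ms_five (r - 1)
  rwa [Nat.sub_add_cancel hr] at h1

private theorem br1_h12 (I r a k : ℕ) (hrI : r ≤ I) (ha' : a ≤ Ms r) (hka : k ≤ a) :
    s2 (Ms (I + 1) + Ms I + a - 2 * k) ≤ s2 (a - k) + s2 (Ms (I + 1) + Ms I - a) := by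
  have h1 : Ms r ≤ Ms I := Ms_strictMono.monotone hrI
  have h2 : Ms (I + 1) + Ms I + a - 2 * k = 2 * (a - k) + (Ms (I + 1) + Ms I - a) := by omega
  rw [h2]
  exact (s2_add_le _ _).trans (by rw [s2_two_mul])

theorem evE_A (I r a b k : ℕ) (hr : 1 ≤ r) (hrI : r ≤ I) (ha : 1 ≤ a) (hb : 1 ≤ b) (ha' : a ≤ Ms r) (hb' : b ≤ Ms r)
    (hab : Ms r < a + b) (hka : k ≤ a) (hkb : k ≤ b) (hq : b ≤ qq I + 2 * k) : 1 ≤ evE I a b k := by
  have h1 := core_h12 I r a b hr hrI ha hb ha' hb'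
  have h2 := val_h12 I r a b hrI ha' hb' hab
  have h3 := five_h12 r hr
  have h4 := br1_h12 I r a k hrI ha' hka
  have h5 : s2 (qq I + b) ≤ s2 (b - k) + s2 (qq I + 2 * k - b) := by
    have h6 : qq I + b = 2 * (b - k) + (qq I + 2 * k - b) := by omega
    have h7 := s2_add_le (2 * (b - k)) (qq I + 2 * k - b)
    rwa [← h6, s2_two_mul] at h7
  have h6 : s2 (Ms (I + 1) - a - b + 2 * k) ≤ s2 (Ms (I + 1) - a - b + k) + s2 k := by
    have h7 := s2_add_le (Ms (I + 1) - a - b + k) k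
    rwa [show Ms (I + 1) - a - b + k + k = Ms (I + 1) - a - b + 2 * k by omega] at h7
  have h7 := s2_le k
  unfold evE
  omega

theorem evO0_A (I r a b : ℕ) (hr : 1 ≤ r) (hrI : r ≤ I) (ha : 1 ≤ a) (hb : 1 ≤ b) (ha' : a ≤ Ms r) (hb' : b ≤ Ms r)
    (hab : Ms r < a + b) : 1 ≤ evO0 I a b := by
  have h1 := core_h12 I r a b hr hrI ha hb ha' hb'
  have h2 := val_h12 I r a b hrI ha' hb' hab
  have h3 := five_h12 r hr
  unfold evO0
  omega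

theorem evO1_A (I r a b k : ℕ) (hr : 1 ≤ r) (hrI : r ≤ I) (ha : 1 ≤ a) (hb : 1 ≤ b) (ha' : a ≤ Ms r) (hb' : b ≤ Ms r)
    (hab : Ms r < a + b) (hk : 1 ≤ k) (hka : k ≤ a) (hkb : k ≤ b) (hq : b + 1 ≤ qq I + 2 * k) : 1 ≤ evO1 I a b k := by
  have h1 := core_h12 I r a b hr hrI ha hb ha' hb'
  have h3 := five_h12 r hr
  have h4 := br1_h12 I r a k hrI ha' hka
  have h5 : s2 (qq I + b - 1) ≤ s2 (b - k) + s2 (qq I + 2 * k - 1 - b) := by
    have h6 : qq I + b - 1 = 2 * (b - k) + (qq I + 2 * k - 1 - b) := by omega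
    have h7 := s2_add_le (2 * (b - k)) (qq I + 2 * k - 1 - b)
    rwa [← h6, s2_two_mul] at h7
  have h6 : s2 (Ms (I + 1) - a - b + 2 * k - 1) ≤ s2 (Ms (I + 1) - a - b + k) + s2 (k - 1) := by
    have h7 := s2_add_le (Ms (I + 1) - a - b + k) (k - 1)
    rwa [show Ms (I + 1) - a - b + k + (k - 1) = Ms (I + 1) - a - b + 2 * k - 1 by omega] at h7
  have h7 := s2_le (k - 1)
  unfold evO1
  omega

end Pool.Agent.Helper44.BZ
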