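import Mathlib
import Pool.Agent.Helper44.BZ.Defs
import Pool.Agent.Helper44.BZ.S2A
import Pool.Agent.Helper44.BZ.MsA
import Pool.Agent.Helper44.BZ.Ine

/-! Block BZB-INEB (digit inequalities, case B: Ms r < a, where r is the level of a+b). s = s2, v = padicValNat 2.
a = Ms r + al, b = Ms u + ga (u = level of b, `level_exists'`; u <= r because b < a + b, and al, ga >= 1, ga <= 4^(Ms u), and
al + b < 4^(Ms r) by `hX`; b <= Ms r + ga: if u < r then b <= Ms (u+1) <= Ms r).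
X+1 := a+b-Ms r = al + b = Ms u + al + ga < 4^(Ms r). P := Ms (I+1) - Ms r, Y = Ms (I+1) - a - b = P - 1 - X, v(Y) = v(X+1) (`val_top`), and
v(X+1) = v(Ms u + (al+ga)) <= (al+ga+3)/2 (`val_Ms_add`). X = al + b - 1 >= b >= k.
F0 >= 2al + 2ga + 1 + r - s(Ms r + al) + s(al-1) (`F0_eq`, subadditivity) and F0 >= 2al + 2ga (`F0_ge`). q = Ms I + 1.
(evE), 2k <= X: s(Y+k) - s(Y+2k) = s(X-2k) - s(X-k) (`s2_top_sub` twice). First bracket >= 0. X-k = (b-k) + (al-1), so s(X-k) <= s(b-k) + s(al-1);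
 (X-2k) + (q+2k-b) = q+al-1 = Ms I + al, so s(Ms I + al) <= s(X-2k) + s(q+2k-b); s(q+b) = s(Ms I + Ms u + (ga+1)) <= I + s(ga+1) (`s2_q_add`);
 s(Ms I + al) >= s(Ms r + al) + (I-r) - 1 (`s2_I_ge`). Sum: evE >= 2al + 2ga + 1 - v(X+1) - s(ga+1) >= 2al+2ga+1-(al+ga+3)/2-(ga+2)/2
 = (3al + 2ga - 3)/2 >= 1.
(evE), X < 2k: s(Y+k) - s(Y+2k) = 2 Ms r - 1 - s(X-k) - s(2k-X-1) (`s2_top_sub`, `s2_top_add`: Y+2k = P + (2k-X-1)), brackets >= 0,
 s(X-k) + s(2k-X-1) <= (k+1)/2 <= (Ms r + ga + 1)/2: evE >= 2al+2ga + 2Ms r - (al+ga+3)/2 - (Ms r+ga+1)/2 >= 1.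
(evO0): F0 - v(X+1) >= 2al+2ga - (al+ga+3)/2 >= 3/2 > 1.
(evO1), 2k <= X+1: s(Y+k) - s(Y+2k-1) = s(X+1-2k) - s(X-k); (X+1-2k) + (q+2k-1-b) = Ms I + al; s(q+b-1) = s(Ms I + Ms u + ga) <= I + s(ga);
 evO1 >= 2al+2ga-1-s(ga) >= 1 (s(ga) <= ga).
(evO1), X+1 < 2k: Y+2k-1 = P + (2k-2-X): evO1 >= 2al+2ga-1 + 2Ms r-1-s(X-k)-s(2k-2-X), s(X-k)+s(2k-2-X) <= k/2 <= (Ms r+ga)/2; >= 1. -/

set_option autoImplicit false

namespace Pool.Agent.Helper44.BZ

private theorem setup24 (I r a b : ℕ) (hrI : r ≤ I) (ha : Ms r < a) (hb : 1 ≤ b)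
    (hX : a + b < Ms r + 4 ^ Ms r) :
    ∃ u al ga, u ≤ r ∧ 1 ≤ al ∧ a = Ms r + al ∧ 1 ≤ ga ∧ ga ≤ 4 ^ Ms u ∧ b = Ms u + ga ∧
      al + b < 4 ^ Ms r ∧ b ≤ Ms r + ga ∧ al ≤ 4 ^ Ms r ∧
      2 * padicValNat 2 (Ms (I + 1) - a - b) ≤ al + ga + 3 ∧ Ms r + 4 ^ Ms r ≤ Ms (I + 1) := by
  obtain ⟨u, hu1, hu2⟩ := level_exists' b hb
  have e1 := Ms_succ_eq r
  have e2 := Ms_succ_eq u
  have hur : u ≤ r := by
    by_contra hcon
    have h1 := Ms_strictMono.monotone (show r + 1 ≤ u by omega)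
    omega
  have hMI := Ms_strictMono.monotone (show r + 1 ≤ I + 1 by omega)
  have hbr : b ≤ Ms r + (b - Ms u) := by
    rcases Nat.lt_or_ge u r with h | h
    · have h1 := Ms_strictMono.monotone (show u + 1 ≤ r by omega)
      omega
    · have h2 : u = r := le_antisymm hur h
      subst h2
      omega
  refine ⟨u, a - Ms r, b - Ms u, hur, by omega, by omega, by omega, by omega, by omega, by omega, hbr,
    by omega, ?_, by omega⟩
  have h3 := val_top I r (a - Ms r + b) hrI (by omega) (by omega)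
  have h4 : Ms (I + 1) - Ms r - (a - Ms r + b) = Ms (I + 1) - a - b := by omega
  have h5 := val_Ms_add u ((a - Ms r) + (b - Ms u)) (by omega)
  have h6 : Ms u + ((a - Ms r) + (b - Ms u)) = a - Ms r + b := by omega
  rw [h4] at h3
  rw [h6] at h5
  rw [h3]
  exact h5

private theorem F0_ge24 (I r u al ga : ℕ) (hs : r ≤ I) (hu : u ≤ I) (h1 : 1 ≤ al) (h2 : al ≤ 4 ^ Ms r)
    (h3 : 1 ≤ ga) (h4 : ga ≤ 4 ^ Ms u) :
    2 * (al : ℤ) + 2 * ga + 1 + ((r : ℤ) - s2 (Ms r + al) + s2 (al - 1)) ≤ F0 I (Ms r + al) (Ms u + ga) := by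
  rw [F0_eq I r u al ga hs hu h1 h2 h3 h4]
  have e2 := s2_add_le (Ms u) (ga - 1)
  rw [s2_Ms] at e2
  have e4 : Ms u + ga - 1 = Ms u + (ga - 1) := by omega
  rw [e4]
  omega

private theorem brA24 (N a k : ℕ) (h1 : k ≤ a) (h2 : a ≤ N) :
    s2 (N + a - 2 * k) ≤ s2 (a - k) + s2 (N - a) := by
  have h3 := s2_add_le (2 * (a - k)) (N - a)
  rw [s2_two_mul] at h3
  have h4 : 2 * (a - k) + (N - a) = N + a - 2 * k := by omega
  rw [h4] at h3
  exact h3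

private theorem brB24 (q b k : ℕ) (h1 : k ≤ b) (h2 : b ≤ q + 2 * k) :
    s2 (q + b) ≤ s2 (b - k) + s2 (q + 2 * k - b) := by
  have h3 := s2_add_le (2 * (b - k)) (q + 2 * k - b)
  rw [s2_two_mul] at h3
  have h4 : 2 * (b - k) + (q + 2 * k - b) = q + b := by omega
  rw [h4] at h3
  exact h3

private theorem brC24 (q b k : ℕ) (hb : 1 ≤ b) (h1 : k ≤ b) (h2 : b + 1 ≤ q + 2 * k) :
    s2 (q + b - 1) ≤ s2 (b - k) + s2 (q + 2 * k - 1 - b) := by
  have h3 := s2_add_le (2 * (b - k)) (q + 2 * k - 1 - b)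
  rw [s2_two_mul] at h3
  have h4 : 2 * (b - k) + (q + 2 * k - 1 - b) = q + b - 1 := by omega
  rw [h4] at h3
  exact h3

theorem evE_B (I r a b k : ℕ) (hr : 1 ≤ r) (hrI : r ≤ I) (ha : Ms r < a) (hb : 1 ≤ b)
    (hX : a + b < Ms r + 4 ^ Ms r) (hka : k ≤ a) (hkb : k ≤ b) (hq : b ≤ qq I + 2 * k) : 1 ≤ evE I a b k := by
  obtain ⟨u, al, ga, hur, hal, rfl, hga, hga4, rfl, halb, hbr, hal4, hv, hMI⟩ := setup24 I r a b hrI ha hb hX
  have hF := F0_ge24 I r u al ga hrI (hur.trans hrI) hal hal4 hga hga4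
  have hF2 := F0_ge I r u al ga hrI (hur.trans hrI) hal hal4 hga hga4
  have hA := brA24 (Ms (I + 1) + Ms I) (Ms r + al) k hka (by omega)
  have hB := brB24 (qq I) (Ms u + ga) k hkb hq
  have hMr := Ms_pos r hr
  have t1 := s2_top_sub I r (al + (Ms u + ga) - 1 - k) hrI (by omega)
  have t1' : Ms (I + 1) - Ms r - 1 - (al + (Ms u + ga) - 1 - k) = Ms (I + 1) - (Ms r + al) - (Ms u + ga) + k := by
    omega
  rw [t1'] at t1
  unfold evE
  rcases Nat.lt_or_ge (al + (Ms u + ga) - 1) (2 * k) with h | h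
  · have t2 := s2_top_add I r (2 * k - (al + (Ms u + ga) - 1) - 1) hrI (by omega)
    have t2' : Ms (I + 1) - Ms r + (2 * k - (al + (Ms u + ga) - 1) - 1) =
        Ms (I + 1) - (Ms r + al) - (Ms u + ga) + 2 * k := by omega
    rw [t2'] at t2
    have l1 := s2_le (al + (Ms u + ga) - 1 - k)
    have l2 := s2_le (2 * k - (al + (Ms u + ga) - 1) - 1)
    omega
  · have t2 := s2_top_sub I r (al + (Ms u + ga) - 1 - 2 * k) hrI (by omega)
    have t2' : Ms (I + 1) - Ms r - 1 - (al + (Ms u + ga) - 1 - 2 * k) =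
        Ms (I + 1) - (Ms r + al) - (Ms u + ga) + 2 * k := by omega
    rw [t2'] at t2
    have a1 := s2_add_le (Ms u + ga - k) (al - 1)
    have a1' : Ms u + ga - k + (al - 1) = al + (Ms u + ga) - 1 - k := by omega
    rw [a1'] at a1
    have a2 := s2_add_le (al + (Ms u + ga) - 1 - 2 * k) (qq I + 2 * k - (Ms u + ga))
    have a2' : al + (Ms u + ga) - 1 - 2 * k + (qq I + 2 * k - (Ms u + ga)) = Ms I + al := by
      unfold qq at hq ⊢
      omega
    rw [a2'] at a2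
    have a3 := s2_q_add I u (ga + 1) (hur.trans hrI)
    have a3' : Ms I + Ms u + (ga + 1) = qq I + (Ms u + ga) := by
      unfold qq
      omega
    rw [a3'] at a3
    have a4 := s2_I_ge I r al hrI hal hal4
    have l1 := s2_le (ga + 1)
    omega

theorem evO0_B (I r a b : ℕ) (hr : 1 ≤ r) (hrI : r ≤ I) (ha : Ms r < a) (hb : 1 ≤ b)
    (hX : a + b < Ms r + 4 ^ Ms r) : 1 ≤ evO0 I a b := by
  obtain ⟨u, al, ga, hur, hal, rfl, hga, hga4, rfl, halb, hbr, hal4, hv, hMI⟩ := setup24 I r a b hrI ha hb hX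
  have hF2 := F0_ge I r u al ga hrI (hur.trans hrI) hal hal4 hga hga4
  unfold evO0
  omega

theorem evO1_B (I r a b k : ℕ) (hr : 1 ≤ r) (hrI : r ≤ I) (ha : Ms r < a) (hb : 1 ≤ b)
    (hX : a + b < Ms r + 4 ^ Ms r) (hk : 1 ≤ k) (hka : k ≤ a) (hkb : k ≤ b) (hq : b + 1 ≤ qq I + 2 * k) :
    1 ≤ evO1 I a b k := by
  obtain ⟨u, al, ga, hur, hal, rfl, hga, hga4, rfl, halb, hbr, hal4, hv, hMI⟩ := setup24 I r a b hrI ha hb hX
  have hF := F0_ge24 I r u al ga hrI (hur.trans hrI) hal hal4 hga hga4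
  have hF2 := F0_ge I r u al ga hrI (hur.trans hrI) hal hal4 hga hga4
  have hA := brA24 (Ms (I + 1) + Ms I) (Ms r + al) k hka (by omega)
  have hB := brC24 (qq I) (Ms u + ga) k hb hkb hq
  have hMr := Ms_pos r hr
  have t1 := s2_top_sub I r (al + (Ms u + ga) - 1 - k) hrI (by omega)
  have t1' : Ms (I + 1) - Ms r - 1 - (al + (Ms u + ga) - 1 - k) = Ms (I + 1) - (Ms r + al) - (Ms u + ga) + k := by
    omega
  rw [t1'] at t1
  unfold evO1
  rcases Nat.lt_or_ge (al + (Ms u + ga)) (2 * k) with h | h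
  · have t2 := s2_top_add I r (2 * k - 1 - (al + (Ms u + ga))) hrI (by omega)
    have t2' : Ms (I + 1) - Ms r + (2 * k - 1 - (al + (Ms u + ga))) =
        Ms (I + 1) - (Ms r + al) - (Ms u + ga) + 2 * k - 1 := by omega
    rw [t2'] at t2
    have l1 := s2_le (al + (Ms u + ga) - 1 - k)
    have l2 := s2_le (2 * k - 1 - (al + (Ms u + ga)))
    omega
  · have t2 := s2_top_sub I r (al + (Ms u + ga) - 2 * k) hrI (by omega)
    have t2' : Ms (I + 1) - Ms r - 1 - (al + (Ms u + ga) - 2 * k) =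
        Ms (I + 1) - (Ms r + al) - (Ms u + ga) + 2 * k - 1 := by omega
    rw [t2'] at t2
    have a1 := s2_add_le (Ms u + ga - k) (al - 1)
    have a1' : Ms u + ga - k + (al - 1) = al + (Ms u + ga) - 1 - k := by omega
    rw [a1'] at a1
    have a2 := s2_add_le (al + (Ms u + ga) - 2 * k) (qq I + 2 * k - 1 - (Ms u + ga))
    have a2' : al + (Ms u + ga) - 2 * k + (qq I + 2 * k - 1 - (Ms u + ga)) = Ms I + al := by
      unfold qq at hq ⊢
      omega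
    rw [a2'] at a2
    have a3 := s2_q_add I u ga (hur.trans hrI)
    have a3' : Ms I + Ms u + ga = qq I + (Ms u + ga) - 1 := by
      unfold qq
      omega
    rw [a3'] at a3
    have a4 := s2_I_ge I r al hrI hal hal4
    have l1 := s2_le ga
    omega

end Pool.Agent.Helper44.BZ
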