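import Mathlib
import Pool.Agent.Helper44.BZ.Defs
import Pool.Agent.Helper44.BZ.S2A
import Pool.Agent.Helper44.BZ.MsA
import Pool.Agent.Helper44.BZ.Ine

/-! Block BZB-INEC (digit inequalities, case C: a <= Ms r < b, where r is the level of a+b). s = s2, v = padicValNat 2.
b = Ms r + ga, a = Ms s + al with s < r (level of a, `level_exists'`), al, ga >= 1, al <= 4^(Ms s).
X+1 := a+b-Ms r = a + ga = Ms s + al + ga < 4^(Ms r). P := Ms (I+1) - Ms r, Y = Ms (I+1) - a - b = P - 1 - X, v(Y) = v(X+1) <= (al+ga+3)/2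
(`val_top`, `val_Ms_add`). X = a + ga - 1 >= a >= k. F0 >= 2al + 2ga (`F0_ge`). N = Ms (I+1) + Ms I; b < 4 q, so ga <= 4 q.
(evE), 2k <= X: s(Y+k) - s(Y+2k) = s(X-2k) - s(X-k) (`s2_top_sub` twice). Second bracket >= 0. X-k = (a-k) + (ga-1), so
 s(X-k) <= s(a-k) + s(ga-1); N+a-2k = (X-2k) + (N-(ga-1)), so s(N+a-2k) <= s(X-2k) + s(N-(ga-1)). So
 [s(a-k)+s(N-a)-s(N+a-2k)] + s(X-2k) - s(X-k) >= s(N-a) - s(ga-1) - s(N-(ga-1)), s(N-a) >= I+1-s(al) (`s2_N_sub_ge`),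
 s(N-(ga-1)) <= I+1+(ga-1)-s(ga-1) (`s2_N_sub`): the sum is >= -s(al)-(ga-1).
 evE >= 2al+2ga+1-(al+ga+3)/2-s(al)-(ga-1) >= al + ga/2 >= 1 (s(al) <= (al+1)/2).
(evE), X < 2k: s(Y+k) - s(Y+2k) = 2 Ms r - 1 - s(X-k) - s(2k-X-1) (`s2_top_sub`, `s2_top_add`), s(X-k)+s(2k-X-1) <= (k+1)/2 <= (Ms r+1)/2:
 evE >= 2al+2ga+1-(al+ga+3)/2+2Ms r-1-(Ms r+1)/2 >= 1.
(evO0): F0 - v(X+1) >= 2al+2ga - (al+ga+3)/2 > 1.
(evO1), 2k <= X+1: s(Y+k) - s(Y+2k-1) = s(X+1-2k) - s(X-k); N+a-2k = (X+1-2k) + (N-ga); as above the first bracket plus this is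
 >= s(N-a) - s(ga-1) - s(N-ga) >= (I+1-s(al)) - s(ga-1) - (I+1+ga-s(ga)) = -s(al)-ga+s(ga)-s(ga-1); s(ga)-s(ga-1) = 1-v(ga) >= 2-ga (v(ga) < ga).
 More carefully evO1 >= 2al+2ga-1-s(al)-ga+1-v(ga) = (2al-s(al)) + (ga-v(ga)) >= 1+1.
(evO1), X+1 < 2k: Y+2k-1 = P+(2k-2-X): evO1 >= 2al+2ga-1+2Ms r-1-k/2 >= 1 (k <= Ms r). -/

set_option autoImplicit false

namespace Pool.Agent.Helper44.BZ

private theorem setup99 (I r a b : ℕ) (hrI : r ≤ I) (ha : 1 ≤ a) (ha' : a ≤ Ms r) (hb : Ms r < b)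
    (hX : a + b < Ms r + 4 ^ Ms r) :
    ∃ s al ga, s ≤ I ∧ 1 ≤ al ∧ al ≤ 4 ^ Ms s ∧ a = Ms s + al ∧ 1 ≤ ga ∧ ga ≤ 4 ^ Ms r ∧ b = Ms r + ga ∧
      a + ga < 4 ^ Ms r ∧
      2 * padicValNat 2 (Ms (I + 1) - a - b) ≤ al + ga + 3 ∧ Ms r + 4 ^ Ms r ≤ Ms (I + 1) := by
  obtain ⟨s, hs1, hs2⟩ := level_exists' a ha
  have e1 := Ms_succ_eq r
  have e2 := Ms_succ_eq s
  have hsr : s < r := by
    by_contra hcon
    have h1 := Ms_strictMono.monotone (show r ≤ s by omega)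
    omega
  have hMI := Ms_strictMono.monotone (show r + 1 ≤ I + 1 by omega)
  refine ⟨s, a - Ms s, b - Ms r, by omega, by omega, by omega, by omega, by omega, by omega, by omega,
    by omega, ?_, by omega⟩
  have h3 := val_top I r (a + (b - Ms r)) hrI (by omega) (by omega)
  have h4 : Ms (I + 1) - Ms r - (a + (b - Ms r)) = Ms (I + 1) - a - b := by omega
  have h5 := val_Ms_add s ((a - Ms s) + (b - Ms r)) (by omega)
  have h6 : Ms s + ((a - Ms s) + (b - Ms r)) = a + (b - Ms r) := by omega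
  rw [h4] at h3
  rw [h6] at h5
  rw [h3]
  exact h5

private theorem brA99 (N a k : ℕ) (h1 : k ≤ a) (h2 : a ≤ N) :
    s2 (N + a - 2 * k) ≤ s2 (a - k) + s2 (N - a) := by
  have h3 := s2_add_le (2 * (a - k)) (N - a)
  rw [s2_two_mul] at h3
  have h4 : 2 * (a - k) + (N - a) = N + a - 2 * k := by omega
  rw [h4] at h3
  exact h3

private theorem brB99 (q b k : ℕ) (h1 : k ≤ b) (h2 : b ≤ q + 2 * k) :
    s2 (q + b) ≤ s2 (b - k) + s2 (q + 2 * k - b) := by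
  have h3 := s2_add_le (2 * (b - k)) (q + 2 * k - b)
  rw [s2_two_mul] at h3
  have h4 : 2 * (b - k) + (q + 2 * k - b) = q + b := by omega
  rw [h4] at h3
  exact h3

private theorem brC99 (q b k : ℕ) (hb : 1 ≤ b) (h1 : k ≤ b) (h2 : b + 1 ≤ q + 2 * k) :
    s2 (q + b - 1) ≤ s2 (b - k) + s2 (q + 2 * k - 1 - b) := by
  have h3 := s2_add_le (2 * (b - k)) (q + 2 * k - 1 - b)
  rw [s2_two_mul] at h3
  have h4 : 2 * (b - k) + (q + 2 * k - 1 - b) = q + b - 1 := by omega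
  rw [h4] at h3
  exact h3

theorem evE_C (I r a b k : ℕ) (hI : 2 ≤ I) (hr : 1 ≤ r) (hrI : r ≤ I) (ha : 1 ≤ a) (ha' : a ≤ Ms r) (hb : Ms r < b)
    (hb' : b < 4 * qq I) (hX : a + b < Ms r + 4 ^ Ms r) (hka : k ≤ a) (hkb : k ≤ b) (hq : b ≤ qq I + 2 * k) :
    1 ≤ evE I a b k := by
  obtain ⟨s, al, ga, hsI, hal, hal4, rfl, hga, hga4, rfl, hag, hv, hMI⟩ := setup99 I r a b hrI ha ha' hb hX
  have hF2 := F0_ge I s r al ga hsI hrI hal hal4 hga hga4
  have hA := brA99 (Ms (I + 1) + Ms I) (Ms s + al) k hka (by omega)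
  have hB := brB99 (qq I) (Ms r + ga) k hkb hq
  have hMr := Ms_pos r hr
  have t1 := s2_top_sub I r (Ms s + al + ga - 1 - k) hrI (by omega)
  have t1' : Ms (I + 1) - Ms r - 1 - (Ms s + al + ga - 1 - k) = Ms (I + 1) - (Ms s + al) - (Ms r + ga) + k := by
    omega
  rw [t1'] at t1
  unfold evE
  rcases Nat.lt_or_ge (Ms s + al + ga - 1) (2 * k) with h | h
  · have t2 := s2_top_add I r (2 * k - (Ms s + al + ga - 1) - 1) hrI (by omega)
    have t2' : Ms (I + 1) - Ms r + (2 * k - (Ms s + al + ga - 1) - 1) =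
        Ms (I + 1) - (Ms s + al) - (Ms r + ga) + 2 * k := by omega
    rw [t2'] at t2
    have l1 := s2_le (Ms s + al + ga - 1 - k)
    have l2 := s2_le (2 * k - (Ms s + al + ga - 1) - 1)
    omega
  · have t2 := s2_top_sub I r (Ms s + al + ga - 1 - 2 * k) hrI (by omega)
    have t2' : Ms (I + 1) - Ms r - 1 - (Ms s + al + ga - 1 - 2 * k) =
        Ms (I + 1) - (Ms s + al) - (Ms r + ga) + 2 * k := by omega
    rw [t2'] at t2
    have a1 := s2_add_le (Ms s + al - k) (ga - 1)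
    have a1' : Ms s + al - k + (ga - 1) = Ms s + al + ga - 1 - k := by omega
    rw [a1'] at a1
    have a2 := s2_add_le (Ms s + al + ga - 1 - 2 * k) (Ms (I + 1) + Ms I - (ga - 1))
    have a2' : Ms s + al + ga - 1 - 2 * k + (Ms (I + 1) + Ms I - (ga - 1)) =
        Ms (I + 1) + Ms I + (Ms s + al) - 2 * k := by omega
    rw [a2'] at a2
    have a3 := s2_N_sub_ge I s al hsI (by omega)
    have a4 := s2_N_sub I (ga - 1) hI (by omega)
    have l1 := s2_le al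
    omega

theorem evO0_C (I r a b : ℕ) (hI : 2 ≤ I) (hr : 1 ≤ r) (hrI : r ≤ I) (ha : 1 ≤ a) (ha' : a ≤ Ms r) (hb : Ms r < b)
    (hX : a + b < Ms r + 4 ^ Ms r) : 1 ≤ evO0 I a b := by
  obtain ⟨s, al, ga, hsI, hal, hal4, rfl, hga, hga4, rfl, hag, hv, hMI⟩ := setup99 I r a b hrI ha ha' hb hX
  have hF2 := F0_ge I s r al ga hsI hrI hal hal4 hga hga4
  unfold evO0
  omega

theorem evO1_C (I r a b k : ℕ) (hI : 2 ≤ I) (hr : 1 ≤ r) (hrI : r ≤ I) (ha : 1 ≤ a) (ha' : a ≤ Ms r) (hb : Ms r < b)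
    (hb' : b < 4 * qq I) (hX : a + b < Ms r + 4 ^ Ms r) (hk : 1 ≤ k) (hka : k ≤ a) (hkb : k ≤ b)
    (hq : b + 1 ≤ qq I + 2 * k) : 1 ≤ evO1 I a b k := by
  obtain ⟨s, al, ga, hsI, hal, hal4, rfl, hga, hga4, rfl, hag, hv, hMI⟩ := setup99 I r a b hrI ha ha' hb hX
  have hF2 := F0_ge I s r al ga hsI hrI hal hal4 hga hga4
  have hA := brA99 (Ms (I + 1) + Ms I) (Ms s + al) k hka (by omega)
  have hB := brC99 (qq I) (Ms r + ga) k (by omega) hkb hq
  have hMr := Ms_pos r hr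
  have t1 := s2_top_sub I r (Ms s + al + ga - 1 - k) hrI (by omega)
  have t1' : Ms (I + 1) - Ms r - 1 - (Ms s + al + ga - 1 - k) = Ms (I + 1) - (Ms s + al) - (Ms r + ga) + k := by
    omega
  rw [t1'] at t1
  unfold evO1
  rcases Nat.lt_or_ge (Ms s + al + ga) (2 * k) with h | h
  · have t2 := s2_top_add I r (2 * k - 1 - (Ms s + al + ga)) hrI (by omega)
    have t2' : Ms (I + 1) - Ms r + (2 * k - 1 - (Ms s + al + ga)) =
        Ms (I + 1) - (Ms s + al) - (Ms r + ga) + 2 * k - 1 := by omega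
    rw [t2'] at t2
    have l1 := s2_le (Ms s + al + ga - 1 - k)
    have l2 := s2_le (2 * k - 1 - (Ms s + al + ga))
    omega
  · have t2 := s2_top_sub I r (Ms s + al + ga - 2 * k) hrI (by omega)
    have t2' : Ms (I + 1) - Ms r - 1 - (Ms s + al + ga - 2 * k) =
        Ms (I + 1) - (Ms s + al) - (Ms r + ga) + 2 * k - 1 := by omega
    rw [t2'] at t2
    have a1 := s2_add_le (Ms s + al - k) (ga - 1)
    have a1' : Ms s + al - k + (ga - 1) = Ms s + al + ga - 1 - k := by omega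
    rw [a1'] at a1
    have a2 := s2_add_le (Ms s + al + ga - 2 * k) (Ms (I + 1) + Ms I - ga)
    have a2' : Ms s + al + ga - 2 * k + (Ms (I + 1) + Ms I - ga) =
        Ms (I + 1) + Ms I + (Ms s + al) - 2 * k := by omega
    rw [a2'] at a2
    have a3 := s2_N_sub_ge I s al hsI (by omega)
    have a4 := s2_N_sub I ga hI (by omega)
    have a5 := val_pred ga hga
    have a6 := two_pow_val_le ga hga
    have a7 : padicValNat 2 ga < 2 ^ padicValNat 2 ga := Nat.lt_two_pow_self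
    have l1 := s2_le al
    omega

end Pool.Agent.Helper44.BZ
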