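import Mathlib
import Pool.Agent.Helper44.BZ.Defs
import Pool.Agent.Helper44.BZ.VGA
import Pool.Agent.Helper44.BZ.S2A
import Pool.Agent.Helper44.BZ.MsA
import Pool.Agent.Helper44.BZ.Ine
import Pool.Agent.Helper44.BZ.ChM

/-! Block BZB-PATK. The terms k >= 1 of `Eo` on the pattern are even: a + b = Ms r, a, b >= 1, 2 <= r <= I, 1 <= k <= min a b (so 2k <= Ms r).
n = nn I, q = qq I = M+1, M = Ms I, d = Ms (I+1) = n - 2q, y = 2n-3q, Y = d-a-b. s = s2, v = valuation, x|k falling factorial.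
Write a = Ms s + al, b = Ms u + ga (levels, s, u <= r-1), so s2 (d-a) = (I-s) + 2 Ms s - s2 (al-1) etc. (`s2_top_sub`).
Lower bounds of the valuations of the factors of Eo (k >= 1):
 2^a(-2)^b: a+b; (n-3q)|a: a-s(a); RY = ((y-1)|(b-1))(y-3b): (b-1)-s(b-1) [+1 if q+b even]; 1/a!, 1/b!: -(a-s(a)), -(b-s(b)); (d-a)/((d-1)|a): -((a-1)-I+s(d-a)),
 same for b; q+b+2a-4k: 0 [1 if q+b even]; (d+M+a-2k)|(2(a-k)): 2(a-k)-s(a-k);
 q+b odd: prod_{t<b-k} (q+b-1-2t) = 2^(b-k) ((q+b-1)/2)|(b-k): 2(b-k)-s(b-k), the last denominator is odd;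
 q+b even: prod_{t<b-k} (q+b-2(k+1+t)) = 2^(b-k) * (falling factorial): 2(b-k)-s(b-k); prod_{s<k} (b-2n+3q+2s): 2k - s(k); the last denominator
   prod_{t<k+1} (q+2a-b-2t) = 2^(k+1) * N'|(k+1), N' = (q+2a-b)/2: valuation 2(k+1) - s(k+1) + v(N'.choose (k+1));
 2^k: k; a|k, b|k: k-s(k) each; (Y+2k-1)|(k-1): (k-1)-s(k-1).
Sum for q+b odd: >= 2(a+b) - 2 Ms s - 2 Ms u - s(a-k) - s(b-k) - 2s(k) - s(k-1) + 1
   (used: s(b-1) <= u + s(ga-1); s(b) >= 1). For q+b even add: 2k - s(k) + 2 - 2(k+1) + s(k+1) - v(N'.choose (k+1)) = -s(k) + s(k+1) - v(N'.choose (k+1)).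
r >= 3: 2(a+b) - 2Ms s - 2Ms u >= 2 Ms r - 4 Ms (r-1) >= (6/5) Ms r; s(a-k)+s(b-k)+3s(k)+s(k-1) <= (Ms r + 5 + 2k)/2 <= Ms r + 5/2; and
 v(N'.choose (k+1)) =: L <= max of v(N'-t), t <= k (`choose_val_le`), 2(N'-t) = q+2a-b-2t = 4^(Ms r) w + (3a+1-2t), 0 < 3a+1-2t < 4^(Ms r), so
 2^L <= 3 Ms r, hence L + 5 <= Ms r / 5 for Ms r >= 1029. Sum >= 1.
r = 2: Ms r = 5, (a,b) = (1,4), (2,3), (3,2), (4,1); q = 6 mod 1024 (Ms I = 5 mod 1024 for I >= 3). q+b odd: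
 (2,3): 10-2-2-(s(2-k)+s(3-k)+2s(k)+s(k-1))+1 = 3 for k = 1, 2; (4,1): 10-2-0-4+1 = 5. q+b even: (1,4), k = 1: 10-0-2-4+1 = 5 and -1+1-v(N'.choose 2), N' = (q-2)/2 = 2 mod 512,
 valuation 0: 5. (3,2): N' = (q+4)/2 = 5 mod 512: k = 1: 10-2-2-4+1 = 3, -1+1-v(N'.choose 2) = -1: 2; k = 2: 3, -1+2-v(N'.choose 3) = 0: 3. All >= 1.
(The actual valuations are >= 7; checked by computer.) -/

set_option autoImplicit false

namespace Pool.Agent.Helper44.BZ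

open Finset

private theorem VG_desc33 (N k : ℕ) : VG ((k : ℤ) - s2 k) (∏ t ∈ range k, ((N : ℚ) - t)) := by
  by_cases h : k ≤ N
  · obtain ⟨-, -, h3⟩ := val_desc N k h
    apply VG_of_val
    rw [h3]
    have h4 : s2 N ≤ s2 k + s2 (N - k) := by
      have := s2_add_le k (N - k)
      rwa [Nat.add_sub_cancel' h] at this
    push_cast [← Nat.cast_add] at *
    omega
  · have h0 : (∏ t ∈ range k, ((N : ℚ) - t)) = 0 :=
      Finset.prod_eq_zero (Finset.mem_range.2 (by omega : N < k)) (sub_self _)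
    rw [h0]
    exact VG_zero _

private theorem VG_intprod33 (k : ℕ) (f : ℕ → ℤ) (g : ℕ → ℚ) (h : ∀ t, t < k → g t = f t) :
    VG 0 (∏ t ∈ range k, g t) := by
  have e : (∏ t ∈ range k, g t) = ((∏ t ∈ range k, f t : ℤ) : ℚ) := by
    rw [Int.cast_prod]
    exact Finset.prod_congr rfl fun t ht => h t (Finset.mem_range.1 ht)
  rw [e]
  exact VG_int _

private theorem VG_even33 (k N : ℕ) (g : ℕ → ℚ) (h : ∀ t, t < k → g t = 2 * ((N : ℚ) - t)) :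
    VG (2 * (k : ℤ) - s2 k) (∏ t ∈ range k, g t) := by
  have e : (∏ t ∈ range k, g t) = 2 ^ k * ∏ t ∈ range k, ((N : ℚ) - t) := by
    rw [Finset.prod_congr rfl fun t ht => h t (Finset.mem_range.1 ht), Finset.prod_mul_distrib,
      Finset.prod_const, Finset.card_range]
  rw [e]
  exact VG_mono (VG_mul (VG_two_pow k) (VG_desc33 N k)) (by omega)

/-- the number `(d - 1) | (a - 1)` -/
private theorem val_den33 (I a : ℕ) (ha : 1 ≤ a) (ha' : a < Ms (I + 1)) :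
    (∏ t ∈ range (a - 1), ((Ms (I + 1) : ℚ) - 1 - t)) ≠ 0 ∧
      padicValRat 2 (∏ t ∈ range (a - 1), ((Ms (I + 1) : ℚ) - 1 - t)) =
        (a : ℤ) - 1 - I + s2 (Ms (I + 1) - a) := by
  have hd1 : 1 ≤ Ms (I + 1) := by omega
  obtain ⟨-, h2, h3⟩ := val_desc (Ms (I + 1) - 1) (a - 1) (by omega)
  have e : (∏ t ∈ range (a - 1), ((Ms (I + 1) : ℚ) - 1 - t)) =
      ∏ t ∈ range (a - 1), (((Ms (I + 1) - 1 : ℕ) : ℚ) - t) := by
    rw [Nat.cast_sub hd1, Nat.cast_one]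
  rw [e]
  refine ⟨h2, ?_⟩
  rw [h3]
  have h4 : s2 (Ms (I + 1) - 1) = I := by
    have h5 := val_pred (Ms (I + 1)) hd1
    have h6 : padicValNat 2 (Ms (I + 1)) = 0 := by
      apply padicValNat.eq_zero_of_not_dvd
      have := Ms_odd (I + 1) (by omega)
      rw [← even_iff_two_dvd]
      exact Nat.not_even_iff_odd.2 this
    rw [s2_Ms, h6] at h5
    omega
  rw [h4]
  have h7 : Ms (I + 1) - 1 - (a - 1) = Ms (I + 1) - a := by omega
  rw [h7]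
  push_cast [Nat.cast_sub ha]
  ring

/-- level of a number -/
private theorem level33 (I a r : ℕ) (ha : 1 ≤ a) (har : a < Ms r) (hrI : r ≤ I) :
    ∃ σ α : ℕ, a = Ms σ + α ∧ 1 ≤ α ∧ σ + 1 ≤ r ∧
      s2 (Ms (I + 1) - a) + s2 (α - 1) = (I - σ) + 2 * Ms σ := by
  obtain ⟨σ, h1, h2⟩ := level_exists' a ha
  have h3 : σ < r := by
    by_contra h
    have := Ms_strictMono.monotone (not_lt.1 h)
    omega
  refine ⟨σ, a - Ms σ, by omega, by omega, h3, ?_⟩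
  have h4 : Ms (σ + 1) = Ms σ + 4 ^ Ms σ := rfl
  have h5 := s2_top_sub I σ (a - Ms σ - 1) (by omega) (by omega)
  have h6 : Ms (I + 1) - Ms σ - 1 - (a - Ms σ - 1) = Ms (I + 1) - a := by omega
  rw [h6] at h5
  exact h5

private theorem VG_mulL {c d e : ℤ} {x y : ℚ} (hx : VG c x) (hy : VG d y) (h : e ≤ c + d) :
    VG e (x * y) := VG_mono (VG_mul hx hy) h

private theorem val_fact33 (a : ℕ) : (Nat.factorial a : ℚ) ≠ 0 ∧
    padicValRat 2 (Nat.factorial a : ℚ) = (a : ℤ) - s2 a := by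
  refine ⟨by exact_mod_cast Nat.factorial_ne_zero a, ?_⟩
  have h := val_fact a
  rw [padicValRat.of_nat]
  omega

/-- The part of `Eo` that does not depend on the parity. -/
private noncomputable def Ba33 (M d : ℚ) (a b k : ℕ) : ℚ :=
  (2 ^ a * (-2) ^ b * (∏ t ∈ range a, (d - (M + 1) - t)) *
      (∏ t ∈ range (b - 1), (2 * d + (M + 1) - 1 - t)) * 2 ^ k *
      (∏ t ∈ range (2 * (a - k)), (d + M + a - 2 * k - t)) *
      (∏ s ∈ range k, ((a : ℚ) - s)) * (∏ s ∈ range k, ((b : ℚ) - s)) *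
      (∏ s ∈ range (k - 1), (d - a - b + 2 * k - 1 - s))) /
    ((Nat.factorial a : ℚ) * (Nat.factorial b : ℚ) * (∏ t ∈ range a, (2 * (M + 1) + 1 + 2 * (t : ℚ))) *
      (∏ t ∈ range b, (2 * d + 2 * (M + 1) - 1 - 2 * (t : ℚ))) *
      (∏ t ∈ range (a - 1), (d - 1 - t)) * (∏ t ∈ range (b - 1), (d - 1 - t)) * d)

private theorem Eo_split33 (I a b k : ℕ) (ha : 1 ≤ a) (hb : 1 ≤ b) (hk : 1 ≤ k)
    (hda : a < Ms (I + 1)) (hdb : b < Ms (I + 1)) :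
    Eo (nn I) (qq I) a b k = Ba33 (Ms I) (Ms (I + 1)) a b k *
      ((2 * (Ms (I + 1) : ℚ) + (Ms I + 1) - 3 * b) * ((Ms I + 1 : ℚ) + b + 2 * a - 4 * k) *
        (∏ t ∈ range (b - k), ((Ms I + 1 : ℚ) + b - 2 * (k + 1 + t))) *
        (∏ t ∈ range (b - k), ((Ms I + 1 : ℚ) + b - 1 - 2 * t)) *
        (∏ s ∈ range k, (1 - 2 * ((Ms I + 1 : ℚ) + a) + 2 * s)) *
        (∏ s ∈ range k, ((b : ℚ) - 2 * Ms (I + 1) - (Ms I + 1) + 2 * s)) /
        (∏ t ∈ range (k + 1), ((Ms I + 1 : ℚ) + 2 * a - b - 2 * t))) := by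
  have hn : ((nn I : ℕ) : ℚ) = 2 * ((Ms I : ℚ) + 1) + Ms (I + 1) := by
    simp [nn, qq]
  have hq : ((qq I : ℕ) : ℚ) = (Ms I : ℚ) + 1 := by simp [qq]
  have hda' : (Ms (I + 1) : ℚ) - a ≠ 0 := by
    have : (a : ℚ) < Ms (I + 1) := by exact_mod_cast hda
    linarith
  have hdb' : (Ms (I + 1) : ℚ) - b ≠ 0 := by
    have : (b : ℚ) < Ms (I + 1) := by exact_mod_cast hdb
    linarith
  have hR : ¬ (qq I + b ≤ qq I) := by omega
  have hk0 : k ≠ 0 := by omega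
  have hsub : qq I + b - qq I - 1 = b - 1 := by omega
  have hprod : ∀ c : ℕ, 1 ≤ c → (∏ t ∈ range c, (((Ms (I + 1) : ℚ)) - 1 - t)) =
      (∏ t ∈ range (c - 1), ((Ms (I + 1) : ℚ) - 1 - t)) * ((Ms (I + 1) : ℚ) - c) := by
    intro c hc
    obtain ⟨c', rfl⟩ : ∃ c', c = c' + 1 := ⟨c - 1, by omega⟩
    rw [Finset.prod_range_succ, Nat.add_sub_cancel]
    push_cast
    ring
  unfold Eo KK RY Ba33
  rw [if_neg hR, if_neg hk0, hsub, hn, hq]
  have e1 : ∀ t : ℕ, (2 * ((Ms I : ℚ) + 1) + Ms (I + 1) - 3 * ((Ms I : ℚ) + 1) - t) =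
      (Ms (I + 1) : ℚ) - (Ms I + 1) - t := fun t => by ring
  have e2 : ∀ t : ℕ, (2 * (2 * ((Ms I : ℚ) + 1) + Ms (I + 1)) - 3 * ((Ms I : ℚ) + 1) - 1 - t) =
      2 * (Ms (I + 1) : ℚ) + (Ms I + 1) - 1 - t := fun t => by ring
  have e3 : 2 * (2 * ((Ms I : ℚ) + 1) + Ms (I + 1)) - 3 * (((qq I + b : ℕ) : ℚ)) =
      2 * (Ms (I + 1) : ℚ) + (Ms I + 1) - 3 * b := by
    push_cast
    rw [hq]
    ring
  have e4 : ∀ t : ℕ, (2 * (2 * ((Ms I : ℚ) + 1) + Ms (I + 1)) - 2 * ((Ms I : ℚ) + 1) - 1 - 2 * t) =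
      2 * (Ms (I + 1) : ℚ) + 2 * (Ms I + 1) - 1 - 2 * (t : ℚ) := fun t => by ring
  have e5 : ∀ t : ℕ, (2 * ((Ms I : ℚ) + 1) + Ms (I + 1) - 2 * ((Ms I : ℚ) + 1) - 1 - t) =
      (Ms (I + 1) : ℚ) - 1 - t := fun t => by ring
  have e6 : (2 * ((Ms I : ℚ) + 1) + Ms (I + 1) - 2 * ((Ms I : ℚ) + 1)) = (Ms (I + 1) : ℚ) := by ring
  have e7 : ∀ t : ℕ, (2 * ((Ms I : ℚ) + 1) + Ms (I + 1) - ((Ms I : ℚ) + 1) + a - 1 - 2 * k - t) =
      (Ms (I + 1) : ℚ) + Ms I + a - 2 * k - t := fun t => by ring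
  have e8 : ∀ s : ℕ, ((b : ℚ) - 2 * (2 * ((Ms I : ℚ) + 1) + Ms (I + 1)) + 3 * ((Ms I : ℚ) + 1) + 2 * s) =
      (b : ℚ) - 2 * Ms (I + 1) - (Ms I + 1) + 2 * s := fun s => by ring
  have e9 : ∀ t : ℕ, (2 * (((Ms I : ℚ) + 1) + a) - (((Ms I : ℚ) + 1) + b) - 2 * t) =
      ((Ms I + 1 : ℚ) + 2 * a - b - 2 * t) := fun t => by ring
  simp only [e1, e2, e3, e4, e5, e7, e8, e9, e6]
  rw [hprod a ha, hprod b hb, Finset.prod_mul_distrib, Finset.prod_mul_distrib]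
  generalize (∏ t ∈ range (a - 1), ((Ms (I + 1) : ℚ) - 1 - t)) = Aa
  generalize (∏ t ∈ range (b - 1), ((Ms (I + 1) : ℚ) - 1 - t)) = Bb
  generalize (∏ t ∈ range (k + 1), ((Ms I + 1 : ℚ) + 2 * a - b - 2 * t)) = P7
  generalize (∏ t ∈ range a, (2 * ((Ms I : ℚ) + 1) + 1 + 2 * (t : ℚ))) = O1
  generalize (∏ t ∈ range b, (2 * (Ms (I + 1) : ℚ) + 2 * (Ms I + 1) - 1 - 2 * (t : ℚ))) = O2
  generalize (∏ s ∈ range (k - 1), ((Ms (I + 1) : ℚ) - a - b + 2 * k - 1 - s)) = P6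
  generalize (∏ s ∈ range k, ((a : ℚ) - s)) = Pa
  generalize (∏ s ∈ range k, ((b : ℚ) - s)) = Pb
  generalize (∏ s ∈ range k, (1 - 2 * ((Ms I + 1 : ℚ) + a) + 2 * s)) = P4
  generalize (∏ s ∈ range k, ((b : ℚ) - 2 * Ms (I + 1) - (Ms I + 1) + 2 * s)) = P4'
  generalize (∏ t ∈ range (b - k), ((Ms I + 1 : ℚ) + b - 2 * (k + 1 + t))) = P2
  generalize (∏ t ∈ range (b - k), ((Ms I + 1 : ℚ) + b - 1 - 2 * t)) = P3
  generalize (∏ t ∈ range (2 * (a - k)), ((Ms (I + 1) : ℚ) + Ms I + a - 2 * k - t)) = P1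
  generalize (∏ t ∈ range a, ((Ms (I + 1) : ℚ) - (Ms I + 1) - t)) = X1
  generalize (∏ t ∈ range (b - 1), (2 * (Ms (I + 1) : ℚ) + (Ms I + 1) - 1 - t)) = X2
  generalize (Nat.factorial a : ℚ) = fa
  generalize (Nat.factorial b : ℚ) = fb
  have c1 : ((Ms (I + 1) : ℚ) - a) * ((Ms (I + 1) : ℚ) - a)⁻¹ = 1 := mul_inv_cancel₀ hda'
  have c2 : ((Ms (I + 1) : ℚ) - b) * ((Ms (I + 1) : ℚ) - b)⁻¹ = 1 := mul_inv_cancel₀ hdb'
  generalize ((Ms (I + 1) : ℚ) - a) = da at *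
  generalize ((Ms (I + 1) : ℚ) - b) = db at *
  simp only [div_eq_mul_inv, mul_inv]
  linear_combination ((2 ^ a * (-2) ^ b * X1 * (X2 * (2 * (Ms (I + 1) : ℚ) + (Ms I + 1) - 3 * b)) *
    (fa⁻¹ * fb⁻¹ * O1⁻¹ * O2⁻¹ * Aa⁻¹ * Bb⁻¹ * (Ms (I + 1) : ℚ)⁻¹)) *
    ((Ms I + 1 : ℚ) + b + 2 * a - 4 * k) * P1 * P2 * P3 * 2 ^ k * (P4 * P4') * (Pa * Pb) * P6 *
    P7⁻¹) * (db * db⁻¹ * c1 + c2)

private theorem Ba_val33 (I a b k : ℕ) (ha : 1 ≤ a) (hb : 1 ≤ b) (hk : 1 ≤ k)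
    (hka : k ≤ a) (hab : a + b ≤ Ms I) :
    VG (2 * (a : ℤ) + 2 * k + 2 * I - s2 (b - 1) + s2 b - s2 (a - k) - 2 * s2 k - s2 (k - 1) -
      s2 (Ms (I + 1) - a) - s2 (Ms (I + 1) - b))
      (Ba33 (Ms I) (Ms (I + 1)) a b k) := by
  have hM : Ms (I + 1) = Ms I + 4 ^ Ms I := rfl
  have hlt := Ms_lt_pow I
  have hda : a < Ms (I + 1) := by omega
  have hdb : b < Ms (I + 1) := by omega
  unfold Ba33
  have n1 := VG_desc33 (Ms (I + 1) - (Ms I + 1)) a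
  have n2 := VG_desc33 (2 * Ms (I + 1) + Ms I) (b - 1)
  have n3 := VG_desc33 (Ms (I + 1) + Ms I + a - 2 * k) (2 * (a - k))
  have n4 := VG_desc33 a k
  have n5 := VG_desc33 b k
  have n6 := VG_desc33 (Ms (I + 1) + 2 * k - 1 - (a + b)) (k - 1)
  have c1 : (((Ms (I + 1) - (Ms I + 1) : ℕ)) : ℚ) = (Ms (I + 1) : ℚ) - (Ms I + 1) := by
    rw [Nat.cast_sub (by omega)]; push_cast; ring
  have c2 : (((2 * Ms (I + 1) + Ms I : ℕ)) : ℚ) = 2 * (Ms (I + 1) : ℚ) + (Ms I + 1) - 1 := by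
    push_cast; ring
  have c3 : (((Ms (I + 1) + Ms I + a - 2 * k : ℕ)) : ℚ) = (Ms (I + 1) : ℚ) + Ms I + a - 2 * k := by
    rw [Nat.cast_sub (by omega)]; push_cast; ring
  have c6 : (((Ms (I + 1) + 2 * k - 1 - (a + b) : ℕ)) : ℚ) = (Ms (I + 1) : ℚ) - a - b + 2 * k - 1 := by
    rw [Nat.cast_sub (by omega), Nat.cast_sub (by omega)]; push_cast; ring
  simp only [c1] at n1
  simp only [c2] at n2
  simp only [c3] at n3
  simp only [c6] at n6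
  rw [s2_two_mul] at n3
  have t1 : VG (a : ℤ) ((2 : ℚ) ^ a) := VG_two_pow a
  have t2 : VG (b : ℤ) ((-2 : ℚ) ^ b) := by
    have h := VG_mul (VG_int ((-1) ^ b)) (VG_two_pow b)
    have e : (((-1) ^ b : ℤ) : ℚ) * 2 ^ b = (-2 : ℚ) ^ b := by
      push_cast
      rw [← mul_pow]
      norm_num
    rw [e] at h
    exact VG_mono h (by omega)
  have t3 : VG (k : ℤ) ((2 : ℚ) ^ k) := VG_two_pow k
  have hnum := VG_mul (VG_mul (VG_mul (VG_mul (VG_mul (VG_mul (VG_mul (VG_mul t1 t2) n1) n2) t3) n3)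
    n4) n5) n6
  obtain ⟨f1, f1'⟩ := val_fact33 a
  obtain ⟨f2, f2'⟩ := val_fact33 b
  obtain ⟨o1, o1'⟩ := val_prod_odd (k := a) (f := fun t => 2 * ((Ms I : ℤ) + 1) + 1 + 2 * t)
    (fun t _ => ⟨Ms I + 1 + t, by ring⟩)
  obtain ⟨o2, o2'⟩ := val_prod_odd (k := b)
    (f := fun t => 2 * (Ms (I + 1) : ℤ) + 2 * ((Ms I : ℤ) + 1) - 1 - 2 * t)
    (fun t _ => ⟨Ms (I + 1) + (Ms I : ℤ) - t, by ring⟩)
  have eo1 : (∏ t ∈ range a, (((fun t : ℕ => 2 * ((Ms I : ℤ) + 1) + 1 + 2 * (t : ℤ)) t : ℤ) : ℚ)) =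
      ∏ t ∈ range a, (2 * ((Ms I : ℚ) + 1) + 1 + 2 * (t : ℚ)) :=
    Finset.prod_congr rfl fun t _ => by push_cast; ring
  have eo2 : (∏ t ∈ range b,
      (((fun t : ℕ => 2 * (Ms (I + 1) : ℤ) + 2 * ((Ms I : ℤ) + 1) - 1 - 2 * (t : ℤ)) t : ℤ) : ℚ)) =
      ∏ t ∈ range b, (2 * (Ms (I + 1) : ℚ) + 2 * (Ms I + 1) - 1 - 2 * (t : ℚ)) :=
    Finset.prod_congr rfl fun t _ => by push_cast; ring
  rw [eo1] at o1 o1'
  rw [eo2] at o2 o2'
  obtain ⟨a1, a1'⟩ := val_den33 I a ha hda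
  obtain ⟨b1, b1'⟩ := val_den33 I b hb hdb
  have d0 : (Ms (I + 1) : ℚ) ≠ 0 := by
    have : 0 < Ms (I + 1) := by omega
    exact_mod_cast this.ne'
  have d0' : padicValRat 2 (Ms (I + 1) : ℚ) = 0 := by
    rw [padicValRat.of_nat]
    have h6 : padicValNat 2 (Ms (I + 1)) = 0 := by
      apply padicValNat.eq_zero_of_not_dvd
      have := Ms_odd (I + 1) (by omega)
      rw [← even_iff_two_dvd]
      exact Nat.not_even_iff_odd.2 this
    rw [h6]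
    rfl
  have m1 := mul_ne_zero f1 f2
  have m2 := mul_ne_zero m1 o1
  have m3 := mul_ne_zero m2 o2
  have m4 := mul_ne_zero m3 a1
  have m5 := mul_ne_zero m4 b1
  have m6 := mul_ne_zero m5 d0
  have hden := VG_div hnum m6
  rw [padicValRat.mul m5 d0, padicValRat.mul m4 b1, padicValRat.mul m3 a1, padicValRat.mul m2 o2,
    padicValRat.mul m1 o1, padicValRat.mul f1 f2, f1', f2', o1', o2', a1', b1', d0'] at hden
  refine VG_mono hden ?_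
  have hb' : ((b - 1 : ℕ) : ℤ) = (b : ℤ) - 1 := by omega
  have hk' : ((k - 1 : ℕ) : ℤ) = (k : ℤ) - 1 := by omega
  have hak : ((2 * (a - k) : ℕ) : ℤ) = 2 * ((a : ℤ) - k) := by omega
  rw [hb', hk', hak]
  linarith

/-- odd case -/
private theorem Eo_odd33 (I a b k : ℕ) (ha : 1 ≤ a) (hb : 1 ≤ b) (hk : 1 ≤ k)
    (hka : k ≤ a) (hkb : k ≤ b) (hab : a + b ≤ Ms I) (hpar : Odd (Ms I + 1 + b)) :
    VG (2 * (a : ℤ) + 2 * b + 2 * I - s2 (b - 1) + s2 b - s2 (a - k) - s2 (b - k) - 2 * s2 k -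
      s2 (k - 1) - s2 (Ms (I + 1) - a) - s2 (Ms (I + 1) - b)) (Eo (nn I) (qq I) a b k) := by
  have hM : Ms (I + 1) = Ms I + 4 ^ Ms I := rfl
  have hlt := Ms_lt_pow I
  rw [Eo_split33 I a b k ha hb hk (by omega) (by omega)]
  have hB := Ba_val33 I a b k ha hb hk hka hab
  obtain ⟨c, hc⟩ := hpar
  have h1 : VG 0 (2 * (Ms (I + 1) : ℚ) + (Ms I + 1) - 3 * b) := by
    have h := VG_int (2 * (Ms (I + 1) : ℤ) + (Ms I + 1) - 3 * b)
    push_cast at h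
    exact h
  have h2 : VG 0 ((Ms I + 1 : ℚ) + b + 2 * a - 4 * k) := by
    have h := VG_int ((Ms I + 1 : ℤ) + b + 2 * a - 4 * k)
    push_cast at h
    exact h
  have h3 : VG 0 (∏ t ∈ range (b - k), ((Ms I + 1 : ℚ) + b - 2 * (k + 1 + t))) :=
    VG_intprod33 _ (fun t => (Ms I + 1 : ℤ) + b - 2 * (k + 1 + t)) _ fun t _ => by push_cast; ring
  have h4 : VG (2 * ((b - k : ℕ) : ℤ) - s2 (b - k))
      (∏ t ∈ range (b - k), ((Ms I + 1 : ℚ) + b - 1 - 2 * t)) := by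
    refine VG_even33 _ c _ fun t _ => ?_
    have h : ((Ms I + 1 + b : ℕ) : ℚ) = ((2 * c + 1 : ℕ) : ℚ) := by rw [hc]
    push_cast at h
    linear_combination h
  have h5 : VG 0 (∏ s ∈ range k, (1 - 2 * ((Ms I + 1 : ℚ) + a) + 2 * s)) :=
    VG_intprod33 _ (fun s => 1 - 2 * ((Ms I + 1 : ℤ) + a) + 2 * s) _ fun t _ => by push_cast; ring
  have h6 : VG 0 (∏ s ∈ range k, ((b : ℚ) - 2 * Ms (I + 1) - (Ms I + 1) + 2 * s)) :=
    VG_intprod33 _ (fun s => (b : ℤ) - 2 * Ms (I + 1) - (Ms I + 1) + 2 * s) _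
      fun t _ => by push_cast; ring
  obtain ⟨o7, o7'⟩ := val_prod_odd (k := k + 1) (f := fun t => (Ms I + 1 : ℤ) + 2 * a - b - 2 * t)
    (fun t _ => by
      refine ⟨(c : ℤ) + a - b - t, ?_⟩
      have h : ((Ms I + 1 + b : ℕ) : ℤ) = ((2 * c + 1 : ℕ) : ℤ) := by rw [hc]
      push_cast at h
      linear_combination h)
  have e7 : (∏ t ∈ range (k + 1), (((fun t : ℕ => (Ms I + 1 : ℤ) + 2 * a - b - 2 * (t : ℤ)) t : ℤ) : ℚ)) =
      ∏ t ∈ range (k + 1), ((Ms I + 1 : ℚ) + 2 * a - b - 2 * t) :=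
    Finset.prod_congr rfl fun t _ => by push_cast; ring
  rw [e7] at o7 o7'
  have h := VG_mul hB (VG_div (VG_mul (VG_mul (VG_mul (VG_mul (VG_mul h1 h2) h3) h4) h5) h6) o7)
  rw [o7'] at h
  refine VG_mono h ?_
  have hbk : ((b - k : ℕ) : ℤ) = (b : ℤ) - k := by omega
  rw [hbk]
  linarith

/-- even case -/
private theorem Eo_even33 (I a b k : ℕ) (ha : 1 ≤ a) (hb : 1 ≤ b) (hk : 1 ≤ k)
    (hka : k ≤ a) (hkb : k ≤ b) (hab : a + b ≤ Ms I) (hpar : Even (Ms I + 1 + b)) :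
    ∃ N : ℕ, 2 * N + b = Ms I + 1 + 2 * a ∧
    VG (2 * (a : ℤ) + 2 * b + 2 * I - s2 (b - 1) + s2 b - s2 (a - k) - s2 (b - k) - 3 * s2 k -
      s2 (k - 1) - s2 (Ms (I + 1) - a) - s2 (Ms (I + 1) - b) + s2 (k + 1) -
      padicValNat 2 (N.choose (k + 1))) (Eo (nn I) (qq I) a b k) := by
  have hM : Ms (I + 1) = Ms I + 4 ^ Ms I := rfl
  have hlt := Ms_lt_pow I
  rw [Eo_split33 I a b k ha hb hk (by omega) (by omega)]
  have hB := Ba_val33 I a b k ha hb hk hka hab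
  obtain ⟨c, hc⟩ := hpar
  have hcb : b + 1 ≤ c := by omega
  refine ⟨c + a - b, by omega, ?_⟩
  have hcq : (Ms I : ℚ) + 1 + b = 2 * c := by
    have h : ((Ms I + 1 + b : ℕ) : ℚ) = ((c + c : ℕ) : ℚ) := by rw [hc]
    push_cast at h
    linear_combination h
  have h1 : VG 1 (2 * (Ms (I + 1) : ℚ) + (Ms I + 1) - 3 * b) := by
    have h := VG_mul (VG_int ((Ms (I + 1) : ℤ) + c - 2 * b)) (VG_two_pow 1)
    have e : ((((Ms (I + 1) : ℤ) + c - 2 * b : ℤ)) : ℚ) * 2 ^ 1 =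
        2 * (Ms (I + 1) : ℚ) + (Ms I + 1) - 3 * b := by
      push_cast
      linear_combination -hcq
    rw [e] at h
    exact VG_mono h (by norm_num)
  have h2 : VG 1 ((Ms I + 1 : ℚ) + b + 2 * a - 4 * k) := by
    have h := VG_mul (VG_int ((c : ℤ) + a - 2 * k)) (VG_two_pow 1)
    have e : ((((c : ℤ) + a - 2 * k : ℤ)) : ℚ) * 2 ^ 1 = ((Ms I + 1 : ℚ) + b + 2 * a - 4 * k) := by
      push_cast
      linear_combination -hcq
    rw [e] at h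
    exact VG_mono h (by norm_num)
  have h3 : VG (2 * ((b - k : ℕ) : ℤ) - s2 (b - k))
      (∏ t ∈ range (b - k), ((Ms I + 1 : ℚ) + b - 2 * (k + 1 + t))) := by
    refine VG_even33 _ (c - k - 1) _ fun t _ => ?_
    have e : (((c - k - 1 : ℕ)) : ℚ) = (c : ℚ) - k - 1 := by
      rw [Nat.cast_sub (by omega), Nat.cast_sub (by omega), Nat.cast_one]
    rw [e]
    linear_combination hcq
  have h4 : VG 0 (∏ t ∈ range (b - k), ((Ms I + 1 : ℚ) + b - 1 - 2 * t)) :=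
    VG_intprod33 _ (fun t => (Ms I + 1 : ℤ) + b - 1 - 2 * t) _ fun t _ => by push_cast; ring
  have h5 : VG 0 (∏ s ∈ range k, (1 - 2 * ((Ms I + 1 : ℚ) + a) + 2 * s)) :=
    VG_intprod33 _ (fun s => 1 - 2 * ((Ms I + 1 : ℤ) + a) + 2 * s) _ fun t _ => by push_cast; ring
  have h6 : VG (2 * (k : ℤ) - s2 k)
      (∏ s ∈ range k, ((b : ℚ) - 2 * Ms (I + 1) - (Ms I + 1) + 2 * s)) := by
    have h := VG_mul (VG_int ((-1) ^ k)) (VG_even33 k (Ms (I + 1) + c - b)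
      (fun s => 2 * (((Ms (I + 1) + c - b : ℕ) : ℚ) - s)) fun t _ => rfl)
    have e : ((((-1) ^ k : ℤ)) : ℚ) * (∏ t ∈ range k, (2 * (((Ms (I + 1) + c - b : ℕ) : ℚ) - t))) =
        ∏ s ∈ range k, ((b : ℚ) - 2 * Ms (I + 1) - (Ms I + 1) + 2 * s) := by
      have e1 : ((((-1) ^ k : ℤ)) : ℚ) = ∏ _t ∈ range k, (-1 : ℚ) := by
        rw [Finset.prod_const, Finset.card_range]
        push_cast
        rfl
      rw [e1, ← Finset.prod_mul_distrib]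
      refine Finset.prod_congr rfl fun t _ => ?_
      rw [Nat.cast_sub (by omega)]
      push_cast
      linear_combination hcq
    rw [e] at h
    exact VG_mono h (by omega)
  have hN : (((c + a - b : ℕ)) : ℚ) = (c : ℚ) + a - b := by
    rw [Nat.cast_sub (by omega)]; push_cast; ring
  obtain ⟨-, v2, v3⟩ := val_desc (c + a - b) (k + 1) (by omega)
  have e7 : (∏ t ∈ range (k + 1), ((Ms I + 1 : ℚ) + 2 * a - b - 2 * t)) =
      2 ^ (k + 1) * ∏ t ∈ range (k + 1), (((c + a - b : ℕ) : ℚ) - t) := by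
    have e1 : (2 : ℚ) ^ (k + 1) = ∏ _t ∈ range (k + 1), (2 : ℚ) := by
      rw [Finset.prod_const, Finset.card_range]
    rw [e1, ← Finset.prod_mul_distrib]
    refine Finset.prod_congr rfl fun t _ => ?_
    rw [hN]
    linear_combination hcq
  have p2 : (2 : ℚ) ^ (k + 1) ≠ 0 := by positivity
  have o7 : (∏ t ∈ range (k + 1), ((Ms I + 1 : ℚ) + 2 * a - b - 2 * t)) ≠ 0 := by
    rw [e7]
    exact mul_ne_zero p2 v2
  have o7' : padicValRat 2 (∏ t ∈ range (k + 1), ((Ms I + 1 : ℚ) + 2 * a - b - 2 * t)) =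
      2 * ((k : ℤ) + 1) - s2 (k + 1) + padicValNat 2 ((c + a - b).choose (k + 1)) := by
    rw [e7, padicValRat.mul p2 v2, v3]
    have h8 : padicValRat 2 ((2 : ℚ) ^ (k + 1)) = k + 1 := by
      have h9 : padicValRat 2 (((2 : ℕ) : ℚ)) = 1 := padicValRat.self (by norm_num)
      have h12 : padicValRat 2 ((2 : ℚ) ^ (k + 1)) = ((k + 1 : ℕ) : ℤ) * padicValRat 2 (2 : ℚ) :=
        padicValRat.pow _
      simp only [Nat.cast_ofNat] at h9
      rw [h12, h9]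
      push_cast
      ring
    rw [h8]
    have h10 := val_choose (c + a - b) (k + 1) (by omega)
    have h11 : ((padicValNat 2 ((c + a - b).choose (k + 1)) : ℤ)) + s2 (c + a - b) =
      s2 (k + 1) + s2 (c + a - b - (k + 1)) := by exact_mod_cast h10
    push_cast
    linarith
  have h := VG_mul hB (VG_div (VG_mul (VG_mul (VG_mul (VG_mul (VG_mul h1 h2) h3) h4) h5) h6) o7)
  rw [o7'] at h
  refine VG_mono h ?_
  have hbk : ((b - k : ℕ) : ℤ) = (b : ℤ) - k := by omega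
  rw [hbk]
  linarith

/-- the digit inequality -/
private theorem dig33 (I r a b : ℕ) (hr : 2 ≤ r) (hrI : r ≤ I) (ha : 1 ≤ a) (hb : 1 ≤ b)
    (hab : a + b = Ms r) :
    ∃ σ υ : ℕ, σ + 1 ≤ r ∧ υ + 1 ≤ r ∧ Ms σ < a ∧ Ms υ < b ∧
      s2 (Ms (I + 1) - a) + s2 (Ms (I + 1) - b) + s2 (b - 1) + 1 ≤
        2 * I + s2 b + 2 * Ms σ + 2 * Ms υ := by
  obtain ⟨σ, α, h1, h2, h3, h4⟩ := level33 I a r ha (by omega) hrI
  obtain ⟨υ, γ, g1, g2, g3, g4⟩ := level33 I b r hb (by omega) hrI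
  refine ⟨σ, υ, h3, g3, by omega, by omega, ?_⟩
  have h5 : s2 (b - 1) ≤ υ + s2 (γ - 1) := by
    have h := s2_add_le (Ms υ) (γ - 1)
    rw [s2_Ms] at h
    have e : Ms υ + (γ - 1) = b - 1 := by omega
    rw [e] at h
    exact h
  have h6 := s2_pos b (by omega)
  omega

private theorem valN33 (I r a b k N : ℕ) (hr : 2 ≤ r) (hrI : r ≤ I) (ha : 1 ≤ a) (hb : 1 ≤ b)
    (hab : a + b = Ms r) (hka : k ≤ a) (hN : 2 * N + b = Ms I + 1 + 2 * a) (t : ℕ) (ht : t < k + 1) :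
    padicValNat 2 (N - t) + 1 = padicValNat 2 (3 * a + 1 - 2 * t) := by
  obtain ⟨w, hw, -, -⟩ := Ms_split I r hrI
  have h3 := Ms_three r (by omega)
  have h4 : (4 : ℕ) ^ Ms r = 2 ^ (2 * Ms r) := by rw [pow_mul]; norm_num
  have h5 := val_add_pow (2 * Ms r) w (3 * a + 1 - 2 * t) (by omega) (by rw [← h4]; omega)
  rw [← h4] at h5
  have h6 : 4 ^ Ms r * w + (3 * a + 1 - 2 * t) = 2 * (N - t) := by omega
  rw [h6] at h5
  rw [← h5]
  have h7 : N - t ≠ 0 := by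
    intro h0
    rw [h0, mul_zero] at h6
    omega
  rw [padicValNat.mul (by norm_num) h7, padicValNat.self (by norm_num)]
  omega

private theorem growth33 (v : ℕ) (hv : 8 ≤ v) : 15 * (v + 4) < 2 ^ v := by
  induction v, hv using Nat.le_induction with
  | base => norm_num
  | succ v hv ih => rw [pow_succ]; omega

private theorem log33 (x v : ℕ) (hx : 1029 ≤ x) (h : 2 ^ v ≤ 3 * x) : 5 * (v + 4) ≤ x := by
  by_contra hc
  have hv : v < 8 := by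
    by_contra h8
    have := growth33 v (by omega)
    omega
  omega

theorem Eo_patk (I r a b k : ℕ) (hI : 3 ≤ I) (hr : 2 ≤ r) (hrI : r ≤ I) (ha : 1 ≤ a) (hb : 1 ≤ b) (hab : a + b = Ms r)
    (hk : 1 ≤ k) (hka : k ≤ a) (hkb : k ≤ b) : VG 1 (Eo (nn I) (qq I) a b k) := by
  have hrM : Ms r ≤ Ms I := Ms_strictMono.monotone hrI
  obtain ⟨σ, υ, h1, h2, h3, h4, h5⟩ := dig33 I r a b hr hrI ha hb hab
  have l1 := s2_le (a - k)
  have l2 := s2_le (b - k)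
  have l3 := s2_le k
  have l4 := s2_le (k - 1)
  have l5 := s2_pos (k + 1) (by omega)
  rcases Nat.lt_or_ge r 3 with hr3 | hr3
  · -- r = 2
    obtain rfl : r = 2 := by omega
    rw [Ms_two] at hab
    have hσ : Ms σ ≤ 1 := by
      have := Ms_strictMono.monotone (by omega : σ ≤ 1)
      rwa [Ms_one] at this
    have hυ : Ms υ ≤ 1 := by
      have := Ms_strictMono.monotone (by omega : υ ≤ 1)
      rwa [Ms_one] at this
    have z0 : s2 0 = 0 := s2_zero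
    have z1 : s2 1 = 1 := s2_one
    have z2 : s2 2 = 1 := by rw [show (2 : ℕ) = 2 * 1 by norm_num, s2_two_mul, s2_one]
    have z3 : s2 3 = 2 := by rw [show (3 : ℕ) = 2 * 1 + 1 by norm_num, s2_two_mul_add_one, s2_one]
    have hcases : (a = 1 ∧ b = 4 ∧ k = 1) ∨ (a = 2 ∧ b = 3 ∧ k = 1) ∨ (a = 2 ∧ b = 3 ∧ k = 2) ∨
        (a = 3 ∧ b = 2 ∧ k = 1) ∨ (a = 3 ∧ b = 2 ∧ k = 2) ∨ (a = 4 ∧ b = 1 ∧ k = 1) := by omega
    have key : s2 (a - k) + s2 (b - k) + 2 * s2 k + s2 (k - 1) ≤ 4 ∧ s2 k ≤ s2 (k + 1) := by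
      clear h5 h3 h4 l1 l2 l3 l4 l5
      rcases hcases with ⟨rfl, rfl, rfl⟩ | ⟨rfl, rfl, rfl⟩ | ⟨rfl, rfl, rfl⟩ | ⟨rfl, rfl, rfl⟩ |
        ⟨rfl, rfl, rfl⟩ | ⟨rfl, rfl, rfl⟩ <;> norm_num [z0, z1, z2, z3]
    obtain ⟨key1, key2⟩ := key
    rcases Nat.even_or_odd (Ms I + 1 + b) with hp | hp
    · obtain ⟨N, hN, hv⟩ := Eo_even33 I a b k ha hb hk hka hkb (by rw [hab]; rw [Ms_two] at hrM; exact hrM) hp
      have hL : padicValNat 2 (N.choose (k + 1)) ≤ 2 := by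
        rw [Ms_two] at hrM
        refine choose_val_le N (k + 1) 2 (by omega) fun t ht => ?_
        have e := valN33 I 2 a b k N le_rfl (by omega) ha hb (by rw [Ms_two]; exact hab) hka hN t ht
        have e2 := two_pow_val_le (3 * a + 1 - 2 * t) (by omega)
        have e3 : padicValNat 2 (3 * a + 1 - 2 * t) < 4 := by
          by_contra hc
          have : 2 ^ 4 ≤ 2 ^ padicValNat 2 (3 * a + 1 - 2 * t) :=
            Nat.pow_le_pow_right (by norm_num) (by omega)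
          omega
        omega
      refine VG_mono hv ?_
      omega
    · have hv := Eo_odd33 I a b k ha hb hk hka hkb (by rw [hab]; rw [Ms_two] at hrM; exact hrM) hp
      refine VG_mono hv ?_
      omega
  · -- r ≥ 3
    have hx : 1029 ≤ Ms r := by
      have := Ms_strictMono.monotone hr3
      rwa [Ms_three'] at this
    have h5r : 5 * Ms (r - 1) ≤ Ms r := by
      have := Ms_five (r - 1)
      rwa [Nat.sub_add_cancel (by omega)] at this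
    have hσ : Ms σ ≤ Ms (r - 1) := Ms_strictMono.monotone (by omega)
    have hυ : Ms υ ≤ Ms (r - 1) := Ms_strictMono.monotone (by omega)
    rcases Nat.even_or_odd (Ms I + 1 + b) with hp | hp
    · obtain ⟨N, hN, hv⟩ := Eo_even33 I a b k ha hb hk hka hkb (by omega) hp
      have hL : padicValNat 2 (N.choose (k + 1)) ≤ Ms r / 5 - 5 := by
        refine choose_val_le N (k + 1) _ (by omega) fun t ht => ?_
        have e := valN33 I r a b k N hr hrI ha hb hab hka hN t ht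
        have e2 := two_pow_val_le (3 * a + 1 - 2 * t) (by omega)
        have e3 := log33 (Ms r) (padicValNat 2 (3 * a + 1 - 2 * t)) hx (by omega)
        omega
      refine VG_mono hv ?_
      omega
    · have hv := Eo_odd33 I a b k ha hb hk hka hkb (by omega) hp
      refine VG_mono hv ?_
      omega

end Pool.Agent.Helper44.BZ
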