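import Mathlib
import Pool.Agent.Helper44.BZ.Defs
import Pool.Agent.Helper44.BZ.VGA
import Pool.Agent.Helper44.BZ.S2A
import Pool.Agent.Helper44.BZ.MsA
import Pool.Agent.Helper44.BZ.BaiE
import Pool.Agent.Helper44.BZ.BaiO
import Pool.Agent.Helper44.BZ.Dval
import Pool.Agent.Helper44.BZ.EvE
import Pool.Agent.Helper44.BZ.EvO
import Pool.Agent.Helper44.BZ.IneA
import Pool.Agent.Helper44.BZ.IneB
import Pool.Agent.Helper44.BZ.IneC
import Pool.Agent.Helper44.BZ.Edge
import Pool.Agent.Helper44.BZ.Pat0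
import Pool.Agent.Helper44.BZ.PatK

/-! Block BZB-SMAIN. The Schur complement mod 2 is the Hankel pattern. n = nn I, q = qq I, D = Dq n q, v(D) = hh I (`D_val_q`), so D / 2^hh has
valuation 0 and D / 2^hh - 1 has VG 1 (`VG_sub_one`).
`S_ratio`: there is x with Sc n q a b = D * x and VG 1 (x - H), H = 1 if a+b in pat I, else 0:
* a = 0 or b = 0: min a b = 0, Sc = Lq n (q+a) q * D * Rq n q (q+b), and Lq n q q = Rq n q q = 1; x = Lq n (q+a) q or Rq n q (q+b):
  `L_off`, `R_off` off the pattern; on the pattern `L_on`, `R_on` and `VG_sub_one`.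
* a, b >= 1, a+b not in pat I: r = level of a+b (`level_exists`; r >= 1 since a+b >= 2 > Ms 1 and I >= 1; for r < I a+b < Ms (r+1) = Ms r + 4^(Ms r), for r = I
  a+b < 6q <= Ms I + 4^(Ms I)). q+b even: `bailey_even` (hne: 2(q+a)-(q+b)-1-2t is odd), x = sum of Ee, each VG 1 by `Ee_VG` with c = 1 and `evE_A`, `evE_B`,
  `evE_C` (case A: a, b <= Ms r; B: Ms r < a; C: a <= Ms r < b). q+b odd: `bailey_odd`, `Eo_VG0`, `Eo_VG1`, `evO0_*`, `evO1_*`.
* a, b >= 1, a+b = Ms r, then r >= 2 (Ms 0 = 0, Ms 1 = 1): `bailey_odd` (hne: q+2a-b-2t >= q-b > 0 for t <= min a b, as b < Ms r <= Ms I < q),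
  x = Eo 0 + sum_{k>=1} Eo k: `Eo_pat0`, `VG_sub_one`, `Eo_patk`.
16 (q+a+b) + 40 <= n: n = 3M+2+4^M, q + a + b < 7q, M >= 1029. -/

set_option autoImplicit false

namespace Pool.Agent.Helper44.BZ

open Finset

private theorem pow_big61 (x : ℕ) (hx : 10 ≤ x) : 120 * x + 200 ≤ 4 ^ x := by
  induction x, hx using Nat.le_induction with
  | base => norm_num
  | succ x hx ih => rw [pow_succ]; omega

private theorem Ms_I_ge61 (I : ℕ) (hI : 3 ≤ I) : 1029 ≤ Ms I := by
  rw [← Ms_three']
  exact Ms_strictMono.monotone hI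

private theorem mem_pat61 {I x : ℕ} : x ∈ pat I ↔ ∃ r, r ≤ I ∧ Ms r = x := by
  simp only [pat, mem_image, mem_range, Nat.lt_succ_iff]

private theorem Lq_self61 (n q : ℕ) : Lq n q q = 1 := by
  simp [Lq]

private theorem Rq_self61 (n q : ℕ) : Rq n q q = 1 := by
  simp [Rq, RY]

private theorem S_ratio61 (I a b : ℕ) (hI : 3 ≤ I) (ha : a < 3 * qq I) (hb : b < 3 * qq I) :
    ∃ x : ℚ, Sc (nn I) (qq I) a b = Dq (nn I) (qq I) * x ∧ VG 1 (x - (if a + b ∈ pat I then 1 else 0)) := by
  have hM := Ms_I_ge61 I hI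
  have hpow := pow_big61 (Ms I) (by omega)
  have hq : qq I = Ms I + 1 := rfl
  have hn : nn I = 2 * qq I + (Ms I + 4 ^ Ms I) := rfl
  rcases Nat.eq_zero_or_pos a with rfl | ha1
  · refine ⟨Rq (nn I) (qq I) (qq I + b), ?_, ?_⟩
    · simp [Sc, Lq_self61]
    · rw [zero_add]
      split_ifs with hp
      · obtain ⟨r, hr, rfl⟩ := mem_pat61.1 hp
        obtain ⟨h1, h2⟩ := R_on I r hI hr
        exact VG_sub_one h1 h2
      · rw [sub_zero]
        refine R_off I b hI ?_ hb hp
        rcases Nat.eq_zero_or_pos b with rfl | hb1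
        · exact absurd (mem_pat61.2 ⟨0, Nat.zero_le _, rfl⟩) hp
        · exact hb1
  rcases Nat.eq_zero_or_pos b with rfl | hb1
  · refine ⟨Lq (nn I) (qq I + a) (qq I), ?_, ?_⟩
    · simp [Sc, Rq_self61, mul_comm]
    · rw [add_zero]
      split_ifs with hp
      · obtain ⟨r, hr, rfl⟩ := mem_pat61.1 hp
        obtain ⟨h1, h2⟩ := L_on I r hI hr
        exact VG_sub_one h1 h2
      · rw [sub_zero]
        exact L_off I a hI ha1 ha hp
  have hn16 : 16 * (qq I + a + b) + 40 ≤ nn I := by omega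
  by_cases hp : a + b ∈ pat I
  · rw [if_pos hp]
    obtain ⟨r, hrI, hr⟩ := mem_pat61.1 hp
    have hr2 : 2 ≤ r := by
      rcases r with _ | _ | r
      · have : Ms 0 = 0 := rfl
        omega
      · have := Ms_one
        simp only [zero_add] at hr
        omega
      · omega
    have hMr : Ms r ≤ Ms I := Ms_strictMono.monotone hrI
    refine ⟨∑ k ∈ range (min a b + 1), Eo (nn I) (qq I) a b k, bailey_odd _ _ _ _ hn16 ?_, ?_⟩
    · intro t ht
      have : t ≤ a := ht.trans (min_le_left _ _)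
      omega
    · rw [sum_range_succ', add_sub_assoc]
      obtain ⟨h1, h2⟩ := Eo_pat0 I r a b hI hr2 hrI ha1 hb1 hr.symm
      refine VG_add (VG_sum ?_) (VG_sub_one h1 h2)
      intro k hk
      rw [mem_range] at hk
      exact Eo_patk I r a b (k + 1) hI hr2 hrI ha1 hb1 hr.symm (by omega) (by omega) (by omega)
  · rw [if_neg hp]
    obtain ⟨r, hrI, hr1, hr2⟩ := level_exists I (a + b) (by omega) hp
    have hr0 : 1 ≤ r := by
      rcases Nat.eq_zero_or_pos r with rfl | h
      · have h1 := hr2 (by omega)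
        rw [zero_add, Ms_one] at h1
        omega
      · exact h
    have hX : a + b < Ms r + 4 ^ Ms r := by
      rcases hrI.lt_or_eq with h | rfl
      · exact hr2 h
      · omega
    rcases Nat.even_or_odd (qq I + b) with hpar | hpar
    · refine ⟨∑ k ∈ range (min a b + 1), Ee (nn I) (qq I) a b k, bailey_even _ _ _ _ hn16 ?_, ?_⟩
      · intro t _ h0
        obtain ⟨c, hc⟩ := hpar
        omega
      · rw [sub_zero]
        refine VG_sum fun k hk => ?_
        rw [mem_range] at hk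
        have hka : k ≤ a := by omega
        have hkb : k ≤ b := by omega
        refine Ee_VG I a b k 1 hI ha1 hb1 ha hb hka hkb hpar fun hq' => ?_
        by_cases h1 : Ms r < a
        · exact evE_B I r a b k hr0 hrI h1 hb1 hX hka hkb hq'
        · by_cases h2 : Ms r < b
          · exact evE_C I r a b k (by omega) hr0 hrI ha1 (by omega) h2 (by omega) hX hka hkb hq'
          · exact evE_A I r a b k hr0 hrI ha1 hb1 (by omega) (by omega) hr1 hka hkb hq'
    · refine ⟨∑ k ∈ range (min a b + 1), Eo (nn I) (qq I) a b k, bailey_odd _ _ _ _ hn16 ?_, ?_⟩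
      · intro t _ h0
        obtain ⟨c, hc⟩ := hpar
        omega
      · rw [sub_zero]
        refine VG_sum fun k hk => ?_
        rw [mem_range] at hk
        have hka : k ≤ a := by omega
        have hkb : k ≤ b := by omega
        rcases Nat.eq_zero_or_pos k with rfl | hk1
        · refine Eo_VG0 I a b 1 hI ha1 hb1 ha hb hpar ?_
          by_cases h1 : Ms r < a
          · exact evO0_B I r a b hr0 hrI h1 hb1 hX
          · by_cases h2 : Ms r < b
            · exact evO0_C I r a b (by omega) hr0 hrI ha1 (by omega) h2 hX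
            · exact evO0_A I r a b hr0 hrI ha1 hb1 (by omega) (by omega) hr1
        · refine Eo_VG1 I a b k 1 hI ha1 hb1 ha hb hk1 hka hkb hpar fun hq' => ?_
          by_cases h1 : Ms r < a
          · exact evO1_B I r a b k hr0 hrI h1 hb1 hX hk1 hka hkb hq'
          · by_cases h2 : Ms r < b
            · exact evO1_C I r a b k (by omega) hr0 hrI ha1 (by omega) h2 (by omega) hX hk1 hka hkb hq'
            · exact evO1_A I r a b k hr0 hrI ha1 hb1 (by omega) (by omega) hr1 hk1 hka hkb hq'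

theorem S_main (I a b : ℕ) (hI : 3 ≤ I) (ha : a < 3 * qq I) (hb : b < 3 * qq I) :
    VG 1 (Sc (nn I) (qq I) a b / 2 ^ hh I - (if a + b ∈ pat I then 1 else 0)) := by
  obtain ⟨x, hx1, hx2⟩ := S_ratio61 I a b hI ha hb
  have hM := Ms_I_ge61 I hI
  have hv := D_val_q I (by omega)
  have hh1 : hh I = 6 * (Ms I + 1) - 3 := rfl
  have hD0 : Dq (nn I) (qq I) ≠ 0 := by
    intro h0
    rw [h0, padicValRat.zero] at hv
    omega
  have h20 : (2 : ℚ) ^ hh I ≠ 0 := by positivity
  have hv2 : padicValRat 2 (Dq (nn I) (qq I) / 2 ^ hh I) = 0 := by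
    rw [padicValRat.div hD0 h20, hv, padicValRat.pow]
    have : padicValRat 2 (2 : ℚ) = 1 := by
      have := @padicValRat.self 2 (by norm_num)
      simpa using this
    rw [this]
    simp
  have h1 : VG 1 (Dq (nn I) (qq I) / 2 ^ hh I - 1) := VG_sub_one (div_ne_zero hD0 h20) hv2
  have hH : VG 0 ((if a + b ∈ pat I then 1 else 0 : ℚ)) := by
    split_ifs
    · exact_mod_cast VG_nat 1
    · exact VG_zero 0
  have hx0 : VG 0 x := by
    have := VG_add (VG_mono hx2 (by norm_num : (0 : ℤ) ≤ 1)) hH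
    rwa [sub_add_cancel] at this
  have h2 : VG 1 ((Dq (nn I) (qq I) / 2 ^ hh I - 1) * x) := by
    have := VG_mul h1 hx0
    rwa [add_zero] at this
  have h3 := VG_add h2 hx2
  have e : Sc (nn I) (qq I) a b / 2 ^ hh I - (if a + b ∈ pat I then 1 else 0) =
      (Dq (nn I) (qq I) / 2 ^ hh I - 1) * x + (x - (if a + b ∈ pat I then 1 else 0)) := by
    rw [hx1]
    ring
  rw [e]
  exact h3

end Pool.Agent.Helper44.BZ
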