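import Mathlib
import Pool.Agent.Helper44.BZ.Defs
import Pool.Agent.Helper44.BZ.VGA
import Pool.Agent.Helper44.BZ.MsA
import Pool.Agent.Helper44.BZ.LduB
import Pool.Agent.Helper44.BZ.InvL
import Pool.Agent.Helper44.BZ.InvR
import Pool.Agent.Helper44.BZ.Lam
import Pool.Agent.Helper44.BZ.Dval
import Pool.Agent.Helper44.BZ.AeV
import Pool.Agent.Helper44.BZ.BlkA
import Pool.Agent.Helper44.BZ.Smain

/-! Block BZB-PENA (assembly on the rational side). n = nn I, q = qq I, h = hh I = 6q-3, M = Ms I >= 1029, l = M / 4: 6M+3 < 2^l, 4 l <= q.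
Block matrices: L11 = (Lq n i m)_{i,m<q}, Li11, R11, Ri11 similarly (`inv_L`, `inv_R`: L11 * Li11 = 1, Ri11 * R11 = 1; then Li11 * L11 = 1, R11 * Ri11 = 1 by
`Matrix.mul_eq_one_comm`), D11 = diagonal (Dq n m), Dinv = diagonal (Dq n m)^(-1) (`Dq_ne_zero`), L21 = (Lq n (q+a) m), R12 = (Rq n m (q+b)),
S = (Sc n q a b). By `ldu` (16 (i+j) + 40 <= n) the 4q x 4q part of Ae is fromBlocks (L11 D11 R11) (L11 D11 R12) (L21 D11 R11) (L21 D11 R12 + S) (terms with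
m > min i j vanish; for i = q+a, j = q+b split the sum over m <= q + min a b at q).
(L21 * Li11) a m = lam n q (q+a) m (terms t < m vanish), (Ri11 * R12) m b = rho n q m (q+b).
PL0 = fromBlocks (Dinv * Li11) 0 (-(c1 • (L21 * Li11))) (c1 • 1), PR0 = fromBlocks Ri11 (-(c2 • (Ri11 * R12))) 0 (c2 • 1), c1 = 2^q / 2^h, c2 = 1 / 2^q.
PL = fromBlocks PL0 0 0 (2^(-h) • 1), PR = fromBlocks PR0 0 0 1. Determinants nonzero: `block_det`.
Valuations (`Li_crude`, `Ri_crude`: VG (-l); v(Dq n m) <= 4m+2l (`D_val_lt`); `lam_val` VG 1; `rho_val` VG 0):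
 G = 2^h • (PL * PR), `block_prod`: 11: VG (h - 4(q-1) - 2l - l - l) >= 1; 12: VG (h - q - 4(q-1) - 2l - l) >= 1 (3l <= q); 21: VG (q + 1 - l) >= 0;
 22: lam rho + 1, VG 1 (lam rho); 33: 1; the rest 0.
 N = PL * A * PR: the first block is fromBlocks 1 0 0 (2^(-h) • S) by `block_fac` (c1 c2 = 2^(-h)), `S_main`. The other blocks of A have VG (8q-1)
 (`Ae_VG`, an index >= 4q), PL0 has entries with VG (3-5q), PR0 with VG (-q): PL0 * E12: VG (3q+2); 2^(-h) E21 PR0: VG (q+2); 2^(-h) E22: VG (2q+2). -/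

set_option autoImplicit false

namespace Pool.Agent.Helper44.BZ

open Matrix

/-- index type of the block decomposition -/
abbrev Ix (I : ℕ) := (Fin (qq I) ⊕ Fin (3 * qq I)) ⊕ Fin (nn I + 1 - 4 * qq I)

/-- position of a block index -/
def ix (I : ℕ) : Ix I → ℕ
  | Sum.inl (Sum.inl i) => i
  | Sum.inl (Sum.inr a) => qq I + a
  | Sum.inr c => 4 * qq I + c

/-- the matrix of U_2 (scaled) in block form -/
noncomputable def Ab (I : ℕ) : Matrix (Ix I) (Ix I) ℚ := Matrix.of fun x y => Ae (nn I) (ix I x) (ix I y)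

/-! ### arithmetic of the parameters -/

theorem penA_M (I : ℕ) (hI : 3 ≤ I) : 1029 ≤ Ms I := by
  have h := Ms_strictMono.monotone hI
  rwa [Ms_three'] at h

theorem penA_big (M : ℕ) (hM : 1029 ≤ M) : 200 * M + 200 ≤ 4 ^ M := by
  obtain ⟨k, rfl⟩ : ∃ k, M = 5 + k := ⟨M - 5, by omega⟩
  have h : k < 4 ^ k := Nat.lt_pow_self (by norm_num)
  rw [pow_add]
  norm_num
  omega

theorem penA_nn (I : ℕ) (hI : 3 ≤ I) : 16 * (8 * qq I) + 40 ≤ nn I := by
  have h1 := penA_M I hI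
  have h2 := penA_big (Ms I) h1
  have h3 := Ms_succ_eq I
  unfold nn qq
  omega

theorem penA_l (I : ℕ) (hI : 3 ≤ I) : 6 * Ms I + 3 < 2 ^ (Ms I / 4) := by
  have h1 := penA_M I hI
  obtain ⟨k, hk⟩ : ∃ k, Ms I / 4 = 8 + k := ⟨Ms I / 4 - 8, by omega⟩
  have h : k < 2 ^ k := Nat.lt_pow_self (by norm_num)
  rw [hk, pow_add]
  norm_num
  omega

/-! ### the blocks -/

/-- block L11 -/
noncomputable def bL (I : ℕ) : Matrix (Fin (qq I)) (Fin (qq I)) ℚ :=
  Matrix.of fun i m => Lq (nn I) i m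
/-- inverse of L11 -/
noncomputable def bLi (I : ℕ) : Matrix (Fin (qq I)) (Fin (qq I)) ℚ :=
  Matrix.of fun i m => Li (nn I) i m
/-- block R11 -/
noncomputable def bR (I : ℕ) : Matrix (Fin (qq I)) (Fin (qq I)) ℚ :=
  Matrix.of fun i m => Rq (nn I) i m
/-- inverse of R11 -/
noncomputable def bRi (I : ℕ) : Matrix (Fin (qq I)) (Fin (qq I)) ℚ :=
  Matrix.of fun i m => Ri (nn I) i m
/-- block D11 -/
noncomputable def bD (I : ℕ) : Matrix (Fin (qq I)) (Fin (qq I)) ℚ :=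
  Matrix.diagonal fun m => Dq (nn I) m
/-- inverse of D11 -/
noncomputable def bDi (I : ℕ) : Matrix (Fin (qq I)) (Fin (qq I)) ℚ :=
  Matrix.diagonal fun m => (Dq (nn I) m)⁻¹
/-- block L21 -/
noncomputable def bL2 (I : ℕ) : Matrix (Fin (3 * qq I)) (Fin (qq I)) ℚ :=
  Matrix.of fun a m => Lq (nn I) (qq I + a) m
/-- block R12 -/
noncomputable def bR2 (I : ℕ) : Matrix (Fin (qq I)) (Fin (3 * qq I)) ℚ :=
  Matrix.of fun m b => Rq (nn I) m (qq I + b)
/-- Schur complement -/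
noncomputable def bS (I : ℕ) : Matrix (Fin (3 * qq I)) (Fin (3 * qq I)) ℚ :=
  Matrix.of fun a b => Sc (nn I) (qq I) a b

theorem penA_Li_L (I : ℕ) (hI : 3 ≤ I) : bLi I * bL I = 1 := by
  have h0 := penA_nn I hI
  rw [mul_eq_one_comm]
  ext i j
  rw [Matrix.mul_apply, Matrix.one_apply]
  have h := inv_L (nn I) (qq I) i j i.2 j.2 (by omega)
  rw [← Fin.sum_univ_eq_sum_range (fun k => Lq (nn I) i k * Li (nn I) k j) (qq I)] at h
  simp only [bL, bLi, Matrix.of_apply, h, Fin.ext_iff]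

theorem penA_R_Ri (I : ℕ) (hI : 3 ≤ I) : bR I * bRi I = 1 := by
  have h0 := penA_nn I hI
  rw [mul_eq_one_comm]
  ext i j
  rw [Matrix.mul_apply, Matrix.one_apply]
  have h := inv_R (nn I) (qq I) i j i.2 j.2 (by omega)
  rw [← Fin.sum_univ_eq_sum_range (fun k => Ri (nn I) i k * Rq (nn I) k j) (qq I)] at h
  simp only [bR, bRi, Matrix.of_apply, h, Fin.ext_iff]

theorem penA_Dne (I : ℕ) (hI : 3 ≤ I) (m : ℕ) (hm : m < qq I) : Dq (nn I) m ≠ 0 := by
  have h0 := penA_nn I hI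
  exact Dq_ne_zero _ _ (by omega) (by omega)

theorem penA_Di_D (I : ℕ) (hI : 3 ≤ I) : bDi I * bD I = 1 := by
  unfold bDi bD
  rw [Matrix.diagonal_mul_diagonal]
  rw [← Matrix.diagonal_one]
  congr 1
  funext m
  exact inv_mul_cancel₀ (penA_Dne I hI m m.2)

/-- the leading block as a block matrix -/
theorem penA_lead (I : ℕ) (hI : 3 ≤ I) :
    (Matrix.of fun x y : Fin (qq I) ⊕ Fin (3 * qq I) => Ae (nn I) (ix I (Sum.inl x)) (ix I (Sum.inl y))) =
      fromBlocks (bL I * bD I * bR I) (bL I * bD I * bR2 I) (bL2 I * bD I * bR I)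
        (bL2 I * bD I * bR2 I + bS I) := by
  have h0 := penA_nn I hI
  have key : ∀ i j : ℕ, i < 4 * qq I → j < 4 * qq I → min i j < qq I →
      Ae (nn I) i j = ∑ m : Fin (qq I), Lq (nn I) i m * Dq (nn I) m * Rq (nn I) m j := by
    intro i j hi hj hij
    rw [ldu (nn I) i j (by omega),
      Fin.sum_univ_eq_sum_range (fun m => Lq (nn I) i m * Dq (nn I) m * Rq (nn I) m j) (qq I)]
    refine Finset.sum_subset ?_ ?_
    · intro m hm
      rw [Finset.mem_range] at hm ⊢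
      omega
    · intro m hm hm2
      rw [Finset.mem_range] at hm hm2
      rcases Nat.lt_or_ge i m with h1 | h1
      · rw [lduB_Lq_zero _ _ _ h1]; ring
      · rw [lduB_Rq_zero' (nn I) m j (by omega)]; ring
  ext x y
  rcases x with i | a
  · rcases y with j | b
    · rw [fromBlocks_apply₁₁, Matrix.mul_apply, Matrix.of_apply]
      rw [show ix I (Sum.inl (Sum.inl i)) = (i : ℕ) from rfl, show ix I (Sum.inl (Sum.inl j)) = (j : ℕ) from rfl]
      rw [key i j (by omega) (by omega) (by omega)]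
      refine Finset.sum_congr rfl fun m _ => ?_
      simp only [bD, bL, bR, Matrix.mul_diagonal, Matrix.of_apply]
    · rw [fromBlocks_apply₁₂, Matrix.mul_apply, Matrix.of_apply]
      rw [show ix I (Sum.inl (Sum.inl i)) = (i : ℕ) from rfl, show ix I (Sum.inl (Sum.inr b)) = qq I + (b : ℕ) from rfl]
      rw [key i (qq I + b) (by omega) (by omega) (by omega)]
      refine Finset.sum_congr rfl fun m _ => ?_
      simp only [bD, bL, bR2, Matrix.mul_diagonal, Matrix.of_apply]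
  · rcases y with j | b
    · rw [fromBlocks_apply₂₁, Matrix.mul_apply, Matrix.of_apply]
      rw [show ix I (Sum.inl (Sum.inr a)) = qq I + (a : ℕ) from rfl, show ix I (Sum.inl (Sum.inl j)) = (j : ℕ) from rfl]
      rw [key (qq I + a) j (by omega) (by omega) (by omega)]
      refine Finset.sum_congr rfl fun m _ => ?_
      simp only [bD, bL2, bR, Matrix.mul_diagonal, Matrix.of_apply]
    · rw [fromBlocks_apply₂₂, Matrix.add_apply, Matrix.mul_apply, Matrix.of_apply]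
      rw [show ix I (Sum.inl (Sum.inr a)) = qq I + (a : ℕ) from rfl, show ix I (Sum.inl (Sum.inr b)) = qq I + (b : ℕ) from rfl]
      rw [ldu (nn I) (qq I + a) (qq I + b) (by omega)]
      rw [show min (qq I + (a : ℕ)) (qq I + b) + 1 = qq I + (min (a : ℕ) b + 1) by omega]
      rw [Finset.sum_range_add, ← Fin.sum_univ_eq_sum_range (fun m => Lq (nn I) (qq I + a) m * Dq (nn I) m *
        Rq (nn I) m (qq I + b)) (qq I)]
      congr 1
      refine Finset.sum_congr rfl fun m _ => ?_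
      simp only [bD, bL2, bR2, Matrix.mul_diagonal, Matrix.of_apply]

theorem penA_lam (I : ℕ) (a : Fin (3 * qq I)) (m : Fin (qq I)) :
    (bL2 I * bLi I) a m = lam (nn I) (qq I) (qq I + a) m := by
  rw [Matrix.mul_apply]
  simp only [bL2, bLi, Matrix.of_apply]
  rw [Fin.sum_univ_eq_sum_range (fun t => Lq (nn I) (qq I + a) t * Li (nn I) t m) (qq I)]
  unfold lam
  symm
  refine Finset.sum_subset ?_ ?_
  · intro t ht
    rw [Finset.mem_Ico] at ht
    exact Finset.mem_range.2 ht.2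
  · intro t ht ht2
    rw [Finset.mem_range] at ht
    rw [Finset.mem_Ico] at ht2
    have h1 : t < (m : ℕ) := by omega
    rw [show Li (nn I) t m = 0 by unfold Li; rw [if_pos h1], mul_zero]

theorem penA_rho (I : ℕ) (m : Fin (qq I)) (b : Fin (3 * qq I)) :
    (bRi I * bR2 I) m b = rho (nn I) (qq I) m (qq I + b) := by
  rw [Matrix.mul_apply]
  simp only [bR2, bRi, Matrix.of_apply]
  rw [Fin.sum_univ_eq_sum_range (fun t => Ri (nn I) m t * Rq (nn I) t (qq I + b)) (qq I)]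
  unfold rho
  symm
  refine Finset.sum_subset ?_ ?_
  · intro t ht
    rw [Finset.mem_Ico] at ht
    exact Finset.mem_range.2 ht.2
  · intro t ht ht2
    rw [Finset.mem_range] at ht
    rw [Finset.mem_Ico] at ht2
    have h1 : t < (m : ℕ) := by omega
    rw [show Ri (nn I) m t = 0 by unfold Ri; rw [if_pos h1], zero_mul]

/-! ### valuations -/

theorem VG_matmul {α β γ : Type*} [Fintype β] {c d : ℤ} {A : Matrix α β ℚ} {B : Matrix β γ ℚ}
    (hA : ∀ i j, VG c (A i j)) (hB : ∀ i j, VG d (B i j)) (i : α) (k : γ) : VG (c + d) ((A * B) i k) := by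
  rw [Matrix.mul_apply]
  exact VG_sum fun j _ => VG_mul (hA i j) (hB j k)

theorem VG_half_pow (k : ℕ) : VG (-(k : ℤ)) (((2 : ℚ) ^ k)⁻¹) := by
  have h := VG_two_zpow (-(k : ℤ))
  rwa [_root_.zpow_neg, zpow_natCast] at h

/-- the crude bound for Dinv * Li -/
theorem penA_DiLi (I : ℕ) (hI : 3 ≤ I) (i j : Fin (qq I)) :
    VG (4 - 4 * (qq I : ℤ) - 3 * (Ms I / 4 : ℕ)) ((bDi I * bLi I) i j) := by
  rw [bDi, Matrix.diagonal_mul, bLi, Matrix.of_apply]
  have h1 := D_val_lt I (Ms I / 4) i (by omega) (penA_l I hI) i.2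
  have h2 := Li_crude I (Ms I / 4) i j hI (penA_l I hI) i.2 j.2
  have h3 := VG_div (VG_int 1) (penA_Dne I hI i i.2)
  rw [Int.cast_one, one_div] at h3
  refine VG_mono (VG_mul h3 h2) ?_
  have h4 := i.2
  omega

theorem penA_Ri (I : ℕ) (hI : 3 ≤ I) (i j : Fin (qq I)) :
    VG (-((Ms I / 4 : ℕ) : ℤ)) (bRi I i j) :=
  Ri_crude I (Ms I / 4) i j hI (penA_l I hI) j.2 i.2

/-- the first factor -/
noncomputable def PL0 (I : ℕ) : Matrix (Fin (qq I) ⊕ Fin (3 * qq I)) (Fin (qq I) ⊕ Fin (3 * qq I)) ℚ :=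
  fromBlocks (bDi I * bLi I) 0 (-(((2 : ℚ) ^ qq I * ((2 : ℚ) ^ hh I)⁻¹) • (bL2 I * bLi I)))
    (((2 : ℚ) ^ qq I * ((2 : ℚ) ^ hh I)⁻¹) • 1)

/-- the second factor -/
noncomputable def PR0 (I : ℕ) : Matrix (Fin (qq I) ⊕ Fin (3 * qq I)) (Fin (qq I) ⊕ Fin (3 * qq I)) ℚ :=
  fromBlocks (bRi I) (-((((2 : ℚ) ^ qq I)⁻¹) • (bRi I * bR2 I))) 0 ((((2 : ℚ) ^ qq I)⁻¹) • 1)

theorem penA_c12 (I : ℕ) : ((2 : ℚ) ^ qq I * ((2 : ℚ) ^ hh I)⁻¹) * ((2 : ℚ) ^ qq I)⁻¹ = ((2 : ℚ) ^ hh I)⁻¹ := by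
  have h : (2 : ℚ) ^ qq I ≠ 0 := pow_ne_zero _ (by norm_num)
  field_simp

theorem penA_hh (I : ℕ) : (hh I : ℤ) = 6 * (qq I : ℤ) - 3 := by
  unfold hh qq
  omega

theorem VG_one_apply {α : Type*} [DecidableEq α] (i j : α) : VG 0 ((1 : Matrix α α ℚ) i j) := by
  rw [Matrix.one_apply]
  split_ifs
  · simpa using VG_int 1
  · exact VG_zero 0

theorem penA_c1 (I : ℕ) : VG ((qq I : ℤ) - hh I) ((2 : ℚ) ^ qq I * ((2 : ℚ) ^ hh I)⁻¹) := by
  have h := VG_mul (VG_two_pow (qq I)) (VG_half_pow (hh I))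
  simpa [sub_eq_add_neg] using h

theorem penA_PL0 (I : ℕ) (hI : 3 ≤ I) (x y : Fin (qq I) ⊕ Fin (3 * qq I)) :
    VG (3 - 5 * (qq I : ℤ)) (PL0 I x y) := by
  have hh0 := penA_hh I
  have hl : 4 * ((Ms I / 4 : ℕ) : ℤ) ≤ qq I := by unfold qq; omega
  rcases x with i | a
  · rcases y with j | b
    · rw [PL0, fromBlocks_apply₁₁]
      exact VG_mono (penA_DiLi I hI i j) (by omega)
    · rw [PL0, fromBlocks_apply₁₂]
      exact VG_zero _
  · rcases y with j | b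
    · rw [PL0, fromBlocks_apply₂₁, Matrix.neg_apply, Matrix.smul_apply, smul_eq_mul, penA_lam]
      refine VG_neg (VG_mono (VG_mul (penA_c1 I) (lam_val I a j hI a.2 j.2)) (by omega))
    · rw [PL0, fromBlocks_apply₂₂, Matrix.smul_apply, smul_eq_mul]
      refine VG_mono (VG_mul (penA_c1 I) (VG_one_apply a b)) (by omega)

theorem penA_PR0 (I : ℕ) (hI : 3 ≤ I) (x y : Fin (qq I) ⊕ Fin (3 * qq I)) :
    VG (-(qq I : ℤ)) (PR0 I x y) := by
  have hh0 := penA_hh I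
  have hl : 4 * ((Ms I / 4 : ℕ) : ℤ) ≤ qq I := by unfold qq; omega
  rcases x with i | a
  · rcases y with j | b
    · rw [PR0, fromBlocks_apply₁₁]
      exact VG_mono (penA_Ri I hI i j) (by omega)
    · rw [PR0, fromBlocks_apply₁₂, Matrix.neg_apply, Matrix.smul_apply, smul_eq_mul, penA_rho]
      refine VG_neg (VG_mono (VG_mul (VG_half_pow _) (rho_val I b i hI b.2 i.2)) (by omega))
  · rcases y with j | b
    · rw [PR0, fromBlocks_apply₂₁]
      exact VG_zero _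
    · rw [PR0, fromBlocks_apply₂₂, Matrix.smul_apply, smul_eq_mul]
      refine VG_mono (VG_mul (VG_half_pow _) (VG_one_apply a b)) (by omega)

theorem pen_rat (I : ℕ) (hI : 3 ≤ I) :
    ∃ PL PR : Matrix (Ix I) (Ix I) ℚ, PL.det ≠ 0 ∧ PR.det ≠ 0 ∧
      (∀ x y, VG 0 (((2 : ℚ) ^ hh I • (PL * PR)) x y)) ∧
      (∀ i j, VG 1 (((2 : ℚ) ^ hh I • (PL * PR)) (Sum.inl (Sum.inl i)) (Sum.inl (Sum.inl j)))) ∧
      (∀ i b, VG 1 (((2 : ℚ) ^ hh I • (PL * PR)) (Sum.inl (Sum.inl i)) (Sum.inl (Sum.inr b)))) ∧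
      (∀ a b, VG 1 (((2 : ℚ) ^ hh I • (PL * PR)) (Sum.inl (Sum.inr a)) (Sum.inl (Sum.inr b)) -
        (1 : Matrix (Fin (3 * qq I)) (Fin (3 * qq I)) ℚ) a b)) ∧
      (∀ x c, ((2 : ℚ) ^ hh I • (PL * PR)) (Sum.inl x) (Sum.inr c) = 0) ∧
      (∀ x c, ((2 : ℚ) ^ hh I • (PL * PR)) (Sum.inr c) (Sum.inl x) = 0) ∧
      (∀ c d, ((2 : ℚ) ^ hh I • (PL * PR)) (Sum.inr c) (Sum.inr d) =
        (1 : Matrix (Fin (nn I + 1 - 4 * qq I)) (Fin (nn I + 1 - 4 * qq I)) ℚ) c d) ∧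
      (∀ i j, (PL * Ab I * PR) (Sum.inl (Sum.inl i)) (Sum.inl (Sum.inl j)) = (1 : Matrix (Fin (qq I)) (Fin (qq I)) ℚ) i j) ∧
      (∀ i b, (PL * Ab I * PR) (Sum.inl (Sum.inl i)) (Sum.inl (Sum.inr b)) = 0) ∧
      (∀ a j, (PL * Ab I * PR) (Sum.inl (Sum.inr a)) (Sum.inl (Sum.inl j)) = 0) ∧
      (∀ a b : Fin (3 * qq I), VG 1 ((PL * Ab I * PR) (Sum.inl (Sum.inr a)) (Sum.inl (Sum.inr b)) -
        (if (a : ℕ) + (b : ℕ) ∈ pat I then 1 else 0))) ∧
      (∀ x c, VG 1 ((PL * Ab I * PR) (Sum.inl x) (Sum.inr c))) ∧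
      (∀ x c, VG 1 ((PL * Ab I * PR) (Sum.inr c) (Sum.inl x))) ∧
      (∀ c d, VG 1 ((PL * Ab I * PR) (Sum.inr c) (Sum.inr d))) := by
  have hh0 := penA_hh I
  have hl : 4 * ((Ms I / 4 : ℕ) : ℤ) ≤ qq I := by unfold qq; omega
  have h2h : (2 : ℚ) ^ hh I ≠ 0 := pow_ne_zero _ (by norm_num)
  have h2q : (2 : ℚ) ^ qq I ≠ 0 := pow_ne_zero _ (by norm_num)
  have hdet := block_det (bL I) (bLi I) (bD I) (bDi I) (bR I) (bRi I) (bL2 I) (bR2 I) (penA_Li_L I hI)
    (penA_R_Ri I hI) (penA_Di_D I hI) ((2 : ℚ) ^ qq I * ((2 : ℚ) ^ hh I)⁻¹) (((2 : ℚ) ^ qq I)⁻¹)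
    (mul_ne_zero h2q (inv_ne_zero h2h)) (inv_ne_zero h2q)
  have hprod := block_prod (bLi I) (bDi I) (bRi I) (bL2 I) (bR2 I) ((2 : ℚ) ^ qq I * ((2 : ℚ) ^ hh I)⁻¹)
    (((2 : ℚ) ^ qq I)⁻¹)
  have hfac := block_fac (bL I) (bLi I) (bD I) (bDi I) (bR I) (bRi I) (bL2 I) (bR2 I) (bS I) (penA_Li_L I hI)
    (penA_R_Ri I hI) (penA_Di_D I hI) ((2 : ℚ) ^ qq I * ((2 : ℚ) ^ hh I)⁻¹) (((2 : ℚ) ^ qq I)⁻¹)
  rw [penA_c12] at hfac hprod
  change PL0 I * _ * PR0 I = _ at hfac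
  change PL0 I * PR0 I = _ at hprod
  change (PL0 I).det ≠ 0 ∧ (PR0 I).det ≠ 0 at hdet
  -- the product of the outer matrices
  have hG : (2 : ℚ) ^ hh I • (fromBlocks (PL0 I) 0 0 ((((2 : ℚ) ^ hh I)⁻¹) •
      (1 : Matrix (Fin (nn I + 1 - 4 * qq I)) (Fin (nn I + 1 - 4 * qq I)) ℚ)) *
      fromBlocks (PR0 I) 0 0 (1 : Matrix (Fin (nn I + 1 - 4 * qq I)) (Fin (nn I + 1 - 4 * qq I)) ℚ)) =
      fromBlocks ((2 : ℚ) ^ hh I • (PL0 I * PR0 I)) 0 0 1 := by
    rw [Matrix.fromBlocks_multiply, Matrix.fromBlocks_smul]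
    congr 1
    · simp
    · simp
    · simp
    · simp [smul_smul]
  have hAb : Ab I = fromBlocks
      (fromBlocks (bL I * bD I * bR I) (bL I * bD I * bR2 I) (bL2 I * bD I * bR I) (bL2 I * bD I * bR2 I + bS I))
      (Matrix.of fun x c => Ae (nn I) (ix I (Sum.inl x)) (ix I (Sum.inr c)))
      (Matrix.of fun c x => Ae (nn I) (ix I (Sum.inr c)) (ix I (Sum.inl x)))
      (Matrix.of fun c d => Ae (nn I) (ix I (Sum.inr c)) (ix I (Sum.inr d))) := by
    rw [← penA_lead I hI]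
    ext x y
    rcases x with x | x <;> rcases y with y | y <;> rfl
  have hN : fromBlocks (PL0 I) 0 0 ((((2 : ℚ) ^ hh I)⁻¹) •
      (1 : Matrix (Fin (nn I + 1 - 4 * qq I)) (Fin (nn I + 1 - 4 * qq I)) ℚ)) * Ab I *
      fromBlocks (PR0 I) 0 0 (1 : Matrix (Fin (nn I + 1 - 4 * qq I)) (Fin (nn I + 1 - 4 * qq I)) ℚ) =
      fromBlocks (fromBlocks 1 0 0 ((((2 : ℚ) ^ hh I)⁻¹) • bS I))
        (PL0 I * (Matrix.of fun x c => Ae (nn I) (ix I (Sum.inl x)) (ix I (Sum.inr c))))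
        ((((2 : ℚ) ^ hh I)⁻¹) • ((Matrix.of fun c x => Ae (nn I) (ix I (Sum.inr c)) (ix I (Sum.inl x))) * PR0 I))
        ((((2 : ℚ) ^ hh I)⁻¹) • (Matrix.of fun c d => Ae (nn I) (ix I (Sum.inr c)) (ix I (Sum.inr d)))) := by
    rw [hAb, Matrix.fromBlocks_multiply, Matrix.fromBlocks_multiply, ← hfac]
    congr 1
    · simp
    · simp
    · rw [Matrix.zero_mul, zero_add, Matrix.zero_mul, Matrix.mul_zero, add_zero, Matrix.smul_mul,
        Matrix.one_mul, Matrix.smul_mul]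
    · simp
  have hix : ∀ x : Ix I, 0 ≤ ix I x := fun x => Nat.zero_le _
  refine ⟨fromBlocks (PL0 I) 0 0 ((((2 : ℚ) ^ hh I)⁻¹) • 1), fromBlocks (PR0 I) 0 0 1, ?_, ?_, ?_⟩
  · rw [Matrix.det_fromBlocks_zero₁₂, Matrix.det_smul, Matrix.det_one, mul_one]
    exact mul_ne_zero hdet.1 (pow_ne_zero _ (inv_ne_zero h2h))
  · rw [Matrix.det_fromBlocks_zero₁₂, Matrix.det_one, mul_one]
    exact hdet.2
  rw [hG, hN, hprod]
  have g11 : ∀ i j, VG 1 (((2 : ℚ) ^ hh I) * (bDi I * bLi I * bRi I) i j) := by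
    intro i j
    have h1 := VG_matmul (penA_DiLi I hI) (penA_Ri I hI) i j
    exact VG_mono (VG_mul (VG_two_pow (hh I)) h1) (by omega)
  have g12 : ∀ i j, VG 1 (((2 : ℚ) ^ hh I) * -((((2 : ℚ) ^ qq I)⁻¹) * (bDi I * bLi I * (bRi I * bR2 I)) i j)) := by
    intro i j
    have hr : ∀ (i : Fin (qq I)) (j : Fin (3 * qq I)), VG 0 ((bRi I * bR2 I) i j) := by
      intro i j
      rw [penA_rho]
      exact rho_val I j i hI j.2 i.2
    have h1 := VG_matmul (penA_DiLi I hI) hr i j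
    exact VG_mono (VG_mul (VG_two_pow (hh I)) (VG_neg (VG_mul (VG_half_pow (qq I)) h1))) (by omega)
  have g21 : ∀ i j, VG 0 (((2 : ℚ) ^ hh I) * -(((2 : ℚ) ^ qq I * ((2 : ℚ) ^ hh I)⁻¹) *
      (bL2 I * bLi I * bRi I) i j)) := by
    intro i j
    have hr : ∀ (i : Fin (3 * qq I)) (j : Fin (qq I)), VG 1 ((bL2 I * bLi I) i j) := by
      intro i j
      rw [penA_lam]
      exact lam_val I i j hI i.2 j.2
    have h1 := VG_matmul hr (penA_Ri I hI) i j
    exact VG_mono (VG_mul (VG_two_pow (hh I)) (VG_neg (VG_mul (penA_c1 I) h1))) (by omega)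
  have g22 : ∀ i j, VG 1 ((bL2 I * bLi I * (bRi I * bR2 I)) i j) := by
    intro i j
    have hr : ∀ (i : Fin (qq I)) (j : Fin (3 * qq I)), VG 0 ((bRi I * bR2 I) i j) := by
      intro i j
      rw [penA_rho]
      exact rho_val I j i hI j.2 i.2
    have hr2 : ∀ (i : Fin (3 * qq I)) (j : Fin (qq I)), VG 1 ((bL2 I * bLi I) i j) := by
      intro i j
      rw [penA_lam]
      exact lam_val I i j hI i.2 j.2
    exact VG_matmul hr2 hr i j
  refine ⟨?_, ?_, ?_, ?_, ?_, ?_, ?_, ?_, ?_, ?_, ?_, ?_, ?_, ?_⟩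
  · intro x y
    rcases x with (i | a) | c
    · rcases y with (j | b) | d
      · exact VG_mono (g11 i j) (by norm_num)
      · exact VG_mono (g12 i b) (by norm_num)
      · exact VG_zero 0
    · rcases y with (j | b) | d
      · exact g21 a j
      · rw [fromBlocks_apply₁₁, Matrix.smul_apply, fromBlocks_apply₂₂, Matrix.smul_apply, Matrix.add_apply,
          smul_eq_mul, smul_eq_mul, ← mul_assoc, mul_inv_cancel₀ h2h, one_mul]
        exact VG_add (VG_mono (g22 a b) (by norm_num)) (VG_one_apply a b)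
      · exact VG_zero 0
    · rcases y with y | d
      · exact VG_zero 0
      · exact VG_one_apply c d
  · intro i j
    exact g11 i j
  · intro i b
    exact g12 i b
  · intro a b
    rw [fromBlocks_apply₁₁, Matrix.smul_apply, fromBlocks_apply₂₂, Matrix.smul_apply, Matrix.add_apply,
      smul_eq_mul, smul_eq_mul, ← mul_assoc, mul_inv_cancel₀ h2h, one_mul, add_sub_cancel_right]
    exact g22 a b
  · intro x c
    rfl
  · intro x c
    rfl
  · intro c d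
    rfl
  · intro i j
    rfl
  · intro i b
    rfl
  · intro a j
    rfl
  · intro a b
    rw [fromBlocks_apply₁₁, fromBlocks_apply₂₂, Matrix.smul_apply, smul_eq_mul, mul_comm, ← div_eq_mul_inv]
    exact S_main I a b hI a.2 b.2
  · intro x c
    rw [fromBlocks_apply₁₂]
    have h1 : ∀ (x : Fin (qq I) ⊕ Fin (3 * qq I)) (c : Fin (nn I + 1 - 4 * qq I)),
        VG (8 * (qq I : ℤ) - 1) ((Matrix.of fun x c => Ae (nn I) (ix I (Sum.inl x)) (ix I (Sum.inr c))) x c) := by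
      intro x c
      rw [Matrix.of_apply]
      refine VG_mono (Ae_VG _ _ _) ?_
      have h3 : ix I (Sum.inr c) = 4 * qq I + (c : ℕ) := rfl
      omega
    exact VG_mono (VG_matmul (penA_PL0 I hI) h1 x c) (by omega)
  · intro x c
    rw [fromBlocks_apply₂₁, Matrix.smul_apply, smul_eq_mul]
    have h1 : ∀ (c : Fin (nn I + 1 - 4 * qq I)) (x : Fin (qq I) ⊕ Fin (3 * qq I)),
        VG (8 * (qq I : ℤ) - 1) ((Matrix.of fun c x => Ae (nn I) (ix I (Sum.inr c)) (ix I (Sum.inl x))) c x) := by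
      intro c x
      rw [Matrix.of_apply]
      refine VG_mono (Ae_VG _ _ _) ?_
      have h3 : ix I (Sum.inr c) = 4 * qq I + (c : ℕ) := rfl
      omega
    exact VG_mono (VG_mul (VG_half_pow (hh I)) (VG_matmul h1 (penA_PR0 I hI) c x)) (by omega)
  · intro c d
    rw [fromBlocks_apply₂₂, Matrix.smul_apply, smul_eq_mul, Matrix.of_apply]
    refine VG_mono (VG_mul (VG_half_pow (hh I)) (Ae_VG _ _ _)) ?_
    have h3 : ix I (Sum.inr c) = 4 * qq I + (c : ℕ) := rfl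
    omega

end Pool.Agent.Helper44.BZ
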