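import Mathlib
import Pool.Agent.Helper44.BZ.Defs
import Pool.Agent.Helper44.BZ.PenA

/-! Block BZB-CHP. The block matrix `Ab I` has the same characteristic polynomial as `U (nn I)`.
`ix I` is injective with values 0, ..., n (n = nn I, 4 q <= n+1: q + 3q + (n+1-4q) = n+1), so it gives an equivalence e : Ix I ≃ Fin (n+1) and
Ab I = reindex of the matrix A' i j = 64^(j-i) * Uent n i j = Delta^(-1) * U * Delta, Delta = diagonal (64^i). Use `Matrix.charpoly_reindex` (or
`Matrix.charpoly_submatrix_equiv`...) and invariance under conjugation (`Matrix.charpoly_units_conj'`, or `Matrix.charpoly_mul_comm`). -/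

set_option autoImplicit false

namespace Pool.Agent.Helper44.BZ

private theorem four_qq_le6 (I : ℕ) : 4 * qq I ≤ nn I + 1 := by
  have h : Ms I < 4 ^ Ms I := Nat.lt_pow_self (by norm_num)
  have h2 : Ms (I + 1) = Ms I + 4 ^ Ms I := rfl
  unfold nn qq
  omega

private theorem ix_lt6 (I : ℕ) (x : Ix I) : ix I x < nn I + 1 := by
  have h := four_qq_le6 I
  rcases x with (i | a) | c
  · have := i.2
    simp only [ix]
    omega
  · have := a.2
    simp only [ix]
    omega
  · have := c.2
    simp only [ix]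
    omega

private theorem ix_inj6 (I : ℕ) : Function.Injective (ix I) := by
  intro x y hxy
  rcases x with (i | a) | c <;> rcases y with (i' | a') | c' <;> simp only [ix] at hxy
  · have : i = i' := Fin.ext hxy
    rw [this]
  · have := i.2
    have := a'.2
    omega
  · have := i.2
    have := c'.2
    omega
  · have := i'.2
    have := a.2
    omega
  · have : a = a' := Fin.ext (by omega)
    rw [this]
  · have := a.2
    have := c'.2
    omega
  · have := i'.2
    have := c.2
    omega
  · have := a'.2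
    have := c.2
    omega
  · have : c = c' := Fin.ext (by omega)
    rw [this]

private noncomputable def eqv6 (I : ℕ) : Ix I ≃ Fin (nn I + 1) :=
  Equiv.ofBijective (fun x => (⟨ix I x, ix_lt6 I x⟩ : Fin (nn I + 1))) <| by
    rw [Fintype.bijective_iff_injective_and_card]
    refine ⟨fun x y h => ix_inj6 I (by simpa using h), ?_⟩
    have h := four_qq_le6 I
    simp only [Ix, Fintype.card_sum, Fintype.card_fin]
    omega

private theorem eqv6_apply (I : ℕ) (x : Ix I) : ((eqv6 I x : Fin (nn I + 1)) : ℕ) = ix I x := rfl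

private noncomputable def A6 (n : ℕ) : Matrix (Fin (n + 1)) (Fin (n + 1)) ℚ :=
  Matrix.of fun i j => Ae n i j

private theorem A6_eq (n : ℕ) :
    A6 n = Matrix.diagonal (fun i : Fin (n + 1) => ((64 : ℚ) ^ (i : ℕ))⁻¹) *
      (Pool.Agent.Helper59.BZ.U n * Matrix.diagonal (fun i : Fin (n + 1) => (64 : ℚ) ^ (i : ℕ))) := by
  ext i j
  rw [Matrix.diagonal_mul, Matrix.mul_diagonal]
  simp only [A6, Matrix.of_apply, Ae, Pool.Agent.Helper59.BZ.U]
  rw [zpow_sub₀ (by norm_num : (64 : ℚ) ≠ 0), zpow_natCast, zpow_natCast]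
  have h : ((64 : ℚ) ^ (i : ℕ)) ≠ 0 := by positivity
  field_simp

private theorem A6_charpoly (n : ℕ) : (A6 n).charpoly = (Pool.Agent.Helper59.BZ.U n).charpoly := by
  rw [A6_eq, Matrix.charpoly_mul_comm, Matrix.mul_assoc, Matrix.diagonal_mul_diagonal]
  have h : (fun i : Fin (n + 1) => (64 : ℚ) ^ (i : ℕ) * ((64 : ℚ) ^ (i : ℕ))⁻¹) = fun _ => 1 := by
    funext i
    exact mul_inv_cancel₀ (by positivity)
  rw [h, Matrix.diagonal_one, Matrix.mul_one]

theorem Ab_charpoly (I : ℕ) (hI : 3 ≤ I) : (Ab I).charpoly = (Pool.Agent.Helper59.BZ.U (nn I)).charpoly := by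
  rw [← A6_charpoly, ← Matrix.charpoly_reindex (eqv6 I).symm (A6 (nn I))]
  congr 1

end Pool.Agent.Helper44.BZ
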