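import Pool.Agent.Helper44.BZ.PartB

/-! MP_717513_nt, own theorem (helper44; from helper59's Fin.lean). Level one, p = 2, with a FIXED embedding j of
the algebraic numbers into the algebraic closure of ℚ_2. -/

set_option autoImplicit false

namespace Pool.Agent.Helper44.BZ

open UpperHalfPlane Complex Filter Topology Polynomial Pool.Agent.Helper59.BZ
open scoped MatrixGroups ModularForm

/-- the field of algebraic numbers -/
abbrev QQ : Type := algebraicClosure ℚ ℂ

/-- the field K_{f,2} of a sequence of coefficients -/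
noncomputable abbrev Kf (j : QQ →+* AlgebraicClosure ℚ_[2]) (a : ℕ → QQ) :
    IntermediateField ℚ_[2] (AlgebraicClosure ℚ_[2]) :=
  IntermediateField.adjoin ℚ_[2] {z | ∃ ℓ : ℕ, ℓ.Prime ∧ ℓ ≠ 2 ∧ z = j (a ℓ)}

theorem exists_pre (j : QQ →+* AlgebraicClosure ℚ_[2]) (lam : AlgebraicClosure ℚ_[2])
    (h : IsIntegral ℚ lam) : ∃ x : QQ, j x = lam := by
  have hac : IsAlgClosed QQ := (algebraicClosure.isAlgClosure ℚ ℂ).isAlgClosed
  have h1 := Polynomial.Splits.image_rootSet (f := minpoly ℚ lam)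
    (IsAlgClosed.splits ((minpoly ℚ lam).map (algebraMap ℚ QQ))) (RingHom.toRatAlgHom j)
  have h2 : lam ∈ (minpoly ℚ lam).rootSet (AlgebraicClosure ℚ_[2]) := by
    rw [Polynomial.mem_rootSet]
    exact ⟨minpoly.ne_zero h, minpoly.aeval ℚ lam⟩
  rw [← h1] at h2
  obtain ⟨x, -, hx⟩ := h2
  exact ⟨x, hx⟩

theorem form_fixed (j : QQ →+* AlgebraicClosure ℚ_[2]) (n : ℕ) (hn : 1 ≤ n)
    (lam : AlgebraicClosure ℚ_[2])
    (h : Polynomial.aeval lam (U n).charpoly = 0) (hdeg : 2 < (minpoly ℚ_[2] lam).natDegree) :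
    ∃ (f : M (4 * n)) (a : ℕ → QQ), (∀ m, cf f m = (a m : ℂ)) ∧ cf f 0 = 0 ∧ cf f 1 = 1 ∧
      (∀ l : ℕ, l.Prime → ∀ m : ℕ,
        cf f (l * m) + (if l ∣ m then (l : ℂ) ^ (4 * n - 1) * cf f (m / l) else 0) =
          cf f l * cf f m) ∧
      FiniteDimensional ℚ_[2] (Kf j a) ∧
      (minpoly ℚ_[2] lam).natDegree ≤ 2 * Module.finrank ℚ_[2] (Kf j a) := by
  have hint := lam_int h
  obtain ⟨lq, hlq⟩ := exists_pre j lam hint
  have hjinj : Function.Injective j := j.injective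
  have hlc : IsIntegral ℚ (lq : ℂ) := mem_algebraicClosure_iff'.1 lq.2
  have hmin : minpoly ℚ (lq : ℂ) = minpoly ℚ lam := by
    have e1 : minpoly ℚ (lq : ℂ) = minpoly ℚ lq := minpoly.algebraMap_eq (algebraMap QQ ℂ).injective lq
    have e2 : minpoly ℚ lam = minpoly ℚ lq := by
      rw [← hlq]
      exact minpoly.algHom_eq (RingHom.toRatAlgHom j) hjinj lq
    rw [e1, e2]
  set lc : ℂ := (lq : ℂ) with hlcdef
  have hdeg2 : 2 < (minpoly ℚ lc).natDegree := by
    rw [hmin]
    exact lt_of_lt_of_le hdeg (deg_le_rat hint)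
  have hlcroot : Polynomial.aeval lc (U n).charpoly = 0 := by
    obtain ⟨q, hq⟩ := lam_dvd h
    rw [hq, map_mul, ← hmin, minpoly.aeval, zero_mul]
  obtain ⟨v, hv, hU⟩ := exists_vec hlcroot
  have hlc0 : lc ≠ 0 := by
    intro h0
    have := no_root hdeg2 0 1 0 (by norm_num)
    apply this
    simp [h0]
  have hlc2 : lc ^ 2 ≠ 2 ^ (4 * n - 2) := by
    intro h0
    have := no_root hdeg2 1 0 (-2 ^ (4 * n - 2)) (by norm_num)
    apply this
    push_cast
    rw [h0]
    ring
  set α : ℂ := lc + 2 ^ (4 * n - 1) / lc with hα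
  have hα2 : α ≠ 1 + 2 ^ (4 * n - 1) := by
    intro h0
    have := no_root hdeg2 1 (-(1 + 2 ^ (4 * n - 1))) (2 ^ (4 * n - 1)) (by norm_num)
    apply this
    push_cast
    have h1 : lc * α = lc ^ 2 + 2 ^ (4 * n - 1) := by
      rw [hα]
      field_simp
    rw [h0] at h1
    linear_combination -h1
  obtain ⟨f0, hf0⟩ := fF_form v
  have hf0ne : f0 ≠ 0 := by
    rintro rfl
    obtain ⟨z, hz, hz2⟩ := fF_ne n hn v hv lc hlc2 hU
    apply hz2
    rw [← hf0 z hz]
    rfl
  have hk : 1 ≤ 4 * n := by omega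
  -- Hecke operators
  have hex : ∀ l : ℕ, ∃ T : M (4 * n) →ₗ[ℂ] M (4 * n), l.Prime →
      (∀ f : M (4 * n), ∀ z : ℂ, 0 < z.im → ex (T f) z = hec (4 * n) l (ex f) z) ∧
      ∀ f : M (4 * n), ∀ m : ℕ, cf (T f) m =
        cf f (l * m) + if l ∣ m then (l : ℂ) ^ (4 * n - 1) * cf f (m / l) else 0 := by
    intro l
    by_cases hl : l.Prime
    · obtain ⟨T, hT⟩ := hecke (4 * n) hk l hl
      exact ⟨T, fun _ => hT⟩
    · exact ⟨0, fun h => absurd h hl⟩
  choose T hT using hex
  have h2 : T 2 f0 = α • f0 := by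
    apply ex_ext
    intro z hz
    rw [(hT 2 Nat.prime_two).1 f0 z hz, hec_congr (4 * n) 2 Nat.prime_two (ex f0) (fF v) hf0 z hz,
      fF_eig n hn v lc hlc0 hU z hz, ex_smul_scal, hf0 z hz]
  obtain ⟨f1, hf1, hf12, hf1e⟩ := common_eig T {l : ℕ | l.Prime}
    (fun i hi j hj f => hecke_comm (4 * n) i j hi hj (T i) (T j) (hT i hi).2 (hT j hj).2 f)
    2 Nat.prime_two α f0 hf0ne h2
  have hex2 : ∀ l : ℕ, ∃ μ : ℂ, l.Prime → T l f1 = μ • f1 := by
    intro l
    by_cases hl : l.Prime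
    · obtain ⟨μ, hμ⟩ := hf1e l hl
      exact ⟨μ, fun _ => hμ⟩
    · exact ⟨0, fun h => absurd h hl⟩
  choose mu hmu using hex2
  have hmu2 : mu 2 = α := by
    have h3 : mu 2 • f1 = α • f1 := by rw [← hmu 2 Nat.prime_two, hf12]
    have h4 : (mu 2 - α) • f1 = 0 := by rw [sub_smul, h3, sub_self]
    rcases smul_eq_zero.mp h4 with h5 | h5
    · exact sub_eq_zero.mp h5
    · exact absurd h5 hf1
  have hrel1 : ∀ l : ℕ, l.Prime → ∀ m : ℕ,
      cf f1 (l * m) + (if l ∣ m then (l : ℂ) ^ (4 * n - 1) * cf f1 (m / l) else 0) =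
        mu l * cf f1 m := by
    intro l hl m
    rw [← (hT l hl).2 f1 m, hmu l hl, cf_smul]
  have hone := cf_one_ne hk f1 hf1 mu hrel1
  set f : M (4 * n) := (cf f1 1)⁻¹ • f1 with hf
  have hfc : ∀ m, cf f m = (cf f1 1)⁻¹ * cf f1 m := fun m => cf_smul _ _ _
  have hfne : f ≠ 0 := smul_ne_zero (inv_ne_zero hone) hf1
  have hrel : ∀ l : ℕ, l.Prime → ∀ m : ℕ,
      cf f (l * m) + (if l ∣ m then (l : ℂ) ^ (4 * n - 1) * cf f (m / l) else 0) =
        mu l * cf f m := by
    intro l hl m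
    have h3 := hrel1 l hl m
    simp only [hfc]
    split_ifs with h4
    · rw [if_pos h4] at h3
      linear_combination (cf f1 1)⁻¹ * h3
    · rw [if_neg h4] at h3
      linear_combination (cf f1 1)⁻¹ * h3
  have hf1' : cf f 1 = 1 := by
    rw [hfc]
    exact inv_mul_cancel₀ hone
  have hmul : ∀ l : ℕ, l.Prime → mu l = cf f l := fun l hl => eigval f hf1' mu hrel l hl
  have hrel2 : ∀ l : ℕ, l.Prime → ∀ m : ℕ,
      cf f (l * m) + (if l ∣ m then (l : ℂ) ^ (4 * n - 1) * cf f (m / l) else 0) =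
        cf f l * cf f m := by
    intro l hl m
    rw [← hmul l hl]
    exact hrel l hl m
  have hcusp : cf f 0 = 0 := by
    apply cf_zero f mu hrel
    rw [hmu2]
    exact hα2
  have hTf : ∀ l : ℕ, l.Prime → T l f = cf f l • f := by
    intro l hl
    rw [hf, map_smul, hmu l hl, ← hf, ← hmul l hl, smul_comm]
  have hsp : Submodule.span ℂ {g : M (4 * n) | ∀ m, ∃ q : ℚ, cfL (4 * n) m g = (q : ℂ)} = ⊤ :=
    rat_span n
  have hall : ∀ l : ℕ, l.Prime → IsAlgebraic ℚ (cf f l) := by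
    intro l hl
    have hz : ∀ g : M (4 * n), (∀ m, cfL (4 * n) m g = 0) → g = 0 := by
      intro g hg
      apply form_ext g 0
      intro m
      rw [← cfL_apply, ← cfL_apply, map_zero]
      exact hg m
    refine alg_eig (cfL (4 * n)) hsp hz (T l) ?_ (cf f l) f hfne (hTf l hl)
    intro g hg m
    obtain ⟨q1, hq1⟩ := hg (l * m)
    rw [cfL_apply, (hT l hl).2 g m]
    rw [cfL_apply] at hq1
    split_ifs with h5
    · obtain ⟨q2, hq2⟩ := hg (m / l)
      rw [cfL_apply] at hq2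
      refine ⟨q1 + (l : ℚ) ^ (4 * n - 1) * q2, ?_⟩
      rw [hq1, hq2]
      push_cast
      ring
    · exact ⟨q1, by rw [hq1, add_zero]⟩
  -- every field that contains the coefficients of odd prime index contains all coefficients
  have hmem : ∀ K : IntermediateField ℚ ℂ, (∀ l : ℕ, l.Prime → l ≠ 2 → cf f l ∈ K) → ∀ r, cf f r ∈ K := by
    intro K hK r
    obtain ⟨s, hs1, hs2⟩ := rat_comb (cfL (4 * n)) hsp {m | Odd m}
      (fun g hg => odd_zero hk g hg) r
    have h3 := hs2 f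
    rw [cfL_apply] at h3
    rw [h3]
    refine sum_mem fun m hm => ?_
    have h4 : cf f m ∈ K := odd_mem K (4 * n) (cf f) hf1' hrel2 hK m (hs1 m hm)
    have h5 : ((s m : ℚ) : ℂ) ∈ K := by
      have := K.algebraMap_mem (s m)
      simpa using this
    exact K.mul_mem h5 h4
  have hQ : ∀ r, cf f r ∈ algebraicClosure ℚ ℂ := by
    apply hmem
    intro l hl _
    exact mem_algebraicClosure_iff.2 (hall l hl)
  set a : ℕ → QQ := fun r => ⟨cf f r, hQ r⟩ with ha
  have hac : ∀ m, cf f m = (a m : ℂ) := fun m => rfl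
  refine ⟨f, a, hac, hcusp, hf1', hrel2, ?_⟩
  -- j (a r) is in the field K_f
  have hjm : ∀ r, j (a r) ∈ Kf j a := by
    intro r
    set E0 : IntermediateField ℚ QQ :=
      ((Kf j a).restrictScalars ℚ).comap (RingHom.toRatAlgHom j) with hE0
    set K1 : IntermediateField ℚ ℂ := E0.map (algebraicClosure ℚ ℂ).val with hK1
    have h1 : cf f r ∈ K1 := by
      apply hmem K1
      intro l hl hl2
      refine ⟨a l, ?_, rfl⟩
      show j (a l) ∈ Kf j a
      exact IntermediateField.subset_adjoin _ _ ⟨l, hl, hl2, rfl⟩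
    obtain ⟨y, hy1, hy2⟩ := h1
    have h2 : y = a r := Subtype.ext hy2
    rw [← h2]
    exact hy1
  have hfd : FiniteDimensional ℚ_[2] (Kf j a) := by
    obtain ⟨N, hN⟩ := fin_sep (cfL (4 * n)) (by
      intro g hg
      apply form_ext g 0
      intro m
      rw [← cfL_apply, ← cfL_apply, map_zero]
      exact hg m)
    have hfin : Finite (Set.image (fun m : ℕ => j (a m)) {m | m < N}) :=
      (Set.finite_lt_nat N).image _
    have hL := IntermediateField.finiteDimensional_adjoin (K := ℚ_[2])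
      (S := Set.image (fun m : ℕ => j (a m)) {m | m < N}) (fun x _ => Algebra.IsIntegral.isIntegral x)
    have hle : Kf j a ≤ IntermediateField.adjoin ℚ_[2] (Set.image (fun m : ℕ => j (a m)) {m | m < N}) := by
      rw [IntermediateField.adjoin_le_iff]
      rintro z ⟨l, hl, hl2, rfl⟩
      obtain ⟨s, hs1, hs2⟩ := rat_comb (cfL (4 * n)) hsp {m | m < N} hN l
      have h3 : a l = s.sum (fun m q => (q : QQ) * a m) := by
        apply Subtype.ext
        have h3 := hs2 f
        rw [cfL_apply] at h3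
        show cf f l = _
        rw [h3, Finsupp.sum, Finsupp.sum]
        push_cast
        rfl
      rw [h3, Finsupp.sum, map_sum]
      refine sum_mem fun m hm => ?_
      rw [map_mul, map_ratCast]
      refine mul_mem ?_ (IntermediateField.subset_adjoin _ _ ⟨m, hs1 m hm, rfl⟩)
      exact SubfieldClass.ratCast_mem _ _
    exact Submodule.finiteDimensional_of_le (S₁ := (Kf j a).toSubalgebra.toSubmodule)
      (S₂ := (IntermediateField.adjoin ℚ_[2] ((fun m : ℕ => j (a m)) '' {m | m < N})).toSubalgebra.toSubmodule) hle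
  refine ⟨hfd, ?_⟩
  have hlam0 : lam ≠ 0 := by
    intro h0
    rw [h0, minpoly.zero] at hdeg
    simp at hdeg
  apply deg_le _ lam hlam0 (2 ^ (4 * n - 1))
  have h2 : a 2 = lq + ((2 ^ (4 * n - 1) : ℚ) : QQ) / lq := by
    apply Subtype.ext
    show cf f 2 = _
    rw [← hmul 2 Nat.prime_two, hmu2, hα]
    push_cast
    rfl
  have h3 : j (a 2) = lam + ((2 ^ (4 * n - 1) : ℚ) : AlgebraicClosure ℚ_[2]) / lam := by
    rw [h2, map_add, map_div₀, map_ratCast, hlq]
  rw [← h3]
  exact hjm 2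

/-- the degrees of the x I do not decrease -/
theorem deg_mono (x : ℕ → AlgebraicClosure (ZMod 2))
    (h : ∀ i, x (i + 1) + (x (i + 1))⁻¹ = x i) (i k : ℕ) :
    (minpoly (ZMod 2) (x i)).natDegree ≤ (minpoly (ZMod 2) (x (i + k))).natDegree := by
  have hi : IsIntegral (ZMod 2) (x (i + k)) := Algebra.IsIntegral.isIntegral _
  rw [← IntermediateField.adjoin.finrank hi]
  have := IntermediateField.adjoin.finiteDimensional hi
  set K := IntermediateField.adjoin (ZMod 2) {x (i + k)} with hK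
  have h1 : ∀ k', k' ≤ k → x (i + (k - k')) ∈ K := by
    intro k'
    induction k' with
    | zero =>
      intro _
      exact IntermediateField.subset_adjoin _ _ rfl
    | succ k' ih =>
      intro hk
      have h2 := ih (by omega)
      have e : i + (k - k') = i + (k - (k' + 1)) + 1 := by omega
      rw [e] at h2
      rw [← h]
      exact K.add_mem h2 (K.inv_mem h2)
  have h2 : x i ∈ K := by
    have := h1 k le_rfl
    rwa [Nat.sub_self, add_zero] at this
  have h5 : minpoly (ZMod 2) (x i) = minpoly (ZMod 2) (⟨x i, h2⟩ : K) :=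
    minpoly.algebraMap_eq (B := K) (algebraMap K (AlgebraicClosure (ZMod 2))).injective ⟨x i, h2⟩
  rw [h5]
  exact minpoly.natDegree_le _

theorem lam_of (x : ℕ → AlgebraicClosure (ZMod 2)) (h0 : x 0 = 1)
    (hx : ∀ i, x (i + 1) + (x (i + 1))⁻¹ = x i) (I : ℕ) (hI : 3 ≤ I) :
    ∃ lam : AlgebraicClosure ℚ_[2], Polynomial.aeval lam (U (nn I)).charpoly = 0 ∧
      (minpoly (ZMod 2) (x I)).natDegree ≤ (minpoly ℚ_[2] lam).natDegree := by
  obtain ⟨F, κ, hκ, hF, hF2⟩ := pencil I hI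
  have hroot : Polynomial.aeval (x I) (F.map (PadicInt.toZMod (p := 2))) = 0 := by
    rw [hF2, map_mul]
    have h1 : Polynomial.aeval (x I) (Hm I (3 * qq I)).charpoly = 0 := by
      have h2 := hankel_root x h0 hx I (3 * qq I) (by
        rw [Mt_eq_Ms]
        unfold qq
        omega)
      have h3 : hank (AlgebraicClosure (ZMod 2)) I (3 * qq I) =
          (Hm I (3 * qq I)).map (algebraMap (ZMod 2) (AlgebraicClosure (ZMod 2))) := by
        ext a b
        simp only [hank, Hm, Matrix.of_apply, Matrix.map_apply]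
        split_ifs with h4 h5 h5
        · simp
        · exfalso
          apply h5
          obtain ⟨s, hs, hs2⟩ := h4
          rw [Mt_eq_Ms] at hs2
          rw [pat, Finset.mem_image]
          exact ⟨s, Finset.mem_range.mpr (by omega), hs2.symm⟩
        · exfalso
          apply h4
          rw [pat, Finset.mem_image] at h5
          obtain ⟨s, hs, hs2⟩ := h5
          refine ⟨s, by have := Finset.mem_range.mp hs; omega, ?_⟩
          rw [Mt_eq_Ms]
          exact hs2.symm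
        · simp
      rw [h3, Matrix.charpoly_map, Polynomial.eval_map] at h2
      rw [Polynomial.aeval_def]
      exact h2
    rw [h1, mul_zero]
  have hne : F.map (PadicInt.toZMod (p := 2)) ≠ 0 := by
    rw [hF2]
    exact mul_ne_zero (pow_ne_zero _ Polynomial.X_ne_zero) (Matrix.charpoly_monic _).ne_zero
  obtain ⟨t, ht, ht2⟩ := res_root F hne (x I) hroot
  refine ⟨algebraMap ℚ_[2] _ ((2 : ℚ_[2]) ^ hh I) * t, ?_, ?_⟩
  · rw [hF, map_mul] at ht
    have h1 : Polynomial.aeval t (C κ : ℚ_[2][X]) ≠ 0 := by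
      rw [Polynomial.aeval_C]
      simpa using hκ
    have h2 := (mul_eq_zero.mp ht).resolve_left h1
    rw [Polynomial.aeval_comp, map_mul, Polynomial.aeval_C, Polynomial.aeval_X,
      Polynomial.aeval_map_algebraMap] at h2
    exact h2
  · have h2ne : ((2 : ℚ_[2]) ^ hh I) ≠ 0 := pow_ne_zero _ (by norm_num)
    have h3 := deg_mul_le ((2 : ℚ_[2]) ^ hh I) h2ne t
    omega


theorem partB_all (c : ℕ) : ∃ I₀ : ℕ, ∀ I, I₀ ≤ I → ∃ lam : AlgebraicClosure ℚ_[2],
    Polynomial.aeval lam (U (nn I)).charpoly = 0 ∧ c < (minpoly ℚ_[2] lam).natDegree := by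
  obtain ⟨x, h0, hx⟩ := xs_exists (AlgebraicClosure (ZMod 2))
  obtain ⟨I1, hI1, hdeg⟩ := exists_level c x h0 hx
  refine ⟨I1, fun I hI => ?_⟩
  obtain ⟨lam, hl1, hl2⟩ := lam_of x h0 hx I (by omega)
  have h1 := deg_mono x hx I1 (I - I1)
  rw [Nat.add_sub_cancel' hI] at h1
  exact ⟨lam, hl1, by omega⟩

/-- the weights 4 (2 (M_I + 1) + M_{I+1}) with M_0 = 0, M_{s+1} = M_s + 4^(M_s) -/
theorem all_weights (j : QQ →+* AlgebraicClosure ℚ_[2]) (c : ℕ) :
    ∃ I₀ : ℕ, ∀ I, I₀ ≤ I → ∃ (f : CuspForm 𝒮ℒ ((4 * nn I : ℕ) : ℤ)) (a : ℕ → QQ),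
      (∀ τ : ℍ, HasSum (fun m : ℕ => (a m : ℂ) * Complex.exp (2 * Real.pi * Complex.I * (m : ℂ) * (τ : ℂ)))
        (f τ)) ∧ a 1 = 1 ∧
      (∀ l : ℕ, l.Prime → ∀ m : ℕ, 1 ≤ m →
        a (l * m) + (if l ∣ m then (l : QQ) ^ (4 * nn I - 1) * a (m / l) else 0) = a l * a m) ∧
      FiniteDimensional ℚ_[2] (Kf j a) ∧ c < Module.finrank ℚ_[2] (Kf j a) := by
  obtain ⟨I₀, h⟩ := partB_all (2 * c + 2)
  refine ⟨I₀, fun I hI => ?_⟩
  obtain ⟨lam, hroot, hdeg⟩ := h I hI
  obtain ⟨f, a, hfa, hf0, hf1, hrel, hfd, hle⟩ := form_fixed j (nn I) (by unfold nn qq; omega) lam hroot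
    (by omega)
  refine ⟨ModularForm.toCuspForm f hf0, a, ?_, ?_, ?_, hfd, by omega⟩
  · intro τ
    show HasSum _ (f τ)
    rw [← ex_coe f τ]
    have h1 := ex_hasSum f τ τ.im_pos
    simp only [hfa] at h1
    exact h1
  · apply Subtype.ext
    rw [← hfa]
    exact hf1
  · intro l hl m _
    apply Subtype.ext
    have h1 := hrel l hl m
    simp only [hfa] at h1
    push_cast
    rw [← h1]
    split_ifs <;> simp

end Pool.Agent.Helper44.BZ
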