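import Mathlib
import Pool.Agent.Helper44.BZ.Defs
import Pool.Agent.Helper44.BZ.VGA

/-! Block BZB-LIFT. A rational number x with VG 0 x is a 2-adic integer: `padicNormE.eq_padicNorm` / `Padic.norm_rat_le_one`, norm of (x : ℚ_[2]) is
2^(-padicValRat 2 x) <= 1. toZMod y = 0 iff y is in the maximal ideal iff its norm is < 1 (`PadicInt.ker_toZMod`, `PadicInt.norm_lt_one_iff_dvd`,
`PadicInt.mem_nonunits`), which holds if VG 1 x. The third part: x - 1 lifts to y - 1. -/

set_option autoImplicit false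

namespace Pool.Agent.Helper44.BZ

private theorem norm_le24 (c : ℤ) (x : ℚ) (h : VG c x) : ‖(x : ℚ_[2])‖ ≤ (2 : ℝ) ^ (-c) := by
  rcases h with h | h
  · subst h
    simp
    positivity
  · by_cases hx : x = 0
    · subst hx
      simp
      positivity
    · rw [Padic.eq_padicNorm, padicNorm.eq_zpow_of_nonzero hx]
      push_cast
      exact zpow_le_zpow_right₀ (by norm_num) (by omega)

private theorem toZMod24 (y : ℤ_[2]) (h : ‖y‖ < 1) : PadicInt.toZMod y = 0 := by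
  have h1 : y ∈ RingHom.ker (PadicInt.toZMod : ℤ_[2] →+* ZMod 2) := by
    rw [PadicInt.ker_toZMod]
    rw [IsLocalRing.mem_maximalIdeal]
    exact PadicInt.mem_nonunits.mpr h
  exact h1

theorem lift_entry (x : ℚ) (hx : VG 0 x) :
    ∃ y : ℤ_[2], (y : ℚ_[2]) = (x : ℚ_[2]) ∧ (VG 1 x → PadicInt.toZMod y = 0) ∧
      (VG 1 (x - 1) → PadicInt.toZMod y = 1) := by
  have h1 := norm_le24 0 x hx
  rw [neg_zero, zpow_zero] at h1
  refine ⟨⟨(x : ℚ_[2]), h1⟩, rfl, ?_, ?_⟩
  · intro h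
    exact toZMod24 _ (lt_of_le_of_lt (norm_le24 1 x h) (by norm_num))
  · intro h
    have h2 := norm_le24 1 (x - 1) h
    have h5 : ∀ y : ℤ_[2], (y : ℚ_[2]) = (x : ℚ_[2]) → PadicInt.toZMod y = 1 := by
      intro y hy
      have h3 : PadicInt.toZMod (y - 1) = 0 := by
        refine toZMod24 _ (lt_of_le_of_lt ?_ (show (2 : ℝ) ^ (-(1 : ℤ)) < 1 by norm_num))
        have h4 : ((y - 1 : ℤ_[2]) : ℚ_[2]) = ((x - 1 : ℚ) : ℚ_[2]) := by
          push_cast
          rw [hy]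
        rw [← PadicInt.padic_norm_e_of_padicInt, h4]
        exact h2
      rw [map_sub, map_one] at h3
      exact sub_eq_zero.mp h3
    exact h5 _ rfl

/-- matrix version: G and N lift, N and G reduce to the given 0-1 matrices -/
theorem lift_matrix {ι : Type*} (M : Matrix ι ι ℚ) (hM : ∀ i j, VG 0 (M i j)) :
    ∃ Y : Matrix ι ι ℤ_[2], (∀ i j, ((Y i j : ℤ_[2]) : ℚ_[2]) = ((M i j : ℚ) : ℚ_[2])) ∧
      (∀ i j, VG 1 (M i j) → PadicInt.toZMod (Y i j) = 0) ∧
      (∀ i j, VG 1 (M i j - 1) → PadicInt.toZMod (Y i j) = 1) := by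
  choose y h1 h2 h3 using fun i j => lift_entry (M i j) (hM i j)
  exact ⟨Matrix.of y, h1, h2, h3⟩

end Pool.Agent.Helper44.BZ
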