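import Mathlib
import Pool.Agent.Helper44.BZ.Defs
import Pool.Agent.Helper44.BZ.VGA
import Pool.Agent.Helper44.BZ.BlkB
import Pool.Agent.Helper44.BZ.Lift
import Pool.Agent.Helper44.BZ.PenA
import Pool.Agent.Helper44.BZ.Chp

/-! Block BZB-PENB. Let PL, PR as in `pen_rat`, G := 2^h (PL PR), N := PL Ab PR. `lift_matrix` gives matrices Gz, Nz over ℤ_[2] (N has VG 0 entries:
VG 1 (x - 0) or VG 1 (x - 1) or = 0, 1). F := det (X • Gz.map C - Nz.map C) in ℤ_[2][X].
(1) Over ℚ_[2]: X • G.map C - N.map C = PL (2^h X - Ab) PR (matrices over ℚ_[2][X]), so F.map = C (det PL det PR) * det (C (2^h) X • 1 - Ab.map C) =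
 C κ * (charpoly Ab).map.comp (C (2^h) * X) (`Matrix.charpoly`, `Matrix.eval`...: the ring homomorphism `Polynomial.compRingHom (C (2^h) * X)` maps the
 characteristic matrix of Ab to 2^h X • 1 - Ab.map C; `RingHom.map_det`). `Ab_charpoly`.
(2) Mod 2: the reductions of Gz and Nz are the matrices of `det_pencil` with G21 = the reduction of the block 21 and H = Hm I (3 q). -/

set_option autoImplicit false

namespace Pool.Agent.Helper44.BZ

open Polynomial

private theorem gen_fib {ι : Type*} [Fintype ι] [DecidableEq ι] (PL PR A : Matrix ι ι ℚ) (c : ℚ)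
    (Gz Nz : Matrix ι ι ℤ_[2])
    (hG : ∀ i j, ((Gz i j : ℤ_[2]) : ℚ_[2]) = (((c • (PL * PR)) i j : ℚ) : ℚ_[2]))
    (hN : ∀ i j, ((Nz i j : ℤ_[2]) : ℚ_[2]) = (((PL * A * PR) i j : ℚ) : ℚ_[2])) :
    (((X : ℤ_[2][X]) • Gz.map C - Nz.map C).det).map (algebraMap ℤ_[2] ℚ_[2]) =
      C (((PL.det * PR.det : ℚ)) : ℚ_[2]) *
        ((A.charpoly.map (algebraMap ℚ ℚ_[2])).comp (C ((c : ℚ_[2])) * X)) := by
  set f : ℚ →+* ℚ_[2] := algebraMap ℚ ℚ_[2] with hf
  have hfc : ∀ x : ℚ, ((x : ℚ) : ℚ_[2]) = f x := fun x => (eq_ratCast f x).symm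
  have hza : ∀ y : ℤ_[2], algebraMap ℤ_[2] ℚ_[2] y = (y : ℚ_[2]) := fun y => rfl
  have e1 : ((mapRingHom (algebraMap ℤ_[2] ℚ_[2])).mapMatrix ((X : ℤ_[2][X]) • Gz.map C - Nz.map C)) =
      (C (f c) * X : ℚ_[2][X]) • ((PL.map f * PR.map f).map C) -
        ((PL.map f) * (A.map f) * (PR.map f)).map C := by
    rw [← Matrix.map_mul, ← Matrix.map_mul, ← Matrix.map_mul]
    ext1 i j
    simp only [RingHom.mapMatrix_apply, Matrix.map_apply, Matrix.sub_apply, Matrix.smul_apply,
      smul_eq_mul, coe_mapRingHom, Polynomial.map_sub, Polynomial.map_mul, map_X, map_C, hza, hG, hN, hfc]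
    rw [map_mul]
    rw [C_mul]
    ring
  have e2 : ((compRingHom (C (f c) * X)).mapMatrix (Matrix.charmatrix (A.map f))) =
      (C (f c) * X : ℚ_[2][X]) • (1 : Matrix ι ι ℚ_[2][X]) - (A.map f).map C := by
    ext1 i j
    rw [RingHom.mapMatrix_apply, Matrix.map_apply, Matrix.charmatrix_apply, Matrix.sub_apply,
      Matrix.smul_apply, Matrix.one_apply, Matrix.diagonal_apply, coe_compRingHom_apply]
    split_ifs <;> simp
  have e3 : (C (f c) * X : ℚ_[2][X]) • ((PL.map f * PR.map f).map C) -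
        ((PL.map f) * (A.map f) * (PR.map f)).map C =
      (PL.map f).map C * ((C (f c) * X : ℚ_[2][X]) • (1 : Matrix ι ι ℚ_[2][X]) - (A.map f).map C) *
        (PR.map f).map C := by
    rw [Matrix.map_mul, Matrix.map_mul, Matrix.map_mul, Matrix.mul_sub, Matrix.sub_mul,
      Matrix.mul_smul, Matrix.mul_one, Matrix.smul_mul]
  have hd : ∀ P : Matrix ι ι ℚ, ((P.map f).map C).det = C (f P.det) := by
    intro P
    have h1 := RingHom.map_det (C : ℚ_[2] →+* ℚ_[2][X]) (P.map f)
    have h2 := RingHom.map_det f P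
    rw [RingHom.mapMatrix_apply] at h1 h2
    rw [← h2] at h1
    exact h1.symm
  rw [← coe_mapRingHom, RingHom.map_det, e1, e3, Matrix.det_mul, Matrix.det_mul, hd, hd, ← e2,
    ← RingHom.map_det, coe_compRingHom_apply, hfc, hfc, map_mul, C_mul, ← Matrix.charpoly_map]
  rw [Matrix.charpoly]
  ring

theorem pencil (I : ℕ) (hI : 3 ≤ I) :
    ∃ (F : ℤ_[2][X]) (κ : ℚ_[2]), κ ≠ 0 ∧
      F.map (algebraMap ℤ_[2] ℚ_[2]) =
        C κ * (((Pool.Agent.Helper59.BZ.U (nn I)).charpoly.map (algebraMap ℚ ℚ_[2])).comp (C ((2 : ℚ_[2]) ^ hh I) * X)) ∧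
      F.map (PadicInt.toZMod (p := 2)) = X ^ (nn I + 1 - 4 * qq I) * (Hm I (3 * qq I)).charpoly := by
  obtain ⟨PL, PR, hPL, hPR, hG0, hG11, hG12, hG22, hG13, hG31, hG33, hN11, hN12, hN21, hN22, hN13,
    hN31, hN33⟩ := pen_rat I hI
  have h01 : (0 : ℤ) ≤ 1 := by norm_num
  have v1 : VG 0 (1 : ℚ) := by simpa using VG_nat 1
  have hN0 : ∀ x y, VG 0 ((PL * Ab I * PR) x y) := by
    intro x y
    rcases x with (i | a) | c <;> rcases y with (j | b) | d
    · rw [hN11, Matrix.one_apply]
      split_ifs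
      · exact v1
      · exact VG_zero 0
    · rw [hN12]
      exact VG_zero 0
    · exact VG_mono (hN13 _ _) h01
    · rw [hN21]
      exact VG_zero 0
    · have h := VG_mono (hN22 a b) h01
      have h2 : VG 0 ((if (a : ℕ) + (b : ℕ) ∈ pat I then 1 else 0 : ℚ)) := by
        split_ifs
        · exact v1
        · exact VG_zero 0
      have h3 := VG_add h h2
      rwa [sub_add_cancel] at h3
    · exact VG_mono (hN13 _ _) h01
    · exact VG_mono (hN31 _ _) h01
    · exact VG_mono (hN31 _ _) h01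
    · exact VG_mono (hN33 _ _) h01
  obtain ⟨Gz, hGz, hGz0, hGz1⟩ := lift_matrix _ hG0
  obtain ⟨Nz, hNz, hNz0, hNz1⟩ := lift_matrix _ hN0
  have z1 : ∀ {c : ℤ}, VG c (0 : ℚ) := fun {c} => VG_zero c
  refine ⟨((X : ℤ_[2][X]) • Gz.map C - Nz.map C).det, ((PL.det * PR.det : ℚ) : ℚ_[2]), ?_, ?_, ?_⟩
  · exact_mod_cast mul_ne_zero hPL hPR
  · rw [gen_fib PL PR (Ab I) ((2 : ℚ) ^ hh I) Gz Nz hGz hNz, Ab_charpoly I hI]
    push_cast
    rfl
  · have hGb : Gz.map (PadicInt.toZMod (p := 2)) =
        Matrix.fromBlocks (Matrix.fromBlocks 0 0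
          (Matrix.of fun a j => PadicInt.toZMod (p := 2) (Gz (Sum.inl (Sum.inr a)) (Sum.inl (Sum.inl j)))) 1) 0 0 1 := by
      ext1 x y
      rcases x with (i | a) | c <;> rcases y with (j | b) | d
      · exact hGz0 _ _ (hG11 i j)
      · exact hGz0 _ _ (hG12 i b)
      · exact hGz0 _ _ (by rw [hG13]; exact z1)
      · rfl
      · simp only [Matrix.map_apply, Matrix.fromBlocks_apply₁₁, Matrix.fromBlocks_apply₂₂]
        by_cases h : a = b
        · subst h
          rw [Matrix.one_apply_eq]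
          have := hG22 a a
          rw [Matrix.one_apply_eq] at this
          exact hGz1 _ _ this
        · rw [Matrix.one_apply_ne h]
          have := hG22 a b
          rw [Matrix.one_apply_ne h, sub_zero] at this
          exact hGz0 _ _ this
      · exact hGz0 _ _ (by rw [hG13]; exact z1)
      · exact hGz0 _ _ (by rw [hG31]; exact z1)
      · exact hGz0 _ _ (by rw [hG31]; exact z1)
      · simp only [Matrix.map_apply, Matrix.fromBlocks_apply₂₂]
        by_cases h : c = d
        · subst h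
          rw [Matrix.one_apply_eq]
          refine hGz1 _ _ ?_
          rw [hG33, Matrix.one_apply_eq, sub_self]
          exact z1
        · rw [Matrix.one_apply_ne h]
          refine hGz0 _ _ ?_
          rw [hG33, Matrix.one_apply_ne h]
          exact z1
    have hNb : Nz.map (PadicInt.toZMod (p := 2)) =
        Matrix.fromBlocks (Matrix.fromBlocks 1 0 0 (Hm I (3 * qq I))) 0 0 0 := by
      ext1 x y
      rcases x with (i | a) | c <;> rcases y with (j | b) | d
      · simp only [Matrix.map_apply, Matrix.fromBlocks_apply₁₁]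
        by_cases h : i = j
        · subst h
          rw [Matrix.one_apply_eq]
          refine hNz1 _ _ ?_
          rw [hN11, Matrix.one_apply_eq, sub_self]
          exact z1
        · rw [Matrix.one_apply_ne h]
          refine hNz0 _ _ ?_
          rw [hN11, Matrix.one_apply_ne h]
          exact z1
      · exact hNz0 _ _ (by rw [hN12]; exact z1)
      · exact hNz0 _ _ (hN13 _ _)
      · exact hNz0 _ _ (by rw [hN21]; exact z1)
      · simp only [Matrix.map_apply, Matrix.fromBlocks_apply₁₁, Matrix.fromBlocks_apply₂₂, Hm, Matrix.of_apply]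
        have h := hN22 a b
        split_ifs with hp
        · rw [if_pos hp] at h
          exact hNz1 _ _ h
        · rw [if_neg hp, sub_zero] at h
          exact hNz0 _ _ h
      · exact hNz0 _ _ (hN13 _ _)
      · exact hNz0 _ _ (hN31 _ _)
      · exact hNz0 _ _ (hN31 _ _)
      · exact hNz0 _ _ (hN33 _ _)
    have hm : (mapRingHom (PadicInt.toZMod (p := 2))).mapMatrix ((X : ℤ_[2][X]) • Gz.map C - Nz.map C) =
        (X : (ZMod 2)[X]) • (Gz.map (PadicInt.toZMod (p := 2))).map C -
          (Nz.map (PadicInt.toZMod (p := 2))).map C := by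
      ext1 i j
      simp only [RingHom.mapMatrix_apply, Matrix.map_apply, Matrix.sub_apply, Matrix.smul_apply,
        smul_eq_mul, coe_mapRingHom, Polynomial.map_sub, Polynomial.map_mul, map_X, map_C]
    rw [← coe_mapRingHom, RingHom.map_det, hm, hGb, hNb, det_pencil, Fintype.card_fin]

end Pool.Agent.Helper44.BZ
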