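import Mathlib
import Pool.Agent.Helper44.BZ.Defs
import Pool.Agent.Helper44.BZ.PenB
import Pool.Agent.Helper59.BZ.G1
import Pool.Agent.Helper59.BZ.G2
import Pool.Agent.Helper59.BZ.Fin

/-! Block BZB-FIN (part B). x = the sequence of `xs_exists` (Helper59.BZ.G2) over AlgebraicClosure (ZMod 2).
Given c take I >= 3 with deg (x I) > c (`deg_unbdd` for the maximum of c and the degrees of x 0, x 1, x 2), n = nn I.
`pencil` gives F, κ. Its reduction is X^* * (Hm I (3q)).charpoly, nonzero (monic factors)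
and with root x I (`hankel_root`, Mt = Ms, Ms I < 3 qq I). `res_root`: t root of F.map, degree >= deg (x I) > c. F.map = C κ * (charpoly).comp (C (2^h) X), κ ≠ 0, so
lam := 2^h t is a root of the characteristic polynomial; its degree is at least the degree of t (the field generated by lam contains t). -/

set_option autoImplicit false

namespace Pool.Agent.Helper44.BZ

open Polynomial Pool.Agent.Helper59.BZ

theorem Mt_eq_Ms (s : ℕ) : Mt s = Ms s := by
  induction s with
  | zero => rfl
  | succ s ih =>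
    simp only [Mt, Ms]
    rw [ih, pow_mul]
    norm_num

theorem exists_level (c : ℕ) (x : ℕ → AlgebraicClosure (ZMod 2)) (h0 : x 0 = 1)
    (h : ∀ i, x (i + 1) + (x (i + 1))⁻¹ = x i) :
    ∃ I, 3 ≤ I ∧ c < (minpoly (ZMod 2) (x I)).natDegree := by
  obtain ⟨I, hI⟩ := deg_unbdd x h0 h (c + (minpoly (ZMod 2) (x 0)).natDegree +
    (minpoly (ZMod 2) (x 1)).natDegree + (minpoly (ZMod 2) (x 2)).natDegree)
  refine ⟨I, ?_, by omega⟩
  by_contra hlt
  have h3 : I = 0 ∨ I = 1 ∨ I = 2 := by omega
  rcases h3 with rfl | rfl | rfl <;> omega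

/-- (proof of helper38) -/
theorem deg_mul_le (s0 : ℚ_[2]) (hs0 : s0 ≠ 0) (t : AlgebraicClosure ℚ_[2]) :
    (minpoly ℚ_[2] t).natDegree ≤
      (minpoly ℚ_[2] (algebraMap ℚ_[2] (AlgebraicClosure ℚ_[2]) s0 * t)).natDegree := by
  have hint : IsIntegral ℚ_[2] (algebraMap ℚ_[2] (AlgebraicClosure ℚ_[2]) s0 * t) :=
    Algebra.IsIntegral.isIntegral _
  rw [← IntermediateField.adjoin.finrank hint]
  have := IntermediateField.adjoin.finiteDimensional hint
  set K := IntermediateField.adjoin ℚ_[2]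
    {algebraMap ℚ_[2] (AlgebraicClosure ℚ_[2]) s0 * t} with hK
  have h1 : algebraMap ℚ_[2] (AlgebraicClosure ℚ_[2]) s0 * t ∈ K :=
    IntermediateField.subset_adjoin _ _ rfl
  have h2 : t ∈ K := by
    have h3 := K.mul_mem (K.algebraMap_mem s0⁻¹) h1
    have h4 : algebraMap ℚ_[2] (AlgebraicClosure ℚ_[2]) s0⁻¹ *
        (algebraMap ℚ_[2] (AlgebraicClosure ℚ_[2]) s0 * t) = t := by
      rw [← mul_assoc, ← map_mul, inv_mul_cancel₀ hs0, map_one, one_mul]
    rwa [h4] at h3
  have h5 : minpoly ℚ_[2] t = minpoly ℚ_[2] (⟨t, h2⟩ : K) :=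
    minpoly.algebraMap_eq (B := K) (algebraMap K (AlgebraicClosure ℚ_[2])).injective ⟨t, h2⟩
  rw [h5]
  exact minpoly.natDegree_le _

theorem partB : Pool.Agent.Helper59.BZ.PartB := by
  intro c
  obtain ⟨x, h0, hx⟩ := xs_exists (AlgebraicClosure (ZMod 2))
  obtain ⟨I, hI, hdeg⟩ := exists_level c x h0 hx
  obtain ⟨F, κ, hκ, hF, hF2⟩ := pencil I hI
  have hroot : Polynomial.aeval (x I) (F.map (PadicInt.toZMod (p := 2))) = 0 := by
    rw [hF2, map_mul]
    have h1 : Polynomial.aeval (x I) (Hm I (3 * qq I)).charpoly = 0 := by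
      have h2 := hankel_root x h0 hx I (3 * qq I) (by
        rw [Mt_eq_Ms]
        unfold qq
        omega)
      have h3 : hank (AlgebraicClosure (ZMod 2)) I (3 * qq I) =
          (Hm I (3 * qq I)).map (algebraMap (ZMod 2) (AlgebraicClosure (ZMod 2))) := by
        ext a b
        simp only [hank, Hm, Matrix.of_apply, Matrix.map_apply]
        split_ifs with h4 h5 h5
        · simp
        · exfalso
          apply h5
          obtain ⟨s, hs, hs2⟩ := h4
          rw [Mt_eq_Ms] at hs2
          rw [pat, Finset.mem_image]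
          exact ⟨s, Finset.mem_range.mpr (by omega), hs2.symm⟩
        · exfalso
          apply h4
          rw [pat, Finset.mem_image] at h5
          obtain ⟨s, hs, hs2⟩ := h5
          refine ⟨s, by have := Finset.mem_range.mp hs; omega, ?_⟩
          rw [Mt_eq_Ms]
          exact hs2.symm
        · simp
      rw [h3, Matrix.charpoly_map, Polynomial.eval_map] at h2
      rw [Polynomial.aeval_def]
      exact h2
    rw [h1, mul_zero]
  have hne : F.map (PadicInt.toZMod (p := 2)) ≠ 0 := by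
    rw [hF2]
    exact mul_ne_zero (pow_ne_zero _ Polynomial.X_ne_zero) (Matrix.charpoly_monic _).ne_zero
  obtain ⟨t, ht, ht2⟩ := res_root F hne (x I) hroot
  refine ⟨nn I, by unfold nn qq; omega, algebraMap ℚ_[2] _ ((2 : ℚ_[2]) ^ hh I) * t, ?_, ?_⟩
  · rw [hF, map_mul] at ht
    have h1 : Polynomial.aeval t (C κ : ℚ_[2][X]) ≠ 0 := by
      rw [Polynomial.aeval_C]
      simpa using hκ
    have h2 := (mul_eq_zero.mp ht).resolve_left h1
    rw [Polynomial.aeval_comp, map_mul, Polynomial.aeval_C, Polynomial.aeval_X,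
      Polynomial.aeval_map_algebraMap] at h2
    exact h2
  · have h2ne : ((2 : ℚ_[2]) ^ hh I) ≠ 0 := pow_ne_zero _ (by norm_num)
    have h3 := deg_mul_le ((2 : ℚ_[2]) ^ hh I) h2ne t
    omega

end Pool.Agent.Helper44.BZ
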