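import Mathlib
import Pool.Agent.Helper44.BZ.Defs
import Pool.Agent.Helper44.BZ.VGA
import Pool.Agent.Helper44.BZ.S2A
import Pool.Agent.Helper44.BZ.MsA
import Pool.Agent.Helper44.BZ.Ine

/-! Block BZB-PAT0. Exact valuation of `Eo` for k = 0 on the pattern: a + b = Ms r, a, b >= 1, 2 <= r <= I (so a, b < Ms r <= M < q).
n = nn I, q = qq I = M+1, M = Ms I, d = Ms (I+1) = M + 4^M = n - 2q, y = 2n-3q. s = s2, v = valuation, x|k falling factorial.
For k = 0 (both parities of q+b): prod_{t<b} (q+b-2(1+t)) * prod_{t<b} (q+b-1-2t) = (q+b-1)|(2b), the last denominator is 2(q+a)-(q+b) = q+2a-b, so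
 Eo = 2^a (-2)^b ((n-3q)|a) ((y-1)|(b-1)) (y-3b) (d-a)(d-b) (q+b+2a) ((d+M+a)|(2a)) ((q+b-1)|(2b)) /
      (a! b! odd ((d-1)|a) ((d-1)|b) d Y (q+2a-b)),  Y = d-a-b = d - Ms r.       All factors are positive.
Valuations (`val_desc`, `val_fact`, (d-a)/((d-1)|a) = 1/((d-1)|(a-1))):
 v = (a+b) + (a - s(4^M-1) + s(4^M-1-a)) + ((b-1) - s(y-1) + s(y-b)) + v(y-3b) - (a - s(a)) - (b - s(b))
   - ((a-1) - s(d-1) + s(d-a)) - ((b-1) - s(d-1) + s(d-b)) - v(Y) + v(q+b+2a) + (2a - s(d+M+a) + s(d+M-a)) + (2b - s(q+b-1) + s(q-b-1)) - v(q+2a-b).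
Let w with M = Ms r + 4^(Ms r) w (`Ms_split`), s(w) = I-r, s(3w) = 2(I-r); 3 Ms r < 4^(Ms r), all numbers below < 4^(Ms r):
 s(4^M-1) = 2M, s(4^M-1-a) = 2M - s(a); y-1 = 2*4^M + 3M: s = 1+2I; y-b = 2*4^M + 3M + 1 - b = 2*4^M + 4^(Ms r) 3w + (2 Ms r + 1 + a): s = 1 + 2(I-r) + s(2 Ms r+a+1);
 y-3b = 2*4^M + 4^(Ms r) 3w + (3a+1): v = v(3a+1) (`val_add_pow`); d-1: s = I; d-a = 4^M + 4^(Ms r) w + b: s = 1 + (I-r) + s(b); d-b: 1 + (I-r) + s(a);
 v(Y) = 2 Ms r (`val_top_zero`); q+b+2a = 4^(Ms r) w + (2 Ms r + a + 1): v = v(2 Ms r + a+1); d+M+a = 4^M + 2*4^(Ms r) w + (2 Ms r + a): s = 1+(I-r)+s(2 Ms r+a);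
 d+M-a: s = 1 + (I-r) + s(2 Ms r - a); q+b-1 = M+b: s = (I-r) + s(Ms r + b) = (I-r) + s(2 Ms r - a); q-b-1 = M-b: s = (I-r) + s(a); q+2a-b = 4^(Ms r) w + (3a+1): v(3a+1).
Sum: linear: (a+b)+a+(b-1)-a-b-(a-1)-(b-1)+2a+2b = 2(a+b)+1 and - 2 Ms r: 1. Digits: -s(a) + [-(1+2I) + 1+2(I-r)+s(2Ms r+a+1)] + s(a) + s(b) + 2I - 2(1+I-r) - s(a) - s(b)
 - s(2Ms r+a) + s(2Ms r-a) - s(2Ms r-a) + s(a) + v(2 Ms r+a+1) = -2 + s(2Ms r+a+1) - s(2Ms r+a) + v(2Ms r+a+1) = -2 + 1  (`val_succ`). Total 0.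
(Checked by computer.) -/

set_option autoImplicit false

namespace Pool.Agent.Helper44.BZ

open Finset

private theorem hv_mul63 {x y : ℚ} {v w : ℤ} (hx : x ≠ 0 ∧ padicValRat 2 x = v) (hy : y ≠ 0 ∧ padicValRat 2 y = w) :
    x * y ≠ 0 ∧ padicValRat 2 (x * y) = v + w :=
  ⟨mul_ne_zero hx.1 hy.1, by rw [padicValRat.mul hx.1 hy.1, hx.2, hy.2]⟩

private theorem hv_div63 {x y : ℚ} {v w : ℤ} (hx : x ≠ 0 ∧ padicValRat 2 x = v) (hy : y ≠ 0 ∧ padicValRat 2 y = w) :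
    x / y ≠ 0 ∧ padicValRat 2 (x / y) = v - w :=
  ⟨div_ne_zero hx.1 hy.1, by rw [padicValRat.div hx.1 hy.1, hx.2, hy.2]⟩

private theorem hv_nat63 {z : ℕ} (hz : 0 < z) {x : ℚ} (hx : x = z) :
    x ≠ 0 ∧ padicValRat 2 x = (padicValNat 2 z : ℤ) := by
  subst hx
  exact ⟨by exact_mod_cast hz.ne', padicValRat.of_nat⟩

private theorem hv_desc63 (N k : ℕ) (h : k ≤ N) {x : ℚ} (hx : x = ∏ t ∈ range k, ((N : ℚ) - t)) :
    x ≠ 0 ∧ padicValRat 2 x = (k : ℤ) - s2 N + s2 (N - k) := by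
  subst hx
  exact (val_desc N k h).2

private theorem hv_fact63 (a : ℕ) : (Nat.factorial a : ℚ) ≠ 0 ∧ padicValRat 2 (Nat.factorial a : ℚ) = (a : ℤ) - s2 a := by
  refine ⟨by exact_mod_cast Nat.factorial_ne_zero a, ?_⟩
  rw [padicValRat.of_nat]
  have := val_fact a
  omega

private theorem prod_pair63 (x : ℚ) (b : ℕ) :
    (∏ t ∈ range b, (x - 2 * (0 + 1 + (t : ℚ)))) * (∏ t ∈ range b, (x - 1 - 2 * (t : ℚ))) =
      ∏ t ∈ range (2 * b), (x - 1 - (t : ℚ)) := by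
  induction b with
  | zero => simp
  | succ b ih =>
    have h2 : 2 * (b + 1) = 2 * b + 1 + 1 := by ring
    rw [Finset.prod_range_succ, Finset.prod_range_succ, h2, Finset.prod_range_succ, Finset.prod_range_succ, ← ih]
    push_cast
    ring

private theorem big63 (x : ℕ) (hx : 5 ≤ x) : 5 * x + 5 < 2 ^ (2 * x) := by
  induction x, hx using Nat.le_induction with
  | base => norm_num
  | succ x hx ih =>
    have h : 2 ^ (2 * (x + 1)) = 4 * 2 ^ (2 * x) := by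
      rw [mul_add, pow_add]
      ring
    rw [h]
    omega

theorem Eo_pat0 (I r a b : ℕ) (hI : 3 ≤ I) (hr : 2 ≤ r) (hrI : r ≤ I) (ha : 1 ≤ a) (hb : 1 ≤ b) (hab : a + b = Ms r) :
    Eo (nn I) (qq I) a b 0 ≠ 0 ∧ padicValRat 2 (Eo (nn I) (qq I) a b 0) = 0 := by
  obtain ⟨w, hw, hsw, -⟩ := Ms_split I r hrI
  have hR5 : 5 ≤ Ms r := by
    rw [← Ms_two]
    exact Ms_strictMono.monotone hr
  have hRM : Ms r ≤ Ms I := Ms_strictMono.monotone hrI
  have hs3 := s2_three_Ms I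
  have hs3r := s2_three_Ms r
  have hsM := s2_Ms I
  have hd1 := s2_Ms (I + 1)
  have hdodd := Ms_odd (I + 1) (by omega)
  have hvY := val_top_zero I r hrI
  have hbigR := big63 (Ms r) hR5
  have hbigM := big63 (Ms I) (by omega)
  have hD : Ms (I + 1) = Ms I + 4 ^ Ms I := rfl
  rw [four_pow] at hw hD
  have hn : nn I = 3 * Ms I + 2 + 2 ^ (2 * Ms I) := by
    unfold nn qq
    omega
  have hq : qq I = Ms I + 1 := rfl
  have hSM : ∀ w' x : ℕ, x < 2 ^ (2 * Ms I) → s2 (2 ^ (2 * Ms I) * w' + x) = s2 w' + s2 x :=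
    fun w' x h => s2_pow_mul_add _ w' x h
  have hVM : ∀ w' x : ℕ, 0 < x → x < 2 ^ (2 * Ms I) →
      padicValNat 2 (2 ^ (2 * Ms I) * w' + x) = padicValNat 2 x := fun w' x h0 h => val_add_pow _ w' x h0 h
  have hCM : ∀ x : ℕ, x < 2 ^ (2 * Ms I) → s2 (2 ^ (2 * Ms I) - 1 - x) + s2 x = 2 * Ms I :=
    fun x h => s2_compl _ x h
  have hSR : ∀ w' x : ℕ, x < 2 ^ (2 * Ms r) → s2 (2 ^ (2 * Ms r) * w' + x) = s2 w' + s2 x :=
    fun w' x h => s2_pow_mul_add _ w' x h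
  have hVR : ∀ w' x : ℕ, 0 < x → x < 2 ^ (2 * Ms r) →
      padicValNat 2 (2 ^ (2 * Ms r) * w' + x) = padicValNat 2 x := fun w' x h0 h => val_add_pow _ w' x h0 h
  have hn' : (nn I : ℚ) = 3 * (Ms I : ℚ) + 2 + ((2 ^ (2 * Ms I) : ℕ) : ℚ) := by rw [hn]; push_cast; ring
  have hq' : (qq I : ℚ) = (Ms I : ℚ) + 1 := by rw [hq]; push_cast; ring
  have hab' : (a : ℚ) + b = (Ms r : ℚ) := by exact_mod_cast hab
  generalize hPdef : (2 : ℕ) ^ (2 * Ms I) = P at *
  generalize hQdef : (2 : ℕ) ^ (2 * Ms r) = Q at *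
  generalize hMdef : Ms I = M at *
  generalize hRdef : Ms r = R at *
  generalize hDdef : Ms (I + 1) = d at *
  have hDc : (d : ℚ) = (M : ℚ) + P := by rw [hD]; push_cast; ring
  -- digit sums
  have e2 : s2 2 = 1 := by
    have := s2_two_mul 1
    rw [s2_one] at this
    simpa using this
  have e3w : s2 (3 * w) + 2 * r = 2 * I := by
    have h1 := hSR (3 * w) (3 * R) (by omega)
    have h2 : Q * (3 * w) + 3 * R = 3 * M := by rw [hw]; ring
    rw [h2] at h1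
    omega
  have e2w : s2 (2 * w) = s2 w := s2_two_mul w
  have s1 : s2 (P - 1) = 2 * M := by
    have := hCM 0 (by omega)
    rw [s2_zero] at this
    simpa using this
  have s1' : s2 (P - 1 - a) + s2 a = 2 * M := hCM a (by omega)
  have s2a : s2 (2 * P + 3 * M) = 1 + 2 * I := by
    have h1 := hSM 2 (3 * M) (by omega)
    rw [mul_comm 2 P, h1, e2, hs3]
  have s2b : s2 (2 * P + 3 * M + 1 - b) = 1 + s2 (3 * w) + s2 (2 * R + a + 1) := by
    have h1 := hSM 2 (3 * M + 1 - b) (by omega)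
    have h2 := hSR (3 * w) (2 * R + a + 1) (by omega)
    have h3 : Q * (3 * w) = 3 * (Q * w) := by ring
    have h4 : 3 * M + 1 - b = Q * (3 * w) + (2 * R + a + 1) := by omega
    have h5 : 2 * P + 3 * M + 1 - b = P * 2 + (3 * M + 1 - b) := by omega
    rw [h5, h1, e2, h4, h2]
    ring
  have v3 : padicValNat 2 (2 * P + 3 * M + 1 - 3 * b) = padicValNat 2 (3 * a + 1) := by
    have h1 := hVM 2 (3 * M + 1 - 3 * b) (by omega) (by omega)
    have h2 := hVR (3 * w) (3 * a + 1) (by omega) (by omega)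
    have h3 : Q * (3 * w) = 3 * (Q * w) := by ring
    have h4 : 3 * M + 1 - 3 * b = Q * (3 * w) + (3 * a + 1) := by omega
    have h5 : 2 * P + 3 * M + 1 - 3 * b = P * 2 + (3 * M + 1 - 3 * b) := by omega
    rw [h5, h1, h4, h2]
  have vd : padicValNat 2 d = 0 := by
    apply padicValNat.eq_zero_of_not_dvd
    obtain ⟨z, hz⟩ := hdodd
    omega
  have sd1 : s2 (d - 1) = I := by
    have := val_pred d (by omega)
    omega
  have sda : s2 (d - a) = 1 + s2 w + s2 b := by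
    have h1 := hSM 1 (M - a) (by omega)
    have h2 := hSR w b (by omega)
    have h4 : M - a = Q * w + b := by omega
    have h5 : d - a = P * 1 + (M - a) := by omega
    rw [h5, h1, s2_one, h4, h2]
    ring
  have sdb : s2 (d - b) = 1 + s2 w + s2 a := by
    have h1 := hSM 1 (M - b) (by omega)
    have h2 := hSR w a (by omega)
    have h4 : M - b = Q * w + a := by omega
    have h5 : d - b = P * 1 + (M - b) := by omega
    rw [h5, h1, s2_one, h4, h2]
    ring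
  have pda := val_pred (d - a) (by omega)
  have pdb := val_pred (d - b) (by omega)
  have pda' : d - a - 1 = d - 1 - a := by omega
  have pdb' : d - b - 1 = d - 1 - b := by omega
  rw [pda'] at pda
  rw [pdb'] at pdb
  have v7 : padicValNat 2 (M + 1 + b + 2 * a) = padicValNat 2 (2 * R + a + 1) := by
    have h2 := hVR w (2 * R + a + 1) (by omega) (by omega)
    have h4 : M + 1 + b + 2 * a = Q * w + (2 * R + a + 1) := by omega
    rw [h4, h2]
  have s8 : s2 (d + M + a) = 1 + s2 w + s2 (2 * R + a) := by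
    have h1 := hSM 1 (2 * M + a) (by omega)
    have h2 := hSR (2 * w) (2 * R + a) (by omega)
    have h3 : Q * (2 * w) = 2 * (Q * w) := by ring
    have h4 : 2 * M + a = Q * (2 * w) + (2 * R + a) := by omega
    have h5 : d + M + a = P * 1 + (2 * M + a) := by omega
    rw [h5, h1, s2_one, h4, h2, e2w]
    ring
  have s8' : s2 (d + M + a - 2 * a) = 1 + s2 w + s2 (2 * R - a) := by
    have h1 := hSM 1 (2 * M - a) (by omega)
    have h2 := hSR (2 * w) (2 * R - a) (by omega)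
    have h3 : Q * (2 * w) = 2 * (Q * w) := by ring
    have h4 : 2 * M - a = Q * (2 * w) + (2 * R - a) := by omega
    have h5 : d + M + a - 2 * a = P * 1 + (2 * M - a) := by omega
    rw [h5, h1, s2_one, h4, h2, e2w]
    ring
  have s9 : s2 (M + b) = s2 w + s2 (2 * R - a) := by
    have h2 := hSR w (2 * R - a) (by omega)
    have h4 : M + b = Q * w + (2 * R - a) := by omega
    rw [h4, h2]
  have s9' : s2 (M + b - 2 * b) = s2 w + s2 a := by
    have h2 := hSR w a (by omega)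
    have h4 : M + b - 2 * b = Q * w + a := by omega
    rw [h4, h2]
  have v10 : padicValNat 2 (M + 1 + 2 * a - b) = padicValNat 2 (3 * a + 1) := by
    have h2 := hVR w (3 * a + 1) (by omega) (by omega)
    have h4 : M + 1 + 2 * a - b = Q * w + (3 * a + 1) := by omega
    rw [h4, h2]
  have v11 := val_succ (2 * R + a)
  -- factors
  have f0 : (2 : ℚ) ^ a ≠ 0 ∧ padicValRat 2 ((2 : ℚ) ^ a) = (a : ℤ) := by
    refine ⟨by positivity, ?_⟩
    have h := padicValRat.pow (p := 2) (q := (2 : ℚ)) (k := a)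
    rw [h]
    have h2 : padicValRat 2 (2 : ℚ) = 1 := by
      have := padicValRat.self (p := 2) (by norm_num)
      simpa using this
    rw [h2, mul_one]
  have f0' : (-2 : ℚ) ^ b ≠ 0 ∧ padicValRat 2 ((-2 : ℚ) ^ b) = (b : ℤ) := by
    refine ⟨pow_ne_zero _ (by norm_num), ?_⟩
    have h := padicValRat.pow (p := 2) (q := (-2 : ℚ)) (k := b)
    rw [h]
    have h2 : padicValRat 2 (-2 : ℚ) = 1 := by
      have := padicValRat.self (p := 2) (by norm_num)
      rw [padicValRat.neg]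
      simpa using this
    rw [h2, mul_one]
  have f1 := hv_desc63 (P - 1) a (by omega) (x := ∏ t ∈ range a, ((nn I : ℚ) - 3 * (qq I : ℚ) - t)) (by
    refine Finset.prod_congr rfl fun t _ => ?_
    rw [hn', hq', Nat.cast_sub (by omega)]
    push_cast
    ring)
  have f2 := hv_desc63 (2 * P + 3 * M) (b - 1) (by omega)
    (x := ∏ t ∈ range (b - 1), (2 * (nn I : ℚ) - 3 * (qq I : ℚ) - 1 - t)) (by
    refine Finset.prod_congr rfl fun t _ => ?_
    rw [hn', hq']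
    push_cast
    ring)
  have f2' := hv_nat63 (z := 2 * P + 3 * M + 1 - 3 * b) (by omega)
    (x := 2 * (nn I : ℚ) - 3 * ((qq I + b : ℕ) : ℚ)) (by
    rw [hn', Nat.cast_add, hq', Nat.cast_sub (by omega)]
    push_cast
    ring)
  have fRY : RY (nn I) (qq I) (qq I + b) ≠ 0 ∧ padicValRat 2 (RY (nn I) (qq I) (qq I + b)) =
      (((b - 1 : ℕ) : ℤ) - s2 (2 * P + 3 * M) + s2 (2 * P + 3 * M - (b - 1))) +
        (padicValNat 2 (2 * P + 3 * M + 1 - 3 * b) : ℤ) := by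
    have h := hv_mul63 f2 f2'
    unfold RY
    rw [if_neg (by omega)]
    have h1 : qq I + b - qq I - 1 = b - 1 := by omega
    rw [h1]
    exact h
  have f3a := hv_desc63 (d - 1) a (by omega) (x := ∏ t ∈ range a, ((nn I : ℚ) - 2 * (qq I : ℚ) - 1 - t)) (by
    refine Finset.prod_congr rfl fun t _ => ?_
    rw [hn', hq', Nat.cast_sub (by omega), hDc]
    push_cast
    ring)
  have f3b := hv_desc63 (d - 1) b (by omega) (x := ∏ t ∈ range b, ((nn I : ℚ) - 2 * (qq I : ℚ) - 1 - t)) (by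
    refine Finset.prod_congr rfl fun t _ => ?_
    rw [hn', hq', Nat.cast_sub (by omega), hDc]
    push_cast
    ring)
  have fo1 := val_prod_odd (k := a) (f := fun t => 2 * (qq I : ℤ) + 1 + 2 * t)
    (fun t _ => ⟨(qq I : ℤ) + t, by ring⟩)
  have fo2 := val_prod_odd (k := b) (f := fun t => 2 * (nn I : ℤ) - 2 * (qq I : ℤ) - 1 - 2 * t)
    (fun t _ => ⟨(nn I : ℤ) - qq I - 1 - t, by ring⟩)
  push_cast at fo1 fo2
  have fKK := hv_div63 (hv_mul63 (hv_mul63 (hv_mul63 f0 f0') f1) fRY)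
    (hv_mul63 (hv_mul63 (hv_mul63 (hv_mul63 (hv_mul63 (hv_fact63 a) (hv_fact63 b)) fo1) fo2) f3a) f3b)
  have fda := hv_nat63 (z := d - a) (by omega) (x := (nn I : ℚ) - 2 * (qq I : ℚ) - a) (by
    rw [hn', hq', Nat.cast_sub (by omega), hDc]
    ring)
  have fdb := hv_nat63 (z := d - b) (by omega) (x := (nn I : ℚ) - 2 * (qq I : ℚ) - b) (by
    rw [hn', hq', Nat.cast_sub (by omega), hDc]
    ring)
  have fd := hv_nat63 (z := d) (by omega) (x := (nn I : ℚ) - 2 * (qq I : ℚ)) (by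
    rw [hn', hq', hDc]
    ring)
  have f7 := hv_nat63 (z := M + 1 + b + 2 * a) (by omega)
    (x := (qq I : ℚ) + b + 2 * a - 4 * ((0 : ℕ) : ℚ)) (by
    rw [hq']
    push_cast
    ring)
  have f8 := hv_desc63 (d + M + a) (2 * a) (by omega)
    (x := ∏ t ∈ range (2 * (a - 0)), ((nn I : ℚ) - qq I + a - 1 - 2 * ((0 : ℕ) : ℚ) - t)) (by
    rw [Nat.sub_zero]
    refine Finset.prod_congr rfl fun t _ => ?_
    rw [hn', hq']
    push_cast
    rw [hDc]
    ring)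
  have f9 := hv_desc63 (M + b) (2 * b) (by omega)
    (x := (∏ t ∈ range (b - 0), ((qq I : ℚ) + b - 2 * (((0 : ℕ) : ℚ) + 1 + t))) *
    (∏ t ∈ range (b - 0), ((qq I : ℚ) + b - 1 - 2 * t))) (by
    rw [Nat.sub_zero, Nat.cast_zero, prod_pair63]
    refine Finset.prod_congr rfl fun t _ => ?_
    rw [hq']
    push_cast
    ring)
  have fY := hv_nat63 (z := d - R) (by omega) (x := (nn I : ℚ) - 2 * (qq I : ℚ) - a - b) (by
    rw [hn', hq', Nat.cast_sub (by omega), hDc, ← hab']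
    ring)
  have f10 := hv_nat63 (z := M + 1 + 2 * a - b) (by omega)
    (x := 2 * ((qq I : ℚ) + a) - (qq I + b) - 2 * ((0 : ℕ) : ℚ)) (by
    rw [hq', Nat.cast_sub (by omega)]
    push_cast
    ring)
  have key := hv_div63 (hv_div63 (hv_mul63 (hv_mul63 (hv_mul63 (hv_div63 (hv_mul63 (hv_mul63 fKK fda) fdb) fd) f7) f8)
    f9) fY) f10
  have aux : ∀ {E : ℚ} {v : ℤ}, (E ≠ 0 ∧ padicValRat 2 E = v) → Eo (nn I) (qq I) a b 0 = E → v = 0 →
      (Eo (nn I) (qq I) a b 0 ≠ 0 ∧ padicValRat 2 (Eo (nn I) (qq I) a b 0) = 0) := by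
    intro E v h h1 h2
    rw [h1, ← h2]
    exact h
  refine aux key ?_ ?_
  · unfold Eo KK
    simp only [Nat.cast_zero, mul_zero, zero_add, Nat.sub_zero, Finset.prod_range_zero, mul_one, pow_zero,
      if_true, Finset.prod_range_one, sub_zero]
    clear aux key f0 f0' f1 f2 f2' fRY f3a f3b fo1 fo2 fKK fda fdb fd f7 f8 f9 fY f10
    generalize (∏ t ∈ range a, ((nn I : ℚ) - 3 * (qq I : ℚ) - (t : ℚ))) = p1
    generalize RY (nn I) (qq I) (qq I + b) = p2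
    generalize (∏ t ∈ range a, ((nn I : ℚ) - 2 * (qq I : ℚ) - 1 - (t : ℚ))) = p3
    generalize (∏ t ∈ range b, ((nn I : ℚ) - 2 * (qq I : ℚ) - 1 - (t : ℚ))) = p4
    generalize (∏ t ∈ range a, (2 * (qq I : ℚ) + 1 + 2 * (t : ℚ))) = p5
    generalize (∏ t ∈ range b, (2 * (nn I : ℚ) - 2 * (qq I : ℚ) - 1 - 2 * (t : ℚ))) = p6
    generalize (∏ t ∈ range (2 * a), ((nn I : ℚ) - (qq I : ℚ) + (a : ℚ) - 1 - (t : ℚ))) = p7
    generalize (∏ t ∈ range b, ((qq I : ℚ) + (b : ℚ) - 2 * (1 + (t : ℚ)))) = p8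
    generalize (∏ t ∈ range b, ((qq I : ℚ) + (b : ℚ) - 1 - 2 * (t : ℚ))) = p9
    generalize (a.factorial : ℚ) = g1
    generalize (b.factorial : ℚ) = g2
    generalize (2 : ℚ) ^ a = g3
    generalize (-2 : ℚ) ^ b = g4
    simp only [div_eq_mul_inv, mul_assoc]
  · have h12 : 2 * P + 3 * M - (b - 1) = 2 * P + 3 * M + 1 - b := by omega
    rw [h12]
    clear aux key f0 f0' f1 f2 f2' fRY f3a f3b fo1 fo2 fKK fda fdb fd f7 f8 f9 fY f10
    omega

end Pool.Agent.Helper44.BZ
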